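import Mathlib

/-!
Trees, paths and the linear order `L(T)` of the problem.
-/

namespace Pool.Agent.Lib.MP_d69888_lc

/-- The first `n` values of a binary sequence. -/
def seg (f : ℕ → Bool) (n : ℕ) : List Bool := List.ofFn fun i : Fin n => f i.val

/-- A nonempty binary tree without dead ends. -/
structure IsTree (T : Set (List Bool)) : Prop where
  closed : ∀ σ τ : List Bool, τ ∈ T → σ <+: τ → σ ∈ T
  root : [] ∈ T
  live : ∀ σ ∈ T, σ ++ [false] ∈ T ∨ σ ++ [true] ∈ T

/-- `f` is a path on `T`. -/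
def IsPath (T : Set (List Bool)) (f : ℕ → Bool) : Prop := ∀ n, seg f n ∈ T

/-- The paths on `T` through `σ`. -/
def Cone (T : Set (List Bool)) (σ : List Bool) : Set (ℕ → Bool) :=
  {f | IsPath T f ∧ seg f σ.length = σ}

/-- The set `S(T)`: nodes whose set of paths is perfect or a singleton. -/
def InS (T : Set (List Bool)) (σ : List Bool) : Prop :=
  σ ∈ T ∧ (Perfect (Cone T σ) ∨ ∃ g, Cone T σ = {g})

/-- The set `M(T)` of minimal elements of `S(T)`. -/
def InM (T : Set (List Bool)) (σ : List Bool) : Prop :=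
  InS T σ ∧ ∀ τ : List Bool, τ <+: σ → τ ≠ σ → ¬ InS T τ

/-- The points of `L(T)`: one point for a singleton node of `M(T)`, a copy of `ℚ` for a perfect one. -/
def LPt (T : Set (List Bool)) : Type :=
  {p : List Bool × ℚ // InM T p.1 ∧ (Perfect (Cone T p.1) ∨ p.2 = 0)}

/-- The strict order of `L(T)`. -/
def LLt {T : Set (List Bool)} (a b : LPt T) : Prop :=
  (a.1.1 ≠ b.1.1 ∧ List.Lex (· < ·) a.1.1 b.1.1) ∨ (a.1.1 = b.1.1 ∧ a.1.2 < b.1.2)

/-- The relation `R` on the set `D` of numbers is isomorphic to `L(T)`. -/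
def Presents (T : Set (List Bool)) (D : ℕ → Prop) (R : ℕ → ℕ → Prop) : Prop :=
  ∃ e : {n : ℕ // D n} ≃ LPt T, ∀ a b : {n : ℕ // D n}, R a.1 b.1 ↔ LLt (e a) (e b)

/-- A binary sequence that is the pointwise limit of a computable approximation. -/
def LimitComputable (f : ℕ → Bool) : Prop :=
  ∃ G : ℕ → ℕ → Bool, Computable₂ G ∧ ∀ n, ∃ s₀, ∀ s, s₀ ≤ s → G n s = f n

/-- A total function that is an iterated limit of a computable function. -/
def DoubleLimit (F : ℕ → ℕ) : Prop :=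
  ∃ (G : ℕ × ℕ × ℕ → ℕ) (H : ℕ → ℕ → ℕ), Computable G ∧
    (∀ c s, ∃ t₀, ∀ t, t₀ ≤ t → G (c, s, t) = H c s) ∧ ∀ c, ∃ s₀, ∀ s, s₀ ≤ s → H c s = F c

/-- The program with number `c` decides the predicate `P`, with outputs 1 and 0. -/
def Decides {α : Type} [Encodable α] (c : ℕ) (P : α → Prop) : Prop :=
  ∀ a : α, (P a → 1 ∈ (Denumerable.ofNat Nat.Partrec.Code c).eval (Encodable.encode a)) ∧
    (¬ P a → 0 ∈ (Denumerable.ofNat Nat.Partrec.Code c).eval (Encodable.encode a))

end Pool.Agent.Lib.MP_d69888_lc
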