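import Pool.Agent.Shared.Type2.Normal
import Pool.Agent.Lib.MP_d69888_lc.Stmt

/-!
Definitions used in the proofs: insertion orders, one-gap orders, the global order, the
construction, leaves.
-/

namespace Pool.Agent.Lib.MP_d69888_lc

open Pool.Agent.Shared.Type2

/-! ### Insertion orders.
There are `c` initial points `0, ..., c-1`; at stage `s` the point `c+s` is inserted so that
exactly `p s` of the `c+s` old points lie to its left. -/

/-- New position of the point at position `π` after an insertion at `a`. -/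
def up (a π : ℕ) : ℕ := if a ≤ π then π + 1 else π

/-- Position (number of points to the left) of the point `b` at time `s`; meaningful if `b < c+s`. -/
def pos (c : ℕ) (p : B) (b s : ℕ) : ℕ :=
  nrec s b fun i y => if b = c + i then ap p i else up (ap p i) y

def Ok (c : ℕ) (p : B) : Prop := ∀ s, p s ≤ c + s
/-- Finitely many points to the left of `b`. -/
def LB (c : ℕ) (p : B) (b : ℕ) : Prop := ∃ K, ∀ s, b < c + s → pos c p b s ≤ K
/-- Finitely many points to the right of `b`. -/
def RB (c : ℕ) (p : B) (b : ℕ) : Prop := ∃ K, ∀ s, b < c + s → c + s ≤ pos c p b s + K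
/-- The gap number `i` from the left is final. -/
def EvL (p : B) (i : ℕ) : Prop := ∃ s₀, ∀ s, s₀ ≤ s → i < p s
/-- The gap number `j` from the right is final. -/
def EvR (c : ℕ) (p : B) (j : ℕ) : Prop := ∃ s₀, ∀ s, s₀ ≤ s → p s + j < c + s
/-- At most one point has infinitely many points on both sides. -/
def OG (c : ℕ) (p : B) : Prop :=
  ∀ x y, ¬ LB c p x → ¬ RB c p x → ¬ LB c p y → ¬ RB c p y → x = y
/-- Four initial insertions in front of `p`. -/
def shift (p : B) : B := lam fun s => if s < 4 then s else ap p (s - 4)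

/-! ### One-gap orders, inside `ℕ ⊕ ℕ` ordered as `ω + ω*`. -/

def glt : ℕ ⊕ ℕ → ℕ ⊕ ℕ → Prop
  | .inl i, .inl i' => i < i'
  | .inl _, .inr _ => True
  | .inr _, .inl _ => False
  | .inr j, .inr j' => j' < j

def gval (A C : ℕ → Prop) : ℕ ⊕ ℕ → Prop
  | .inl i => A i
  | .inr j => C j

/-- Two initial segments of `ℕ`, at least one of them everything. -/
structure Seg (A C : ℕ → Prop) : Prop where
  dA : ∀ i j, i ≤ j → A j → A i
  dC : ∀ i j, i ≤ j → C j → C i
  inf : (∀ i, A i) ∨ (∀ j, C j)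

/-! ### The global order: the sum over `e` of `ℚ + (e+2) + ℚ + (region e)`. -/

inductive Pt (A C : ℕ → ℕ → Prop) : Type
  | q1 (e : ℕ) (x : ℚ)
  | sep (e j : ℕ) (h : j < e + 2)
  | q2 (e : ℕ) (x : ℚ)
  | lf (e i : ℕ) (h : A e i)
  | rt (e j : ℕ) (h : C e j)

namespace Pt

variable {A C : ℕ → ℕ → Prop}

def reg : Pt A C → ℕ
  | q1 e _ => e
  | sep e _ _ => e
  | q2 e _ => e
  | lf e _ _ => e
  | rt e _ _ => e

def part : Pt A C → ℕ
  | q1 _ _ => 0
  | sep _ _ _ => 1
  | q2 _ _ => 2
  | lf _ _ _ => 3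
  | rt _ _ _ => 4

def val : Pt A C → ℚ
  | q1 _ x => x
  | sep _ j _ => j
  | q2 _ x => x
  | lf _ i _ => i
  | rt _ j _ => -j

def key (a : Pt A C) : ℕ ×ₗ ℕ ×ₗ ℚ := toLex (a.reg, toLex (a.part, a.val))

theorem key_inj : Function.Injective (key : Pt A C → _) := by
  intro a b h
  have h1 : a.reg = b.reg := congrArg (fun x => (ofLex x).1) h
  have h2 : a.part = b.part := congrArg (fun x => (ofLex (ofLex x).2).1) h
  have h3 : a.val = b.val := congrArg (fun x => (ofLex (ofLex x).2).2) h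
  cases a <;> cases b <;> simp_all [reg, part, val]

noncomputable instance : LinearOrder (Pt A C) := LinearOrder.lift' key key_inj

theorem lt_iff (a b : Pt A C) : a < b ↔ a.reg < b.reg ∨ a.reg = b.reg ∧
    (a.part < b.part ∨ a.part = b.part ∧ a.val < b.val) := by
  change key a < key b ↔ _
  simp [key, Prod.Lex.lt_iff]

end Pt

/-- `a < b` and the closed interval between them is densely ordered. -/
def Den {α : Type} [LinearOrder α] (a b : α) : Prop :=
  a < b ∧ ∀ a' b', a ≤ a' → a' < b' → b' ≤ b → ∃ c, a' < c ∧ c < b'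

/-- The configuration locating region `e` between `z` and `w`. -/
structure Anch {α : Type} [LinearOrder α] (e : ℕ) (u z z' w' w v : α) (xs ys : ℕ → α) : Prop where
  h1 : Den u (xs 0)
  h2 : ∀ j, j < e + 1 → xs j ⋖ xs (j + 1)
  h3 : Den (xs (e + 1)) z
  h4 : z ⋖ z'
  h5 : w' ⋖ w
  h6 : Den w (ys 0)
  h7 : ∀ j, j < e + 2 → ys j ⋖ ys (j + 1)
  h8 : Den (ys (e + 2)) v

/-! ### The construction.  The input `o` codes the firing predicate and the two counts. -/

def fire (o : B) (i s : ℕ) : Bool := decide (ap o (Nat.pair 0 (Nat.pair i s)) = 1)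
def cl (o : B) (i b s : ℕ) : ℕ := ap o (Nat.pair 1 (Nat.pair i (Nat.pair b s)))
def cr (o : B) (i b s : ℕ) : ℕ := ap o (Nat.pair 2 (Nat.pair i (Nat.pair b s)))

def InfFire (o : B) (i : ℕ) : Prop := ∀ s₀, ∃ s, s₀ ≤ s ∧ fire o i s = true

/-- What the counts of level `i` satisfy when they come from a copy of the region. -/
structure Hyp (o q : B) (i : ℕ) : Prop where
  monoL : ∀ b s, cl o i b s ≤ cl o i b (s + 1)
  monoR : ∀ b s, cr o i b s ≤ cr o i b (s + 1)
  wit : ∀ n m, ∃ b s, n ≤ cl o i b s ∧ m ≤ cr o i b s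
  dich : ∀ b, (∃ s, 0 < cl o i b s) → (∃ s, 0 < cr o i b s) →
    (∃ l, EvL q l ∧ (∀ s, cl o i b s ≤ l) ∧ ∀ K, ∃ s, K ≤ cr o i b s) ∨
    (∃ r, EvR 4 q r ∧ (∀ s, cr o i b s ≤ r) ∧ ∀ K, ∃ s, K ≤ cl o i b s)

/-- Number of `a < s` with `φ a`. -/
def cnt (φ : ℕ → Bool) (s : ℕ) : ℕ := nrec s 0 fun a k => cond (φ a) (k + 1) k

/-- The counter that waits for `φ 0`, `φ 1`, ... in turn. -/
def ctr (φ : ℕ → ℕ → Bool) (s : ℕ) : ℕ := nrec s 0 fun t k => cond (φ k t) (k + 1) k

/-- The input with given firing predicate and counts. -/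
def mkInp (f : ℕ → ℕ → Bool) (l r : ℕ → ℕ → ℕ → ℕ) : B := lam fun n =>
  if n.unpair.1 = 0 then (f n.unpair.2.unpair.1 n.unpair.2.unpair.2).toNat
  else if n.unpair.1 = 1 then
    l n.unpair.2.unpair.1 n.unpair.2.unpair.2.unpair.1 n.unpair.2.unpair.2.unpair.2
  else r n.unpair.2.unpair.1 n.unpair.2.unpair.2.unpair.1 n.unpair.2.unpair.2.unpair.2

/-- `s` steps of program number `c` on input `n`. -/
def evs (c n s : ℕ) : Option ℕ :=
  Nat.Partrec.Code.evaln s (Denumerable.ofNat Nat.Partrec.Code c) n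

/-! ### The tree whose leaves are the gaps of the insertion order with `c = 0`. -/

def splitAt (a : ℕ) (l : List (List Bool)) : List (List Bool) :=
  (l.take (a + 1)).map (fun σ => σ ++ [false]) ++
    ((l.getD a [] ++ [true]) :: (l.drop (a + 1)).map fun σ => σ ++ [false])

/-- The nodes of length `s`, from left to right. -/
def Lf (p : B) (s : ℕ) : List (List Bool) := nrec s [[]] fun i l => splitAt (ap p i) l

def memRT (p : B) (σ : List Bool) : Bool := (Lf p σ.length).any fun τ => τ == σ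

def RT (p : B) : Set (List Bool) := {σ | memRT p σ = true}

end Pool.Agent.Lib.MP_d69888_lc
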