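import Pool.Agent.Lib.MP_d69888_lc.Comb
import Pool.Agent.Lib.MP_d69888_lc.Defs

/-!
Gluing the region trees, with separators, into one tree.
-/

namespace Pool.Agent.Lib.MP_d69888_lc

open Pool.Agent.Shared.Type2

/-- Number of the first tooth of block `e`. -/
def base : ℕ → ℕ
  | 0 => 0
  | e + 1 => base e + e + 5

/-- Block and place of tooth `n`. -/
def tooth (n : ℕ) : ℕ × ℕ :=
  nrec n (0, 0) fun _ y => if y.2 < y.1 + 4 then (y.1, y.2 + 1) else (y.1 + 1, 0)

theorem tooth_succ (n : ℕ) : tooth (n + 1) =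
    if (tooth n).2 < (tooth n).1 + 4 then ((tooth n).1, (tooth n).2 + 1) else ((tooth n).1 + 1, 0) := rfl

theorem tooth_step {e : ℕ} (h : tooth (base e) = (e, 0)) (k : ℕ) (hk : k ≤ e + 4) :
    tooth (base e + k) = (e, k) := by
  induction k with
  | zero => exact h
  | succ k ih =>
    rw [← Nat.add_assoc, tooth_succ, ih (by omega)]
    simp [show k < e + 4 by omega]

theorem tooth_base (e k : ℕ) (hk : k ≤ e + 4) : tooth (base e + k) = (e, k) := by
  refine tooth_step ?_ k hk
  clear hk
  induction e with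
  | zero => rfl
  | succ e ih =>
    have : base (e + 1) = base e + (e + 4) + 1 := by simp only [base]; omega
    rw [this, tooth_succ, tooth_step ih _ le_rfl]
    simp

theorem base_surj (n : ℕ) : ∃ e k, k ≤ e + 4 ∧ n = base e + k := by
  induction n with
  | zero => exact ⟨0, 0, by omega, rfl⟩
  | succ n ih =>
    obtain ⟨e, k, hk, rfl⟩ := ih
    by_cases h : k < e + 4
    · exact ⟨e, k + 1, h, rfl⟩
    · exact ⟨e + 1, 0, by omega, by simp only [base]; omega⟩

theorem base_lt {e e' : ℕ} (h : e < e') : base e + e + 5 ≤ base e' := by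
  induction e', h using Nat.le_induction with
  | base => exact le_rfl
  | succ n hn ih => simp only [base]; omega

theorem le_base (e : ℕ) : e ≤ base e := by
  cases e with
  | zero => exact le_rfl
  | succ e => simp only [base]; omega

/-- The strings of zeros. -/
def Zs : Set (List Bool) := {σ | σ.all (fun b => !b) = true}

theorem univ_tree : IsTree (Set.univ : Set (List Bool)) :=
  ⟨fun _ _ _ _ => trivial, trivial, fun _ _ => Or.inl trivial⟩

theorem univ_perfect (σ : List Bool) : Perfect (Cone Set.univ σ) := by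
  rw [perfect_iff]
  intro f hf t
  refine ⟨fun i => if i = σ.length + t then !f i else f i, ⟨fun _ => trivial, ?_⟩, ?_, ?_⟩
  · refine Eq.trans (seg_eq_iff.2 fun i hi => ?_) hf.2
    simp [show i ≠ σ.length + t by omega]
  · exact seg_eq_iff.2 fun i hi => by simp [show i ≠ σ.length + t by omega]
  · intro h
    have := congrFun h (σ.length + t)
    simp at this

theorem Zs_tree : IsTree Zs := by
  refine ⟨fun σ τ hτ h => ?_, rfl, fun σ hσ => Or.inl ?_⟩
  · simp only [Zs, Set.mem_ofPred_eq, List.all_eq_true] at hτ ⊢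
    exact fun b hb => hτ b (h.subset hb)
  · simp only [Zs, Set.mem_ofPred_eq, List.all_append] at hσ ⊢
    rw [hσ]; rfl

theorem Zs_path {f : ℕ → Bool} : IsPath Zs f ↔ f = fun _ => false := by
  constructor
  · intro h
    funext n
    have := h (n + 1)
    rw [seg_succ] at this
    simp only [Zs, Set.mem_ofPred_eq, List.all_append, Bool.and_eq_true] at this
    simpa using this.2
  · rintro rfl n
    simp [Zs, seg]

theorem Zs_cone : Cone Zs [] = {fun _ => false} := by
  ext f
  simp only [Cone, Set.mem_ofPred_eq, Zs_path, Set.mem_singleton_iff]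
  exact ⟨fun h => h.1, fun h => ⟨h, rfl⟩⟩

theorem Zs_not_perfect : ¬ Perfect (Cone Zs []) := by
  rw [perfect_iff, Zs_cone]
  intro h
  obtain ⟨f, h1, -, h2⟩ := h _ rfl 0
  exact h2 h1

theorem inM_root {W : Set (List Bool)} (h : InS W []) (σ : List Bool) : InM W σ ↔ σ = [] := by
  constructor
  · rintro ⟨-, h2⟩
    by_contra h3
    exact h2 [] List.nil_prefix (fun h4 => h3 h4.symm) h
  · rintro rfl
    exact ⟨h, fun τ h1 h2 => absurd (List.prefix_nil.1 h1) h2⟩

/-- The tree at place `k` of block `e`. -/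
def cmp (U : ℕ → Set (List Bool)) (y : ℕ × ℕ) : Set (List Bool) :=
  if y.2 = y.1 + 4 then U y.1 else if y.2 = 0 ∨ y.2 = y.1 + 3 then Set.univ else Zs

theorem cmp_U (U : ℕ → Set (List Bool)) (e : ℕ) : cmp U (tooth (base e + (e + 4))) = U e := by
  rw [tooth_base _ _ le_rfl]; simp [cmp]

theorem cmp_q1 (U : ℕ → Set (List Bool)) (e : ℕ) : cmp U (tooth (base e + 0)) = Set.univ := by
  rw [tooth_base _ _ (by omega)]; simp [cmp]

theorem cmp_q2 (U : ℕ → Set (List Bool)) (e : ℕ) : cmp U (tooth (base e + (e + 3))) = Set.univ := by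
  rw [tooth_base _ _ (by omega)]; simp [cmp]

theorem cmp_sep (U : ℕ → Set (List Bool)) {e j : ℕ} (h : j < e + 2) :
    cmp U (tooth (base e + (j + 1))) = Zs := by
  rw [tooth_base _ _ (by omega)]
  have h1 : j + 1 ≠ e + 4 := by omega
  have h2 : j + 1 ≠ e + 3 := by omega
  simp only [cmp, h1, h2, if_false]
  simp

theorem cmp_cases (U : ℕ → Set (List Bool)) (y : ℕ × ℕ) :
    cmp U y = U y.1 ∨ cmp U y = Set.univ ∨ cmp U y = Zs := by
  unfold cmp
  split_ifs <;> simp

theorem comb_comp {U : ℕ → Set (List Bool)}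
    (hc : ComputablePred fun x : ℕ × List Bool => x.2 ∈ U x.1) :
    ComputablePred (· ∈ Comb fun n => cmp U (tooth n)) := by
  obtain ⟨u, hu, hu'⟩ := ComputablePred.computable_iff.1 hc
  have hu1 : ∀ e σ, σ ∈ U e ↔ u (e, σ) = true := fun e σ => by
    have := congrFun hu' (e, σ)
    simp only at this
    rw [this]
  have tu : TD u := TD.of_computable hu
  obtain ⟨ld, tl, hl⟩ : ∃ ld : List Bool → ℕ, TD ld ∧ ∀ σ, ld σ = lead σ :=
    ⟨lead, by unfold lead; fun_prop, fun _ => rfl⟩
  obtain ⟨s, ts, hs⟩ : ∃ s : ℕ → ℕ × ℕ, TD s ∧ ∀ n, s n = tooth n :=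
    ⟨tooth, by unfold tooth; fun_prop, fun _ => rfl⟩
  have key : TD fun σ : List Bool =>
      if (s (ld σ)).2 = (s (ld σ)).1 + 4 then u ((s (ld σ)).1, σ.drop (ld σ + 1))
      else (decide ((s (ld σ)).2 = 0) || decide ((s (ld σ)).2 = (s (ld σ)).1 + 3) ||
        (σ.drop (ld σ + 1)).all fun b => !b) := by fun_prop
  refine ComputablePred.computable_iff.2 ⟨_, key.computable, funext fun σ => propext ?_⟩
  simp only [hl, hs]
  change σ.drop (lead σ + 1) ∈ cmp U (tooth (lead σ)) ↔ _
  unfold cmp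
  split_ifs with h1 h2
  · exact hu1 _ _
  · simp only [Set.mem_univ, Bool.or_eq_true, decide_eq_true_eq, true_iff]
    exact Or.inl h2
  · simp only [Bool.or_eq_true, decide_eq_true_eq, h2, false_or]
    rfl

theorem LLt_asymm {T : Set (List Bool)} {a b : LPt T} (h : LLt a b) : ¬ LLt b a := by
  intro h'
  rcases h with ⟨h1, h2⟩ | ⟨h1, h2⟩ <;> rcases h' with ⟨h3, h4⟩ | ⟨h3, h4⟩
  · exact lex_asymm h2 h4
  · exact h1 h3.symm
  · exact h3 h1.symm
  · exact lt_asymm h2 h4

namespace Pt

variable {A C : ℕ → ℕ → Prop}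

/-- The place of a point in its block. -/
def plc : Pt A C → ℕ
  | q1 _ _ => 0
  | sep _ j _ => j + 1
  | q2 e _ => e + 3
  | lf e _ _ => e + 4
  | rt e _ _ => e + 4

def tl (ν : ℕ → ℕ ⊕ ℕ → List Bool) : Pt A C → List Bool
  | q1 _ _ => []
  | sep _ _ _ => []
  | q2 _ _ => []
  | lf e i _ => ν e (.inl i)
  | rt e j _ => ν e (.inr j)

def rat : Pt A C → ℚ
  | q1 _ x => x
  | sep _ _ _ => 0
  | q2 _ x => x
  | lf _ _ _ => 0
  | rt _ _ _ => 0

theorem plc_le (a : Pt A C) : a.plc ≤ a.reg + 4 := by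
  cases a <;> simp only [plc, reg] <;> omega

end Pt

/-- Gluing region trees `U e` into one tree. -/
theorem big_tree (U : ℕ → Set (List Bool)) (A C : ℕ → ℕ → Prop)
    (hU : ∀ e, IsTree (U e)) (hc : ComputablePred fun x : ℕ × List Bool => x.2 ∈ U x.1)
    (hnp : ∀ e σ, σ ∈ U e → ¬ Perfect (Cone (U e) σ))
    (hν : ∀ e, ∃ ν : ℕ ⊕ ℕ → List Bool,
      (∀ σ, InM (U e) σ ↔ ∃ x, gval (A e) (C e) x ∧ ν x = σ) ∧
      ∀ x y, gval (A e) (C e) x → gval (A e) (C e) y →
        (glt x y ↔ ν x ≠ ν y ∧ List.Lex (· < ·) (ν x) (ν y)))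
    (hl : ∀ e f, IsPath (U e) f → LimitComputable f)
    (hr : ∀ e f, IsPath (U e) f →
      ∃ n, ∀ g ∈ Cone (U e) (seg f n), g ≠ f → ∃ m, Cone (U e) (seg g m) = {g}) :
    ∃ T : Set (List Bool), IsTree T ∧ ComputablePred (· ∈ T) ∧
      (∀ f, IsPath T f → ¬ Computable f → (∃ n, Perfect (Cone T (seg f n))) ∨
        (LimitComputable f ∧
          ∃ n, ∀ g ∈ Cone T (seg f n), g ≠ f → ∃ m, Cone T (seg g m) = {g})) ∧
      ∃ Φ : Pt A C ≃ LPt T, ∀ a b, a < b ↔ LLt (Φ a) (Φ b) := by
  choose ν hν1 hν2 using hν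
  have hV : ∀ n, IsTree (cmp U (tooth n)) := fun n => by
    rcases cmp_cases U (tooth n) with h | h | h <;> rw [h]
    exacts [hU _, univ_tree, Zs_tree]
  have hiso : ∀ n, ∃ m g, n ≤ m ∧ Cone (cmp U (tooth m)) [] = {g} := fun n =>
    ⟨base n + (0 + 1), _, by have := le_base n; omega, by
      rw [cmp_sep U (show 0 < n + 2 by omega)]; exact Zs_cone⟩
  have hSu : InS Set.univ [] := ⟨trivial, Or.inl (univ_perfect _)⟩
  have hSz : InS Zs [] := ⟨rfl, Or.inr ⟨_, Zs_cone⟩⟩
  have hM := inM_comb hV hiso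
  have hP := perfect_nd hV
  refine ⟨Comb fun n => cmp U (tooth n), comb_tree hV, comb_comp hc, fun f hf hn => ?_, ?_⟩
  · rcases path_split f with rfl | ⟨n, g, rfl⟩
    · exact absurd (Computable.const _) hn
    · have hg := (gr_path hV).1 hf
      rcases cmp_cases U (tooth n) with h | h | h
      · right
        rw [h] at hg
        refine ⟨lim_gr (hl _ _ hg), ?_⟩
        obtain ⟨t, ht⟩ := hr _ _ hg
        refine ⟨n + 1 + t, fun f' h1 h2 => ?_⟩
        rw [seg_gr] at h1
        obtain ⟨g', rfl⟩ := cone_gr h1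
        have h3 := (gr_cone hV).1 h1
        rw [h] at h3
        obtain ⟨m, hm⟩ := ht g' h3 fun e => h2 (by rw [e])
        refine ⟨n + 1 + m, ?_⟩
        rw [seg_gr, cone_eq hV, h, hm, Set.image_singleton]
      · refine Or.inl ⟨n + 1 + 0, ?_⟩
        rw [seg_gr, hP, h]
        exact univ_perfect _
      · rw [h, Zs_path] at hg
        subst hg
        refine absurd (comp_of_ev (Computable.const false) (t := n + 1) fun s hs => ?_) hn
        have h1 : ¬ s < n := by omega
        simp [gr, h1]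
  · have hmem : ∀ a : Pt A C, InM (Comb fun n => cmp U (tooth n)) (nd (base a.reg + a.plc) (a.tl ν)) ∧
        (Perfect (Cone (Comb fun n => cmp U (tooth n)) (nd (base a.reg + a.plc) (a.tl ν))) ∨
          a.rat = 0) := by
      intro a
      rw [hM, hP]
      cases a with
      | q1 e x =>
        simp only [Pt.reg, Pt.plc, Pt.tl]
        exact ⟨⟨_, _, rfl, by rw [cmp_q1]; exact (inM_root hSu _).2 rfl⟩,
          Or.inl (by rw [cmp_q1]; exact univ_perfect _)⟩
      | sep e j h =>
        simp only [Pt.reg, Pt.plc, Pt.tl]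
        exact ⟨⟨_, _, rfl, by rw [cmp_sep U h]; exact (inM_root hSz _).2 rfl⟩, Or.inr rfl⟩
      | q2 e x =>
        simp only [Pt.reg, Pt.plc, Pt.tl]
        exact ⟨⟨_, _, rfl, by rw [cmp_q2]; exact (inM_root hSu _).2 rfl⟩,
          Or.inl (by rw [cmp_q2]; exact univ_perfect _)⟩
      | lf e i h =>
        simp only [Pt.reg, Pt.plc, Pt.tl]
        exact ⟨⟨_, _, rfl, by rw [cmp_U]; exact (hν1 e _).2 ⟨.inl i, h, rfl⟩⟩, Or.inr rfl⟩
      | rt e j h =>
        simp only [Pt.reg, Pt.plc, Pt.tl]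
        exact ⟨⟨_, _, rfl, by rw [cmp_U]; exact (hν1 e _).2 ⟨.inr j, h, rfl⟩⟩, Or.inr rfl⟩
    let φ : Pt A C → LPt (Comb fun n => cmp U (tooth n)) := fun a =>
      ⟨(nd (base a.reg + a.plc) (a.tl ν), a.rat), hmem a⟩
    have hidx : ∀ a b : Pt A C, base a.reg + a.plc < base b.reg + b.plc → LLt (φ a) (φ b) :=
      fun a b h => Or.inl ⟨lex_ne (lex_nd_lt h _ _), lex_nd_lt h _ _⟩
    have hreg : ∀ e x y, gval (A e) (C e) x → gval (A e) (C e) y → glt x y →
        nd (base e + (e + 4)) (ν e x) ≠ nd (base e + (e + 4)) (ν e y) ∧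
        List.Lex (· < ·) (nd (base e + (e + 4)) (ν e x)) (nd (base e + (e + 4)) (ν e y)) :=
      fun e x y hx hy h =>
        have h1 := lex_nd (n := base e + (e + 4)) ((hν2 e x y hx hy).1 h).2
        ⟨lex_ne h1, h1⟩
    have hmono : ∀ a b : Pt A C, a < b → LLt (φ a) (φ b) := by
      intro a b h0
      have h := (Pt.lt_iff a b).1 h0
      clear h0
      rcases h with h | ⟨h1, h⟩
      · refine hidx a b ?_
        have := base_lt h
        have := a.plc_le
        omega
      · cases a <;> cases b <;> simp only [Pt.reg, Pt.part, Pt.val] at h1 h <;> subst h1 <;>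
          first
          | (refine hidx _ _ ?_; simp only [Pt.reg, Pt.plc]; omega)
          | (exfalso; omega)
          | skip
        · exact Or.inr ⟨rfl, by simpa [φ, Pt.rat] using h⟩
        · refine hidx _ _ ?_
          simp only [Pt.reg, Pt.plc]
          simpa using h
        · exact Or.inr ⟨rfl, by simpa [φ, Pt.rat] using h⟩
        · exact Or.inl (hreg _ (.inl _) (.inl _) ‹_› ‹_› (by simpa [glt] using h))
        · exact Or.inl (hreg _ (.inl _) (.inr _) ‹_› ‹_› trivial)
        · exact Or.inl (hreg _ (.inr _) (.inr _) ‹_› ‹_› (by simpa [glt] using h))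
    have hiff : ∀ a b : Pt A C, a < b ↔ LLt (φ a) (φ b) := fun a b =>
      ⟨hmono a b, fun h => by
        rcases lt_trichotomy a b with h1 | rfl | h1
        · exact h1
        · exact absurd h (LLt_asymm h)
        · exact absurd (hmono _ _ h1) (LLt_asymm h)⟩
    have hinj : Function.Injective φ := fun a b h => by
      rcases lt_trichotomy a b with h1 | h1 | h1
      · have := hmono _ _ h1
        rw [h] at this
        exact absurd this (LLt_asymm this)
      · exact h1
      · have := hmono _ _ h1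
        rw [h] at this
        exact absurd this (LLt_asymm this)
    have hsurj : Function.Surjective φ := by
      rintro ⟨⟨σ, x⟩, h1, h2⟩
      obtain ⟨n, τ, rfl, h3⟩ := (hM σ).1 h1
      simp only [hP] at h2
      obtain ⟨e, k, hk, rfl⟩ := base_surj n
      by_cases k4 : k = e + 4
      · subst k4
        rw [cmp_U] at h2 h3
        have hx : x = 0 := h2.resolve_left (hnp e τ h3.1.1)
        subst hx
        obtain ⟨y, hy, rfl⟩ := (hν1 e τ).1 h3
        cases y with
        | inl i => exact ⟨.lf e i hy, rfl⟩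
        | inr j => exact ⟨.rt e j hy, rfl⟩
      · by_cases k0 : k = 0
        · subst k0
          rw [cmp_q1, inM_root hSu] at h3
          subst h3
          exact ⟨.q1 e x, rfl⟩
        · by_cases k3 : k = e + 3
          · subst k3
            rw [cmp_q2, inM_root hSu] at h3
            subst h3
            exact ⟨.q2 e x, rfl⟩
          · obtain ⟨j, rfl⟩ : ∃ j, k = j + 1 := ⟨k - 1, by omega⟩
            have hj : j < e + 2 := by omega
            rw [cmp_sep U hj] at h2 h3
            rw [inM_root hSz] at h3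
            subst h3
            have hx : x = 0 := h2.resolve_left Zs_not_perfect
            subst hx
            exact ⟨.sep e j hj, rfl⟩
    exact ⟨Equiv.ofBijective φ ⟨hinj, hsurj⟩, hiff⟩

end Pool.Agent.Lib.MP_d69888_lc
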