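import Pool.Agent.Lib.MP_d69888_lc.BuildB

/-!
The properties of the construction.
-/

namespace Pool.Agent.Lib.MP_d69888_lc

open Pool.Agent.Shared.Type2

variable {o : B} {i s₁ : ℕ}

theorem ev_ge {k : ℕ} (h : ∀ j, j < k → ∃ t, ∀ s, t ≤ s → Lv o s ≠ j) :
    ∃ t, ∀ s, t ≤ s → k ≤ Lv o s := by
  induction k with
  | zero => exact ⟨0, fun _ _ => Nat.zero_le _⟩
  | succ k ih =>
    obtain ⟨t, ht⟩ := ih fun j hj => h j (by omega)
    obtain ⟨t', ht'⟩ := h k (by omega)
    exact ⟨t + t', fun s hs => by have := ht s (by omega); have := ht' s (by omega); omega⟩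

theorem cases_lv (o : B) : (∃ i s₁, Run o i s₁ ∧ ∀ t, ∃ s, t ≤ s ∧ Lv o s = i) ∨
    ∀ k, ∃ t, ∀ s, t ≤ s → k ≤ Lv o s := by
  classical
  by_cases hex : ∃ i, ∀ t, ∃ s, t ≤ s ∧ Lv o s = i
  · left
    obtain ⟨t, ht⟩ := ev_ge (o := o) (k := Nat.find hex) fun j hj => by
      have := Nat.find_min hex hj
      push Not at this
      exact this
    obtain ⟨s, hs, hs'⟩ := Nat.find_spec hex t
    exact ⟨_, s, ⟨hs', fun u hu => ht u (by omega)⟩, Nat.find_spec hex⟩
  · right
    push Not at hex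
    exact fun k => ev_ge fun j _ => hex j

theorem Dec.bdd {t y : ℕ} (h : Dec o t) (hy : y < 4 + t) : LB 4 (Qf o) y ∨ RB 4 (Qf o) y := by
  rcases lt_or_ge (pos 4 (Qf o) y t) (Qf o t) with h1 | h1
  · exact Or.inl ((h y hy).1 h1)
  · exact Or.inr ((h y hy).2 h1)

theorem dec_pi (h : ∀ k, ∃ t, ∀ s, t ≤ s → k ≤ Lv o s) (y : ℕ) : ∃ t, y ≤ t ∧ Dec o t := by
  classical
  have hex : ∃ k, ∃ s, y ≤ s ∧ Lv o s = k := ⟨_, y, le_rfl, rfl⟩
  obtain ⟨s, hs, hs'⟩ := Nat.find_spec hex
  obtain ⟨t₀, ht₀⟩ := h (Nat.find hex + 1)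
  have hst : s ≤ t₀ := by
    by_contra hc
    have := ht₀ s (by omega); omega
  have h1 := Nat.findGreatest_spec (P := fun s => y ≤ s ∧ Lv o s = Nat.find hex) hst ⟨hs, hs'⟩
  set t := Nat.findGreatest (fun s => y ≤ s ∧ Lv o s = Nat.find hex) t₀ with ht
  have hr : Run o (Nat.find hex) t :=
    ⟨h1.2, fun u hu => Nat.find_min' hex ⟨u, by omega, rfl⟩⟩
  refine ⟨t, h1.1, hr.dec_left le_rfl h1.2 fun u hu hl => ?_⟩
  have hu0 : u ≤ t₀ := by
    by_contra hc
    have := ht₀ u (by omega); omega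
  have : u ≤ t := Nat.le_findGreatest hu0 ⟨by omega, hl⟩
  rw [show u = t by omega]

theorem Qf_og (o : B) : OG 4 (Qf o) := by
  have key : (∀ y, ∃ t, y ≤ t ∧ Dec o t) → OG 4 (Qf o) := fun h x _ x1 x2 _ _ => by
    obtain ⟨t, ht, hd⟩ := h x
    exact ((hd.bdd (by omega)).elim x1 x2).elim
  rcases cases_lv o with ⟨i, s₁, hr, hi⟩ | h
  · by_cases hu : Unb o i s₁
    · exact hr.og_unb hu
    · obtain ⟨t, ht⟩ := hr.dec_stuck hu
      refine key fun y => ?_
      obtain ⟨s, hs, hl⟩ := hi (t + y)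
      exact ⟨s, by omega, ht s (by omega) hl⟩
  · exact key (dec_pi h)

theorem run_of_fire (h : ∃ i, InfFire o i) :
    ∃ i s₁, Run o i s₁ ∧ (∀ t, ∃ s, t ≤ s ∧ Lv o s = i) ∧ InfFire o i := by
  rcases cases_lv o with ⟨i, s₁, hr, hi⟩ | h'
  · refine ⟨i, s₁, hr, hi, fun t => ?_⟩
    obtain ⟨s, hs, hl⟩ := hi (t + s₁ + 1)
    have := hr.ht (s := s) (by omega)
    refine ⟨s, by omega, ?_⟩
    rw [← hl] at this ⊢
    exact (lev_spec _).2.1 this
  · obtain ⟨i, hi⟩ := h
    obtain ⟨t, ht⟩ := h' (i + 1)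
    obtain ⟨s, hs, hf⟩ := hi t
    have := (lev_spec (o := o) (s := s) (Ht o s)).2.2 i (ht s hs)
    rw [hf] at this
    exact absurd this (by simp)

theorem Hyp.monoL' {q : B} (h : Hyp o q i) (b : ℕ) {s t : ℕ} (hst : s ≤ t) :
    cl o i b s ≤ cl o i b t := monotone_nat_of_le_succ (h.monoL b) hst

theorem Hyp.monoR' {q : B} (h : Hyp o q i) (b : ℕ) {s t : ℕ} (hst : s ≤ t) :
    cr o i b s ≤ cr o i b t := monotone_nat_of_le_succ (h.monoR b) hst

theorem Run.wit (h : Run o i s₁) (hi : ∀ t, ∃ s, t ≤ s ∧ Lv o s = i) (hy : Hyp o (Qf o) i) :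
    ∃ t b, s₁ < t ∧ ∀ s, t ≤ s → fw (Rd o i s) = b + 1 := by
  have h1 : ∃ t, s₁ < t ∧ fw (Rd o i t) ≠ 0 := by
    by_contra hc
    push Not at hc
    have hk : ∀ s, s₁ + 1 ≤ s → fn (Rd o i s) = fn (Rd o i (s₁ + 1)) ∧
        fm (Rd o i s) = fm (Rd o i (s₁ + 1)) := by
      intro s hs
      induction s, hs using Nat.le_induction with
      | base => exact ⟨rfl, rfl⟩
      | succ s hs ih =>
        by_cases hl : Lv o s = i
        · rw [Rd_ac hl, fn_act, fm_act]
          have := hc s (by omega)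
          rcases an_am (o := o) (i := i) (s := s) (r := Rd o i s) with a | a | a <;> omega
        · rw [h.keep (by omega) hl]; exact ih
    obtain ⟨b, t, h2, h3⟩ := hy.wit (fn (Rd o i (s₁ + 1))) (fm (Rd o i (s₁ + 1)))
    obtain ⟨s, hs, hl⟩ := hi (s₁ + 1 + b + t + 1)
    have h4 := hc (s + 1) (by omega)
    have h5 := hk s (by omega)
    rw [Rd_ac hl, fw_act] at h4
    unfold aw at h4
    rw [if_pos (hc s (by omega))] at h4
    have := hy.monoL' b (show t ≤ s by omega)
    have := hy.monoR' b (show t ≤ s by omega)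
    exact wsel_ne (b := b) (by omega) (by omega) (by omega) h4
  obtain ⟨t, ht, hw⟩ := h1
  refine ⟨t, fw (Rd o i t) - 1, ht, fun s hs => ?_⟩
  induction s, hs using Nat.le_induction with
  | base => omega
  | succ s hs ih =>
    by_cases hl : Lv o s = i
    · rw [Rd_ac hl, fw_act]; unfold aw; rw [if_neg (by omega)]; exact ih
    · rw [h.keep (by omega) hl]; exact ih

theorem diag (h0 : ∃ i, InfFire o i) (hy : ∀ i, InfFire o i → Hyp o (Qf o) i) : False := by
  obtain ⟨i, s₁, h, hi, hf⟩ := run_of_fire h0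
  replace hy := hy i hf
  obtain ⟨t, b, ht, hw⟩ := h.wit hi hy
  have wl : ∀ s, t ≤ s → ∃ u, fn (Rd o i s) ≤ cl o i b u := fun s hs => by
    have := (h.inv (s := s) (by omega)).wl (by rw [hw s hs]; omega)
    rwa [hw s hs, Nat.add_sub_cancel] at this
  have wr : ∀ s, t ≤ s → ∃ u, fm (Rd o i s) ≤ cr o i b u := fun s hs => by
    have := (h.inv (s := s) (by omega)).wr (by rw [hw s hs]; omega)
    rwa [hw s hs, Nat.add_sub_cancel] at this
  have step : ∀ s, t ≤ s → Lv o s = i →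
      (fn (Rd o i s) < cl o i b s → fn (Rd o i (s + 1)) = fn (Rd o i s) + 1) ∧
      (fm (Rd o i s) < cr o i b s → fn (Rd o i (s + 1)) = fn (Rd o i s) + 1 ∨
        fm (Rd o i (s + 1)) = fm (Rd o i s) + 1) := by
    intro s hs hl
    have h1 := an_am (o := o) (i := i) (s := s) (r := Rd o i s)
    have h2 := h.strict (s := s) (by omega)
    rw [hw s hs, Nat.add_sub_cancel] at h1
    rw [Rd_ac hl, fn_act, fm_act]
    omega
  have cn : ∀ K, (∀ s, t ≤ s → fn (Rd o i s) ≤ K) →
      ∃ t', t ≤ t' ∧ ∀ s, t' ≤ s → fn (Rd o i s) = fn (Rd o i t') := fun K hK =>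
    ev_const (f := fun s => fn (Rd o i s)) (fun s hs => (h.mono (by omega) (by omega)).1) hK
  have cm : ∀ K, (∀ s, t ≤ s → fm (Rd o i s) ≤ K) →
      ∃ t', t ≤ t' ∧ ∀ s, t' ≤ s → fm (Rd o i s) = fm (Rd o i t') := fun K hK =>
    ev_const (f := fun s => fm (Rd o i s)) (fun s hs => (h.mono (by omega) (by omega)).2) hK
  have stuck : ¬ Unb o i s₁ → ∃ t', t ≤ t' ∧ ∀ s, t' ≤ s → Lv o s = i →
      fc (Rd o i (s + 1)) = fc (Rd o i t') ∧ fa (Rd o i (s + 1)) = fa (Rd o i t') ∧
      fb (Rd o i (s + 1)) = fb (Rd o i t') ∧ ended (fn (Rd o i (s + 1))) (fm (Rd o i (s + 1)))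
        (fc (Rd o i t')) (fa (Rd o i t')) (fb (Rd o i t')) = false := by
    intro hu
    obtain ⟨t', ht', h1⟩ := h.stuck hu
    refine ⟨t + t', by omega, fun s hs hl => ?_⟩
    have a0 := h1 (t + t') (by omega)
    have a1 := h1 s (by omega)
    have a2 := h1 (s + 1) (by omega)
    refine ⟨by omega, by omega, by omega, ?_⟩
    rcases h.task (s := s) (by omega) with h2 | h2
    · have := h2.2.2.2 hl
      rwa [a1.1, a1.2.1, a1.2.2, ← a0.1, ← a0.2.1, ← a0.2.2] at this
    · omega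
  obtain ⟨u1, hu1⟩ := wl t le_rfl
  obtain ⟨u2, hu2⟩ := wr t le_rfl
  have n2 := (h.inv ht).n2
  have m2 := (h.inv ht).m2
  rcases hy.dich b ⟨u1, by omega⟩ ⟨u2, by omega⟩ with ⟨l, ⟨s₀, hl⟩, h1, h2⟩ | ⟨r, ⟨s₀, hr⟩, h1, h2⟩
  · have nb : ∀ s, t ≤ s → fn (Rd o i s) ≤ l := fun s hs => by
      obtain ⟨u, hu⟩ := wl s hs
      exact hu.trans (h1 u)
    obtain ⟨t1, ht1, c1⟩ := cn l nb
    have mu : ∀ K, ∃ s, t ≤ s ∧ K < fm (Rd o i s) := by
      intro K
      by_contra hc
      push Not at hc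
      obtain ⟨t2, ht2, c2⟩ := cm K hc
      obtain ⟨u, hu⟩ := h2 (K + 1)
      obtain ⟨s, hs, hl⟩ := hi (t1 + t2 + u)
      have := hy.monoR' b (show u ≤ s by omega)
      have := hc s (by omega)
      have := c1 s (by omega)
      have := c1 (s + 1) (by omega)
      have := c2 s (by omega)
      have := c2 (s + 1) (by omega)
      have := (step s (by omega) hl).2
      omega
    obtain ⟨t', ht', hs'⟩ := stuck fun hu => by
      obtain ⟨s, hs, hs'⟩ := h.n_unb hu (l + 1)
      have := (h.mono hs (show s ≤ s + t by omega)).1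
      have := nb (s + t) (by omega)
      omega
    obtain ⟨s', hs1, hs2⟩ := mu (fb (Rd o i t'))
    obtain ⟨s, hs, hl'⟩ := hi (t' + s' + s₀)
    obtain ⟨a1, a2, a3, a4⟩ := hs' s (by omega) hl'
    rw [← Bool.not_eq_true, ended_iff] at a4
    have := (h.mono (s := s') (t := s + 1) (by omega) (by omega)).2
    have := hl s (by omega)
    have := nb (s + 1) (by omega)
    have a5 := Qf_ac hl'
    unfold play at a5
    split_ifs at a5 <;> omega
  · have mb : ∀ s, t ≤ s → fm (Rd o i s) ≤ r := fun s hs => by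
      obtain ⟨u, hu⟩ := wr s hs
      exact hu.trans (h1 u)
    have nu : ∀ K, ∃ s, t ≤ s ∧ K < fn (Rd o i s) := by
      intro K
      by_contra hc
      push Not at hc
      obtain ⟨t2, ht2, c2⟩ := cn K hc
      obtain ⟨u, hu⟩ := h2 (K + 1)
      obtain ⟨s, hs, hl⟩ := hi (t2 + u)
      have := hy.monoL' b (show u ≤ s by omega)
      have := hc s (by omega)
      have := c2 s (by omega)
      have := c2 (s + 1) (by omega)
      have := (step s (by omega) hl).1
      omega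
    obtain ⟨t', ht', hs'⟩ := stuck fun hu => by
      obtain ⟨s, hs, hs'⟩ := h.m_unb hu (r + 1)
      have := (h.mono hs (show s ≤ s + t by omega)).2
      have := mb (s + t) (by omega)
      omega
    obtain ⟨s', hs1, hs2⟩ := nu (fa (Rd o i t'))
    obtain ⟨s, hs, hl'⟩ := hi (t' + s' + s₀)
    obtain ⟨a1, a2, a3, a4⟩ := hs' s (by omega) hl'
    rw [← Bool.not_eq_true, ended_iff] at a4
    have := (h.mono (s := s') (t := s + 1) (by omega) (by omega)).1
    have := hr s (by omega)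
    have := mb (s + 1) (by omega)
    have a5 := Qf_ac hl'
    unfold play at a5
    split_ifs at a5 <;> omega

theorem td_of_comp {X : Type} [Rep X] {o : B} (ho : Computable o) : TD fun _ : X => o :=
  TD.lam' (F := fun _ => o) ((TD.nat_nat ho).comp' (TD.snd TD.id'))

theorem side_comp (ho : Computable o) (h0 : ∃ i, InfFire o i) : ∃ D : ℕ → Bool, Computable D ∧
    ∀ y, LB 4 (Qf o) y ∨ RB 4 (Qf o) y → (D y = true ↔ LB 4 (Qf o) y) := by
  obtain ⟨i, s₁, h, hi, -⟩ := run_of_fire h0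
  have to1 : TD fun _ : ℕ => o := td_of_comp ho
  have to2 : TD fun _ : ℕ × ℕ => o := td_of_comp ho
  by_cases hu : Unb o i s₁
  · obtain ⟨x, hx⟩ : ∃ x, ∀ y, y ≠ x → LB 4 (Qf o) y ∨ RB 4 (Qf o) y := by
      by_cases hc : ∃ x, ¬ LB 4 (Qf o) x ∧ ¬ RB 4 (Qf o) x
      · obtain ⟨x, x1, x2⟩ := hc
        refine ⟨x, fun y hy => ?_⟩
        by_contra hn
        push Not at hn
        exact hy (Qf_og o y x hn.1 hn.2 x1 x2)
      · push Not at hc
        exact ⟨0, fun y _ => (em _).imp id (hc y)⟩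
    let cL : ℕ → ℕ → Bool := fun y d =>
      decide (pos 4 (Qf o) y (s₁ + y + d) < fn (Rd o i (s₁ + y + d + 1)))
    let cR : ℕ → ℕ → Bool := fun y d =>
      decide (4 + (s₁ + y + d) ≤ pos 4 (Qf o) y (s₁ + y + d) + fm (Rd o i (s₁ + y + d + 1)))
    have tL : TD fun z : ℕ × ℕ => cL z.1 z.2 := by unfold cL; fun_prop
    have tR : TD fun z : ℕ × ℕ => cR z.1 z.2 := by unfold cR; fun_prop
    have eL : ∀ y, LB 4 (Qf o) y → ∃ d, cL y d = true := by
      rintro y ⟨K, hK⟩
      obtain ⟨s, hs, hs'⟩ := h.n_unb hu (K + 1)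
      refine ⟨s, decide_eq_true ?_⟩
      have := hK (s₁ + y + s) (by omega)
      have := (h.mono (s := s) (t := s₁ + y + s + 1) hs (by omega)).1
      omega
    have eR : ∀ y, RB 4 (Qf o) y → ∃ d, cR y d = true := by
      rintro y ⟨K, hK⟩
      obtain ⟨s, hs, hs'⟩ := h.m_unb hu (K + 1)
      refine ⟨s, decide_eq_true ?_⟩
      have := hK (s₁ + y + s) (by omega)
      have := (h.mono (s := s) (t := s₁ + y + s + 1) hs (by omega)).2
      omega
    have sL : ∀ y d, cL y d = true → LB 4 (Qf o) y := fun y d hd =>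
      h.LB_out (s := s₁ + y + d) (by omega) (by omega) (of_decide_eq_true hd)
    have sR : ∀ y d, cR y d = true → RB 4 (Qf o) y := fun y d hd =>
      h.RB_out (s := s₁ + y + d) (by omega) (by omega) (of_decide_eq_true hd)
    by_cases hx' : LB 4 (Qf o) x ∨ RB 4 (Qf o) x
    · have hall : ∀ y, ∃ d, (cL y d || cR y d) = true := by
        intro y
        have : LB 4 (Qf o) y ∨ RB 4 (Qf o) y := by
          by_cases hy : y = x
          · rw [hy]; exact hx'
          · exact hx y hy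
        rcases this with h1 | h1
        · obtain ⟨d, hd⟩ := eL y h1; exact ⟨d, by simp [hd]⟩
        · obtain ⟨d, hd⟩ := eR y h1; exact ⟨d, by simp [hd]⟩
      have tf := TD.find' (c := fun y d => cL y d || cR y d) (tL.or' tR) hall
      refine ⟨fun y => cL y (Nat.find (hall y)),
        (tL.comp' (f := fun y => (y, Nat.find (hall y))) (TD.id'.pair tf)).computable,
        fun y _ => ⟨sL y _, fun h1 => ?_⟩⟩
      have := Nat.find_spec (hall y)
      rw [Bool.or_eq_true] at this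
      exact this.elim id fun h2 => (not_LB_RB h1 (sR y _ h2)).elim
    · have hall : ∀ y, ∃ d, (cL y d || cR y d || decide (y = x)) = true := by
        intro y
        by_cases hy : y = x
        · exact ⟨0, by simp [hy]⟩
        rcases hx y hy with h1 | h1
        · obtain ⟨d, hd⟩ := eL y h1; exact ⟨d, by simp [hd]⟩
        · obtain ⟨d, hd⟩ := eR y h1; exact ⟨d, by simp [hd]⟩
      have tf := TD.find' (c := fun y d => cL y d || cR y d || decide (y = x))
        ((tL.or' tR).or' (by fun_prop)) hall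
      refine ⟨fun y => cL y (Nat.find (hall y)),
        (tL.comp' (f := fun y => (y, Nat.find (hall y))) (TD.id'.pair tf)).computable,
        fun y hy => ⟨sL y _, fun h1 => ?_⟩⟩
      have := Nat.find_spec (hall y)
      rw [Bool.or_eq_true, Bool.or_eq_true] at this
      rcases this with (h2 | h2) | h2
      · exact h2
      · exact (not_LB_RB h1 (sR y _ h2)).elim
      · rw [of_decide_eq_true h2] at hy; exact absurd hy hx'
  · obtain ⟨t, ht⟩ := h.dec_stuck hu
    have hall : ∀ y, ∃ d, decide (Lv o (t + y + d) = i) = true := fun y => by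
      obtain ⟨s, hs, hl⟩ := hi (t + y)
      exact ⟨s - (t + y), decide_eq_true (by rw [show t + y + (s - (t + y)) = s by omega]; exact hl)⟩
    have tf := TD.find' (c := fun y d => decide (Lv o (t + y + d) = i)) (by fun_prop) hall
    have tq : TD fun z : ℕ × ℕ => decide (pos 4 (Qf o) z.1 (t + z.1 + z.2) <
      ap (Qf o) (t + z.1 + z.2)) := by fun_prop
    refine ⟨fun y => decide (pos 4 (Qf o) y (t + y + Nat.find (hall y)) <
      ap (Qf o) (t + y + Nat.find (hall y))),
      (tq.comp' (f := fun y => (y, Nat.find (hall y))) (TD.id'.pair tf)).computable, fun y _ => ?_⟩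
    have hd := ht (t + y + Nat.find (hall y)) (by omega)
      (of_decide_eq_true (Nat.find_spec (hall y))) y (by omega)
    rw [decide_eq_true_iff, ap_def]
    exact ⟨hd.1, fun h1 => not_le.1 fun h2 => not_LB_RB h1 (hd.2 h2)⟩

end Pool.Agent.Lib.MP_d69888_lc
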