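import Pool.Agent.Lib.MP_d69888_lc.Ins

/-!
The construction: a stack of levels; each level keeps a zone, a witness and a task.
-/

namespace Pool.Agent.Lib.MP_d69888_lc

open Pool.Agent.Shared.Type2

/-- Left bound, right bound, witness plus one, task counter, two task bounds. -/
abbrev Rc : Type := ℕ × ℕ × ℕ × ℕ × ℕ × ℕ

def fn (r : Rc) : ℕ := r.1
def fm (r : Rc) : ℕ := r.2.1
def fw (r : Rc) : ℕ := r.2.2.1
def fc (r : Rc) : ℕ := r.2.2.2.1
def fa (r : Rc) : ℕ := r.2.2.2.2.1
def fb (r : Rc) : ℕ := r.2.2.2.2.2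

def wsel (o : B) (i n m s : ℕ) : ℕ :=
  nrec s 0 fun b acc => cond (decide (n ≤ cl o i b s) && decide (m ≤ cr o i b s)) (b + 1) acc

def el (o : B) (i s : ℕ) (r : Rc) : Bool :=
  decide (fw r ≠ 0) && decide (fn r < cl o i (fw r - 1) s) && decide (fn r + fm r < 4 + s)

def er (o : B) (i s : ℕ) (r : Rc) : Bool :=
  decide (fw r ≠ 0) && !el o i s r && decide (fm r < cr o i (fw r - 1) s) &&
    decide (fn r + fm r < 4 + s)

def ended (n m k a b : ℕ) : Bool :=
  if k % 3 = 0 then decide (a ≤ n) else if k % 3 = 1 then decide (b ≤ m)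
  else decide (a ≤ n) || decide (b ≤ m)

def newT (ps : List ℕ) (len n m k : ℕ) : ℕ × ℕ :=
  if k % 3 = 0 then (n + 1, 0) else if k % 3 = 1 then (0, m + 1) else
    cond (decide (n ≤ ps.getD (k / 3).unpair.1.unpair.1 0) &&
        decide (ps.getD (k / 3).unpair.1.unpair.1 0 < ps.getD (k / 3).unpair.1.unpair.2 0) &&
        decide (ps.getD (k / 3).unpair.1.unpair.2 0 + m < len))
      (ps.getD (k / 3).unpair.1.unpair.1 0 + 1, len - ps.getD (k / 3).unpair.1.unpair.2 0) (0, 0)

def an (o : B) (i s : ℕ) (r : Rc) : ℕ := fn r + (el o i s r).toNat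
def am (o : B) (i s : ℕ) (r : Rc) : ℕ := fm r + (er o i s r).toNat
def aw (o : B) (i s : ℕ) (r : Rc) : ℕ := if fw r = 0 then wsel o i (fn r) (fm r) s else fw r

def act (o : B) (i s : ℕ) (ps : List ℕ) (r : Rc) : Rc :=
  cond (ended (an o i s r) (am o i s r) (fc r) (fa r) (fb r))
    (an o i s r, am o i s r, aw o i s r, fc r + 1,
      newT ps (4 + s) (an o i s r) (am o i s r) (fc r + 1))
    (an o i s r, am o i s r, aw o i s r, fc r, fa r, fb r)

def play (len : ℕ) (r : Rc) : ℕ :=
  if fc r % 3 = 0 then fn r else if fc r % 3 = 1 then len - fm r else max (fn r) (fa r)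

def lev (o : B) (k s : ℕ) : ℕ :=
  nrec k 0 fun j acc => if acc < j then acc else cond (fire o j s) j (j + 1)

def ini (s lq : ℕ) : Rc := (lq, 4 + s - lq, 0, 0, lq + 1, 0)

abbrev St : Type := List Rc × List ℕ × ℕ

def top (o : B) (s : ℕ) (x : St) : Rc :=
  act o (lev o x.1.length s) s x.2.1 (x.1.getD (lev o x.1.length s) (ini s x.2.2))

def step (o : B) (s : ℕ) (x : St) : St :=
  (x.1.take (lev o x.1.length s) ++ [top o s x],
    x.2.1.map (fun y => up (play (4 + s) (top o s x)) y) ++ [play (4 + s) (top o s x)],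
    play (4 + s) (top o s x))

def st (o : B) (s : ℕ) : St := nrec s ([], [0, 1, 2, 3], 2) fun t x => step o t x

def Qf (o : B) : B := lam fun s => (st o (s + 1)).2.2

/-- The level that acts at stage `s`. -/
def Lv (o : B) (s : ℕ) : ℕ := lev o (st o s).1.length s

/-- The record of level `j` at the beginning of stage `s`. -/
def Rd (o : B) (j s : ℕ) : Rc := (st o s).1.getD j (ini s (st o s).2.2)

section td

variable {X : Type} [Rep X]

@[fun_prop] theorem fn_td {r : X → Rc} (h : TD r) : TD fun x => fn (r x) := by unfold fn; fun_prop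
@[fun_prop] theorem fm_td {r : X → Rc} (h : TD r) : TD fun x => fm (r x) := by unfold fm; fun_prop
@[fun_prop] theorem fw_td {r : X → Rc} (h : TD r) : TD fun x => fw (r x) := by unfold fw; fun_prop
@[fun_prop] theorem fc_td {r : X → Rc} (h : TD r) : TD fun x => fc (r x) := by unfold fc; fun_prop
@[fun_prop] theorem fa_td {r : X → Rc} (h : TD r) : TD fun x => fa (r x) := by unfold fa; fun_prop
@[fun_prop] theorem fb_td {r : X → Rc} (h : TD r) : TD fun x => fb (r x) := by unfold fb; fun_prop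

@[fun_prop] theorem fire_td {o : X → B} {i s : X → ℕ} (ho : TD o) (hi : TD i) (hs : TD s) :
    TD fun x => fire (o x) (i x) (s x) := by unfold fire; fun_prop
@[fun_prop] theorem cl_td {o : X → B} {i b s : X → ℕ} (ho : TD o) (hi : TD i) (hb : TD b)
    (hs : TD s) : TD fun x => cl (o x) (i x) (b x) (s x) := by unfold cl; fun_prop
@[fun_prop] theorem cr_td {o : X → B} {i b s : X → ℕ} (ho : TD o) (hi : TD i) (hb : TD b)
    (hs : TD s) : TD fun x => cr (o x) (i x) (b x) (s x) := by unfold cr; fun_prop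
@[fun_prop] theorem wsel_td {o : X → B} {i n m s : X → ℕ} (ho : TD o) (hi : TD i) (hn : TD n)
    (hm : TD m) (hs : TD s) : TD fun x => wsel (o x) (i x) (n x) (m x) (s x) := by
  unfold wsel; fun_prop
@[fun_prop] theorem el_td {o : X → B} {i s : X → ℕ} {r : X → Rc} (ho : TD o) (hi : TD i)
    (hs : TD s) (hr : TD r) : TD fun x => el (o x) (i x) (s x) (r x) := by unfold el; fun_prop
@[fun_prop] theorem er_td {o : X → B} {i s : X → ℕ} {r : X → Rc} (ho : TD o) (hi : TD i)
    (hs : TD s) (hr : TD r) : TD fun x => er (o x) (i x) (s x) (r x) := by unfold er; fun_prop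
@[fun_prop] theorem ended_td {n m k a b : X → ℕ} (hn : TD n) (hm : TD m) (hk : TD k) (ha : TD a)
    (hb : TD b) : TD fun x => ended (n x) (m x) (k x) (a x) (b x) := by unfold ended; fun_prop
@[fun_prop] theorem newT_td {ps : X → List ℕ} {l n m k : X → ℕ} (hp : TD ps) (hl : TD l)
    (hn : TD n) (hm : TD m) (hk : TD k) : TD fun x => newT (ps x) (l x) (n x) (m x) (k x) := by
  unfold newT; fun_prop
@[fun_prop] theorem an_td {o : X → B} {i s : X → ℕ} {r : X → Rc} (ho : TD o) (hi : TD i)
    (hs : TD s) (hr : TD r) : TD fun x => an (o x) (i x) (s x) (r x) := by unfold an; fun_prop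
@[fun_prop] theorem am_td {o : X → B} {i s : X → ℕ} {r : X → Rc} (ho : TD o) (hi : TD i)
    (hs : TD s) (hr : TD r) : TD fun x => am (o x) (i x) (s x) (r x) := by unfold am; fun_prop
@[fun_prop] theorem aw_td {o : X → B} {i s : X → ℕ} {r : X → Rc} (ho : TD o) (hi : TD i)
    (hs : TD s) (hr : TD r) : TD fun x => aw (o x) (i x) (s x) (r x) := by unfold aw; fun_prop
@[fun_prop] theorem act_td {o : X → B} {i s : X → ℕ} {ps : X → List ℕ} {r : X → Rc} (ho : TD o)
    (hi : TD i) (hs : TD s) (hp : TD ps) (hr : TD r) :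
    TD fun x => act (o x) (i x) (s x) (ps x) (r x) := by unfold act; fun_prop
@[fun_prop] theorem play_td {l : X → ℕ} {r : X → Rc} (hl : TD l) (hr : TD r) :
    TD fun x => play (l x) (r x) := by unfold play; fun_prop
@[fun_prop] theorem lev_td {o : X → B} {k s : X → ℕ} (ho : TD o) (hk : TD k) (hs : TD s) :
    TD fun x => lev (o x) (k x) (s x) := by unfold lev; fun_prop
@[fun_prop] theorem ini_td {k s : X → ℕ} (hs : TD s) (hk : TD k) :
    TD fun x => ini (s x) (k x) := by unfold ini; fun_prop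
@[fun_prop] theorem top_td {o : X → B} {s : X → ℕ} {y : X → St} (ho : TD o) (hs : TD s)
    (hy : TD y) : TD fun x => top (o x) (s x) (y x) := by unfold top; fun_prop
@[fun_prop] theorem step_td {o : X → B} {s : X → ℕ} {y : X → St} (ho : TD o) (hs : TD s)
    (hy : TD y) : TD fun x => step (o x) (s x) (y x) := by unfold step; fun_prop
@[fun_prop] theorem st_td {o : X → B} {s : X → ℕ} (ho : TD o) (hs : TD s) :
    TD fun x => st (o x) (s x) := by unfold st; fun_prop
@[fun_prop] theorem Qf_td {o : X → B} (ho : TD o) : TD fun x => Qf (o x) :=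
  TD.lam' (F := fun x s => (st (o x) (s + 1)).2.2)
    (TD.snd (TD.snd (st_td (ho.comp' (TD.fst TD.id')) (TD.add (TD.snd TD.id') (TD.const 1)))))
@[fun_prop] theorem Lv_td {o : X → B} {s : X → ℕ} (ho : TD o) (hs : TD s) :
    TD fun x => Lv (o x) (s x) := by unfold Lv; fun_prop
@[fun_prop] theorem Rd_td {o : X → B} {j s : X → ℕ} (ho : TD o) (hj : TD j) (hs : TD s) :
    TD fun x => Rd (o x) (j x) (s x) := by unfold Rd; fun_prop

end td

/-! ### One action -/

/-- The invariant of a record. -/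
structure RInv (o : B) (i len : ℕ) (r : Rc) : Prop where
  n2 : 2 ≤ fn r
  m2 : 2 ≤ fm r
  nm : fn r + fm r ≤ len
  t0 : fc r % 3 = 0 → fa r = fn r + 1
  t1 : fc r % 3 = 1 → fb r = fm r + 1
  t2 : fc r % 3 = 2 → fa r = 0 ∨ (fn r < fa r ∧ fm r < fb r ∧ fa r + fb r ≤ len)
  wl : fw r ≠ 0 → ∃ t, fn r ≤ cl o i (fw r - 1) t
  wr : fw r ≠ 0 → ∃ t, fm r ≤ cr o i (fw r - 1) t

variable {o : B} {i s len : ℕ} {r : Rc} {ps : List ℕ}

theorem RInv.mono {len' : ℕ} (h : RInv o i len r) (hl : len ≤ len') : RInv o i len' r :=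
  ⟨h.n2, h.m2, h.nm.trans hl, h.t0, h.t1, fun hc => (h.t2 hc).imp id fun ⟨a, b, c⟩ =>
    ⟨a, b, c.trans hl⟩, h.wl, h.wr⟩

theorem RInv.play (h : RInv o i len r) : fn r ≤ play len r ∧ play len r + fm r ≤ len := by
  have := h.nm
  have := h.t2
  unfold Pool.Agent.Lib.MP_d69888_lc.play
  split_ifs <;> omega

theorem wsel_spec {n m : ℕ} (h : wsel o i n m s ≠ 0) :
    n ≤ cl o i (wsel o i n m s - 1) s ∧ m ≤ cr o i (wsel o i n m s - 1) s := by
  have key : ∀ k, nrec k 0 (fun b acc => cond (decide (n ≤ cl o i b s) && decide (m ≤ cr o i b s))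
      (b + 1) acc) = 0 ∨ ∃ b, nrec k 0 (fun b acc => cond (decide (n ≤ cl o i b s) &&
        decide (m ≤ cr o i b s)) (b + 1) acc) = b + 1 ∧ n ≤ cl o i b s ∧ m ≤ cr o i b s := by
    intro k
    induction k with
    | zero => exact Or.inl rfl
    | succ k ih =>
      rw [nrec_succ]
      by_cases hk : n ≤ cl o i k s ∧ m ≤ cr o i k s
      · exact Or.inr ⟨k, by simp [hk.1, hk.2], hk⟩
      · have : (decide (n ≤ cl o i k s) && decide (m ≤ cr o i k s)) = false := by simpa using hk
        rw [this]; exact ih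
  rcases key s with h0 | ⟨b, hb, h1⟩
  · exact absurd h0 h
  · have : wsel o i n m s = b + 1 := hb
    rw [this]; exact h1

theorem wsel_ne {n m b : ℕ} (hb : b < s) (h1 : n ≤ cl o i b s) (h2 : m ≤ cr o i b s) :
    wsel o i n m s ≠ 0 := by
  have key : ∀ k, b < k → nrec k 0 (fun b acc => cond (decide (n ≤ cl o i b s) &&
      decide (m ≤ cr o i b s)) (b + 1) acc) ≠ 0 := by
    intro k
    induction k with
    | zero => omega
    | succ k ih =>
      intro hk
      rw [nrec_succ]
      by_cases hk' : n ≤ cl o i k s ∧ m ≤ cr o i k s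
      · simp [hk'.1, hk'.2]
      · have : (decide (n ≤ cl o i k s) && decide (m ≤ cr o i k s)) = false := by simpa using hk'
        rw [this]
        refine ih ?_
        rcases Nat.lt_succ_iff_lt_or_eq.1 hk with h | rfl
        · exact h
        · exact absurd ⟨h1, h2⟩ hk'
  exact key s hb

theorem fn_act : fn (act o i s ps r) = an o i s r := by unfold act; cases ended _ _ _ _ _ <;> rfl
theorem fm_act : fm (act o i s ps r) = am o i s r := by unfold act; cases ended _ _ _ _ _ <;> rfl
theorem fw_act : fw (act o i s ps r) = aw o i s r := by unfold act; cases ended _ _ _ _ _ <;> rfl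

theorem act_task :
    (ended (an o i s r) (am o i s r) (fc r) (fa r) (fb r) = false ∧ fc (act o i s ps r) = fc r ∧
      fa (act o i s ps r) = fa r ∧ fb (act o i s ps r) = fb r) ∨
    (ended (an o i s r) (am o i s r) (fc r) (fa r) (fb r) = true ∧
      fc (act o i s ps r) = fc r + 1 ∧
      fa (act o i s ps r) = (newT ps (4 + s) (an o i s r) (am o i s r) (fc r + 1)).1 ∧
      fb (act o i s ps r) = (newT ps (4 + s) (an o i s r) (am o i s r) (fc r + 1)).2) := by
  unfold act
  cases ended _ _ _ _ _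
  · exact Or.inl ⟨rfl, rfl, rfl, rfl⟩
  · exact Or.inr ⟨rfl, rfl, rfl, rfl⟩

theorem an_am :
    (an o i s r = fn r ∧ am o i s r = fm r ∧ (fw r ≠ 0 → fn r + fm r < 4 + s →
      cl o i (fw r - 1) s ≤ fn r ∧ cr o i (fw r - 1) s ≤ fm r)) ∨
    (an o i s r = fn r + 1 ∧ am o i s r = fm r ∧ fw r ≠ 0 ∧ fn r < cl o i (fw r - 1) s ∧
      fn r + fm r < 4 + s) ∨
    (an o i s r = fn r ∧ am o i s r = fm r + 1 ∧ fw r ≠ 0 ∧ cl o i (fw r - 1) s ≤ fn r ∧
      fm r < cr o i (fw r - 1) s ∧ fn r + fm r < 4 + s) := by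
  unfold an am er el
  by_cases h1 : fw r = 0 <;> by_cases h2 : fn r < cl o i (fw r - 1) s <;>
    by_cases h3 : fn r + fm r < 4 + s <;> by_cases h4 : fm r < cr o i (fw r - 1) s <;>
    simp [h1, h2, h3, h4] <;> omega

theorem ended_iff {n m k a b : ℕ} : ended n m k a b = true ↔
    (k % 3 = 0 ∧ a ≤ n) ∨ (k % 3 = 1 ∧ b ≤ m) ∨ (k % 3 = 2 ∧ (a ≤ n ∨ b ≤ m)) := by
  unfold ended
  split_ifs with h1 h2 <;> simp <;> omega

theorem newT_spec {n m k : ℕ} :
    (k % 3 = 0 → (newT ps len n m k).1 = n + 1) ∧ (k % 3 = 1 → (newT ps len n m k).2 = m + 1) ∧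
    (k % 3 = 2 → (newT ps len n m k).1 = 0 ∨ (n < (newT ps len n m k).1 ∧
      m < (newT ps len n m k).2 ∧ (newT ps len n m k).1 + (newT ps len n m k).2 ≤ len)) := by
  unfold newT
  refine ⟨fun h => by simp [h], fun h => by simp [h], fun h => ?_⟩
  rw [if_neg (by omega), if_neg (by omega)]
  generalize ps.getD (k / 3).unpair.1.unpair.1 0 = x
  generalize ps.getD (k / 3).unpair.1.unpair.2 0 = y
  by_cases hv : n ≤ x ∧ x < y ∧ y + m < len
  · right; simp [hv.1, hv.2.1, hv.2.2]; omega
  · left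
    have : (decide (n ≤ x) && decide (x < y) && decide (y + m < len)) = false := by
      simpa [and_assoc] using hv
    rw [this]; rfl

theorem newT_pair {n m x y j : ℕ} (h1 : n ≤ ps.getD x 0) (h2 : ps.getD x 0 < ps.getD y 0)
    (h3 : ps.getD y 0 + m < len) :
    newT ps len n m (3 * Nat.pair (Nat.pair x y) j + 2) = (ps.getD x 0 + 1, len - ps.getD y 0) := by
  unfold newT
  have : (3 * Nat.pair (Nat.pair x y) j + 2) / 3 = Nat.pair (Nat.pair x y) j := by omega
  rw [if_neg (by omega), if_neg (by omega), this]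
  simp only [Nat.unpair_pair, h1, h2, h3, decide_true, Bool.and_self, cond_true]

theorem RInv.act (h : RInv o i (4 + s) r) : RInv o i (4 + s) (act o i s ps r) := by
  have h1 := h.n2
  have h2 := h.m2
  have h3 := h.nm
  have h4 := h.t0
  have h5 := h.t1
  have h6 := h.t2
  have ha := an_am (o := o) (i := i) (s := s) (r := r)
  have ht := act_task (o := o) (i := i) (s := s) (r := r) (ps := ps)
  have hn := newT_spec (ps := ps) (len := 4 + s) (n := an o i s r) (m := am o i s r)
    (k := fc r + 1)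
  have he := ended_iff (n := an o i s r) (m := am o i s r) (k := fc r) (a := fa r) (b := fb r)
  refine ⟨by rw [fn_act]; omega, by rw [fm_act]; omega, by rw [fn_act, fm_act]; omega,
    ?_, ?_, ?_, ?_, ?_⟩
  · rw [fn_act]
    rcases ht with ⟨e, c, a, b⟩ | ⟨e, c, a, b⟩
    · rw [e] at he; simp only [Bool.false_eq_true, false_iff] at he; omega
    · rw [c, a]; exact hn.1
  · rw [fm_act]
    rcases ht with ⟨e, c, a, b⟩ | ⟨e, c, a, b⟩
    · rw [e] at he; simp only [Bool.false_eq_true, false_iff] at he; omega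
    · rw [c, b]; exact hn.2.1
  · rw [fn_act, fm_act]
    rcases ht with ⟨e, c, a, b⟩ | ⟨e, c, a, b⟩
    · rw [e] at he; simp only [Bool.false_eq_true, false_iff] at he; omega
    · rw [c, a, b]; exact hn.2.2
  · rw [fw_act, fn_act]
    unfold aw
    split_ifs with hw
    · intro hs
      exact ⟨s, by have := (wsel_spec hs).1; omega⟩
    · intro _
      obtain ⟨t, ht⟩ := h.wl hw
      rcases ha with ha | ha | ha
      · exact ⟨t, by omega⟩
      · exact ⟨s, by omega⟩
      · exact ⟨t, by omega⟩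
  · rw [fw_act, fm_act]
    unfold aw
    split_ifs with hw
    · intro hs
      exact ⟨s, by have := (wsel_spec hs).2; omega⟩
    · intro _
      obtain ⟨t, ht⟩ := h.wr hw
      rcases ha with ha | ha | ha
      · exact ⟨t, by omega⟩
      · exact ⟨t, by omega⟩
      · exact ⟨s, by omega⟩

/-! ### The stack -/

theorem lev_spec (k : ℕ) : lev o k s ≤ k ∧ (lev o k s < k → fire o (lev o k s) s = true) ∧
    ∀ j, j < lev o k s → fire o j s = false := by
  induction k with
  | zero => simp [lev]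
  | succ k ih =>
    have e : lev o (k + 1) s = if lev o k s < k then lev o k s else
      cond (fire o k s) k (k + 1) := rfl
    rw [e]
    split_ifs with h
    · exact ⟨by omega, fun _ => ih.2.1 h, ih.2.2⟩
    · have hk : lev o k s = k := by omega
      cases hf : fire o k s
      · refine ⟨le_rfl, fun h => absurd h (lt_irrefl _), fun j hj => ?_⟩
        rcases Nat.lt_succ_iff_lt_or_eq.1 hj with h | rfl
        · exact ih.2.2 j (by omega)
        · exact hf
      · exact ⟨by simp, fun _ => hf, fun j hj => ih.2.2 j (by simpa [hk] using hj)⟩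

/-- Height of the stack. -/
def Ht (o : B) (s : ℕ) : ℕ := (st o s).1.length

theorem st_succ : st o (s + 1) = step o s (st o s) := rfl

theorem Lv_le : Lv o s ≤ Ht o s := (lev_spec _).1

theorem top_eq : top o s (st o s) = act o (Lv o s) s (st o s).2.1 (Rd o (Lv o s) s) := rfl

theorem Qf_eq : Qf o s = play (4 + s) (top o s (st o s)) := rfl

theorem Ht_succ : Ht o (s + 1) = Lv o s + 1 := by
  have := Lv_le (o := o) (s := s)
  unfold Ht at *
  rw [st_succ]
  simp only [step, List.length_append, List.length_take, List.length_singleton]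
  change min (Lv o s) _ + 1 = _
  omega

theorem Rd_lt {j : ℕ} (h : j < Lv o s) : Rd o j (s + 1) = Rd o j s := by
  have := Lv_le (o := o) (s := s)
  unfold Ht at this
  unfold Rd
  rw [st_succ]
  change (List.take (Lv o s) (st o s).1 ++ _).getD j _ = _
  rw [List.getD_eq_getElem?_getD, List.getD_eq_getElem?_getD,
    List.getElem?_append_left (by simp; omega), List.getElem?_take_of_lt h,
    List.getElem?_eq_getElem (by omega)]
  rfl

theorem Rd_top : Rd o (Lv o s) (s + 1) = top o s (st o s) := by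
  have := Lv_le (o := o) (s := s)
  unfold Ht at this
  unfold Rd
  rw [st_succ]
  change (List.take (Lv o s) (st o s).1 ++ _).getD _ _ = _
  rw [List.getD_eq_getElem?_getD, List.getElem?_append_right (by simp)]
  have : Lv o s - (List.take (Lv o s) (st o s).1).length = 0 := by simp; omega
  rw [this]; rfl

theorem Rd_new : Rd o (Lv o s + 1) (s + 1) = ini (s + 1) (Qf o s) := by
  have := Ht_succ (o := o) (s := s)
  unfold Ht at this
  unfold Rd
  rw [List.getD_eq_getElem?_getD, List.getElem?_eq_none (by omega)]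
  rfl

theorem ps_eq (s : ℕ) : (st o s).2.1 = (List.range (4 + s)).map fun b => pos 4 (Qf o) b s := by
  induction s with
  | zero => rfl
  | succ s ih =>
    rw [st_succ]
    change List.map (fun y => up (Qf o s) y) (st o s).2.1 ++ [Qf o s] = _
    rw [ih, ← Nat.add_assoc, List.range_succ, List.map_append, List.map_map]
    congr 1
    · exact List.map_congr_left fun b hb => (pos_old (by simpa using hb)).symm
    · simp [pos_new]

theorem ps_getD {b : ℕ} (hb : b < 4 + s) : (st o s).2.1.getD b 0 = pos 4 (Qf o) b s := by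
  rw [ps_eq]; simp [hb]

/-- The invariant of the stack. -/
structure SInv (o : B) (s : ℕ) : Prop where
  ri : ∀ j, j ≤ Ht o s → RInv o j (4 + s) (Rd o j s)
  ne : ∀ j j', j ≤ j' → j' ≤ Ht o s → fn (Rd o j s) ≤ fn (Rd o j' s) ∧ fm (Rd o j s) ≤ fm (Rd o j' s)
  lt : ∀ j, j < Ht o s → fn (Rd o j s) + fm (Rd o j s) < 4 + s

theorem act_le : fn r ≤ fn (act o i s ps r) ∧ fm r ≤ fm (act o i s ps r) := by
  rw [fn_act, fm_act]; unfold an am; omega

theorem sinv (o : B) (s : ℕ) : SInv o s := by
  induction s with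
  | zero =>
    have h0 : Ht o 0 = 0 := rfl
    have h1 : Rd o 0 0 = (2, 2, 0, 0, 3, 0) := rfl
    refine ⟨fun j hj => ?_, fun j j' h h' => ?_, fun j hj => by omega⟩
    · obtain rfl : j = 0 := by omega
      rw [h1]
      constructor <;> simp [fn, fm, fw, fc, fa, fb]
    · obtain rfl : j = j' := by omega
      exact ⟨le_rfl, le_rfl⟩
  | succ s ih =>
    have hL := Lv_le (o := o) (s := s)
    have ht : RInv o (Lv o s) (4 + s) (Rd o (Lv o s) (s + 1)) := by
      rw [Rd_top, top_eq]; exact (ih.ri _ hL).act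
    have hp : fn (Rd o (Lv o s) (s + 1)) ≤ Qf o s ∧ Qf o s + fm (Rd o (Lv o s) (s + 1)) ≤ 4 + s := by
      have := ht.play
      rwa [Qf_eq, ← Rd_top]
    have hm : fn (Rd o (Lv o s) s) ≤ fn (Rd o (Lv o s) (s + 1)) ∧
        fm (Rd o (Lv o s) s) ≤ fm (Rd o (Lv o s) (s + 1)) := by
      rw [Rd_top, top_eq]; exact act_le
    have hn : fn (Rd o (Lv o s + 1) (s + 1)) = Qf o s ∧
        fm (Rd o (Lv o s + 1) (s + 1)) = 4 + (s + 1) - Qf o s := by
      rw [Rd_new]; exact ⟨rfl, rfl⟩
    have low : ∀ j, j ≤ Lv o s → fn (Rd o j (s + 1)) ≤ fn (Rd o (Lv o s) (s + 1)) ∧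
        fm (Rd o j (s + 1)) ≤ fm (Rd o (Lv o s) (s + 1)) := by
      intro j hj
      rcases hj.lt_or_eq with h | rfl
      · rw [Rd_lt h]
        have := ih.ne j _ hj hL
        omega
      · exact ⟨le_rfl, le_rfl⟩
    refine ⟨fun j hj => ?_, fun j j' h h' => ?_, fun j hj => ?_⟩
    · rw [Ht_succ] at hj
      rcases lt_trichotomy j (Lv o s) with h | rfl | h
      · rw [Rd_lt h]; exact (ih.ri j (by omega)).mono (by omega)
      · exact ht.mono (by omega)
      · obtain rfl : j = Lv o s + 1 := by omega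
        have := ht.n2
        have := ht.m2
        rw [Rd_new]
        constructor <;> simp [ini, fn, fm, fw, fc, fa, fb] at * <;> omega
    · rw [Ht_succ] at h'
      rcases lt_trichotomy j' (Lv o s) with h1 | rfl | h1
      · rw [Rd_lt h1, Rd_lt (by omega)]; exact ih.ne j j' h (by omega)
      · exact low j h
      · obtain rfl : j' = Lv o s + 1 := by omega
        rcases h.lt_or_eq with h2 | rfl
        · have := low j (by omega); omega
        · exact ⟨le_rfl, le_rfl⟩
    · rw [Ht_succ] at hj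
      have := low j (by omega); omega

theorem rinv_top : RInv o (Lv o s) (4 + s) (Rd o (Lv o s) (s + 1)) := by
  rw [Rd_top, top_eq]; exact ((sinv o s).ri _ Lv_le).act

theorem zone {j : ℕ} (hj : j ≤ Lv o s) :
    fn (Rd o j (s + 1)) ≤ Qf o s ∧ Qf o s + fm (Rd o j (s + 1)) ≤ 4 + s := by
  have h1 := (rinv_top (o := o) (s := s)).play
  have h2 := (sinv o (s + 1)).ne j _ hj (by rw [Ht_succ]; omega)
  rw [Qf_eq, ← Rd_top]
  omega

theorem Rd_mono {j : ℕ} (hj : j ≤ Lv o s) :
    fn (Rd o j s) ≤ fn (Rd o j (s + 1)) ∧ fm (Rd o j s) ≤ fm (Rd o j (s + 1)) := by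
  rcases hj.lt_or_eq with h | rfl
  · rw [Rd_lt h]; exact ⟨le_rfl, le_rfl⟩
  · rw [Rd_top, top_eq]; exact act_le

theorem Qf_two (o : B) (s : ℕ) : 2 ≤ Qf o s ∧ Qf o s + 2 ≤ 4 + s := by
  have h1 := zone (o := o) (s := s) le_rfl
  have h2 := (rinv_top (o := o) (s := s)).n2
  have h3 := (rinv_top (o := o) (s := s)).m2
  omega

theorem Qf_ok (o : B) : Ok 4 (Qf o) := fun s => by have := Qf_two o s; omega

end Pool.Agent.Lib.MP_d69888_lc
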