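import Pool.Agent.Lib.MP_d69888_lc.BuildA

/-!
Behaviour of a level that is never cancelled.
-/

namespace Pool.Agent.Lib.MP_d69888_lc

open Pool.Agent.Shared.Type2

/-- Level `i` acts at stage `s₁` and no lower level acts afterwards. -/
structure Run (o : B) (i s₁ : ℕ) : Prop where
  h1 : Lv o s₁ = i
  h2 : ∀ s, s₁ ≤ s → i ≤ Lv o s

/-- Left count of the gap designated at the last action of level `i`. -/
def Gs (o : B) (i s : ℕ) : ℕ := nrec s 0 fun t g => if Lv o t = i then Qf o t else g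
/-- Right count of the gap designated at the last action of level `i`. -/
def Hs (o : B) (i s : ℕ) : ℕ := nrec s 0 fun t g => if Lv o t = i then 5 + t - Qf o t else g

variable {o : B} {i s₁ s t : ℕ}

theorem Gs_ac (h : Lv o s = i) : Gs o i (s + 1) = Qf o s := by simp [Gs, h]
theorem Hs_ac (h : Lv o s = i) : Hs o i (s + 1) = 5 + s - Qf o s := by simp [Hs, h]
theorem Gs_na (h : Lv o s ≠ i) : Gs o i (s + 1) = Gs o i s := by simp [Gs, h]
theorem Hs_na (h : Lv o s ≠ i) : Hs o i (s + 1) = Hs o i s := by simp [Hs, h]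

theorem Rd_ac (h : Lv o s = i) : Rd o i (s + 1) = act o i s (st o s).2.1 (Rd o i s) := by
  subst h; rw [Rd_top, top_eq]

theorem Qf_ac (h : Lv o s = i) : Qf o s = play (4 + s) (Rd o i (s + 1)) := by
  subst h; rw [Rd_top, Qf_eq]

theorem rinv_ac (h : Lv o s = i) : RInv o i (4 + s) (Rd o i (s + 1)) := by
  subst h; exact rinv_top

namespace Run

variable (h : Run o i s₁)
include h

theorem keep (hs : s₁ ≤ s) (hn : Lv o s ≠ i) : Rd o i (s + 1) = Rd o i s :=
  Rd_lt (lt_of_le_of_ne (h.h2 s hs) (Ne.symm hn))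

theorem ht (hs : s₁ < s) : i < Ht o s := by
  obtain ⟨t, rfl⟩ := Nat.exists_eq_add_of_le' (show 1 ≤ s by omega)
  have := h.h2 t (by omega)
  rw [Ht_succ]; omega

theorem inv (hs : s₁ < s) : RInv o i (4 + s) (Rd o i s) := (sinv o s).ri i (h.ht hs).le

theorem strict (hs : s₁ < s) : fn (Rd o i s) + fm (Rd o i s) < 4 + s := (sinv o s).lt i (h.ht hs)

theorem zn (hs : s₁ ≤ s) :
    fn (Rd o i (s + 1)) ≤ Qf o s ∧ Qf o s + fm (Rd o i (s + 1)) ≤ 4 + s := zone (h.h2 s hs)

theorem mono (hs : s₁ ≤ s) (hst : s ≤ t) :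
    fn (Rd o i s) ≤ fn (Rd o i t) ∧ fm (Rd o i s) ≤ fm (Rd o i t) := by
  induction t, hst using Nat.le_induction with
  | base => exact ⟨le_rfl, le_rfl⟩
  | succ t ht ih => have := Rd_mono (h.h2 t (by omega)); omega

theorem cone0 (hs : s₁ < s) :
    Gs o i s ≤ fn (Rd o (i + 1) s) ∧ Hs o i s ≤ fm (Rd o (i + 1) s) := by
  have ac : ∀ s, Lv o s = i →
      Gs o i (s + 1) ≤ fn (Rd o (i + 1) (s + 1)) ∧ Hs o i (s + 1) ≤ fm (Rd o (i + 1) (s + 1)) := by
    intro s hl
    rw [Gs_ac hl, Hs_ac hl, ← hl, Rd_new]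
    exact ⟨le_rfl, by change _ ≤ 4 + (s + 1) - _; omega⟩
  induction s, hs using Nat.le_induction with
  | base => exact ac _ h.h1
  | succ s hs ih =>
    by_cases hl : Lv o s = i
    · exact ac s hl
    · have := h.h2 s (by omega)
      have := Rd_mono (o := o) (s := s) (j := i + 1) (by omega)
      rw [Gs_na hl, Hs_na hl]; omega

theorem cone (hs : s₁ < s) (hl : Lv o s ≠ i) :
    Gs o i s ≤ Qf o s ∧ Qf o s + Hs o i s ≤ 4 + s := by
  have h1 := h.cone0 hs
  have := h.h2 s (by omega)
  have h2 := Rd_mono (o := o) (s := s) (j := i + 1) (by omega)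
  have h3 := zone (o := o) (s := s) (j := i + 1) (by omega)
  omega

theorem lowB {g s' : ℕ} (ht : s₁ ≤ t) (hl : Lv o t = i)
    (hg : ∀ u, t ≤ u → u < s' → Lv o u = i → g ≤ Qf o u) :
    ∀ u, t ≤ u → u < s' → g ≤ Qf o u := by
  have key : ∀ u, t ≤ u → u < s' → g ≤ Qf o u ∧ g ≤ Gs o i (u + 1) := by
    intro u hu
    induction u, hu using Nat.le_induction with
    | base => intro h'; rw [Gs_ac hl]; exact ⟨hg t le_rfl h' hl, hg t le_rfl h' hl⟩
    | succ u hu ih =>
      intro h'
      by_cases ha : Lv o (u + 1) = i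
      · rw [Gs_ac ha]; exact ⟨hg _ (by omega) h' ha, hg _ (by omega) h' ha⟩
      · have := h.cone (s := u + 1) (by omega) ha
        have := ih (by omega)
        rw [Gs_na ha]; omega
  exact fun u hu hu' => (key u hu hu').1

theorem upB {k s' : ℕ} (ht : s₁ ≤ t) (hl : Lv o t = i)
    (hg : ∀ u, t ≤ u → u < s' → Lv o u = i → Qf o u + k ≤ 4 + u) :
    ∀ u, t ≤ u → u < s' → Qf o u + k ≤ 4 + u := by
  have key : ∀ u, t ≤ u → u < s' → Qf o u + k ≤ 4 + u ∧ k ≤ Hs o i (u + 1) := by
    intro u hu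
    induction u, hu using Nat.le_induction with
    | base => intro h'; rw [Hs_ac hl]; have := hg t le_rfl h' hl; omega
    | succ u hu ih =>
      intro h'
      by_cases ha : Lv o (u + 1) = i
      · rw [Hs_ac ha]; have := hg _ (by omega) h' ha; omega
      · have := h.cone (s := u + 1) (by omega) ha
        have := ih (by omega)
        rw [Hs_na ha]; omega
  exact fun u hu hu' => (key u hu hu').1

end Run

/-- The insertion at stage `t` separates the old points correctly. -/
def Dec (o : B) (t : ℕ) : Prop := ∀ y, y < 4 + t →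
  (pos 4 (Qf o) y t < Qf o t → LB 4 (Qf o) y) ∧ (Qf o t ≤ pos 4 (Qf o) y t → RB 4 (Qf o) y)

namespace Run

variable (h : Run o i s₁)
include h

theorem dec_left (ht : s₁ ≤ t) (hl : Lv o t = i)
    (hg : ∀ u, t ≤ u → Lv o u = i → Qf o u = Qf o t) : Dec o t := by
  intro y hy
  constructor
  · intro hp
    exact LB_of_left hy hp fun u hu =>
      h.lowB (s' := u + 1) ht hl (fun v hv _ ha => (hg v hv ha).ge) u hu (by omega)
  · intro hp
    have key : ∀ u, t ≤ u → Qf o u ≤ pos 4 (Qf o) y u ∧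
        5 + u ≤ pos 4 (Qf o) y (u + 1) + Hs o i (u + 1) := by
      have ac : ∀ u, t ≤ u → Lv o u = i → Qf o u ≤ pos 4 (Qf o) y u ∧
          5 + u ≤ pos 4 (Qf o) y (u + 1) + Hs o i (u + 1) := by
        intro u hu ha
        have h1 := hg u hu ha
        have h2 := pos_mono (p := Qf o) hy hu
        have h3 := pos_mono (p := Qf o) hy (t := u + 1) (by omega)
        have := Qf_two o u
        rw [Hs_ac ha]; omega
      intro u hu
      induction u, hu using Nat.le_induction with
      | base => exact ac t le_rfl hl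
      | succ u hu ih =>
        by_cases ha : Lv o (u + 1) = i
        · exact ac _ (by omega) ha
        · have := h.cone (s := u + 1) (by omega) ha
          have h4 := pos_old (p := Qf o) (c := 4) (b := y) (s := u + 1) (by omega)
          rw [Hs_na ha]
          unfold up at h4; split_ifs at h4 <;> omega
    exact RB_of_le hy fun u hu => (key u hu).1

theorem dec_right {k : ℕ} (ht : s₁ ≤ t) (hl : Lv o t = i)
    (hg : ∀ u, t ≤ u → Lv o u = i → Qf o u + k = 4 + u) : Dec o t := by
  intro y hy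
  have h0 := hg t le_rfl hl
  constructor
  · intro hp
    have key : ∀ u, t ≤ u → pos 4 (Qf o) y u < Qf o u ∧
        pos 4 (Qf o) y (u + 1) < Gs o i (u + 1) := by
      have ac : ∀ u, t ≤ u → Lv o u = i → pos 4 (Qf o) y u < Qf o u ∧
          pos 4 (Qf o) y (u + 1) < Gs o i (u + 1) := by
        intro u hu ha
        have h1 := hg u hu ha
        have h2 := rpos_mono (p := Qf o) hy hu
        have h4 := pos_old (p := Qf o) (c := 4) (b := y) (s := u) (by omega)
        rw [Gs_ac ha]
        unfold up at h4; split_ifs at h4 <;> omega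
      intro u hu
      induction u, hu using Nat.le_induction with
      | base => exact ac t le_rfl hl
      | succ u hu ih =>
        by_cases ha : Lv o (u + 1) = i
        · exact ac _ (by omega) ha
        · have := h.cone (s := u + 1) (by omega) ha
          have h4 := pos_old (p := Qf o) (c := 4) (b := y) (s := u + 1) (by omega)
          rw [Gs_na ha]
          unfold up at h4; split_ifs at h4 <;> omega
    exact LB_of_lt hy fun u hu => (key u hu).1
  · intro hp
    exact RB_of_right (k := k) hy (by omega) fun u hu =>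
      h.upB (s' := u + 1) ht hl (fun v hv _ ha => (hg v hv ha).le) u hu (by omega)

theorem LB_out {y : ℕ} (hs : s₁ ≤ s) (hy : y < 4 + s)
    (hp : pos 4 (Qf o) y s < fn (Rd o i (s + 1))) : LB 4 (Qf o) y :=
  LB_of_left hy hp fun u hu => by
    have := h.zn (s := u) (by omega)
    have := h.mono (s := s + 1) (t := u + 1) (by omega) (by omega)
    omega

theorem RB_out {y : ℕ} (hs : s₁ ≤ s) (hy : y < 4 + s)
    (hp : 4 + s ≤ pos 4 (Qf o) y s + fm (Rd o i (s + 1))) : RB 4 (Qf o) y :=
  RB_of_right hy hp fun u hu => by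
    have := h.zn (s := u) (by omega)
    have := h.mono (s := s + 1) (t := u + 1) (by omega) (by omega)
    omega

/-- One stage, seen from the task counter. -/
theorem task (hs : s₁ ≤ s) :
    (fc (Rd o i (s + 1)) = fc (Rd o i s) ∧ fa (Rd o i (s + 1)) = fa (Rd o i s) ∧
      fb (Rd o i (s + 1)) = fb (Rd o i s) ∧ (Lv o s = i → ended (fn (Rd o i (s + 1)))
        (fm (Rd o i (s + 1))) (fc (Rd o i s)) (fa (Rd o i s)) (fb (Rd o i s)) = false)) ∨
    (Lv o s = i ∧ fc (Rd o i (s + 1)) = fc (Rd o i s) + 1 ∧ ended (fn (Rd o i (s + 1)))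
        (fm (Rd o i (s + 1))) (fc (Rd o i s)) (fa (Rd o i s)) (fb (Rd o i s)) = true ∧
      (fa (Rd o i (s + 1)), fb (Rd o i (s + 1))) = newT (st o s).2.1 (4 + s)
        (fn (Rd o i (s + 1))) (fm (Rd o i (s + 1))) (fc (Rd o i s) + 1)) := by
  by_cases hl : Lv o s = i
  · rw [Rd_ac hl, fn_act, fm_act]
    rcases act_task (o := o) (i := i) (s := s) (ps := (st o s).2.1) (r := Rd o i s) with
      ⟨e, c, a, b⟩ | ⟨e, c, a, b⟩
    · exact Or.inl ⟨c, a, b, fun _ => e⟩
    · exact Or.inr ⟨hl, c, e, by rw [a, b]⟩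
  · rw [h.keep hs hl]
    exact Or.inl ⟨rfl, rfl, rfl, fun h' => absurd h' hl⟩

theorem fc_step (hs : s₁ ≤ s) : fc (Rd o i s) ≤ fc (Rd o i (s + 1)) ∧
    fc (Rd o i (s + 1)) ≤ fc (Rd o i s) + 1 := by
  rcases h.task hs with h | h <;> omega

theorem fc_mono (hs : s₁ ≤ s) (hst : s ≤ t) : fc (Rd o i s) ≤ fc (Rd o i t) := by
  induction t, hst using Nat.le_induction with
  | base => exact le_rfl
  | succ t ht ih => have := h.fc_step (s := t) (by omega); omega

theorem same_task (hs : s₁ ≤ s) (hst : s ≤ t) (hc : fc (Rd o i t) = fc (Rd o i s)) :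
    fa (Rd o i t) = fa (Rd o i s) ∧ fb (Rd o i t) = fb (Rd o i s) := by
  induction t, hst using Nat.le_induction with
  | base => exact ⟨rfl, rfl⟩
  | succ t ht ih =>
    have h1 := h.fc_mono hs ht
    rcases h.task (s := t) (by omega) with h2 | h2
    · have := ih (by omega); omega
    · omega

end Run

/-- All tasks end. -/
def Unb (o : B) (i s₁ : ℕ) : Prop := ∀ K, ∃ s, s₁ ≤ s ∧ K ≤ fc (Rd o i s)

namespace Run

variable (h : Run o i s₁)
include h

theorem trans (hu : Unb o i s₁) {k : ℕ} (ht : s₁ ≤ t) (hk : fc (Rd o i t) ≤ k) :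
    ∃ s, t ≤ s ∧ fc (Rd o i s) = k ∧ fc (Rd o i (s + 1)) = k + 1 := by
  classical
  have hex : ∃ d, k + 1 ≤ fc (Rd o i (t + d)) := by
    obtain ⟨s, hs, hs'⟩ := hu (k + 1)
    refine ⟨s, hs'.trans (h.fc_mono hs (by omega))⟩
  have h1 := Nat.find_spec hex
  rcases hd : Nat.find hex with _ | d
  · rw [hd] at h1; simp only [Nat.add_zero] at h1; omega
  · rw [hd] at h1
    have h2 := Nat.find_min hex (m := d) (by omega)
    have h3 := h.fc_step (s := t + d) (by omega)
    rw [← Nat.add_assoc] at h1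
    exact ⟨t + d, by omega, by omega, by omega⟩

theorem n_unb (hu : Unb o i s₁) (K : ℕ) : ∃ s, s₁ ≤ s ∧ K ≤ fn (Rd o i s) := by
  by_contra hc
  push Not at hc
  obtain ⟨t, ht, ht'⟩ := ev_const (f := fun s => fn (Rd o i s)) (t := s₁) (K := K)
    (fun s hs => (h.mono hs (by omega)).1) fun s hs => (hc s hs).le
  obtain ⟨s, hs, h1, h2⟩ := h.trans hu (t := t + 1) (k := 3 * fc (Rd o i (t + 1))) (by omega)
    (by omega)
  have h3 := (h.inv (s := s) (by omega)).t0 (by omega)
  have h4 := ht' s (by omega)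
  have h5 := ht' (s + 1) (by omega)
  rcases h.task (s := s) (by omega) with h6 | ⟨-, -, h6, -⟩
  · omega
  · rw [ended_iff] at h6; omega

theorem m_unb (hu : Unb o i s₁) (K : ℕ) : ∃ s, s₁ ≤ s ∧ K ≤ fm (Rd o i s) := by
  by_contra hc
  push Not at hc
  obtain ⟨t, ht, ht'⟩ := ev_const (f := fun s => fm (Rd o i s)) (t := s₁) (K := K)
    (fun s hs => (h.mono hs (by omega)).2) fun s hs => (hc s hs).le
  obtain ⟨s, hs, h1, h2⟩ := h.trans hu (t := t + 1) (k := 3 * fc (Rd o i (t + 1)) + 1) (by omega)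
    (by omega)
  have h3 := (h.inv (s := s) (by omega)).t1 (by omega)
  have h4 := ht' s (by omega)
  have h5 := ht' (s + 1) (by omega)
  rcases h.task (s := s) (by omega) with h6 | ⟨-, -, h6, -⟩
  · omega
  · rw [ended_iff] at h6; omega

theorem one_survivor (hu : Unb o i s₁) {x y : ℕ} (hx : ¬ LB 4 (Qf o) x) (hy : ¬ RB 4 (Qf o) y)
    (hx' : x < 4 + t) (hy' : y < 4 + t) : ¬ pos 4 (Qf o) x t < pos 4 (Qf o) y t := by
  intro hlt
  set j := fc (Rd o i (t + s₁)) with hj
  have hjk : j ≤ Nat.pair (Nat.pair x y) j := Nat.right_le_pair _ _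
  obtain ⟨s, hs, h1, h2⟩ := h.trans hu (t := t + s₁) (k := 3 * Nat.pair (Nat.pair x y) j + 1)
    (by omega) (by omega)
  have hxs : fn (Rd o i (s + 1)) ≤ pos 4 (Qf o) x s :=
    not_lt.1 fun hp => hx (h.LB_out (by omega) (by omega) hp)
  have hys : pos 4 (Qf o) y s + fm (Rd o i (s + 1)) < 4 + s :=
    not_le.1 fun hp => hy (h.RB_out (by omega) (by omega) hp)
  have hlt' : pos 4 (Qf o) x s < pos 4 (Qf o) y s := (pos_lt_pos hx' hy' (by omega)).2 hlt
  rcases h.task (s := s) (by omega) with h6 | ⟨hl, -, -, h6⟩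
  · omega
  have px := ps_getD (o := o) (s := s) (b := x) (by omega)
  have py := ps_getD (o := o) (s := s) (b := y) (by omega)
  rw [h1, newT_pair (by omega) (by omega) (by omega), px, py, Prod.mk.injEq] at h6
  obtain ⟨ha, hb⟩ := h6
  obtain ⟨s', hs', h3, h4⟩ := h.trans hu (t := s + 1) (k := 3 * Nat.pair (Nat.pair x y) j + 1 + 1)
    (by omega) (by omega)
  have hq : ∀ u, s ≤ u → u < s' → Lv o u = i → Qf o u = pos 4 (Qf o) x s + 1 ∧
      pos 4 (Qf o) x s + 1 + (4 + s - pos 4 (Qf o) y s) ≤ 4 + u := by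
    intro u hu hu' hl
    have c1 := h.fc_mono (s := s + 1) (t := u + 1) (by omega) (by omega)
    have c2 := h.fc_mono (s := u + 1) (t := s') (by omega) (by omega)
    have c3 := h.same_task (s := s + 1) (t := u + 1) (by omega) (by omega) (by omega)
    have c4 := (rinv_ac hl).t2 (by omega)
    rw [Qf_ac hl]
    unfold play
    rw [if_neg (by omega), if_neg (by omega)]
    omega
  have l1 := left_run (p := Qf o) (c := 4) (b := x) (t := s) (s := s') (by omega) (by omega)
    (Nat.lt_succ_self _) (h.lowB (by omega) hl fun u hu hu' hl => (hq u hu hu' hl).1.ge)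
  have l2 := right_run (p := Qf o) (c := 4) (b := y) (t := s) (s := s')
    (k := 4 + s - pos 4 (Qf o) y s) (by omega) (by omega) (by omega)
    (h.upB (by omega) hl fun u hu hu' hl => by have := hq u hu hu' hl; omega)
  have c3 := h.same_task (s := s + 1) (t := s') (by omega) (by omega) (by omega)
  have hxs' : fn (Rd o i (s' + 1)) ≤ pos 4 (Qf o) x s' :=
    not_lt.1 fun hp => hx (h.LB_out (by omega) (by omega) hp)
  have hys' : pos 4 (Qf o) y s' + fm (Rd o i (s' + 1)) < 4 + s' :=
    not_le.1 fun hp => hy (h.RB_out (by omega) (by omega) hp)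
  rcases h.task (s := s') (by omega) with h7 | ⟨-, -, h7, -⟩
  · omega
  · rw [ended_iff] at h7; omega

theorem og_unb (hu : Unb o i s₁) : OG 4 (Qf o) := by
  intro x y x1 x2 y1 y2
  have a := h.one_survivor hu (t := x + y) x1 y2 (by omega) (by omega)
  have b := h.one_survivor hu (t := x + y) y1 x2 (by omega) (by omega)
  exact pos_inj (c := 4) (p := Qf o) (s := x + y) (by omega) (by omega) (by omega)

/-- The level is stuck in one task from stage `t` on. -/
theorem stuck (hu : ¬ Unb o i s₁) : ∃ t, s₁ < t ∧ ∀ s, t ≤ s → fc (Rd o i s) = fc (Rd o i t) ∧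
    fa (Rd o i s) = fa (Rd o i t) ∧ fb (Rd o i s) = fb (Rd o i t) := by
  unfold Unb at hu
  push Not at hu
  obtain ⟨K, hK⟩ := hu
  obtain ⟨t, ht, ht'⟩ := ev_const (f := fun s => fc (Rd o i s)) (t := s₁ + 1) (K := K)
    (fun s hs => (h.fc_step (by omega)).1) fun s hs => (hK s (by omega)).le
  exact ⟨t, ht, fun s hs => ⟨ht' s hs, h.same_task (by omega) hs (ht' s hs)⟩⟩

theorem dec_stuck (hu : ¬ Unb o i s₁) : ∃ t, ∀ s, t ≤ s → Lv o s = i → Dec o s := by
  obtain ⟨t, ht, ht'⟩ := h.stuck hu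
  refine ⟨t, fun s hs hl => ?_⟩
  have hne : ∀ u, t ≤ u → Lv o u = i → ended (fn (Rd o i (u + 1))) (fm (Rd o i (u + 1)))
      (fc (Rd o i u)) (fa (Rd o i u)) (fb (Rd o i u)) = false := by
    intro u hu hl
    have := ht' u hu
    have := ht' (u + 1) (by omega)
    rcases h.task (s := u) (by omega) with h1 | h1
    · exact h1.2.2.2 hl
    · omega
  rcases (show fc (Rd o i t) % 3 = 0 ∨ fc (Rd o i t) % 3 = 1 ∨ fc (Rd o i t) % 3 = 2 by omega)
    with hc | hc | hc
  · have : ∀ u, t ≤ u → Lv o u = i → Qf o u + 1 = fa (Rd o i t) := by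
      intro u hu hl
      have := ht' (u + 1) (by omega)
      have := (rinv_ac hl).t0 (by omega)
      rw [Qf_ac hl]; unfold play; rw [if_pos (by omega)]; omega
    exact h.dec_left (by omega) hl fun u hu hl' => by
      have a := this u (by omega) hl'; have b := this s hs hl; omega
  · refine h.dec_right (k := fb (Rd o i t) - 1) (by omega) hl fun u hu hl' => ?_
    have := ht' (u + 1) (by omega)
    have := (rinv_ac hl').t1 (by omega)
    have := (rinv_ac hl').nm
    rw [Qf_ac hl']; unfold play; rw [if_neg (by omega), if_pos (by omega)]; omega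
  · have : ∀ u, t ≤ u → Lv o u = i → Qf o u = fa (Rd o i t) := by
      intro u hu hl
      have := ht' (u + 1) (by omega)
      have := ht' u hu
      have h1 := hne u hu hl
      rw [← Bool.not_eq_true, ended_iff] at h1
      rw [Qf_ac hl]; unfold play; rw [if_neg (by omega), if_neg (by omega)]; omega
    exact h.dec_left (by omega) hl fun u hu hl' => by rw [this u (by omega) hl', this s hs hl]

end Run

end Pool.Agent.Lib.MP_d69888_lc
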