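import Pool.Agent.Lib.MP_d69888_lc.Defs

/-!
Counting, clocked evaluation, and the passage from a copy of a region to the counts.
-/

namespace Pool.Agent.Lib.MP_d69888_lc

open Pool.Agent.Shared.Type2

@[fun_prop] theorem cnt_td {X : Type} [Rep X] {φ : X → ℕ → Bool} {s : X → ℕ}
    (hφ : TD fun y : X × ℕ => φ y.1 y.2) (hs : TD s) : TD fun x => cnt (φ x) (s x) := by
  have h1 : TD fun y : X × ℕ × ℕ => φ y.1 y.2.1 :=
    hφ.comp' (f := fun y : X × ℕ × ℕ => (y.1, y.2.1)) (by fun_prop)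
  exact TD.nrec' (h := fun x a k => cond (φ x a) (k + 1) k) hs (TD.const 0)
    (h1.cond' (by fun_prop) (by fun_prop))

@[fun_prop] theorem ctr_td {X : Type} [Rep X] {φ : X → ℕ → ℕ → Bool} {s : X → ℕ}
    (hφ : TD fun y : X × ℕ × ℕ => φ y.1 y.2.1 y.2.2) (hs : TD s) :
    TD fun x => ctr (φ x) (s x) := by
  have h1 : TD fun y : X × ℕ × ℕ => φ y.1 y.2.2 y.2.1 :=
    hφ.comp' (f := fun y : X × ℕ × ℕ => (y.1, y.2.2, y.2.1)) (by fun_prop)
  exact TD.nrec' (h := fun x t k => cond (φ x k t) (k + 1) k) hs (TD.const 0)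
    (h1.cond' (by fun_prop) (by fun_prop))

@[fun_prop] theorem evs_td {X : Type} [Rep X] {c n s : X → ℕ} (hc : TD c) (hn : TD n) (hs : TD s) :
    TD fun x => evs (c x) (n x) (s x) := by
  have : Primrec fun y : ℕ × ℕ × ℕ => evs y.1 y.2.1 y.2.2 :=
    Nat.Partrec.Code.primrec_evaln.comp
      (((Primrec.snd.comp Primrec.snd).pair ((Primrec.ofNat _).comp Primrec.fst)).pair
        (Primrec.fst.comp Primrec.snd))
  exact TD.prim this (hc.pair (hn.pair hs))

theorem mkInp_td {X : Type} [Rep X] {f : X → ℕ → ℕ → Bool} {l r : X → ℕ → ℕ → ℕ → ℕ}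
    (hf : TD fun y : X × ℕ × ℕ => f y.1 y.2.1 y.2.2)
    (hl : TD fun y : X × ℕ × ℕ × ℕ => l y.1 y.2.1 y.2.2.1 y.2.2.2)
    (hr : TD fun y : X × ℕ × ℕ × ℕ => r y.1 y.2.1 y.2.2.1 y.2.2.2) :
    TD fun x => mkInp (f x) (l x) (r x) := by
  have h1 := hf.comp' (f := fun y : X × ℕ => (y.1, y.2.unpair.2.unpair.1, y.2.unpair.2.unpair.2))
    (by fun_prop)
  have h3 : TD fun y : X × ℕ => (y.1, y.2.unpair.2.unpair.1, y.2.unpair.2.unpair.2.unpair.1,
    y.2.unpair.2.unpair.2.unpair.2) := by fun_prop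
  exact TD.lam' (TD.ite' (by fun_prop) h1.toNat' (TD.ite' (by fun_prop) (hl.comp' h3) (hr.comp' h3)))

theorem fire_mkInp (f l r i s) : fire (mkInp f l r) i s = f i s := by
  unfold fire mkInp
  cases h : f i s <;> simp [h]

theorem cl_mkInp (f l r i b s) : cl (mkInp f l r) i b s = l i b s := by simp [cl, mkInp]
theorem cr_mkInp (f l r i b s) : cr (mkInp f l r) i b s = r i b s := by simp [cr, mkInp]

theorem evs_mono {c n s t v : ℕ} (hst : s ≤ t) (h : evs c n s = some v) : evs c n t = some v :=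
  Nat.Partrec.Code.evaln_mono hst h

theorem evs_iff {c n v : ℕ} :
    (∃ s, evs c n s = some v) ↔ v ∈ (Denumerable.ofNat Nat.Partrec.Code c).eval n :=
  Nat.Partrec.Code.evaln_complete.symm

theorem exists_decides {P : ℕ × ℕ → Prop} (hP : ComputablePred P) : ∃ c, Decides c P := by
  obtain ⟨inst, hP⟩ := hP
  have h1 : Computable fun n : ℕ => (decide (P n.unpair)).toNat :=
    (Primrec.dom_bool Bool.toNat).to_comp.comp (hP.comp Primrec.unpair.to_comp)
  obtain ⟨c, hc⟩ := Nat.Partrec.Code.exists_code.1 (Partrec.nat_iff.1 h1.partrec)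
  refine ⟨Encodable.encode c, fun ⟨a, b⟩ => ?_⟩
  rw [Denumerable.ofNat_encode, hc]
  constructor <;> intro h <;> simp [h]

theorem Decides.yes {c : ℕ} {P : ℕ × ℕ → Prop} (h : Decides c P) (a b : ℕ) :
    (∃ s, evs c (Nat.pair a b) s = some 1) ↔ P (a, b) := by
  rw [evs_iff]
  refine ⟨fun h1 => by_contra fun h2 => ?_, (h (a, b)).1⟩
  exact absurd (Part.mem_unique h1 ((h (a, b)).2 h2)) (by simp)

theorem Decides.no {c : ℕ} {P : ℕ × ℕ → Prop} (h : Decides c P) (a b : ℕ) :
    (∃ s, evs c (Nat.pair a b) s = some 0) ↔ ¬ P (a, b) := by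
  rw [evs_iff]
  refine ⟨fun h1 h2 => ?_, (h (a, b)).2⟩
  exact absurd (Part.mem_unique h1 ((h (a, b)).1 h2)) (by simp)

theorem ctr_succ (φ : ℕ → ℕ → Bool) (s : ℕ) :
    ctr φ (s + 1) = cond (φ (ctr φ s) s) (ctr φ s + 1) (ctr φ s) := rfl

theorem ctr_fire {φ : ℕ → ℕ → Bool} (hφ : ∀ j s, φ j s = true → φ j (s + 1) = true) :
    (∀ s₀, ∃ s, s₀ ≤ s ∧ φ (ctr φ s) s = true) ↔ ∀ j, ∃ s, φ j s = true := by
  have mono : Monotone (ctr φ) := monotone_nat_of_le_succ fun s => by
    rw [ctr_succ]; cases φ (ctr φ s) s <;> simp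
  have m2 : ∀ j s t, s ≤ t → φ j s = true → φ j t = true := fun j s t hst h => by
    induction t, hst using Nat.le_induction with
    | base => exact h
    | succ t _ ih => exact hφ _ _ ih
  constructor
  · intro h
    have h1 : ∀ s j, j < ctr φ s → ∃ t, φ j t = true := by
      intro s
      induction s with
      | zero => intro j hj; exact absurd hj (Nat.not_lt_zero _)
      | succ s ih =>
        intro j hj
        rw [ctr_succ] at hj
        cases hc : φ (ctr φ s) s <;> rw [hc] at hj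
        · exact ih j hj
        · rcases Nat.lt_succ_iff_lt_or_eq.1 hj with h | rfl
          · exact ih j h
          · exact ⟨s, hc⟩
    have h2 : ∀ k, ∃ s, k ≤ ctr φ s := by
      intro k
      induction k with
      | zero => exact ⟨0, Nat.zero_le _⟩
      | succ k ih =>
        obtain ⟨s, hs⟩ := ih
        obtain ⟨t, ht, ht'⟩ := h s
        refine ⟨t + 1, ?_⟩
        have := mono ht
        rw [ctr_succ, ht']; simp; omega
    intro j
    obtain ⟨s, hs⟩ := h2 (j + 1)
    exact h1 s j hs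
  · intro h s₀
    by_contra hc
    push Not at hc
    have h1 : ∀ s, s₀ ≤ s → ctr φ s = ctr φ s₀ := by
      intro s hs
      induction s, hs using Nat.le_induction with
      | base => rfl
      | succ s hs ih =>
        have := hc s hs
        rw [ctr_succ, Bool.eq_false_iff.2 this]; exact ih
    obtain ⟨s, hs⟩ := h (ctr φ s₀)
    refine hc (s₀ + s) (by omega) ?_
    rw [h1 _ (by omega)]
    exact m2 _ _ _ (by omega) hs

theorem cnt_eq (φ : ℕ → Bool) (s : ℕ) :
    cnt φ s = ((Finset.range s).filter fun a => φ a = true).card := by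
  induction s with
  | zero => rfl
  | succ s ih =>
    have : cnt φ (s + 1) = cond (φ s) (cnt φ s + 1) (cnt φ s) := rfl
    rw [this, Finset.range_add_one, Finset.filter_insert, ih]
    cases φ s <;> simp

section

variable {φ : ℕ → ℕ → Bool} (m : ∀ a s, φ a s = true → φ a (s + 1) = true)
include m

theorem cnt_mono (s : ℕ) : cnt (fun a => φ a s) s ≤ cnt (fun a => φ a (s + 1)) (s + 1) := by
  rw [cnt_eq, cnt_eq]
  refine Finset.card_le_card fun a ha => ?_
  simp only [Finset.mem_filter, Finset.mem_range] at ha ⊢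
  exact ⟨by omega, m _ _ ha.2⟩

theorem cnt_ge {g : ℕ → ℕ} {n : ℕ} (hg : ∀ k k', k < n → k' < n → g k = g k' → k = k')
    (h : ∀ k, k < n → ∃ s, φ (g k) s = true) : ∃ s, n ≤ cnt (fun a => φ a s) s := by
  have m2 : ∀ j s t, s ≤ t → φ j s = true → φ j t = true := fun j s t hst h => by
    induction t, hst using Nat.le_induction with
    | base => exact h
    | succ t _ ih => exact m _ _ ih
  have : ∃ s, ∀ k, k < n → g k < s ∧ φ (g k) s = true := by
    clear hg
    induction n with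
    | zero => exact ⟨0, fun k hk => absurd hk (Nat.not_lt_zero _)⟩
    | succ n ih =>
      obtain ⟨s, hs⟩ := ih fun k hk => h k (by omega)
      obtain ⟨t, ht⟩ := h n (by omega)
      refine ⟨s + t + g n + 1, fun k hk => ?_⟩
      rcases Nat.lt_succ_iff_lt_or_eq.1 hk with h | rfl
      · exact ⟨by have := (hs k h).1; omega, m2 _ _ _ (by omega) (hs k h).2⟩
      · exact ⟨by omega, m2 _ _ _ (by omega) ht⟩
  obtain ⟨s, hs⟩ := this
  refine ⟨s, ?_⟩
  rw [cnt_eq]
  nth_rw 1 [← Finset.card_range n]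
  refine Finset.card_le_card_of_injOn g (fun k hk => ?_) fun k hk k' hk' => hg k k' ?_ ?_
  · have := hs k (by simpa using hk)
    simpa using this
  · simpa using hk
  · simpa using hk'

end

theorem cnt_le {φ : ℕ → Bool} {s n : ℕ} (g : ℕ → ℕ) (h : ∀ a, φ a = true → g a < n)
    (hg : ∀ a b, φ a = true → φ b = true → g a = g b → a = b) : cnt φ s ≤ n := by
  rw [cnt_eq, ← Finset.card_range n]
  refine Finset.card_le_card_of_injOn g (fun k hk => ?_) fun k hk k' hk' => hg k k' ?_ ?_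
  · simp only [Finset.coe_filter, Set.mem_ofPred_eq] at hk
    simpa using h k hk.2
  · simp only [Finset.coe_filter, Set.mem_ofPred_eq] at hk
    exact hk.2
  · simp only [Finset.coe_filter, Set.mem_ofPred_eq] at hk'
    exact hk'.2

theorem cnt_pos {φ : ℕ → Bool} {s : ℕ} (h : 0 < cnt φ s) : ∃ a, φ a = true := by
  rw [cnt_eq, Finset.card_pos] at h
  obtain ⟨a, ha⟩ := h
  exact ⟨a, (Finset.mem_filter.1 ha).2⟩

theorem hyp_of_copy {o q : B} {i : ℕ} (hs : Seg (EvL q) (EvR 4 q)) (J : ℕ → Prop)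
    (F : ℕ → ℕ ⊕ ℕ) (hinj : ∀ a b, J a → J b → F a = F b → a = b)
    (hval : ∀ a, J a → gval (EvL q) (EvR 4 q) (F a))
    (hsurj : ∀ x, gval (EvL q) (EvR 4 q) x → ∃ a, J a ∧ F a = x)
    (aL aR : ℕ → ℕ → ℕ → Bool)
    (mL : ∀ a b s, aL a b s = true → aL a b (s + 1) = true)
    (mR : ∀ a b s, aR a b s = true → aR a b (s + 1) = true)
    (hJ : ∀ a a' b s s', aL a b s = true → aR a' b s' = true → J b)
    (hL : ∀ a b, J b → ((∃ s, aL a b s = true) ↔ J a ∧ glt (F a) (F b)))
    (hR : ∀ a b, J b → ((∃ s, aR a b s = true) ↔ J a ∧ glt (F b) (F a)))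
    (hcl : ∀ b s, cl o i b s = cnt (fun a => aL a b s) s)
    (hcr : ∀ b s, cr o i b s = cnt (fun a => aR a b s) s) : Hyp o q i := by
  choose! G hG using hsurj
  have low : ∀ b n (x : ℕ → ℕ ⊕ ℕ), J b → Function.Injective x →
      (∀ k, k < n → gval (EvL q) (EvR 4 q) (x k) ∧ glt (x k) (F b)) → ∃ s, n ≤ cl o i b s := by
    intro b n x hb hx h
    simp only [hcl]
    refine cnt_ge (φ := fun a s => aL a b s) (fun a s => mL a b s) (g := fun k => G (x k))
      (fun k k' hk hk' e => hx ?_) fun k hk => (hL _ _ hb).2 ?_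
    · rw [← (hG _ (h k hk).1).2, ← (hG _ (h k' hk').1).2, e]
    · exact ⟨(hG _ (h k hk).1).1, by rw [(hG _ (h k hk).1).2]; exact (h k hk).2⟩
  have high : ∀ b n (x : ℕ → ℕ ⊕ ℕ), J b → Function.Injective x →
      (∀ k, k < n → gval (EvL q) (EvR 4 q) (x k) ∧ glt (F b) (x k)) → ∃ s, n ≤ cr o i b s := by
    intro b n x hb hx h
    simp only [hcr]
    refine cnt_ge (φ := fun a s => aR a b s) (fun a s => mR a b s) (g := fun k => G (x k))
      (fun k k' hk hk' e => hx ?_) fun k hk => (hR _ _ hb).2 ?_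
    · rw [← (hG _ (h k hk).1).2, ← (hG _ (h k' hk').1).2, e]
    · exact ⟨(hG _ (h k hk).1).1, by rw [(hG _ (h k hk).1).2]; exact (h k hk).2⟩
  have m1 : ∀ b s, cl o i b s ≤ cl o i b (s + 1) := fun b s => by
    rw [hcl, hcl]; exact cnt_mono (φ := fun a s => aL a b s) (fun a s => mL a b s) s
  have m2 : ∀ b s, cr o i b s ≤ cr o i b (s + 1) := fun b s => by
    rw [hcr, hcr]; exact cnt_mono (φ := fun a s => aR a b s) (fun a s => mR a b s) s
  have highL : ∀ b l K, J b → F b = .inl l → ∃ s, K ≤ cr o i b s := by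
    intro b l K hb e
    rcases hs.inf with h | h
    · exact high b K (fun k => .inl (l + 1 + k)) hb (fun k k' e => by simpa using e)
        fun k _ => ⟨h _, by rw [e]; change l < _; omega⟩
    · exact high b K (fun k => .inr k) hb (fun k k' e => by simpa using e)
        fun k _ => ⟨h _, by rw [e]; trivial⟩
  have lowR : ∀ b r K, J b → F b = .inr r → ∃ s, K ≤ cl o i b s := by
    intro b r K hb e
    rcases hs.inf with h | h
    · exact low b K (fun k => .inl k) hb (fun k k' e => by simpa using e)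
        fun k _ => ⟨h _, by rw [e]; trivial⟩
    · exact low b K (fun k => .inr (r + 1 + k)) hb (fun k k' e => by simpa using e)
        fun k _ => ⟨h _, by rw [e]; change r < _; omega⟩
  refine ⟨m1, m2, fun n m => ?_, fun b ⟨s, h1⟩ ⟨s', h2⟩ => ?_⟩
  · have fin : ∀ b, (∃ s, n ≤ cl o i b s) → (∃ s, m ≤ cr o i b s) →
        ∃ b s, n ≤ cl o i b s ∧ m ≤ cr o i b s := fun b ⟨s, h1⟩ ⟨t, h2⟩ =>
      ⟨b, s + t, h1.trans (monotone_nat_of_le_succ (m1 b) (by omega)),
        h2.trans (monotone_nat_of_le_succ (m2 b) (by omega))⟩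
    rcases hs.inf with h | h
    · obtain ⟨hb, e⟩ := hG (.inl n) (h n)
      exact fin _ (low _ n (fun k => .inl k) hb (fun k k' e => by simpa using e)
        fun k hk => ⟨h _, by rw [e]; exact hk⟩) (highL _ n m hb e)
    · obtain ⟨hb, e⟩ := hG (.inr m) (h m)
      exact fin _ (lowR _ m n hb e) (high _ m (fun k => .inr k) hb (fun k k' e => by simpa using e)
        fun k hk => ⟨h _, by rw [e]; exact hk⟩)
  · rw [hcl] at h1
    rw [hcr] at h2
    obtain ⟨a, ha⟩ := cnt_pos h1
    obtain ⟨a', ha'⟩ := cnt_pos h2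
    have hb := hJ _ _ _ _ _ ha ha'
    have hv := hval b hb
    rcases e : F b with l | r
    · rw [e] at hv
      refine Or.inl ⟨l, hv, fun s => ?_, fun K => highL b l K hb e⟩
      rw [hcl]
      have key : ∀ a, aL a b s = true → J a ∧ ∃ k, k < l ∧ F a = .inl k := fun a ha => by
        obtain ⟨h1, h2⟩ := (hL a b hb).1 ⟨s, ha⟩
        rw [e] at h2
        refine ⟨h1, ?_⟩
        rcases e' : F a with k | k <;> rw [e'] at h2
        · exact ⟨k, h2, rfl⟩
        · exact h2.elim
      refine cnt_le (fun a => (F a).elim id id) (fun a ha => ?_) fun a a' ha ha' h => ?_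
      · obtain ⟨-, k, hk, e'⟩ := key a ha
        simpa [e'] using hk
      · obtain ⟨j1, k, -, e1⟩ := key a ha
        obtain ⟨j2, k', -, e2⟩ := key a' ha'
        refine hinj _ _ j1 j2 ?_
        simp only [e1, e2, Sum.elim_inl, id] at h
        rw [e1, e2, h]
    · rw [e] at hv
      refine Or.inr ⟨r, hv, fun s => ?_, fun K => lowR b r K hb e⟩
      rw [hcr]
      have key : ∀ a, aR a b s = true → J a ∧ ∃ k, k < r ∧ F a = .inr k := fun a ha => by
        obtain ⟨h1, h2⟩ := (hR a b hb).1 ⟨s, ha⟩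
        rw [e] at h2
        refine ⟨h1, ?_⟩
        rcases e' : F a with k | k <;> rw [e'] at h2
        · exact h2.elim
        · exact ⟨k, h2, rfl⟩
      refine cnt_le (fun a => (F a).elim id id) (fun a ha => ?_) fun a a' ha ha' h => ?_
      · obtain ⟨-, k, hk, e'⟩ := key a ha
        simpa [e'] using hk
      · obtain ⟨j1, k, -, e1⟩ := key a ha
        obtain ⟨j2, k', -, e2⟩ := key a' ha'
        refine hinj _ _ j1 j2 ?_
        simp only [e1, e2, Sum.elim_inr, id] at h
        rw [e1, e2, h]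

end Pool.Agent.Lib.MP_d69888_lc
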