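import Pool.Agent.Lib.MP_d69888_lc.Seg

/-!
The comb: trees `V n` grafted at the nodes `1^n 0`.
-/

namespace Pool.Agent.Lib.MP_d69888_lc

/-- Number of leading ones. -/
def lead (σ : List Bool) : ℕ := σ.foldr (fun b k => cond b (k + 1) 0) 0

/-- The node `1^n 0 τ`. -/
def nd (n : ℕ) (τ : List Bool) : List Bool := List.replicate n true ++ false :: τ

def Comb (V : ℕ → Set (List Bool)) : Set (List Bool) := {σ | σ.drop (lead σ + 1) ∈ V (lead σ)}

/-- The sequence `1^n 0 g`. -/
def gr (n : ℕ) (g : ℕ → Bool) : ℕ → Bool :=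
  fun i => if i < n then true else if i = n then false else g (i - (n + 1))

theorem lead_rep (n : ℕ) : lead (List.replicate n true) = n := by
  induction n with
  | zero => rfl
  | succ n ih =>
    rw [List.replicate_succ]
    change lead (List.replicate n true) + 1 = n + 1
    rw [ih]

theorem lead_nd (n : ℕ) (τ : List Bool) : lead (nd n τ) = n := by
  induction n with
  | zero => rfl
  | succ n ih =>
    unfold nd
    rw [List.replicate_succ]
    change lead (nd n τ) + 1 = n + 1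
    rw [ih]

theorem drop_nd (n : ℕ) (τ : List Bool) : (nd n τ).drop (n + 1) = τ := by
  induction n with
  | zero => rfl
  | succ n ih =>
    unfold nd
    rw [List.replicate_succ]
    exact ih

theorem nd_length (n : ℕ) (τ : List Bool) : (nd n τ).length = n + 1 + τ.length := by
  simp [nd]; omega

theorem nd_append (n : ℕ) (τ ρ : List Bool) : nd n τ ++ ρ = nd n (τ ++ ρ) := by simp [nd]

theorem nd_inj {n m : ℕ} {τ ρ : List Bool} (h : nd n τ = nd m ρ) : n = m ∧ τ = ρ := by
  have h1 : n = m := by rw [← lead_nd n τ, h, lead_nd]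
  subst h1
  exact ⟨rfl, by rw [← drop_nd n τ, h, drop_nd]⟩

theorem node_cases (σ : List Bool) :
    (∃ n, σ = List.replicate n true) ∨ ∃ n τ, σ = nd n τ := by
  induction σ with
  | nil => exact Or.inl ⟨0, rfl⟩
  | cons b σ ih =>
    cases b with
    | false => exact Or.inr ⟨0, σ, rfl⟩
    | true =>
      rcases ih with ⟨n, rfl⟩ | ⟨n, τ, rfl⟩
      · exact Or.inl ⟨n + 1, rfl⟩
      · exact Or.inr ⟨n + 1, τ, rfl⟩

theorem pre_rep {σ : List Bool} {n : ℕ} (h : σ <+: List.replicate n true) :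
    σ = List.replicate σ.length true := by
  rw [List.eq_replicate_iff]
  exact ⟨rfl, fun b hb => List.eq_of_mem_replicate (h.subset hb)⟩

theorem pre_nd {σ τ : List Bool} {n : ℕ} (h : σ <+: nd n τ) :
    (∃ m, σ = List.replicate m true) ∨ ∃ ρ, ρ <+: τ ∧ σ = nd n ρ := by
  rcases node_cases σ with h1 | ⟨m, ρ, rfl⟩
  · exact Or.inl h1
  · obtain ⟨u, hu⟩ := h
    rw [nd_append] at hu
    obtain ⟨rfl, rfl⟩ := nd_inj hu
    exact Or.inr ⟨ρ, List.prefix_append _ _, rfl⟩

theorem nd_pre {n : ℕ} {ρ τ : List Bool} (h : ρ <+: τ) : nd n ρ <+: nd n τ := by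
  obtain ⟨u, rfl⟩ := h
  rw [← nd_append]
  exact List.prefix_append _ _

theorem lex_nd_lt {n m : ℕ} (h : n < m) (τ ρ : List Bool) :
    List.Lex (· < ·) (nd n τ) (nd m ρ) := by
  obtain ⟨k, rfl⟩ := Nat.exists_eq_add_of_lt h
  have : nd (n + k + 1) ρ = List.replicate n true ++ true :: nd k ρ := by
    unfold nd
    rw [show n + k + 1 = n + (k + 1) by omega, ← List.replicate_append_replicate,
      List.replicate_succ]
    simp
  rw [this]
  unfold nd
  rw [lex_left]
  exact List.Lex.rel (by decide)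

theorem lex_nd {n : ℕ} {τ ρ : List Bool} (h : List.Lex (· < ·) τ ρ) :
    List.Lex (· < ·) (nd n τ) (nd n ρ) := by
  unfold nd
  rw [lex_left]
  exact List.Lex.cons h

variable {V : ℕ → Set (List Bool)}

theorem rep_mem (hV : ∀ n, IsTree (V n)) (n : ℕ) : List.replicate n true ∈ Comb V := by
  change List.drop _ _ ∈ V _
  rw [lead_rep, List.drop_eq_nil_of_le (by simp)]
  exact (hV n).root

theorem nd_mem {n : ℕ} {τ : List Bool} : nd n τ ∈ Comb V ↔ τ ∈ V n := by
  change List.drop _ _ ∈ V _ ↔ _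
  rw [lead_nd, drop_nd]

theorem comb_tree (hV : ∀ n, IsTree (V n)) : IsTree (Comb V) := by
  refine ⟨fun σ τ hτ h => ?_, rep_mem hV 0, fun σ hσ => ?_⟩
  · rcases node_cases τ with ⟨n, rfl⟩ | ⟨n, τ, rfl⟩
    · rw [pre_rep h]; exact rep_mem hV _
    · rcases pre_nd h with ⟨m, rfl⟩ | ⟨ρ, h1, rfl⟩
      · exact rep_mem hV _
      · exact nd_mem.2 ((hV n).closed _ _ (nd_mem.1 hτ) h1)
  · rcases node_cases σ with ⟨n, rfl⟩ | ⟨n, τ, rfl⟩
    · right
      rw [← List.replicate_succ']
      exact rep_mem hV _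
    · rw [nd_append, nd_append, nd_mem, nd_mem]
      exact (hV n).live _ (nd_mem.1 hσ)

theorem seg_gr_le {n t : ℕ} (g : ℕ → Bool) (h : t ≤ n) :
    seg (gr n g) t = List.replicate t true := by
  induction t with
  | zero => rfl
  | succ t ih =>
    rw [seg_succ, ih (by omega), List.replicate_succ']
    simp [gr, show t < n by omega]

theorem seg_gr (n : ℕ) (g : ℕ → Bool) (t : ℕ) : seg (gr n g) (n + 1 + t) = nd n (seg g t) := by
  induction t with
  | zero =>
    rw [seg_succ, seg_gr_le g le_rfl]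
    simp [gr, nd]
  | succ t ih =>
    rw [← Nat.add_assoc, seg_succ, ih, seg_succ, nd_append]
    have h1 : ¬ n + 1 + t < n := by omega
    have h2 : n + 1 + t ≠ n := by omega
    simp [gr, h1, h2]

theorem gr_inj (n : ℕ) : Function.Injective (gr n) := by
  intro g g' h
  funext i
  have := congrFun h (n + 1 + i)
  have h1 : ¬ n + 1 + i < n := by omega
  have h2 : n + 1 + i ≠ n := by omega
  simpa [gr, h1, h2] using this

theorem eq_gr {n : ℕ} {f : ℕ → Bool} (h : seg f (n + 1) = nd n []) :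
    f = gr n fun i => f (n + 1 + i) := by
  have h0 := (seg_gr n (fun i => f (n + 1 + i)) 0)
  rw [seg_zero, ← h, Nat.add_zero] at h0
  funext i
  by_cases hi : i < n + 1
  · exact (seg_eq_iff.1 h0 i hi).symm
  · have h1 : ¬ i < n := by omega
    have h2 : i ≠ n := by omega
    have h3 : n + 1 + (i - (n + 1)) = i := by omega
    simp [gr, h1, h2, h3]

theorem gr_path (hV : ∀ n, IsTree (V n)) {n : ℕ} {g : ℕ → Bool} :
    IsPath (Comb V) (gr n g) ↔ IsPath (V n) g := by
  constructor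
  · intro h t
    have := h (n + 1 + t)
    rwa [seg_gr, nd_mem] at this
  · intro h t
    refine (comb_tree hV).closed _ _ (?_ : seg (gr n g) (n + 1 + t) ∈ _) (seg_pre _ (by omega))
    rw [seg_gr, nd_mem]
    exact h t

theorem gr_cone (hV : ∀ n, IsTree (V n)) {n : ℕ} {τ : List Bool} {g : ℕ → Bool} :
    gr n g ∈ Cone (Comb V) (nd n τ) ↔ g ∈ Cone (V n) τ := by
  unfold Cone
  simp only [Set.mem_ofPred_eq]
  rw [gr_path hV, nd_length, seg_gr]
  exact and_congr Iff.rfl ⟨fun h => (nd_inj h).2, fun h => by rw [h]⟩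

theorem cone_gr {T : Set (List Bool)} {n : ℕ} {τ : List Bool} {f : ℕ → Bool}
    (h : f ∈ Cone T (nd n τ)) : ∃ g, f = gr n g := by
  refine ⟨_, eq_gr ?_⟩
  have h1 : nd n [] <+: seg f (nd n τ).length := by rw [h.2]; exact nd_pre List.nil_prefix
  have h2 := pre_seg h1
  rw [nd_length] at h2
  exact h2.symm

theorem cone_eq (hV : ∀ n, IsTree (V n)) (n : ℕ) (τ : List Bool) :
    Cone (Comb V) (nd n τ) = gr n '' Cone (V n) τ := by
  ext f
  constructor
  · intro h
    obtain ⟨g, rfl⟩ := cone_gr h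
    exact ⟨g, (gr_cone hV).1 h, rfl⟩
  · rintro ⟨g, h, rfl⟩
    exact (gr_cone hV).2 h

theorem perfect_nd (hV : ∀ n, IsTree (V n)) (n : ℕ) (τ : List Bool) :
    Perfect (Cone (Comb V) (nd n τ)) ↔ Perfect (Cone (V n) τ) := by
  rw [perfect_iff, perfect_iff]
  constructor
  · intro h g hg t
    obtain ⟨f', h1, h2, h3⟩ := h _ ((gr_cone hV).2 hg) (n + 1 + t)
    obtain ⟨g', rfl⟩ := cone_gr h1
    rw [seg_gr, seg_gr] at h2
    exact ⟨g', (gr_cone hV).1 h1, (nd_inj h2).2, fun h => h3 (by rw [h])⟩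
  · intro h f hf t
    obtain ⟨g, rfl⟩ := cone_gr hf
    obtain ⟨g', h1, h2, h3⟩ := h _ ((gr_cone hV).1 hf) t
    refine ⟨gr n g', (gr_cone hV).2 h1, ?_, fun h => h3 (gr_inj n h)⟩
    have h4 : seg (gr n g') (n + 1 + t) = seg (gr n g) (n + 1 + t) := by
      rw [seg_gr, seg_gr, h2]
    exact seg_eq_iff.2 fun i hi => seg_eq_iff.1 h4 i (by omega)

theorem single_nd (hV : ∀ n, IsTree (V n)) (n : ℕ) (τ : List Bool) :
    (∃ f, Cone (Comb V) (nd n τ) = {f}) ↔ ∃ g, Cone (V n) τ = {g} := by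
  rw [cone_eq hV]
  constructor
  · rintro ⟨f, hf⟩
    have : f ∈ gr n '' Cone (V n) τ := by rw [hf]; rfl
    obtain ⟨g, -, rfl⟩ := this
    refine ⟨g, Set.image_injective.2 (gr_inj n) ?_⟩
    rw [hf, Set.image_singleton]
  · rintro ⟨g, hg⟩
    exact ⟨gr n g, by rw [hg, Set.image_singleton]⟩

theorem inS_nd (hV : ∀ n, IsTree (V n)) (n : ℕ) (τ : List Bool) :
    InS (Comb V) (nd n τ) ↔ InS (V n) τ := by
  unfold InS
  rw [nd_mem, perfect_nd hV, single_nd hV]

theorem not_inS_rep (hV : ∀ n, IsTree (V n))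
    (hiso : ∀ n, ∃ m g, n ≤ m ∧ Cone (V m) [] = {g}) (n : ℕ) :
    ¬ InS (Comb V) (List.replicate n true) := by
  obtain ⟨m, g, hm, hg⟩ := hiso n
  have hg0 : g ∈ Cone (V m) [] := by rw [hg]; rfl
  have h1 : gr m g ∈ Cone (Comb V) (List.replicate n true) :=
    ⟨(gr_path hV).2 hg0.1, by rw [List.length_replicate, seg_gr_le g hm]⟩
  rintro ⟨-, h | ⟨f, hf⟩⟩
  · obtain ⟨f', h2, h3, h4⟩ := perfect_iff.1 h _ h1 (m + 1 + 0)
    rw [seg_gr] at h3
    have h5 : f' ∈ Cone (Comb V) (nd m []) := ⟨h2.1, by rw [nd_length]; exact h3⟩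
    rw [cone_eq hV, hg, Set.image_singleton] at h5
    exact h4 h5
  · have hs : ∀ t, seg (fun _ => true) t = List.replicate t true := fun t => by simp [seg]
    have h2 : (fun _ => true) ∈ Cone (Comb V) (List.replicate n true) :=
      ⟨fun t => by rw [hs]; exact rep_mem hV t, by rw [List.length_replicate, hs]⟩
    rw [hf] at h1 h2
    have h3 := congrFun (h1.trans h2.symm) m
    simp [gr] at h3

theorem inM_comb (hV : ∀ n, IsTree (V n))
    (hiso : ∀ n, ∃ m g, n ≤ m ∧ Cone (V m) [] = {g}) (σ : List Bool) :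
    InM (Comb V) σ ↔ ∃ n τ, σ = nd n τ ∧ InM (V n) τ := by
  constructor
  · rintro ⟨h1, h2⟩
    rcases node_cases σ with ⟨n, rfl⟩ | ⟨n, τ, rfl⟩
    · exact absurd h1 (not_inS_rep hV hiso n)
    · refine ⟨n, τ, rfl, (inS_nd hV n τ).1 h1, fun ρ h3 h4 h5 => ?_⟩
      exact h2 (nd n ρ) (nd_pre h3) (fun h => h4 (nd_inj h).2) ((inS_nd hV n ρ).2 h5)
  · rintro ⟨n, τ, rfl, h1, h2⟩
    refine ⟨(inS_nd hV n τ).2 h1, fun ρ h3 h4 h5 => ?_⟩
    rcases pre_nd h3 with ⟨m, rfl⟩ | ⟨ρ, h6, rfl⟩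
    · exact not_inS_rep hV hiso m h5
    · exact h2 ρ h6 (fun h => h4 (by rw [h])) ((inS_nd hV n ρ).1 h5)

theorem path_split (f : ℕ → Bool) : (f = fun _ => true) ∨ ∃ n g, f = gr n g := by
  by_cases h : ∃ n, f n = false
  · right
    classical
    refine ⟨Nat.find h, _, eq_gr ?_⟩
    have h1 : ∀ t, t ≤ Nat.find h → seg f t = List.replicate t true := by
      intro t ht
      induction t with
      | zero => rfl
      | succ t ih =>
        have := Nat.find_min h (show t < Nat.find h by omega)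
        rw [seg_succ, ih (by omega), List.replicate_succ']
        simp at this
        rw [this]
    rw [seg_succ, h1 _ le_rfl, Nat.find_spec h]
    rfl
  · left
    funext n
    by_contra h1
    exact h ⟨n, by simpa using h1⟩

theorem lim_gr {n : ℕ} {g : ℕ → Bool} (h : LimitComputable g) : LimitComputable (gr n g) := by
  obtain ⟨G, hG, hl⟩ := h
  refine ⟨fun i s => cond (decide (i < n)) true (cond (decide (i = n)) false (G (i - (n + 1)) s)),
    ?_, fun i => ?_⟩
  · refine Computable.cond ?_ (Computable.const _) (Computable.cond ?_ (Computable.const _) ?_)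
    · exact (Primrec.nat_lt.decide.comp Primrec.fst (Primrec.const n)).to_comp
    · exact (Primrec.eq.decide.comp Primrec.fst (Primrec.const n)).to_comp
    · exact hG.comp (Primrec.nat_sub.comp Primrec.fst (Primrec.const _)).to_comp Computable.snd
  · obtain ⟨s₀, hs⟩ := hl (i - (n + 1))
    refine ⟨s₀, fun s h => ?_⟩
    simp only [gr, hs s h]
    split_ifs with h1 h2 <;> simp [*]

end Pool.Agent.Lib.MP_d69888_lc
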