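import Pool.Agent.Lib.MP_d69888_lc.Reg
import Pool.Agent.Lib.MP_d69888_lc.Cnt

/-!
Complexity of the paths of a region tree.
-/

namespace Pool.Agent.Lib.MP_d69888_lc

open Pool.Agent.Shared.Type2

variable {p : B} {f : ℕ → Bool} {g : ℕ → ℕ}

theorem cnt_congr {φ ψ : ℕ → Bool} {s : ℕ} (h : ∀ a, a < s → φ a = ψ a) : cnt φ s = cnt ψ s := by
  rw [cnt_eq, cnt_eq]
  congr 1
  exact Finset.filter_congr fun a ha => by rw [h a (Finset.mem_range.1 ha)]

theorem td_const {X : Type} [Rep X] {o : B} (ho : Computable o) : TD fun _ : X => o :=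
  TD.lam' (F := fun _ => o) ((TD.nat_nat ho).comp' (TD.snd TD.id'))

theorem path_cases (hp : Ok 0 p) (h : OG 0 p) (hc : Computable p) (hf : IsPath (RT p) f) :
    Computable f ∨ ∃ E : ℕ → Bool, (∀ y, (E y = true → LB 0 p y) ∧ (E y = false → RB 0 p y)) ∧
      ∀ s, f s = (decide (cnt E s = p s) && E s) := by
  obtain ⟨g, hg⟩ := exists_trk hp hf
  by_cases h1 : ∃ t, ∀ s, t ≤ s → f s = false
  · obtain ⟨t, ht⟩ := h1
    exact Or.inl (comp_of_ev (Computable.const false) ht)
  by_cases h2 : ∃ t, ∀ s, t ≤ s → g s = p s → f s = true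
  · obtain ⟨t, ht⟩ := h2
    left
    let G : ℕ → ℕ := fun d => nrec d (g t) fun i y => up (ap p (t + i)) y
    have hG : ∀ d, G d = g (t + d) := by
      intro d
      induction d with
      | zero => rfl
      | succ d ih =>
        change up (p (t + d)) (G d) = g (t + d + 1)
        have a := hg.step hp (t + d)
        have b := ht (t + d) (by omega)
        rw [ih]; unfold up
        cases hfd : f (t + d) <;> simp [hfd] at a b <;> split_ifs <;> omega
    have tp : ∀ (X : Type) [Rep X], TD fun _ : X => p := fun X _ => td_const hc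
    have tG : TD G := by
      have := tp (ℕ × ℕ × ℕ)
      exact TD.nrec' TD.id' (TD.const _) (by fun_prop)
    have tf : TD fun s => decide (G (s - t) = ap p s) := by
      have := tp ℕ
      fun_prop
    refine comp_of_ev tf.computable (t := t) fun s hs => ?_
    rw [hG, show t + (s - t) = s by omega, ap_def]
    have a := hg.step hp s
    have b := ht s hs
    cases hfd : f s <;> simp [hfd] at a b ⊢ <;> omega
  right
  push Not at h1 h2
  have s1 : ∀ t, ∃ s, t ≤ s ∧ g s = p s ∧ g (s + 1) = g s + 1 := fun t => by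
    obtain ⟨s, hs, hs'⟩ := h1 t
    have a := hg.step hp s
    exact ⟨s, hs, by simp [hs'] at a; omega⟩
  have s2 : ∀ t, ∃ s, t ≤ s ∧ g s = p s ∧ g (s + 1) = g s := fun t => by
    obtain ⟨s, hs, hs', hs''⟩ := h2 t
    have a := hg.step hp s
    exact ⟨s, hs, by simp [hs''] at a; omega⟩
  have sp : Spl p g := fun t => by
    obtain ⟨s, a, b, -⟩ := s1 t
    exact ⟨s, a, b⟩
  have pn : ∀ s, pos 0 p s (s + 1) = p s := fun s => by
    simpa using pos_new (c := 0) (p := p) s
  refine ⟨fun y => decide (p y < g (y + 1)), fun y => ⟨fun e => ?_, fun e => ?_⟩, fun s => ?_⟩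
  · have e' : pos 0 p y (y + 1) < g (y + 1) := by rw [pn]; simpa using e
    by_contra hn
    obtain ⟨s, a, b, c⟩ := s1 (y + 1)
    have l1 := (hg.side hp (Nat.lt_add_one y) a).2 e'
    have l2 := pos_old (c := 0) (p := p) (b := y) (s := s) (by omega)
    have l3 : pos 0 p y (s + 1) < pos 0 p s (s + 1) := by
      rw [pn, l2]; unfold up; split_ifs <;> omega
    have := h y s hn (hg.not_RB hp sp (Nat.lt_add_one y) e')
      (fun ⟨K, hK⟩ => hn ⟨K, fun u hu => by
        have := pos_mono (p := p) hu (t := u + s + 1) (by omega)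
        have := (pos_lt_pos (c := 0) (p := p) (a := y) (b := s) (s := s + 1) (t := u + s + 1)
          (by omega) (by omega) (by omega)).2 l3
        have := hK (u + s + 1) (by omega)
        omega⟩)
      (hg.not_RB hp sp (Nat.lt_add_one s) (by rw [pn]; omega))
    omega
  · have e' : g (y + 1) ≤ pos 0 p y (y + 1) := by rw [pn]; simpa using e
    by_contra hn
    obtain ⟨s, a, b, c⟩ := s2 (y + 1)
    have l1 := hg.side hp (Nat.lt_add_one y) a
    have l2 := pos_old (c := 0) (p := p) (b := y) (s := s) (by omega)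
    have l3 : pos 0 p s (s + 1) < pos 0 p y (s + 1) := by
      rw [pn, l2]; unfold up; split_ifs <;> omega
    have := h y s (hg.not_LB hp sp (Nat.lt_add_one y) e') hn
      (hg.not_LB hp sp (Nat.lt_add_one s) (by rw [pn]; omega))
      (fun ⟨K, hK⟩ => hn ⟨K, fun u hu => by
        have := rpos_mono (p := p) hu (t := u + s + 1) (by omega)
        have := (pos_lt_pos (c := 0) (p := p) (a := s) (b := y) (s := s + 1) (t := u + s + 1)
          (by omega) (by omega) (by omega)).2 l3
        have := hK (u + s + 1) (by omega)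
        omega⟩)
    omega
  · have key : ∀ s, cnt (fun y => decide (p y < g (y + 1))) s = g s := by
      intro s
      induction s with
      | zero => have := (hg 0).1; change 0 = g 0; omega
      | succ s ih =>
        change cond (decide (p s < g (s + 1))) (cnt _ s + 1) (cnt _ s) = _
        have a := hg.step hp s
        rw [ih]
        by_cases c : p s < g (s + 1) <;> simp [c] <;> omega
    rw [key]
    have a := hg.step hp s
    cases hfd : f s <;> simp [hfd] at a ⊢ <;> omega

theorem RT_comp (hp : Ok 0 p) (h : OG 0 p) (hc : Computable p) {D : ℕ → Bool} (hD : Computable D)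
    (hD' : ∀ y, LB 0 p y ∨ RB 0 p y → (D y = true ↔ LB 0 p y))
    (hf : IsPath (RT p) f) : Computable f := by
  rcases path_cases hp h hc hf with h1 | ⟨E, h1, h2⟩
  · exact h1
  have e : E = D := funext fun y => by
    cases hE : E y
    · have a := (h1 y).2 hE
      exact (Bool.eq_false_iff.2 fun b => not_LB_RB ((hD' y (Or.inr a)).1 b) a).symm
    · have a := (h1 y).1 hE
      exact ((hD' y (Or.inl a)).2 a).symm
  subst e
  have tE : TD E := TD.of_computable hD
  have tp : TD p := TD.nat_nat hc
  have : TD fun s => (decide (cnt E s = p s) && E s) :=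
    (TD.decide_eq (cnt_td (φ := fun _ => E) (tE.comp' (TD.snd TD.id')) TD.id') tp).and' tE
  exact this.computable.of_eq fun s => (h2 s).symm

theorem RT_limit (hp : Ok 0 p) (h : OG 0 p) (hc : Computable p) (hf : IsPath (RT p) f) :
    LimitComputable f := by
  rcases path_cases hp h hc hf with h1 | ⟨E, h1, h2⟩
  · exact lim_of_comp h1
  let D : ℕ → ℕ → Bool := fun y t => decide (pos 0 p y t < ap p t)
  have tD : TD fun z : ℕ × ℕ => D z.1 z.2 := by
    have : TD fun _ : ℕ × ℕ => p := td_const hc
    unfold D; fun_prop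
  have tp : TD p := TD.nat_nat hc
  have t1 : TD fun z : ℕ × ℕ => (decide (cnt (fun y => D y z.2) z.1 = p z.1) && D z.1 z.2) :=
    (TD.decide_eq (cnt_td (φ := fun (z : ℕ × ℕ) y => D y z.2)
      (tD.comp' (f := fun w : (ℕ × ℕ) × ℕ => (w.2, w.1.2)) (by fun_prop)) (by fun_prop))
      (tp.comp' (TD.fst TD.id'))).and' tD
  have lim : ∀ y, ∃ t, ∀ u, t ≤ u → D y u = E y := by
    intro y
    cases hE : E y
    · obtain ⟨t, ht⟩ := ((h1 y).2 hE).ev
      exact ⟨t, fun u hu => decide_eq_false (not_lt.2 (ht u hu))⟩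
    · obtain ⟨t, ht⟩ := ((h1 y).1 hE).ev
      exact ⟨t, fun u hu => decide_eq_true (ht u hu)⟩
  have lim2 : ∀ n, ∃ t, ∀ u, t ≤ u → ∀ y, y < n → D y u = E y := by
    intro n
    induction n with
    | zero => exact ⟨0, fun _ _ _ h => absurd h (Nat.not_lt_zero _)⟩
    | succ n ih =>
      obtain ⟨t, ht⟩ := ih
      obtain ⟨t', ht'⟩ := lim n
      refine ⟨t + t', fun u hu y hy => ?_⟩
      rcases Nat.lt_succ_iff_lt_or_eq.1 hy with a | rfl
      · exact ht u (by omega) y a
      · exact ht' u (by omega)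
  refine ⟨fun n t => (decide (cnt (fun y => D y t) n = p n) && D n t), t1.computable, fun n => ?_⟩
  obtain ⟨t, ht⟩ := lim2 (n + 1)
  refine ⟨t, fun u hu => ?_⟩
  simp only
  rw [h2 n, ht u hu n (by omega), cnt_congr (ψ := E) fun a ha => ht u hu a (by omega)]

end Pool.Agent.Lib.MP_d69888_lc
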