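import Pool.Agent.Lib.MP_d69888_lc.Build
import Pool.Agent.Lib.MP_d69888_lc.RegPath

/-!
No iterated limit of a computable function finds copies of `L(T)` for all trees with computable
paths.
-/

namespace Pool.Agent.Lib.MP_d69888_lc

open Pool.Agent.Shared.Type2 Encodable

/-- Stage `s` evidence for instance `j` of: from `s₀` on the inner limit is `k`. -/
def idxPhi (G : ℕ × ℕ × ℕ → ℕ) (c i j s : ℕ) : Bool :=
  (List.range s).any fun t => decide (j.unpair.2 ≤ t) &&
    decide (G (c, i.unpair.2 + j.unpair.1, t) = i.unpair.1)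

def yesB (k a b s : ℕ) : Bool := decide (evs k (Nat.pair a b) s = some 1)

@[fun_prop] theorem yesB_td {X : Type} [Rep X] {k a b s : X → ℕ} (hk : TD k) (ha : TD a)
    (hb : TD b) (hs : TD s) : TD fun x => yesB (k x) (a x) (b x) (s x) := by
  unfold yesB; fun_prop

theorem yesB_mono {k a b s : ℕ} (h : yesB k a b s = true) : yesB k a b (s + 1) = true :=
  decide_eq_true (evs_mono (by omega) (of_decide_eq_true h))

def idxInp (G : ℕ × ℕ × ℕ → ℕ) (c : ℕ) : B :=
  mkInp (fun i s => idxPhi G c i (ctr (idxPhi G c i) s) s)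
    (fun i b s => cnt (fun a => yesB i.unpair.1 a b s) s)
    (fun i b s => cnt (fun a => yesB i.unpair.1 b a s) s)

theorem idxInp_td {G : ℕ × ℕ × ℕ → ℕ} (hG : Computable G) : TD (idxInp G) := by
  have tG : TD G := TD.of_computable hG
  have t1 : TD fun y : ℕ × ℕ × ℕ × ℕ => idxPhi G y.1 y.2.1 y.2.2.1 y.2.2.2 := by
    unfold idxPhi; fun_prop
  have t2 : TD fun y : ℕ × ℕ × ℕ => ctr (idxPhi G y.1 y.2.1) y.2.2 :=
    ctr_td (φ := fun y : ℕ × ℕ × ℕ => idxPhi G y.1 y.2.1)
      (t1.comp' (f := fun z : (ℕ × ℕ × ℕ) × ℕ × ℕ => (z.1.1, z.1.2.1, z.2.1, z.2.2)) (by fun_prop))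
      (by fun_prop)
  refine mkInp_td (f := fun c i s => idxPhi G c i (ctr (idxPhi G c i) s) s)
    (l := fun _ i b s => cnt (fun a => yesB i.unpair.1 a b s) s)
    (r := fun _ i b s => cnt (fun a => yesB i.unpair.1 b a s) s)
    (t1.comp' (f := fun y : ℕ × ℕ × ℕ => (y.1, y.2.1, ctr (idxPhi G y.1 y.2.1) y.2.2, y.2.2))
      (by fun_prop)) ?_ ?_
  · exact cnt_td (φ := fun (y : ℕ × ℕ × ℕ × ℕ) a => yesB y.2.1.unpair.1 a y.2.2.1 y.2.2.2)
      (by fun_prop) (by fun_prop)
  · exact cnt_td (φ := fun (y : ℕ × ℕ × ℕ × ℕ) a => yesB y.2.1.unpair.1 y.2.2.1 a y.2.2.2)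
      (by fun_prop) (by fun_prop)

theorem idx_fire {G : ℕ × ℕ × ℕ → ℕ} {c i : ℕ} : InfFire (idxInp G c) i ↔
    ∀ d u, ∃ t, u ≤ t ∧ G (c, i.unpair.2 + d, t) = i.unpair.1 := by
  unfold InfFire idxInp
  simp only [fire_mkInp]
  rw [ctr_fire (φ := idxPhi G c i)]
  · constructor
    · intro h d u
      obtain ⟨s, hs⟩ := h (Nat.pair d u)
      simp only [idxPhi, Nat.unpair_pair, List.any_eq_true, Bool.and_eq_true,
        decide_eq_true_eq] at hs
      obtain ⟨t, -, ht⟩ := hs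
      exact ⟨t, ht⟩
    · intro h j
      obtain ⟨t, ht⟩ := h j.unpair.1 j.unpair.2
      refine ⟨t + 1, ?_⟩
      simp only [idxPhi, List.any_eq_true, Bool.and_eq_true, decide_eq_true_eq]
      exact ⟨t, by simp, ht⟩
  · intro j s hs
    simp only [idxPhi, List.any_eq_true, List.mem_range] at hs ⊢
    obtain ⟨t, h1, h2⟩ := hs
    exact ⟨t, by omega, h2⟩

theorem fix_tree {I : ℕ → B} (tI : TD I) : ∃ c, Decides c (· ∈ RT (shift (Qf (I c)))) := by
  obtain ⟨P, tP, hP⟩ : ∃ P : ℕ → B, TD P ∧ ∀ c, P c = shift (Qf (I c)) :=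
    ⟨_, shift_td (Qf_td tI), fun _ => rfl⟩
  have t0 : TD fun y : ℕ × ℕ => (decode y.2 : Option (List Bool)).getD [] :=
    (TD.decode' (TD.snd TD.id')).getD' (TD.const [])
  obtain ⟨M, tM, hM⟩ : ∃ M : ℕ × ℕ → ℕ, Computable M ∧ ∀ c n, M (c, n) =
      (memRT (P c) ((decode n : Option (List Bool)).getD [])).toNat :=
    ⟨_, (memRT_td (tP.comp' (TD.fst TD.id')) t0).toNat'.computable, fun _ _ => rfl⟩
  have t2 : Computable fun y : Nat.Partrec.Code × ℕ => M (encode y.1, y.2) :=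
    tM.comp ((Computable.encode.comp Computable.fst).pair Computable.snd)
  obtain ⟨c, hc⟩ := Nat.Partrec.Code.fixed_point₂
    (f := fun c n => Part.some (M (encode c, n))) t2.partrec
  refine ⟨encode c, fun σ => ?_⟩
  rw [Denumerable.ofNat_encode, hc, ← hP]
  have : (decode (encode σ) : Option (List Bool)) = some σ := encodek σ
  simp only [hM, this, Option.getD_some, Part.mem_some_iff, RT, Set.mem_ofPred_eq]
  constructor <;> intro h <;> simp [h]

theorem exists_enum {A C : ℕ → Prop} (hs : Seg A C) : ∃ X : ℕ → ℕ ⊕ ℕ, Function.Injective X ∧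
    (∀ a, gval A C (X a)) ∧ (∀ x, gval A C x → ∃ a, X a = x) ∧
    ComputablePred fun z : ℕ × ℕ => glt (X z.1) (X z.2) := by
  classical
  have key : ∀ (sd : ℕ → Bool) (ix : ℕ → ℕ), TD sd → TD ix → ComputablePred fun z : ℕ × ℕ =>
      glt (cond (sd z.1) (.inr (ix z.1)) (.inl (ix z.1)))
        (cond (sd z.2) (.inr (ix z.2)) (.inl (ix z.2))) := by
    intro sd ix h1 h2
    have : TD fun z : ℕ × ℕ => cond (sd z.1) (sd z.2 && decide (ix z.2 < ix z.1))
        (sd z.2 || decide (ix z.1 < ix z.2)) := by fun_prop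
    refine ⟨fun _ => inferInstance, this.computable.of_eq fun z => ?_⟩
    rcases e1 : sd z.1 <;> rcases e2 : sd z.2 <;> simp [glt, e1, e2]
  have fin : ∀ {P : ℕ → Prop}, (∀ i j, i ≤ j → P j → P i) → (¬ ∀ i, P i) → ∃ m, ∀ i, P i ↔ i < m := by
    intro P hP hn
    push Not at hn
    refine ⟨Nat.find hn, fun i => ⟨fun h => not_le.1 fun c => Nat.find_spec hn (hP _ _ c h),
      fun h => by simpa using Nat.find_min hn h⟩⟩
  by_cases hA : ∀ i, A i <;> by_cases hC : ∀ j, C j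
  · refine ⟨fun a => cond (decide (a % 2 = 1)) (.inr (a / 2)) (.inl (a / 2)), fun a b h => ?_,
      fun a => ?_, fun x _ => ?_,
      key (fun a => decide (a % 2 = 1)) (fun a => a / 2) (by fun_prop) (by fun_prop)⟩
    · by_cases h1 : a % 2 = 1 <;> by_cases h2 : b % 2 = 1 <;> simp [h1, h2] at h <;> omega
    · by_cases h1 : a % 2 = 1 <;> simp [h1, gval, hA, hC]
    · rcases x with i | j
      · exact ⟨2 * i, by simp⟩
      · exact ⟨2 * j + 1, by simp [Nat.add_mod]; omega⟩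
  · obtain ⟨m, hm⟩ := fin hs.dC hC
    refine ⟨fun a => cond (decide (a < m)) (.inr (if a < m then a else a - m))
      (.inl (if a < m then a else a - m)), fun a b h => ?_,
      fun a => ?_, fun x hx => ?_, key (fun a => decide (a < m))
        (fun a => if a < m then a else a - m) (by fun_prop) (by fun_prop)⟩
    · by_cases h1 : a < m <;> by_cases h2 : b < m <;> simp [h1, h2] at h <;> omega
    · by_cases h1 : a < m <;> simp [h1, gval, hA, hm]
    · rcases x with i | j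
      · exact ⟨i + m, by simp⟩
      · exact ⟨j, by simp [(hm j).1 hx]⟩
  · obtain ⟨m, hm⟩ := fin hs.dA hA
    refine ⟨fun a => cond (decide (m ≤ a)) (.inr (if m ≤ a then a - m else a))
      (.inl (if m ≤ a then a - m else a)), fun a b h => ?_,
      fun a => ?_, fun x hx => ?_, key (fun a => decide (m ≤ a))
        (fun a => if m ≤ a then a - m else a) (by fun_prop) (by fun_prop)⟩
    · by_cases h1 : m ≤ a <;> by_cases h2 : m ≤ b <;> simp [h1, h2] at h <;> omega
    · by_cases h1 : m ≤ a <;> simp [h1, gval, hC, hm]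
      omega
    · rcases x with i | j
      · exact ⟨i, by simp [not_le.2 ((hm i).1 hx)]⟩
      · exact ⟨j + m, by simp⟩
  · exact absurd hs.inf (not_or.2 ⟨hA, hC⟩)

theorem RT_presents {p : B} (hp : Ok 0 p) (hog : OG 0 p) : ∃ R : ℕ → ℕ → Prop,
    ComputablePred (fun x : ℕ × ℕ => R x.1 x.2) ∧ Presents (RT p) (fun _ => True) R := by
  obtain ⟨ν, h1, h2⟩ := RT_nodes hp hog
  obtain ⟨X, x1, x2, x3, x4⟩ := exists_enum (seg_of_og hp hog)
  let φ : {_n : ℕ // True} → LPt (RT p) := fun a =>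
    ⟨(ν (X a.1), 0), (h1 _).2 ⟨_, x2 _, rfl⟩, Or.inr rfl⟩
  have hb : Function.Bijective φ := by
    constructor
    · intro a b h
      have e : ν (X a.1) = ν (X b.1) := congrArg (fun y : LPt (RT p) => y.1.1) h
      refine Subtype.ext (x1 ?_)
      rcases glt_tri (X a.1) (X b.1) with c | c | c
      · exact absurd e ((h2 _ _ (x2 _) (x2 _)).1 c).1
      · exact c
      · exact absurd e.symm ((h2 _ _ (x2 _) (x2 _)).1 c).1
    · intro y
      obtain ⟨x, hx, e⟩ := (h1 _).1 y.2.1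
      obtain ⟨a, rfl⟩ := x3 x hx
      exact ⟨⟨a, trivial⟩, Subtype.ext (Prod.ext e
        (y.2.2.resolve_left (RT_not_perfect hp hog y.2.1.1.1)).symm)⟩
  refine ⟨fun a b => glt (X a) (X b), x4, Equiv.ofBijective φ hb, fun a b => ?_⟩
  refine (h2 _ _ (x2 _) (x2 _)).trans ?_
  simp [LLt, φ]

theorem no_index_map (F : ℕ → ℕ) (hF : DoubleLimit F) :
    ∃ (c : ℕ) (T : Set (List Bool)), IsTree T ∧ Decides c (· ∈ T) ∧
      (∀ f, IsPath T f → Computable f) ∧
      (∃ R : ℕ → ℕ → Prop, ComputablePred (fun x : ℕ × ℕ => R x.1 x.2) ∧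
        Presents T (fun _ => True) R) ∧
      ¬ ∃ R : ℕ → ℕ → Prop, Decides (F c) (fun x : ℕ × ℕ => R x.1 x.2) ∧
        Presents T (fun _ => True) R := by
  obtain ⟨G, H, hG, hH, hF⟩ := hF
  have tI := idxInp_td hG
  obtain ⟨c, hc⟩ := fix_tree tI
  obtain ⟨o, ho⟩ : ∃ o, o = idxInp G c := ⟨_, rfl⟩
  rw [← ho] at hc
  have hp := shift_ok (Qf_ok o)
  have hog := shift_og (Qf_og o)
  have co : Computable o := by
    have : TD fun n : ℕ => ap (idxInp G c) n :=
      TD.ap' (tI.comp' (TD.const c)) TD.id'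
    rw [ho]; exact this.computable
  have cq : Computable (shift (Qf o)) := by
    have : TD fun n : ℕ => ap (shift (Qf o)) n :=
      TD.ap' (shift_td (Qf_td (td_of_comp co))) TD.id'
    exact this.computable
  have hex : ∃ i, InfFire o i := by
    obtain ⟨s₀, hs⟩ := hF c
    rw [ho]
    refine ⟨Nat.pair (F c) s₀, idx_fire.2 fun d u => ?_⟩
    obtain ⟨t, ht⟩ := hH c (s₀ + d)
    simp only [Nat.unpair_pair]
    exact ⟨t + u, by omega, by rw [ht _ (by omega), hs _ (by omega)]⟩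
  have htrue : ∀ i, InfFire o i → i.unpair.1 = F c := by
    intro i hi
    obtain ⟨s₀, hs⟩ := hF c
    obtain ⟨t, ht⟩ := hH c (i.unpair.2 + s₀)
    obtain ⟨u, hu, hu'⟩ := idx_fire.1 (ho ▸ hi) s₀ t
    rw [← hu', ht u hu, hs _ (by omega)]
  refine ⟨c, RT (shift (Qf o)), RT_tree hp, hc, fun f hf => ?_, RT_presents hp hog, ?_⟩
  · obtain ⟨D, hD, hD'⟩ := side_comp co hex
    exact RT_comp hp hog cq hD (by simpa only [shift_LB, shift_RB] using hD') hf
  · rintro ⟨R, hR, e, he⟩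
    obtain ⟨ν, h1, h2⟩ := RT_nodes hp hog
    rw [shift_EvL, shift_EvR] at h1 h2
    have hx : ∀ n : ℕ, ∃ x, gval (EvL (Qf o)) (EvR 4 (Qf o)) x ∧ ν x = (e ⟨n, trivial⟩).1.1 :=
      fun n => (h1 _).1 (e ⟨n, trivial⟩).2.1
    choose X hX using hx
    have h0 : ∀ a : LPt (RT (shift (Qf o))), a.1.2 = 0 := fun a =>
      a.2.2.resolve_left (RT_not_perfect hp hog a.2.1.1.1)
    have hlt : ∀ a b, R a b ↔ glt (X a) (X b) := by
      intro a b
      rw [he ⟨a, trivial⟩ ⟨b, trivial⟩, h2 _ _ (hX a).1 (hX b).1, (hX a).2, (hX b).2]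
      unfold LLt
      rw [h0, h0]
      simp
    have hy : ∀ a b, (∃ s, yesB (F c) a b s = true) ↔ glt (X a) (X b) := by
      intro a b
      rw [← hlt, ← hR.yes a b]
      simp [yesB]
    refine diag hex fun i hi => hyp_of_copy (seg_of_og (Qf_ok o) (Qf_og o)) (fun _ => True) X
      (fun a b _ _ h => ?_) (fun a _ => (hX a).1) (fun x hx => ?_)
      (fun a b s => yesB (F c) a b s) (fun a b s => yesB (F c) b a s)
      (fun a b s => yesB_mono) (fun a b s => yesB_mono) (fun _ _ _ _ _ _ _ => trivial)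
      (fun a b _ => by rw [hy]; simp) (fun a b _ => by rw [hy]; simp)
      (fun b s => by rw [ho, idxInp, cl_mkInp, htrue i hi])
      (fun b s => by rw [ho, idxInp, cr_mkInp, htrue i hi])
    · have : e ⟨a, trivial⟩ = e ⟨b, trivial⟩ :=
        Subtype.ext (Prod.ext (by rw [← (hX a).2, ← (hX b).2, h]) (by rw [h0, h0]))
      exact congrArg Subtype.val (e.injective this)
    · let y : LPt (RT (shift (Qf o))) := ⟨(ν x, 0), (h1 _).2 ⟨x, hx, rfl⟩, Or.inr rfl⟩
      refine ⟨(e.symm y).1, trivial, ?_⟩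
      have e1 : ν (X (e.symm y).1) = ν x := by
        rw [(hX _).2]
        change (e (e.symm y)).1.1 = _
        rw [e.apply_symm_apply]
      rcases glt_tri (X (e.symm y).1) x with c | c | c
      · exact absurd e1 ((h2 _ _ (hX _).1 hx).1 c).1
      · exact c
      · exact absurd e1.symm ((h2 _ _ hx (hX _).1).1 c).1

end Pool.Agent.Lib.MP_d69888_lc
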