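import Pool.Agent.Lib.MP_d69888_lc.Defs

/-!
Basic facts on insertion orders.
-/

namespace Pool.Agent.Lib.MP_d69888_lc

open Pool.Agent.Shared.Type2

variable {c : ℕ} {p : B}

@[fun_prop] theorem up_td {X : Type} [Rep X] {a b : X → ℕ} (ha : TD a) (hb : TD b) :
    TD fun x => up (a x) (b x) := by
  unfold up; fun_prop

@[fun_prop] theorem pos_td {X : Type} [Rep X] {c b s : X → ℕ} {p : X → B} (hc : TD c) (hp : TD p)
    (hb : TD b) (hs : TD s) : TD fun x => pos (c x) (p x) (b x) (s x) := by
  unfold pos; fun_prop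

@[fun_prop] theorem shift_td {X : Type} [Rep X] {p : X → B} (hp : TD p) :
    TD fun x => shift (p x) := by
  unfold shift; fun_prop

theorem pos_zero (b : ℕ) : pos c p b 0 = b := rfl

theorem pos_new (s : ℕ) : pos c p (c + s) (s + 1) = p s := by
  simp [pos]

theorem pos_old {b s : ℕ} (h : b < c + s) : pos c p b (s + 1) = up (p s) (pos c p b s) := by
  have : b ≠ c + s := by omega
  simp [pos, this]

theorem pos_lt (hp : Ok c p) {b s : ℕ} (h : b < c + s) : pos c p b s < c + s := by
  induction s with
  | zero => simpa [pos_zero] using h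
  | succ s ih =>
    rcases Nat.lt_or_ge b (c + s) with h1 | h1
    · have := ih h1
      rw [pos_old h1]; unfold up; split_ifs <;> omega
    · obtain rfl : b = c + s := by omega
      rw [pos_new]; have := hp s; omega

theorem pos_mono {b s t : ℕ} (h : b < c + s) (hst : s ≤ t) : pos c p b s ≤ pos c p b t := by
  induction t, hst using Nat.le_induction with
  | base => exact le_rfl
  | succ t ht ih => rw [pos_old (by omega)]; unfold up; split_ifs <;> omega

theorem rpos_mono {b s t : ℕ} (h : b < c + s) (hst : s ≤ t) :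
    pos c p b t + s ≤ pos c p b s + t := by
  induction t, hst using Nat.le_induction with
  | base => exact le_rfl
  | succ t ht ih => rw [pos_old (by omega)]; unfold up; split_ifs <;> omega

theorem pos_lt_pos {a b s t : ℕ} (ha : a < c + s) (hb : b < c + s) (hst : s ≤ t) :
    pos c p a t < pos c p b t ↔ pos c p a s < pos c p b s := by
  induction t, hst using Nat.le_induction with
  | base => exact Iff.rfl
  | succ t ht ih =>
    rw [pos_old (by omega), pos_old (by omega), ← ih]; unfold up; split_ifs <;> omega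

theorem pos_inj {a b s : ℕ} (ha : a < c + s) (hb : b < c + s)
    (h : pos c p a s = pos c p b s) : a = b := by
  induction s with
  | zero => simpa [pos_zero] using h
  | succ s ih =>
    rcases Nat.lt_or_ge a (c + s) with h1 | h1 <;> rcases Nat.lt_or_ge b (c + s) with h2 | h2
    · rw [pos_old h1, pos_old h2] at h
      refine ih h1 h2 ?_
      unfold up at h; split_ifs at h <;> omega
    · obtain rfl : b = c + s := by omega
      rw [pos_old h1, pos_new] at h
      unfold up at h; split_ifs at h <;> omega
    · obtain rfl : a = c + s := by omega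
      rw [pos_old h2, pos_new] at h
      unfold up at h; split_ifs at h <;> omega
    · omega

theorem pos_surj (hp : Ok c p) {s k : ℕ} (hk : k < c + s) :
    ∃ b, b < c + s ∧ pos c p b s = k := by
  induction s generalizing k with
  | zero => exact ⟨k, hk, rfl⟩
  | succ s ih =>
    have := hp s
    rcases lt_trichotomy k (p s) with h | h | h
    · obtain ⟨b, hb, hb'⟩ := ih (k := k) (by omega)
      refine ⟨b, by omega, ?_⟩
      rw [pos_old hb, hb']; unfold up; split_ifs <;> omega
    · exact ⟨c + s, by omega, by rw [pos_new, h]⟩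
    · obtain ⟨b, hb, hb'⟩ := ih (k := k - 1) (by omega)
      refine ⟨b, by omega, ?_⟩
      rw [pos_old hb, hb']; unfold up; split_ifs <;> omega

theorem left_run {b t s g : ℕ} (hb : b < c + t) (hts : t ≤ s) (hg : pos c p b t < g)
    (h : ∀ u, t ≤ u → u < s → g ≤ p u) : pos c p b s = pos c p b t := by
  induction s, hts using Nat.le_induction with
  | base => rfl
  | succ s hs ih =>
    have h1 := ih fun u hu hu' => h u hu (by omega)
    have h2 := h s hs (by omega)
    rw [pos_old (by omega), h1]; unfold up; split_ifs <;> omega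

theorem right_run {b t s k : ℕ} (hb : b < c + t) (hts : t ≤ s) (hk : c + t ≤ pos c p b t + k)
    (h : ∀ u, t ≤ u → u < s → p u + k ≤ c + u) : pos c p b s + t = pos c p b t + s := by
  induction s, hts using Nat.le_induction with
  | base => rfl
  | succ s hs ih =>
    have h1 := ih fun u hu hu' => h u hu (by omega)
    have h2 := h s hs (by omega)
    rw [pos_old (by omega)]; unfold up; split_ifs <;> omega

theorem LB_of_lt {b t : ℕ} (hb : b < c + t) (h : ∀ u, t ≤ u → pos c p b u < p u) : LB c p b := by
  have key : ∀ s, t ≤ s → pos c p b s = pos c p b t := by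
    intro s hs
    induction s, hs using Nat.le_induction with
    | base => rfl
    | succ s hs ih =>
      have := h s hs
      rw [pos_old (by omega), ← ih]; unfold up; split_ifs <;> omega
  refine ⟨pos c p b t, fun s hs => ?_⟩
  rcases le_total s t with h1 | h1
  · exact pos_mono hs h1
  · exact (key s h1).le

theorem RB_of_le {b t : ℕ} (hb : b < c + t) (h : ∀ u, t ≤ u → p u ≤ pos c p b u) : RB c p b := by
  have key : ∀ s, t ≤ s → pos c p b s + t = pos c p b t + s := by
    intro s hs
    induction s, hs using Nat.le_induction with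
    | base => rfl
    | succ s hs ih =>
      have := h s hs
      rw [pos_old (by omega)]; unfold up; rw [if_pos this]; omega
  refine ⟨c + t, fun s _ => ?_⟩
  rcases le_total s t with h1 | h1
  · omega
  · have := key s h1; omega

theorem LB_of_left {b t g : ℕ} (hb : b < c + t) (hg : pos c p b t < g)
    (h : ∀ u, t ≤ u → g ≤ p u) : LB c p b :=
  LB_of_lt hb fun u hu => by
    rw [left_run hb hu hg fun v hv _ => h v hv]; exact hg.trans_le (h u hu)

theorem RB_of_right {b t k : ℕ} (hb : b < c + t) (hk : c + t ≤ pos c p b t + k)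
    (h : ∀ u, t ≤ u → p u + k ≤ c + u) : RB c p b :=
  RB_of_le hb fun u hu => by
    have := right_run hb hu hk fun v hv _ => h v hv
    have := h u hu
    omega

theorem not_LB_RB {b : ℕ} : LB c p b → RB c p b → False := by
  rintro ⟨K, hK⟩ ⟨K', hK'⟩
  have h1 := hK (b + K + K' + 1) (by omega)
  have h2 := hK' (b + K + K' + 1) (by omega)
  omega

/-- A bounded sequence that is monotone from `t` on is eventually constant. -/
theorem ev_const {f : ℕ → ℕ} {t K : ℕ} (hm : ∀ s, t ≤ s → f s ≤ f (s + 1))
    (hK : ∀ s, t ≤ s → f s ≤ K) : ∃ t', t ≤ t' ∧ ∀ s, t' ≤ s → f s = f t' := by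
  have mono : ∀ s s', t ≤ s → s ≤ s' → f s ≤ f s' := by
    intro s s' hs hs'
    induction s', hs' using Nat.le_induction with
    | base => exact le_rfl
    | succ u hu ih => exact ih.trans (hm u (by omega))
  classical
  have hex : ∃ k, ∃ s, t ≤ s ∧ K - f s = k := ⟨_, t, le_rfl, rfl⟩
  obtain ⟨t', ht', h⟩ := Nat.find_spec hex
  refine ⟨t', ht', fun s hs => ?_⟩
  have h1 : Nat.find hex ≤ K - f s := Nat.find_min' hex ⟨s, by omega, rfl⟩
  have := mono t' s ht' hs
  have := hK s (by omega)
  omega

theorem LB.ev {b : ℕ} (h : LB c p b) : ∃ t, ∀ u, t ≤ u → pos c p b u < p u := by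
  obtain ⟨K, hK⟩ := h
  obtain ⟨t, ht, h⟩ := ev_const (f := fun s => pos c p b s) (t := b + 1) (K := K)
    (fun s hs => pos_mono (by omega) (by omega)) fun s hs => hK s (by omega)
  refine ⟨t, fun u hu => ?_⟩
  have h1 := h u hu
  have h2 := h (u + 1) (by omega)
  have h4 := pos_old (p := p) (c := c) (b := b) (s := u) (by omega)
  unfold up at h4; split_ifs at h4 <;> omega

theorem RB.ev {b : ℕ} (h : RB c p b) : ∃ t, ∀ u, t ≤ u → p u ≤ pos c p b u := by
  obtain ⟨K, hK⟩ := h
  have h0 : ∀ s, b + 1 ≤ s → pos c p b s ≤ pos c p b (b + 1) + s := fun s hs => by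
    have := rpos_mono (p := p) (c := c) (b := b) (s := b + 1) (by omega) hs; omega
  obtain ⟨t, ht, h⟩ := ev_const (f := fun s => pos c p b (b + 1) + s - pos c p b s) (t := b + 1)
    (K := pos c p b (b + 1) + K)
    (fun s hs => by
      have := rpos_mono (p := p) (c := c) (b := b) (s := s) (t := s + 1) (by omega) (by omega)
      omega)
    fun s hs => by have := hK s (by omega); omega
  refine ⟨t, fun u hu => ?_⟩
  have h1 := h u hu
  have h2 := h (u + 1) (by omega)
  have h3 := h0 u (by omega)
  have h4 := pos_old (p := p) (c := c) (b := b) (s := u) (by omega)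
  unfold up at h4; split_ifs at h4 <;> omega

theorem seg_of_og (hp : Ok c p) (h : OG c p) : Seg (EvL p) (EvR c p) := by
  refine ⟨fun i j hij ⟨s, hs⟩ => ⟨s, fun u hu => by have := hs u hu; omega⟩,
    fun i j hij ⟨s, hs⟩ => ⟨s, fun u hu => by have := hs u hu; omega⟩, ?_⟩
  by_contra hc
  push Not at hc
  obtain ⟨⟨i, hi⟩, j, hj⟩ := hc
  have key : ∀ y, y < c + (i + j + 3) → i ≤ pos c p y (i + j + 3) →
      pos c p y (i + j + 3) ≤ i + 1 → ¬ LB c p y ∧ ¬ RB c p y := by
    intro y hy h1 h2
    constructor
    · intro hl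
      obtain ⟨t, ht⟩ := hl.ev
      refine hi ⟨t + (i + j + 3), fun u hu => ?_⟩
      have := ht u (by omega)
      have := pos_mono (p := p) hy (t := u) (by omega)
      omega
    · intro hr
      obtain ⟨t, ht⟩ := hr.ev
      refine hj ⟨t + (i + j + 3), fun u hu => ?_⟩
      have := ht u (by omega)
      have := rpos_mono (p := p) hy (t := u) (by omega)
      omega
  obtain ⟨x, hx, hx'⟩ := pos_surj hp (s := i + j + 3) (k := i) (by omega)
  obtain ⟨y, hy, hy'⟩ := pos_surj hp (s := i + j + 3) (k := i + 1) (by omega)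
  have h1 := key x hx (by omega) (by omega)
  have h2 := key y hy (by omega) (by omega)
  have := h x y h1.1 h1.2 h2.1 h2.2
  subst this
  omega

theorem shift_lt {s : ℕ} (h : s < 4) : shift p s = s := by simp [shift, h]
theorem shift_add (s : ℕ) : shift p (s + 4) = p s := by simp [shift]

theorem shift_ok (hp : Ok 4 p) : Ok 0 (shift p) := by
  intro s
  rcases Nat.lt_or_ge s 4 with h | h
  · rw [shift_lt h]; omega
  · obtain ⟨t, rfl⟩ := Nat.exists_eq_add_of_le' h
    rw [shift_add]; have := hp t; omega

theorem pos_shift {b s : ℕ} (h : b < 4 + s) : pos 0 (shift p) b (s + 4) = pos 4 p b s := by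
  induction s with
  | zero =>
    have h4 : b < 4 := by omega
    interval_cases b <;> simp [pos, shift, up]
  | succ s ih =>
    rcases Nat.lt_or_ge b (4 + s) with h1 | h1
    · rw [show s + 1 + 4 = (s + 4) + 1 by omega, pos_old (by omega), pos_old h1, ih h1, shift_add]
    · obtain rfl : b = 4 + s := by omega
      rw [pos_new, show s + 1 + 4 = (s + 4) + 1 by omega, show 4 + s = 0 + (s + 4) by omega,
        pos_new, shift_add]

theorem shift_LB (b : ℕ) : LB 0 (shift p) b ↔ LB 4 p b := by
  constructor
  · rintro ⟨K, hK⟩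
    exact ⟨K, fun s hs => by rw [← pos_shift hs]; exact hK _ (by omega)⟩
  · rintro ⟨K, hK⟩
    refine ⟨K, fun s hs => ?_⟩
    have h1 := hK s (by omega)
    rw [← pos_shift (by omega)] at h1
    exact (pos_mono hs (by omega)).trans h1

theorem shift_RB (b : ℕ) : RB 0 (shift p) b ↔ RB 4 p b := by
  constructor
  · rintro ⟨K, hK⟩
    exact ⟨K, fun s hs => by rw [← pos_shift hs]; have := hK (s + 4) (by omega); omega⟩
  · rintro ⟨K, hK⟩
    refine ⟨K, fun s hs => ?_⟩
    have h1 := hK s (by omega)
    rw [← pos_shift (by omega)] at h1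
    have := rpos_mono (p := shift p) hs (t := s + 4) (by omega)
    omega

theorem shift_og (h : OG 4 p) : OG 0 (shift p) := by
  intro x y
  simp only [shift_LB, shift_RB]
  exact h x y

theorem shift_EvL : EvL (shift p) = EvL p := by
  funext i
  refine propext ⟨fun ⟨s, hs⟩ => ⟨s, fun u hu => ?_⟩, fun ⟨s, hs⟩ => ⟨s + 4, fun u hu => ?_⟩⟩
  · have := hs (u + 4) (by omega)
    rwa [shift_add] at this
  · obtain ⟨t, rfl⟩ := Nat.exists_eq_add_of_le' (show 4 ≤ u by omega)
    rw [shift_add]; exact hs _ (by omega)

theorem shift_EvR : EvR 0 (shift p) = EvR 4 p := by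
  funext i
  refine propext ⟨fun ⟨s, hs⟩ => ⟨s, fun u hu => ?_⟩, fun ⟨s, hs⟩ => ⟨s + 4, fun u hu => ?_⟩⟩
  · have := hs (u + 4) (by omega)
    rw [shift_add] at this; omega
  · obtain ⟨t, rfl⟩ := Nat.exists_eq_add_of_le' (show 4 ≤ u by omega)
    rw [shift_add]; have := hs t (by omega); omega

end Pool.Agent.Lib.MP_d69888_lc
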