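import Pool.Agent.Lib.MP_d69888_lc.Defs

/-!
Locating a region inside the global order.
-/

namespace Pool.Agent.Lib.MP_d69888_lc

open Pt

variable {A C : ℕ → ℕ → Prop}

theorem Pt.le_iff (a b : Pt A C) : a ≤ b ↔ a.reg < b.reg ∨ a.reg = b.reg ∧
    (a.part < b.part ∨ a.part = b.part ∧ a.val ≤ b.val) := by
  change key a ≤ key b ↔ _
  simp [key, Prod.Lex.le_iff]

theorem Den.not_covBy {α : Type} [LinearOrder α] {a b x y : α} (h : Den a b) (h1 : a ≤ x)
    (h2 : y ≤ b) : ¬ x ⋖ y := fun c => by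
  obtain ⟨z, z1, z2⟩ := h.2 x y h1 c.1 h2
  exact c.2 z1 z2

theorem covBy_sep {e j : ℕ} (h : j + 1 < e + 2) :
    (sep e j (by omega) : Pt A C) ⋖ sep e (j + 1) h := by
  refine ⟨by simp [Pt.lt_iff, reg, part, val], fun c c1 c2 => ?_⟩
  cases c <;> simp [Pt.lt_iff, reg, part, val] at c1 c2 <;> norm_cast at c1 c2 <;> omega

theorem covBy_lf {e i : ℕ} (h : A e i) (h' : A e (i + 1)) :
    (lf e i h : Pt A C) ⋖ lf e (i + 1) h' := by
  refine ⟨by simp [Pt.lt_iff, reg, part, val], fun c c1 c2 => ?_⟩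
  cases c <;> simp [Pt.lt_iff, reg, part, val] at c1 c2 <;> norm_cast at c1 c2 <;> omega

theorem covBy_rt {e i : ℕ} (h : C e i) (h' : C e (i + 1)) :
    (rt e (i + 1) h' : Pt A C) ⋖ rt e i h := by
  refine ⟨by simp [Pt.lt_iff, reg, part, val], fun c c1 c2 => ?_⟩
  cases c <;> simp [Pt.lt_iff, reg, part, val] at c1 c2 <;> norm_cast at c1 c2 <;> omega

theorem covBy_mid {e i j : ℕ} (hs : Seg (A e) (C e)) (h : A e i) (h' : C e j) :
    ¬ (lf e i h : Pt A C) ⋖ rt e j h' := by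
  intro c
  rcases hs.inf with a | a
  · exact c.2 (c := lf e (i + 1) (a _)) (by simp [Pt.lt_iff, reg, part, val])
      (by simp [Pt.lt_iff, reg, part])
  · exact c.2 (c := rt e (j + 1) (a _)) (by simp [Pt.lt_iff, reg, part])
      (by simp [Pt.lt_iff, reg, part, val])

theorem not_covBy_left {a b : Pt A C} (h : a.part = 0 ∨ a.part = 2) : ¬ a ⋖ b := by
  intro c
  have key : ∀ f : ℚ → Pt A C, (∀ x, (f x).reg = a.reg ∧ (f x).part = a.part ∧ (f x).val = x) →
      False := by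
    intro f hf
    have h1 := (Pt.lt_iff _ _).1 c.1
    by_cases h2 : a.reg = b.reg ∧ a.part = b.part
    · have h3 : a.val < b.val := by
        rcases h1 with h1 | ⟨-, h1 | ⟨-, h1⟩⟩
        · omega
        · omega
        · exact h1
      obtain ⟨f1, f2, f3⟩ := hf ((a.val + b.val) / 2)
      exact c.2 (c := f ((a.val + b.val) / 2))
        ((Pt.lt_iff _ _).2 (Or.inr ⟨f1.symm, Or.inr ⟨f2.symm, by linarith⟩⟩))
        ((Pt.lt_iff _ _).2 (Or.inr ⟨by omega, Or.inr ⟨by omega, by linarith⟩⟩))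
    · obtain ⟨f1, f2, f3⟩ := hf (a.val + 1)
      refine c.2 (c := f (a.val + 1))
        ((Pt.lt_iff _ _).2 (Or.inr ⟨f1.symm, Or.inr ⟨f2.symm, by linarith⟩⟩))
        ((Pt.lt_iff _ _).2 ?_)
      rcases h1 with h1 | ⟨h0, h1 | ⟨h1, -⟩⟩
      · exact Or.inl (by omega)
      · exact Or.inr ⟨by omega, Or.inl (by omega)⟩
      · exact absurd ⟨h0, h1⟩ h2
  rcases h with h | h
  · exact key (q1 a.reg) fun x => ⟨rfl, h.symm, rfl⟩
  · exact key (q2 a.reg) fun x => ⟨rfl, h.symm, rfl⟩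

theorem not_covBy_right {a b : Pt A C} (h : b.part = 0 ∨ b.part = 2) : ¬ a ⋖ b := by
  intro c
  have key : ∀ f : ℚ → Pt A C, (∀ x, (f x).reg = b.reg ∧ (f x).part = b.part ∧ (f x).val = x) →
      False := by
    intro f hf
    have h1 := (Pt.lt_iff _ _).1 c.1
    by_cases h2 : a.reg = b.reg ∧ a.part = b.part
    · exact not_covBy_left (by omega) c
    · obtain ⟨f1, f2, f3⟩ := hf (b.val - 1)
      refine c.2 (c := f (b.val - 1)) ((Pt.lt_iff _ _).2 ?_)
        ((Pt.lt_iff _ _).2 (Or.inr ⟨f1, Or.inr ⟨f2, by linarith⟩⟩))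
      rcases h1 with h1 | ⟨h0, h1 | ⟨h1, -⟩⟩
      · exact Or.inl (by omega)
      · exact Or.inr ⟨by omega, Or.inl (by omega)⟩
      · exact absurd ⟨h0, h1⟩ h2
  rcases h with h | h
  · exact key (q1 b.reg) fun x => ⟨rfl, h.symm, rfl⟩
  · exact key (q2 b.reg) fun x => ⟨rfl, h.symm, rfl⟩

theorem part_le (a : Pt A C) : a.part ≤ 4 := by cases a <;> simp [part]

theorem covBy_coord (hs : ∀ e, Seg (A e) (C e)) {a b : Pt A C} (c : a ⋖ b) :
    a.reg = b.reg ∧ a.part = b.part ∧ b.val = a.val + 1 := by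
  have hb : ¬ (b.part = 0 ∨ b.part = 2) := fun h => not_covBy_right h c
  have h1 := (Pt.lt_iff _ _).1 c.1
  have next : a.reg < b.reg → False := fun h =>
    c.2 (c := q1 (a.reg + 1) 0) ((Pt.lt_iff _ _).2 (Or.inl (by simp [reg])))
      ((Pt.lt_iff _ _).2 (by
        change a.reg + 1 < b.reg ∨ a.reg + 1 = b.reg ∧ (0 < b.part ∨ _)
        rcases Nat.lt_or_ge (a.reg + 1) b.reg with h2 | h2
        · exact Or.inl h2
        · exact Or.inr ⟨by omega, Or.inl (by omega)⟩))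
  obtain ⟨h0, h2⟩ := h1.resolve_left next
  clear h1
  rename' h2 => h1
  cases a with
  | q1 e x => exact (not_covBy_left (Or.inl rfl) c).elim
  | q2 e x => exact (not_covBy_left (Or.inr rfl) c).elim
  | sep e j h =>
    by_cases hj : j + 1 < e + 2
    · rw [c.unique_right (covBy_sep hj)]; simp [reg, part, val]
    · exfalso
      refine c.2 (c := q2 e 0) (by simp [Pt.lt_iff, reg, part]) ?_
      cases b <;> simp [Pt.lt_iff, reg, part, val] at h0 h1 hb ⊢ <;> omega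
  | lf e i h =>
    by_cases hj : A e (i + 1)
    · rw [c.unique_right (covBy_lf h hj)]; simp [reg, part, val]
    · exfalso
      cases b <;> simp [reg, part, val] at h0 h1 hb
      · subst h0
        exact hj ((hs e).dA _ _ h1 ‹_›)
      · subst h0
        exact covBy_mid (hs e) _ _ c
  | rt e j h =>
    rcases j with _ | j
    · exfalso
      cases b <;> simp [reg, part, val] at h0 h1 hb
      norm_cast at h1
    · rw [c.unique_right (covBy_rt ((hs e).dC _ _ (by omega) h) h)]; simp [reg, part, val]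

theorem den_of {a b : Pt A C} (h : a < b) (h' : ∀ x y, a ≤ x → y ≤ b → ¬ x ⋖ y) : Den a b :=
  ⟨h, fun x y h1 h2 h3 => by
    by_contra hc
    push Not at hc
    exact h' x y h1 h3 ⟨h2, fun z z1 z2 => absurd z2 (not_lt.2 (hc z z1))⟩⟩

theorem left_den (hs : ∀ e, Seg (A e) (C e)) {u x x' : Pt A C} (h : Den u x) (c : x ⋖ x') :
    (x.part = 1 ∨ x.part = 3) ∧ x.val = 0 := by
  have pre : ∀ y, ¬ y ⋖ x := fun y d => h.not_covBy (d.le_of_lt h.1) le_rfl d
  cases x with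
  | q1 e x => exact (not_covBy_left (Or.inl rfl) c).elim
  | q2 e x => exact (not_covBy_left (Or.inr rfl) c).elim
  | sep e j hj =>
    rcases j with _ | j
    · simp [part, val]
    · exact (pre _ (covBy_sep hj)).elim
  | lf e j hj =>
    rcases j with _ | j
    · simp [part, val]
    · exact (pre _ (covBy_lf ((hs e).dA _ _ (by omega) hj) hj)).elim
  | rt e j hj =>
    exfalso
    by_cases h2 : C e (j + 1)
    · exact pre _ (covBy_rt hj h2)
    have hA := (hs e).inf.resolve_right fun a => h2 (a _)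
    have : ∃ i, u ≤ lf e i (hA i) := by
      have h1 := (Pt.lt_iff _ _).1 h.1
      cases u with
      | lf e' i hi => exact ⟨i, by simp [Pt.le_iff, reg, part, val] at h1 ⊢; omega⟩
      | rt e' i hi =>
        refine ⟨0, ?_⟩
        simp [Pt.le_iff, reg, part, val] at h1 ⊢
        rcases h1 with h1 | ⟨rfl, h1⟩
        · exact h1
        · exact (h2 ((hs e').dC _ _ h1 hi)).elim
      | _ => exact ⟨0, by simp [Pt.le_iff, reg, part, val] at h1 ⊢; omega⟩
    obtain ⟨i, hi⟩ := this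
    exact h.not_covBy hi (by simp [Pt.le_iff, reg, part]) (covBy_lf (hA i) (hA (i + 1)))

theorem right_den (hs : ∀ e, Seg (A e) (C e)) {v x x' : Pt A C} (h : Den x v) (c : x' ⋖ x) :
    (x.part = 1 ∧ x.val = x.reg + 1) ∨ (x.part = 4 ∧ x.val = 0) := by
  have pre : ∀ y, ¬ x ⋖ y := fun y d => h.not_covBy le_rfl (d.ge_of_gt h.1) d
  cases x with
  | q1 e x => exact (not_covBy_right (Or.inl rfl) c).elim
  | q2 e x => exact (not_covBy_right (Or.inr rfl) c).elim
  | sep e j hj =>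
    by_cases h2 : j + 1 < e + 2
    · exact (pre _ (covBy_sep h2)).elim
    · obtain rfl : j = e + 1 := by omega
      simp [part, val, reg]
  | rt e j hj =>
    rcases j with _ | j
    · simp [part, val]
    · exact (pre _ (covBy_rt ((hs e).dC _ _ (by omega) hj) hj)).elim
  | lf e j hj =>
    exfalso
    by_cases h2 : A e (j + 1)
    · exact pre _ (covBy_lf hj h2)
    have hC := (hs e).inf.resolve_left fun a => h2 (a _)
    have : ∃ i, rt e i (hC i) ≤ v := by
      have h1 := (Pt.lt_iff _ _).1 h.1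
      cases v with
      | rt e' i hi => exact ⟨i, by simp [Pt.le_iff, reg, part, val] at h1 ⊢; omega⟩
      | lf e' i hi =>
        refine ⟨0, ?_⟩
        simp [Pt.le_iff, reg, part, val] at h1 ⊢
        rcases h1 with h1 | ⟨rfl, h1⟩
        · exact h1
        · exact (h2 ((hs e).dA _ _ h1 hi)).elim
      | _ => exact ⟨0, by simp [Pt.le_iff, reg, part, val] at h1 ⊢; omega⟩
    obtain ⟨i, hi⟩ := this
    exact h.not_covBy (by simp [Pt.le_iff, reg, part]) hi (covBy_rt (hC i) (hC (i + 1)))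

theorem sep_of_chain (hs : ∀ e, Seg (A e) (C e)) {u v : Pt A C} {xs : ℕ → Pt A C} {k : ℕ}
    (h1 : Den u (xs 0)) (h2 : ∀ j, j < k + 1 → xs j ⋖ xs (j + 1)) (h3 : Den (xs (k + 1)) v) :
    (xs 0).reg = k ∧ (xs 0).part = 1 ∧ (xs (k + 1)).reg = k ∧ (xs (k + 1)).part = 1 := by
  have key : ∀ j, j ≤ k + 1 → (xs j).reg = (xs 0).reg ∧ (xs j).part = (xs 0).part ∧
      (xs j).val = (xs 0).val + j := by
    intro j hj
    induction j with
    | zero => simp
    | succ j ih =>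
      obtain ⟨a, b, c⟩ := covBy_coord hs (h2 j (by omega))
      obtain ⟨a', b', c'⟩ := ih (by omega)
      exact ⟨by omega, by omega, by rw [c, c']; push_cast; ring⟩
  obtain ⟨l1, l2⟩ := left_den hs h1 (h2 0 (by omega))
  obtain ⟨a, b, c⟩ := key (k + 1) le_rfl
  rcases right_den hs h3 (h2 k (by omega)) with ⟨r1, r2⟩ | ⟨r1, r2⟩
  · have : ((xs (k + 1)).reg : ℚ) = k := by
      rw [r2, l2] at c; push_cast at c; linarith
    have : (xs (k + 1)).reg = k := by exact_mod_cast this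
    omega
  · omega

theorem anch_unique (hs : ∀ e, Seg (A e) (C e)) (hA : ∀ e, A e 1) (hC : ∀ e, C e 1) {e : ℕ}
    {u z z' w' w v : Pt A C} {xs ys : ℕ → Pt A C} (h : Anch e u z z' w' w v xs ys) :
    (∃ a0, z = Pt.lf e 0 a0) ∧ ∃ c0, w = Pt.rt e 0 c0 := by
  have a0 : A e 0 := (hs e).dA _ _ (by omega) (hA e)
  have c0 : C e 0 := (hs e).dC _ _ (by omega) (hC e)
  obtain ⟨-, -, x1, x2⟩ := sep_of_chain hs h.h1 h.h2 h.h3
  obtain ⟨y1, y2, -, -⟩ := sep_of_chain hs (k := e + 1) h.h6 h.h7 h.h8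
  constructor
  · obtain ⟨l1, l2⟩ := left_den hs h.h3 h.h4
    have h1 : z ≤ lf e 0 a0 := not_lt.1 fun c => h.h3.not_covBy
      ((Pt.le_iff _ (lf e 0 a0)).2 (Or.inr ⟨x1, Or.inl (by rw [x2]; simp [part])⟩))
      ((covBy_lf a0 (hA e)).ge_of_gt c) (covBy_lf a0 (hA e))
    have h2 := (Pt.lt_iff _ _).1 h.h3.1
    have h3 : 0 ≤ (xs (e + 1)).val := by
      generalize xs (e + 1) = y at x2
      cases y <;> simp [part, val] at x2 ⊢
    refine ⟨a0, le_antisymm h1 ((Pt.le_iff _ _).2 ?_)⟩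
    change e < _ ∨ e = _ ∧ (3 < _ ∨ 3 = _ ∧ ((0 : ℕ) : ℚ) ≤ _)
    rcases h2 with h2 | ⟨h2, h4 | ⟨h4, h5⟩⟩
    · exact Or.inl (by omega)
    · exact Or.inr ⟨by omega, Or.inr ⟨by omega, by simp [l2]⟩⟩
    · exact absurd h5 (by rw [l2]; exact not_lt.2 h3)
  · have h1 : rt e 0 c0 ≤ w := not_lt.1 fun c => h.h6.not_covBy
      ((covBy_rt c0 (hC e)).le_of_lt c)
      ((Pt.le_iff _ _).2 (Or.inl (by rw [y1]; simp [reg]))) (covBy_rt c0 (hC e))
    have h2 := (Pt.lt_iff _ _).1 h.h6.1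
    have h3 := (left_den hs h.h6 (h.h7 0 (by omega))).2
    have h4 := part_le w
    refine ⟨c0, le_antisymm ((Pt.le_iff _ _).2 ?_) h1⟩
    change _ < e ∨ _ = e ∧ (_ < 4 ∨ _ = 4 ∧ _ ≤ -((0 : ℕ) : ℚ))
    rcases right_den hs h.h6 h.h5 with ⟨r1, r2⟩ | ⟨r1, r2⟩
    · rcases h2 with h2 | ⟨h2, h5 | ⟨h5, h6⟩⟩
      · rcases Nat.lt_or_ge w.reg e with c | c
        · exact Or.inl c
        · exact Or.inr ⟨by omega, Or.inl (by omega)⟩
      · omega
      · exact absurd h6 (by rw [h3, r2]; exact not_lt.2 (by positivity))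
    · rcases Nat.lt_or_ge w.reg e with c | c
      · exact Or.inl c
      · exact Or.inr ⟨by omega, Or.inr ⟨r1, by simp [r2]⟩⟩

theorem val_sep {x : Pt A C} (h : x.part = 1) : 0 ≤ x.val ∧ x.val ≤ x.reg + 1 := by
  cases x <;> simp [part, val, reg] at h ⊢
  norm_cast; omega

theorem val_lf {x : Pt A C} (h : x.part = 3) : 0 ≤ x.val := by
  cases x <;> simp [part, val] at h ⊢

theorem val_rt {x : Pt A C} (h : x.part = 4) : x.val ≤ 0 := by
  cases x <;> simp [part, val] at h ⊢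

/-- Intervals that meet at most the end points of two blocks. -/
theorem den_gap (hs : ∀ e, Seg (A e) (C e)) {a b : Pt A C} (h : a < b)
    (h' : ∀ x : Pt A C, a ≤ x → x ≤ b → x = a ∨ x = b ∨ x.part = 0 ∨ x.part = 2)
    (hab : a.part ≠ b.part) : Den a b := by
  refine den_of h fun x y h1 h2 c => ?_
  have c1 := covBy_coord hs c
  rcases h' x h1 (c.1.le.trans h2) with rfl | rfl | h3
  · rcases h' y (h1.trans c.1.le) h2 with rfl | rfl | h4
    · exact c.1.false
    · exact hab c1.2.1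
    · exact not_covBy_right h4 c
  · exact absurd c.1 (not_lt.2 h2)
  · exact not_covBy_left h3 c

theorem anch_exists (hs : ∀ e, Seg (A e) (C e)) (e : ℕ) (a0 : A e 0) (a1 : A e 1) (c0 : C e 0)
    (c1 : C e 1) : ∃ (u z' w' v : Pt A C) (xs ys : ℕ → Pt A C),
      Anch e u (Pt.lf e 0 a0) z' w' (Pt.rt e 0 c0) v xs ys := by
  refine ⟨q1 e 0, lf e 1 a1, rt e 1 c1, q2 (e + 1) 0, fun j => sep e (min j (e + 1)) (by omega),
    fun j => sep (e + 1) (min j (e + 2)) (by omega), ?_, fun j hj => ?_, ?_, covBy_lf _ _,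
    covBy_rt _ _, ?_, fun j hj => ?_, ?_⟩
  · refine den_gap hs (by simp [Pt.lt_iff, reg, part]) (fun x h1 h2 => ?_) (by simp [part])
    cases x <;> simp [Pt.le_iff, reg, part, val] at h1 h2 ⊢ <;> norm_cast at h1 h2 <;> omega
  · simp only [show min j (e + 1) = j by omega, show min (j + 1) (e + 1) = j + 1 by omega]
    exact covBy_sep _
  · refine den_gap hs (by simp [Pt.lt_iff, reg, part]) (fun x h1 h2 => ?_) (by simp [part])
    cases x <;> simp [Pt.le_iff, reg, part, val] at h1 h2 ⊢ <;> norm_cast at h1 h2 <;> omega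
  · refine den_gap hs (by simp [Pt.lt_iff, reg]) (fun x h1 h2 => ?_) (by simp [part])
    cases x <;> simp [Pt.le_iff, reg, part, val] at h1 h2 ⊢ <;> norm_cast at h1 h2 <;> omega
  · simp only [show min j (e + 2) = j by omega, show min (j + 1) (e + 2) = j + 1 by omega]
    exact covBy_sep _
  · refine den_gap hs (by simp [Pt.lt_iff, reg, part]) (fun x h1 h2 => ?_) (by simp [part])
    cases x <;> simp [Pt.le_iff, reg, part, val] at h1 h2 ⊢ <;> norm_cast at h1 h2 <;> omega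

/-- Coordinates inside a region. -/
def kap : Pt A C → ℕ ⊕ ℕ
  | lf _ i _ => .inl i
  | rt _ j _ => .inr j
  | _ => .inl 0

theorem region_cases {e : ℕ} {a0 : A e 0} {c0 : C e 0} {x : Pt A C} (h1 : lf e 0 a0 ≤ x)
    (h2 : x ≤ rt e 0 c0) : (∃ i h, x = lf e i h) ∨ ∃ j h, x = rt e j h := by
  cases x <;> simp [Pt.le_iff, reg, part, val] at h1 h2 <;> try omega
  · rename_i e' i h
    obtain rfl : e' = e := by omega
    exact Or.inl ⟨i, h, rfl⟩
  · rename_i e' i h
    obtain rfl : e' = e := by omega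
    exact Or.inr ⟨i, h, rfl⟩

theorem region_coord (e : ℕ) (a0 : A e 0) (c0 : C e 0) :
    (∀ x, Pt.lf e 0 a0 ≤ x → x ≤ Pt.rt e 0 c0 → gval (A e) (C e) (kap x)) ∧
    (∀ y, gval (A e) (C e) y → ∃ x, Pt.lf e 0 a0 ≤ x ∧ x ≤ Pt.rt e 0 c0 ∧ kap x = y) ∧
    ∀ x y, Pt.lf e 0 a0 ≤ x → x ≤ Pt.rt e 0 c0 → Pt.lf e 0 a0 ≤ y → y ≤ Pt.rt e 0 c0 →
      (x < y ↔ glt (kap x) (kap y)) ∧ (kap x = kap y → x = y) := by
  refine ⟨fun x h1 h2 => ?_, fun y hy => ?_, fun x y h1 h2 h3 h4 => ?_⟩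
  · rcases region_cases h1 h2 with ⟨i, h, rfl⟩ | ⟨i, h, rfl⟩ <;> exact h
  · rcases y with i | j
    · exact ⟨lf e i hy, by simp [Pt.le_iff, reg, part, val], by simp [Pt.le_iff, reg, part], rfl⟩
    · exact ⟨rt e j hy, by simp [Pt.le_iff, reg, part], by simp [Pt.le_iff, reg, part, val], rfl⟩
  · rcases region_cases h1 h2 with ⟨i, h, rfl⟩ | ⟨i, h, rfl⟩ <;>
      rcases region_cases h3 h4 with ⟨j, h', rfl⟩ | ⟨j, h', rfl⟩ <;>
      simp [Pt.lt_iff, reg, part, val, kap, glt]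

end Pool.Agent.Lib.MP_d69888_lc
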