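import Pool.Agent.Lib.MP_d69888_lc.Idx
import Pool.Agent.Lib.MP_d69888_lc.Ord

/-!
The global order has no computable copy.
-/

namespace Pool.Agent.Lib.MP_d69888_lc

open Pool.Agent.Shared.Type2 Encodable

/-- `ψ` is a monotone approximation of `P`. -/
structure Ap (ψ : ℕ → Bool) (P : Prop) : Prop where
  mono : ∀ s, ψ s = true → ψ (s + 1) = true
  iff : (∃ s, ψ s = true) ↔ P

theorem Ap.mono' {ψ P} (h : Ap ψ P) {s t : ℕ} (hst : s ≤ t) (hs : ψ s = true) : ψ t = true := by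
  induction t, hst using Nat.le_induction with
  | base => exact hs
  | succ t _ ih => exact h.mono _ ih

theorem Ap.const (b : Bool) : Ap (fun _ => b) (b = true) := ⟨fun _ h => h, by simp⟩

theorem Ap.and {ψ χ P Q} (h : Ap ψ P) (h' : Ap χ Q) : Ap (fun s => ψ s && χ s) (P ∧ Q) := by
  refine ⟨fun s hs => ?_, ?_⟩
  · rw [Bool.and_eq_true] at hs ⊢
    exact ⟨h.mono _ hs.1, h'.mono _ hs.2⟩
  · rw [← h.iff, ← h'.iff]
    simp only [Bool.and_eq_true]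
    exact ⟨fun ⟨s, a, b⟩ => ⟨⟨s, a⟩, s, b⟩, fun ⟨⟨s, a⟩, t, b⟩ =>
      ⟨s + t, h.mono' (by omega) a, h'.mono' (by omega) b⟩⟩

theorem Ap.or {ψ χ P Q} (h : Ap ψ P) (h' : Ap χ Q) : Ap (fun s => ψ s || χ s) (P ∨ Q) := by
  refine ⟨fun s hs => ?_, ?_⟩
  · rw [Bool.or_eq_true] at hs ⊢
    exact hs.imp (h.mono _) (h'.mono _)
  · rw [← h.iff, ← h'.iff]
    simp only [Bool.or_eq_true, exists_or]

theorem Ap.all {ψ : ℕ → ℕ → Bool} {P : ℕ → Prop} (h : ∀ k, Ap (ψ k) (P k)) (n : ℕ) :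
    Ap (fun s => (List.range n).all fun k => ψ k s) (∀ k, k < n → P k) := by
  induction n with
  | zero => exact ⟨by simp, by simp⟩
  | succ n ih =>
    have := ih.and (h n)
    simp only [List.range_succ, List.all_append, List.all_cons, List.all_nil, Bool.and_true]
    refine ⟨this.mono, this.iff.trans ⟨fun ⟨a, b⟩ k hk => ?_,
      fun a => ⟨fun k hk => a k (by omega), a n (by omega)⟩⟩⟩
    rcases Nat.lt_succ_iff_lt_or_eq.1 hk with c | rfl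
    · exact a k c
    · exact b

theorem Ap.any {ψ : ℕ → ℕ → Bool} {P : ℕ → Prop} (h : ∀ k, Ap (ψ k) (P k)) :
    Ap (fun s => (List.range s).any fun k => ψ k s) (∃ k, P k) := by
  constructor <;> simp only [List.any_eq_true, List.mem_range]
  · exact fun s ⟨k, a, b⟩ => ⟨k, by omega, (h k).mono _ b⟩
  · refine ⟨fun ⟨s, k, _, b⟩ => ⟨k, (h k).iff.1 ⟨s, b⟩⟩, fun ⟨k, a⟩ => ?_⟩
    obtain ⟨s, hs⟩ := (h k).iff.2 a
    exact ⟨s + k + 1, k, by omega, (h k).mono' (by omega) hs⟩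

def noB (k a b s : ℕ) : Bool := decide (evs k (Nat.pair a b) s = some 0)

def adjB (e a b j s : ℕ) : Bool := yesB e a b s && (noB e a j s || noB e j b s)

def denB (e a b j s : ℕ) : Bool :=
  yesB e a b s && (noB e j.unpair.1 j.unpair.2 s || yesB e j.unpair.1 a s ||
    yesB e b j.unpair.2 s ||
    (List.range s).any fun c => yesB e j.unpair.1 c s && yesB e c j.unpair.2 s)

/-- Entry `k` of the guess `i`. -/
def ent (i k : ℕ) : ℕ := ((decode i : Option (List ℕ)).getD []).getD k 0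

def anchB (e i j s : ℕ) : Bool :=
  denB e (ent i 0) (ent i 6) j s &&
  ((List.range (e + 1)).all fun k => adjB e (ent i (2 * k + 6)) (ent i (2 * (k + 1) + 6)) j s) &&
  denB e (ent i (2 * (e + 1) + 6)) (ent i 1) j s && adjB e (ent i 1) (ent i 2) j s &&
  adjB e (ent i 3) (ent i 4) j s && denB e (ent i 4) (ent i 7) j s &&
  ((List.range (e + 2)).all fun k => adjB e (ent i (2 * k + 7)) (ent i (2 * (k + 1) + 7)) j s) &&
  denB e (ent i (2 * (e + 2) + 7)) (ent i 5) j s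

def aLB (e i a b s : ℕ) : Bool := (decide (a = ent i 1) || yesB e (ent i 1) a s) && yesB e a b s
def aRB (e i a b s : ℕ) : Bool := yesB e b a s && (decide (a = ent i 4) || yesB e a (ent i 4) s)

def regInp (e : ℕ) : B :=
  mkInp (fun i s => anchB e i (ctr (anchB e i) s) s)
    (fun i b s => cnt (fun a => aLB e i a b s) s) (fun i b s => cnt (fun a => aRB e i a b s) s)

section td

variable {X : Type} [Rep X]

@[fun_prop] theorem noB_td {k a b s : X → ℕ} (hk : TD k) (ha : TD a) (hb : TD b) (hs : TD s) :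
    TD fun x => noB (k x) (a x) (b x) (s x) := by unfold noB; fun_prop
@[fun_prop] theorem adjB_td {k a b j s : X → ℕ} (hk : TD k) (ha : TD a) (hb : TD b) (hj : TD j)
    (hs : TD s) : TD fun x => adjB (k x) (a x) (b x) (j x) (s x) := by unfold adjB; fun_prop
@[fun_prop] theorem denB_td {k a b j s : X → ℕ} (hk : TD k) (ha : TD a) (hb : TD b) (hj : TD j)
    (hs : TD s) : TD fun x => denB (k x) (a x) (b x) (j x) (s x) := by unfold denB; fun_prop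
@[fun_prop] theorem ent_td {i k : X → ℕ} (hi : TD i) (hk : TD k) :
    TD fun x => ent (i x) (k x) :=
  TD.lgetD hk ((TD.decode' hi).getD' (TD.const [])) (TD.const 0)
@[fun_prop] theorem anchB_td {e i j s : X → ℕ} (he : TD e) (hi : TD i) (hj : TD j) (hs : TD s) :
    TD fun x => anchB (e x) (i x) (j x) (s x) := by unfold anchB; fun_prop
@[fun_prop] theorem aLB_td {e i a b s : X → ℕ} (he : TD e) (hi : TD i) (ha : TD a) (hb : TD b)
    (hs : TD s) : TD fun x => aLB (e x) (i x) (a x) (b x) (s x) := by unfold aLB; fun_prop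
@[fun_prop] theorem aRB_td {e i a b s : X → ℕ} (he : TD e) (hi : TD i) (ha : TD a) (hb : TD b)
    (hs : TD s) : TD fun x => aRB (e x) (i x) (a x) (b x) (s x) := by unfold aRB; fun_prop

end td

theorem regInp_td : TD regInp := by
  have t2 : TD fun y : ℕ × ℕ × ℕ => ctr (anchB y.1 y.2.1) y.2.2 :=
    ctr_td (φ := fun y : ℕ × ℕ × ℕ => anchB y.1 y.2.1)
      (anchB_td (by fun_prop) (by fun_prop) (by fun_prop) (by fun_prop)) (by fun_prop)
  refine mkInp_td (f := fun e i s => anchB e i (ctr (anchB e i) s) s)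
    (l := fun e i b s => cnt (fun a => aLB e i a b s) s)
    (r := fun e i b s => cnt (fun a => aRB e i a b s) s)
    (anchB_td (by fun_prop) (by fun_prop) t2 (by fun_prop)) ?_ ?_
  · exact cnt_td (φ := fun (y : ℕ × ℕ × ℕ × ℕ) a => aLB y.1 y.2.1 a y.2.2.1 y.2.2.2)
      (aLB_td (by fun_prop) (by fun_prop) (by fun_prop) (by fun_prop) (by fun_prop)) (by fun_prop)
  · exact cnt_td (φ := fun (y : ℕ × ℕ × ℕ × ℕ) a => aRB y.1 y.2.1 a y.2.2.1 y.2.2.2)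
      (aRB_td (by fun_prop) (by fun_prop) (by fun_prop) (by fun_prop) (by fun_prop)) (by fun_prop)

/-- Program `e` decides the order of a copy `Φ` of `α` on the set `D`. -/
structure Cp {α : Type} [LinearOrder α] (e : ℕ) (D : ℕ → Prop) (Φ : ℕ → α) : Prop where
  dec : Decides e fun x : ℕ × ℕ => D x.1 ∧ D x.2 ∧ Φ x.1 < Φ x.2
  inj : ∀ a b, D a → D b → Φ a = Φ b → a = b
  surj : ∀ x, ∃ a, D a ∧ Φ a = x

namespace Cp

variable {α : Type} [LinearOrder α] {e : ℕ} {D : ℕ → Prop} {Φ : ℕ → α} (h : Cp e D Φ)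
include h

theorem yes (a b : ℕ) : Ap (yesB e a b) (D a ∧ D b ∧ Φ a < Φ b) :=
  ⟨fun _ => yesB_mono, by simpa [yesB] using h.dec.yes a b⟩

theorem no (a b : ℕ) : Ap (noB e a b) (¬ (D a ∧ D b ∧ Φ a < Φ b)) :=
  ⟨fun _ hs => decide_eq_true (evs_mono (by omega) (of_decide_eq_true hs)),
    by simpa only [noB, decide_eq_true_eq] using h.dec.no a b⟩

theorem adj (a b : ℕ) : ∃ P : ℕ → Prop, (∀ j, Ap (adjB e a b j) (P j)) ∧
    ((∀ j, P j) ↔ D a ∧ D b ∧ Φ a ⋖ Φ b) := by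
  refine ⟨_, fun j => (h.yes a b).and ((h.no a j).or (h.no j b)), fun H => ?_, ?_⟩
  · obtain ⟨da, db, l⟩ := (H 0).1
    refine ⟨da, db, l, fun x x1 x2 => ?_⟩
    obtain ⟨j, dj, rfl⟩ := h.surj x
    exact (H j).2.elim (fun c => c ⟨da, dj, x1⟩) fun c => c ⟨dj, db, x2⟩
  · rintro ⟨da, db, c⟩ j
    refine ⟨⟨da, db, c.1⟩, ?_⟩
    by_contra hn
    push Not at hn
    exact c.2 hn.1.2.2 hn.2.2.2

theorem den (a b : ℕ) : ∃ P : ℕ → Prop, (∀ j, Ap (denB e a b j) (P j)) ∧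
    ((∀ j, P j) ↔ D a ∧ D b ∧ Den (Φ a) (Φ b)) := by
  refine ⟨_, fun j => (h.yes a b).and ((((h.no j.unpair.1 j.unpair.2).or (h.yes j.unpair.1 a)).or
    (h.yes b j.unpair.2)).or (Ap.any fun c => (h.yes j.unpair.1 c).and (h.yes c j.unpair.2))),
    fun H => ?_, ?_⟩
  · obtain ⟨da, db, l⟩ := (H 0).1
    refine ⟨da, db, l, fun x y x1 x2 x3 => ?_⟩
    obtain ⟨a', da', rfl⟩ := h.surj x
    obtain ⟨b', db', rfl⟩ := h.surj y
    have := (H (Nat.pair a' b')).2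
    simp only [Nat.unpair_pair] at this
    rcases this with ((c | c) | c) | ⟨c, c1, c2⟩
    · exact (c ⟨da', db', x2⟩).elim
    · exact absurd c.2.2 (not_lt.2 x1)
    · exact absurd c.2.2 (not_lt.2 x3)
    · exact ⟨_, c1.2.2, c2.2.2⟩
  · rintro ⟨da, db, c⟩ j
    refine ⟨⟨da, db, c.1⟩, ?_⟩
    by_cases h1 : D j.unpair.1 ∧ D j.unpair.2 ∧ Φ j.unpair.1 < Φ j.unpair.2
    · rcases lt_or_ge (Φ j.unpair.1) (Φ a) with h2 | h2
      · exact Or.inl (Or.inl (Or.inr ⟨h1.1, da, h2⟩))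
      rcases lt_or_ge (Φ b) (Φ j.unpair.2) with h3 | h3
      · exact Or.inl (Or.inr ⟨db, h1.2.1, h3⟩)
      obtain ⟨x, x1, x2⟩ := c.2 _ _ h2 h1.2.2 h3
      obtain ⟨k, dk, rfl⟩ := h.surj x
      exact Or.inr ⟨k, ⟨h1.1, dk, x1⟩, dk, h1.2.1, x2⟩
    · exact Or.inl (Or.inl (Or.inl h1))

theorem fire_iff (i : ℕ) : InfFire (regInp e) i ↔
    (D (ent i 0) ∧ D (ent i 6) ∧ Den (Φ (ent i 0)) (Φ (ent i 6))) ∧
    (∀ k, k < e + 1 → D (ent i (2 * k + 6)) ∧ D (ent i (2 * (k + 1) + 6)) ∧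
      Φ (ent i (2 * k + 6)) ⋖ Φ (ent i (2 * (k + 1) + 6))) ∧
    (D (ent i (2 * (e + 1) + 6)) ∧ D (ent i 1) ∧ Den (Φ (ent i (2 * (e + 1) + 6))) (Φ (ent i 1))) ∧
    (D (ent i 1) ∧ D (ent i 2) ∧ Φ (ent i 1) ⋖ Φ (ent i 2)) ∧
    (D (ent i 3) ∧ D (ent i 4) ∧ Φ (ent i 3) ⋖ Φ (ent i 4)) ∧
    (D (ent i 4) ∧ D (ent i 7) ∧ Den (Φ (ent i 4)) (Φ (ent i 7))) ∧
    (∀ k, k < e + 2 → D (ent i (2 * k + 7)) ∧ D (ent i (2 * (k + 1) + 7)) ∧
      Φ (ent i (2 * k + 7)) ⋖ Φ (ent i (2 * (k + 1) + 7))) ∧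
    (D (ent i (2 * (e + 2) + 7)) ∧ D (ent i 5) ∧ Den (Φ (ent i (2 * (e + 2) + 7))) (Φ (ent i 5))) := by
  choose Pa a1 a2 using h.adj
  choose Pd d1 d2 using h.den
  have key := fun j => (((((((d1 (ent i 0) (ent i 6) j).and
    (Ap.all (fun k => a1 (ent i (2 * k + 6)) (ent i (2 * (k + 1) + 6)) j) (e + 1))).and
    (d1 (ent i (2 * (e + 1) + 6)) (ent i 1) j)).and (a1 (ent i 1) (ent i 2) j)).and
    (a1 (ent i 3) (ent i 4) j)).and (d1 (ent i 4) (ent i 7) j)).and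
    (Ap.all (fun k => a1 (ent i (2 * k + 7)) (ent i (2 * (k + 1) + 7)) j) (e + 2))).and
    (d1 (ent i (2 * (e + 2) + 7)) (ent i 5) j)
  unfold InfFire regInp
  simp only [fire_mkInp]
  rw [ctr_fire (φ := anchB e i) fun j => (key j).mono]
  refine (forall_congr' fun j => (key j).iff).trans ?_
  simp only [← a2, ← d2]
  constructor
  · intro H
    exact ⟨fun j => (H j).1.1.1.1.1.1.1, fun k hk j => (H j).1.1.1.1.1.1.2 k hk,
      fun j => (H j).1.1.1.1.1.2, fun j => (H j).1.1.1.1.2, fun j => (H j).1.1.1.2,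
      fun j => (H j).1.1.2, fun k hk j => (H j).1.2 k hk, fun j => (H j).2⟩
  · rintro ⟨h1, h2, h3, h4, h5, h6, h7, h8⟩ j
    exact ⟨⟨⟨⟨⟨⟨⟨h1 j, fun k hk => h2 k hk j⟩, h3 j⟩, h4 j⟩, h5 j⟩, h6 j⟩,
      fun k hk => h7 k hk j⟩, h8 j⟩

theorem anch_of_fire {i : ℕ} (hi : InfFire (regInp e) i) : D (ent i 1) ∧ D (ent i 4) ∧
    Anch e (Φ (ent i 0)) (Φ (ent i 1)) (Φ (ent i 2)) (Φ (ent i 3)) (Φ (ent i 4)) (Φ (ent i 5))
      (fun k => Φ (ent i (2 * k + 6))) fun k => Φ (ent i (2 * k + 7)) := by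
  obtain ⟨h1, h2, h3, h4, h5, h6, h7, h8⟩ := (h.fire_iff i).1 hi
  exact ⟨h4.1, h6.1, h1.2.2, fun k hk => (h2 k hk).2.2, h3.2.2, h4.2.2, h5.2.2, h6.2.2,
    fun k hk => (h7 k hk).2.2, h8.2.2⟩

theorem fire_of_anch {u z z' w' w v : α} {xs ys : ℕ → α} (ha : Anch e u z z' w' w v xs ys) :
    ∃ i, InfFire (regInp e) i := by
  choose G hG using h.surj
  let t : ℕ → α := fun k => if k < 6 then [u, z, z', w', w, v].getD k u
    else if k % 2 = 0 then xs ((k - 6) / 2) else ys ((k - 7) / 2)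
  let L := (List.range (2 * e + 12)).map fun k => G (t k)
  have hL : ∀ k, k < 2 * e + 12 → ent (encode L) k = G (t k) := fun k hk => by
    simp [ent, L, hk]
  have hD : ∀ k, k < 2 * e + 12 → D (ent (encode L) k) := fun k hk => by
    rw [hL k hk]; exact (hG _).1
  have hΦ : ∀ k, k < 2 * e + 12 → Φ (ent (encode L) k) = t k := fun k hk => by
    rw [hL k hk]; exact (hG _).2
  have tx : ∀ k, t (2 * k + 6) = xs k := fun k => by
    simp only [t]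
    rw [if_neg (by omega), if_pos (by omega)]; congr 1; omega
  have ty : ∀ k, t (2 * k + 7) = ys k := fun k => by
    simp only [t]
    rw [if_neg (by omega), if_neg (by omega)]; congr 1; omega
  refine ⟨encode L, (h.fire_iff _).2 ⟨⟨hD _ (by omega), hD _ (by omega), ?_⟩,
    fun k hk => ⟨hD _ (by omega), hD _ (by omega), ?_⟩, ⟨hD _ (by omega), hD _ (by omega), ?_⟩,
    ⟨hD _ (by omega), hD _ (by omega), ?_⟩, ⟨hD _ (by omega), hD _ (by omega), ?_⟩,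
    ⟨hD _ (by omega), hD _ (by omega), ?_⟩, fun k hk => ⟨hD _ (by omega), hD _ (by omega), ?_⟩,
    ⟨hD _ (by omega), hD _ (by omega), ?_⟩⟩⟩
  all_goals rw [hΦ _ (by omega), hΦ _ (by omega)]
  · rw [show t 6 = xs 0 from tx 0]; exact ha.h1
  · rw [tx, tx]; exact ha.h2 k hk
  · rw [tx]; exact ha.h3
  · exact ha.h4
  · exact ha.h5
  · rw [show t 7 = ys 0 from ty 0]; exact ha.h6
  · rw [ty, ty]; exact ha.h7 k hk
  · rw [ty]; exact ha.h8

end Cp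

theorem no_cp {q : ℕ → B} (hq : ∀ e, q e = Qf (regInp e)) {e : ℕ} {D : ℕ → Prop}
    {Φ : ℕ → Pt (fun e => EvL (q e)) (fun e => EvR 4 (q e))} (h : Cp e D Φ) : False := by
  have hs : ∀ e, Seg (EvL (q e)) (EvR 4 (q e)) := fun e => by
    rw [hq]; exact seg_of_og (Qf_ok _) (Qf_og _)
  have hA : ∀ e, EvL (q e) 1 := fun e => ⟨0, fun s _ => by
    have := Qf_two (regInp e) s; rw [hq]; omega⟩
  have hC : ∀ e, EvR 4 (q e) 1 := fun e => ⟨0, fun s _ => by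
    have := Qf_two (regInp e) s; rw [hq]; omega⟩
  have a0 := (hs e).dA 0 1 (by omega) (hA e)
  have c0 := (hs e).dC 0 1 (by omega) (hC e)
  obtain ⟨u, z', w', v, xs, ys, ha⟩ := anch_exists hs e a0 (hA e) c0 (hC e)
  refine diag (h.fire_of_anch ha) fun i hi => ?_
  obtain ⟨dz, dw, ha⟩ := h.anch_of_fire hi
  obtain ⟨⟨_, hz⟩, _, hw⟩ := anch_unique hs hA hC ha
  obtain ⟨k1, k2, k3⟩ := region_coord (A := fun e => EvL (q e)) (C := fun e => EvR 4 (q e)) e a0 c0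
  rw [← hz, ← hw] at k1 k2 k3
  have apL : ∀ a b, Ap (aLB e i a b) _ := fun a b =>
    ((Ap.const (decide (a = ent i 1))).or (h.yes (ent i 1) a)).and (h.yes a b)
  have apR : ∀ a b, Ap (aRB e i a b) _ := fun a b =>
    (h.yes b a).and ((Ap.const (decide (a = ent i 4))).or (h.yes a (ent i 4)))
  have sL : ∀ a b, (∃ s, aLB e i a b s = true) ↔
      D a ∧ D b ∧ Φ (ent i 1) ≤ Φ a ∧ Φ a < Φ b := fun a b => by
    rw [(apL a b).iff, decide_eq_true_eq]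
    constructor
    · rintro ⟨rfl | c, d⟩
      · exact ⟨d.1, d.2.1, le_rfl, d.2.2⟩
      · exact ⟨d.1, d.2.1, c.2.2.le, d.2.2⟩
    · rintro ⟨da, db, c, d⟩
      exact ⟨c.eq_or_lt.imp (fun c => h.inj _ _ da dz c.symm) fun c => ⟨dz, da, c⟩, da, db, d⟩
  have sR : ∀ a b, (∃ s, aRB e i a b s = true) ↔
      D a ∧ D b ∧ Φ a ≤ Φ (ent i 4) ∧ Φ b < Φ a := fun a b => by
    rw [(apR a b).iff, decide_eq_true_eq]
    constructor
    · rintro ⟨d, rfl | c⟩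
      · exact ⟨d.2.1, d.1, le_rfl, d.2.2⟩
      · exact ⟨d.2.1, d.1, c.2.2.le, d.2.2⟩
    · rintro ⟨da, db, c, d⟩
      exact ⟨⟨db, da, d⟩, c.eq_or_lt.imp (fun c => h.inj _ _ da dw c) fun c => ⟨da, dw, c⟩⟩
  rw [← hq]
  refine hyp_of_copy (hs e) (fun a => D a ∧ Φ (ent i 1) ≤ Φ a ∧ Φ a ≤ Φ (ent i 4))
    (fun a => kap (Φ a))
    (fun a b ja jb c => h.inj _ _ ja.1 jb.1 ((k3 _ _ ja.2.1 ja.2.2 jb.2.1 jb.2.2).2 c))
    (fun a ja => k1 _ ja.2.1 ja.2.2) (fun x hx => ?_) (aLB e i) (aRB e i)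
    (fun a b => (apL a b).mono) (fun a b => (apR a b).mono) (fun a a' b s s' l r => ?_)
    (fun a b jb => ?_) (fun a b jb => ?_) (fun b s => cl_mkInp _ _ _ _ _ _)
    fun b s => cr_mkInp _ _ _ _ _ _
  · obtain ⟨y, y1, y2, rfl⟩ := k2 x hx
    obtain ⟨a, da, rfl⟩ := h.surj y
    exact ⟨a, ⟨da, y1, y2⟩, rfl⟩
  · obtain ⟨-, db, l1, l2⟩ := (sL a b).1 ⟨s, l⟩
    obtain ⟨-, -, r1, r2⟩ := (sR a' b).1 ⟨s', r⟩
    exact ⟨db, l1.trans l2.le, r2.le.trans r1⟩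
  · rw [sL]
    constructor
    · rintro ⟨da, -, c, d⟩
      have := d.le.trans jb.2.2
      exact ⟨⟨da, c, this⟩, (k3 _ _ c this jb.2.1 jb.2.2).1.1 d⟩
    · rintro ⟨ja, d⟩
      exact ⟨ja.1, jb.1, ja.2.1, (k3 _ _ ja.2.1 ja.2.2 jb.2.1 jb.2.2).1.2 d⟩
  · rw [sR]
    constructor
    · rintro ⟨da, -, c, d⟩
      have := jb.2.1.trans d.le
      exact ⟨⟨da, this, c⟩, (k3 _ _ jb.2.1 jb.2.2 this c).1.1 d⟩
    · rintro ⟨ja, d⟩
      exact ⟨ja.1, jb.1, ja.2.2, (k3 _ _ jb.2.1 jb.2.2 ja.2.1 ja.2.2).1.2 d⟩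

theorem no_copy : ∃ q : ℕ → B, TD q ∧ (∀ e, Ok 4 (q e)) ∧ (∀ e, OG 4 (q e)) ∧
    (∀ e, EvL (q e) 0) ∧
    ¬ ∃ (D : ℕ → Prop) (R : ℕ → ℕ → Prop), ComputablePred D ∧
      ComputablePred (fun x : ℕ × ℕ => R x.1 x.2) ∧
      ∃ F : {n : ℕ // D n} ≃ Pt (fun e => EvL (q e)) (fun e => EvR 4 (q e)),
        ∀ a b : {n : ℕ // D n}, R a.1 b.1 ↔ F a < F b := by
  classical
  obtain ⟨q, tq, hq⟩ : ∃ q : ℕ → B, TD q ∧ ∀ e, q e = Qf (regInp e) :=
    ⟨_, Qf_td regInp_td, fun _ => rfl⟩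
  refine ⟨q, tq, fun e => hq e ▸ Qf_ok _, fun e => hq e ▸ Qf_og _, fun e => ⟨0, fun s _ => by
    have := Qf_two (regInp e) s; rw [hq]; omega⟩, ?_⟩
  rintro ⟨D, R, ⟨_, hD⟩, ⟨_, hR⟩, F, hF⟩
  let Φ : ℕ → Pt (fun e => EvL (q e)) (fun e => EvR 4 (q e)) := fun n =>
    if h : D n then F ⟨n, h⟩ else Pt.q1 0 0
  have hΦ : ∀ n (h : D n), Φ n = F ⟨n, h⟩ := fun n h => dif_pos h
  have tD := TD.of_computable hD
  have t1 := (tD.comp' (TD.fst (TD.id' (X := ℕ × ℕ)))).and'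
    ((tD.comp' (TD.snd TD.id')).and' (TD.of_computable hR))
  obtain ⟨e, he⟩ := exists_decides (P := fun x : ℕ × ℕ => D x.1 ∧ D x.2 ∧ Φ x.1 < Φ x.2)
    ⟨fun _ => inferInstance, t1.computable.of_eq fun x => by
      by_cases h1 : D x.1 <;> by_cases h2 : D x.2 <;> simp [h1, h2]
      rw [hΦ _ h1, hΦ _ h2, ← hF]⟩
  refine no_cp hq (D := D) (Φ := Φ) ⟨he, fun a b da db c => ?_, fun x => ?_⟩
  · rw [hΦ _ da, hΦ _ db] at c
    exact congrArg Subtype.val (F.injective c)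
  · exact ⟨(F.symm x).1, (F.symm x).2, by rw [hΦ _ (F.symm x).2]; exact F.apply_symm_apply x⟩

end Pool.Agent.Lib.MP_d69888_lc
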