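import Pool.Agent.Lib.MP_d69888_lc.YRun2
import Pool.Agent.Lib.MP_d69888_lc.NoCopy

/-!
The least node that fires infinitely often does not see a copy of the order of the region tree.
-/

namespace Pool.Agent.Lib.MP_d69888_lc.Yes

open Pool.Agent.Shared.Type2 Set

theorem ap_congr {ψ : ℕ → Bool} {P Q : Prop} (h : Ap ψ P) (e : P ↔ Q) : Ap ψ Q := ⟨h.mono, h.iff.trans e⟩

section count

variable {C : Type} {ψ : ℕ → ℕ → Bool} {g : C → ℕ} {U : Set C}
  (h : ∀ w, Ap (ψ w) (∃ x ∈ U, g x = w))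
include h

theorem cnt_le_encard (s : ℕ) : (cnt (fun w => ψ w s) s : ℕ∞) ≤ U.encard := by
  rw [cnt_eq, ← Set.encard_coe_eq_coe_finsetCard]
  refine (Set.encard_le_encard fun w hw => ?_).trans (Set.encard_image_le g U)
  simp only [Finset.coe_filter, Set.mem_ofPred_eq] at hw
  exact (h w).iff.1 ⟨s, hw.2⟩

theorem cnt_ge_encard (hg : Function.Injective g) {k : ℕ} (hk : (k : ℕ∞) ≤ U.encard) :
    ∃ s₀, ∀ s, s₀ ≤ s → k ≤ cnt (fun w => ψ w s) s := by
  classical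
  obtain ⟨t, ht, h1⟩ := Set.exists_subset_encard_eq hk
  have hf : t.Finite := Set.finite_of_encard_eq_coe h1
  have h2 : ∀ x : C, ∃ s, x ∈ U → ψ (g x) s = true := fun x => by
    by_cases hx : x ∈ U
    · obtain ⟨s, hs⟩ := (h (g x)).iff.2 ⟨x, hx, rfl⟩
      exact ⟨s, fun _ => hs⟩
    · exact ⟨0, fun c => absurd c hx⟩
  choose N hN using h2
  obtain ⟨m, hm⟩ := (hf.image fun x => N x + g x).bddAbove
  refine ⟨m + 1, fun s hs => ?_⟩
  have h3 : (k : ℕ∞) ≤ cnt (fun w => ψ w s) s := by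
    rw [cnt_eq, ← Set.encard_coe_eq_coe_finsetCard, ← h1]
    refine Set.encard_le_encard_of_injOn (f := g) (fun x hx => ?_) hg.injOn
    have h4 : N x + g x ≤ m := hm ⟨x, hx, rfl⟩
    simp only [Finset.coe_filter, Finset.mem_range, Set.mem_ofPred_eq]
    exact ⟨by omega, (h _).mono' (by omega) (hN x (ht hx))⟩
  exact_mod_cast h3

end count

/-- Node `i` sees the order `C` through the numbering `g`. -/
structure Hy (o : B) (i : ℕ) {C : Type} [LinearOrder C] (g : C → ℕ) : Prop where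
  inj : Function.Injective g
  ap : ∀ a a', Ap (olt o i a a') (∃ x y, g x = a ∧ g y = a' ∧ x < y)

theorem Iio_split {C : Type} [LinearOrder C] (x y : C) :
    (Iio y).encard ≤ (Iio x).encard + 1 + (Ioo x y).encard := by
  have h : Iio y ⊆ insert x (Iio x) ∪ Ioo x y := fun w hw => by
    rcases lt_trichotomy w x with h | h | h
    · exact Or.inl (Or.inr h)
    · exact Or.inl (Or.inl h)
    · exact Or.inr ⟨h, hw⟩
  exact (Set.encard_le_encard h).trans ((Set.encard_union_le _ _).trans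
    (add_le_add (Set.encard_insert_le _ _) le_rfl))

theorem far {C : Type} [LinearOrder C] (h : ∀ x : C, ∃ y, x < y) (y : C) (k : ℕ) :
    ∃ p, y < p ∧ (k : ℕ∞) ≤ (Ioo y p).encard := by
  induction k with
  | zero => obtain ⟨p, hp⟩ := h y; exact ⟨p, hp, by simp⟩
  | succ k ih =>
    obtain ⟨p, h1, h2⟩ := ih
    obtain ⟨q, hq⟩ := h p
    refine ⟨q, h1.trans hq, le_trans ?_ (Set.encard_le_encard (s := insert p (Ioo y p)) ?_)⟩
    · rw [Set.encard_insert_of_notMem (by simp)]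
      push_cast
      exact add_le_add h2 le_rfl
    · rintro w (rfl | hw)
      · exact ⟨h1, hq⟩
      · exact ⟨hw.1, hw.2.trans hq⟩

namespace Hy

variable {o : B} {i : ℕ} {C : Type} [LinearOrder C] {g : C → ℕ} (H : Hy o i g)
include H

theorem apL (t : C) (w : ℕ) : Ap (olt o i w (g t)) (∃ x ∈ Iio t, g x = w) :=
  ap_congr (H.ap w (g t)) ⟨fun ⟨x, _, a, b, c⟩ => ⟨x, H.inj b ▸ c, a⟩,
    fun ⟨x, a, b⟩ => ⟨x, t, b, rfl, a⟩⟩

theorem apB (x y : C) (w : ℕ) :
    Ap (fun s => olt o i (g x) w s && olt o i w (g y) s) (∃ v ∈ Ioo x y, g v = w) :=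
  ap_congr ((H.ap (g x) w).and (H.ap w (g y)))
    ⟨fun ⟨⟨_, v, a, b, c⟩, _, _, d, e, f⟩ =>
      ⟨v, ⟨H.inj a ▸ c, H.inj e ▸ H.inj (d.trans b.symm) ▸ f⟩, b⟩,
    fun ⟨v, a, b⟩ => ⟨⟨x, v, rfl, b, a.1⟩, v, y, b, rfl, a.2⟩⟩

theorem lft_le (t : C) (s : ℕ) : (lft o i (g t) s : ℕ∞) ≤ (Iio t).encard :=
  cnt_le_encard (H.apL t) s

theorem btw_le (x y : C) (s : ℕ) : (btw o i (g x) (g y) s : ℕ∞) ≤ (Ioo x y).encard :=
  cnt_le_encard (ψ := fun w s => olt o i (g x) w s && olt o i w (g y) s) (H.apB x y) s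

theorem lft_ge {t : C} {k : ℕ} (h : (k : ℕ∞) ≤ (Iio t).encard) :
    ∃ s₀, ∀ s, s₀ ≤ s → k ≤ lft o i (g t) s := cnt_ge_encard (H.apL t) H.inj h

theorem btw_ge {x y : C} {k : ℕ} (h : (k : ℕ∞) ≤ (Ioo x y).encard) :
    ∃ s₀, ∀ s, s₀ ≤ s → k ≤ btw o i (g x) (g y) s :=
  cnt_ge_encard (ψ := fun w s => olt o i (g x) w s && olt o i w (g y) s) (H.apB x y) H.inj h

theorem lft_mono (t : ℕ) : Monotone (lft o i t) :=
  monotone_nat_of_le_succ (cnt_mono (φ := fun w => olt o i w t) fun w => (H.ap w t).mono)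

theorem btw_mono (x y : ℕ) : Monotone (btw o i x y) :=
  monotone_nat_of_le_succ (cnt_mono (φ := fun w s => olt o i x w s && olt o i w y s)
    fun w => ((H.ap x w).and (H.ap w y)).mono)

theorem btw_pos {y : C} {a s : ℕ} (h : 0 < btw o i (g y) a s) : ∃ p, g p = a ∧ y < p := by
  obtain ⟨w, hw⟩ := cnt_pos h
  obtain ⟨⟨_, v, a, b, c⟩, _, p, d, e, f⟩ := ((H.ap (g y) w).and (H.ap w a)).iff.1 ⟨s, hw⟩
  exact ⟨p, e, lt_trans (H.inj a ▸ c) (H.inj (d.trans b.symm) ▸ f)⟩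

theorem pts {b c s₁ : ℕ} (hF : InfFire o i)
    (h : ∀ s, s₁ ≤ s → fire o i s = true → valid o i s (Lev (spo o) s) b c = true) :
    ∃ t y w, g t = ct c ∧ g y = cy c ∧ t < y ∧ y ⋖ w := by
  obtain ⟨s, h1, h2⟩ := hF s₁
  obtain ⟨-, h3, h4, -⟩ := valid_spec.1 (h s h1 h2)
  obtain ⟨t, y, a, b', c'⟩ := (H.ap _ _).iff.1 ⟨s, h3⟩
  obtain ⟨y', w, d, e, f⟩ := (H.ap _ _).iff.1 ⟨s, h4⟩
  obtain rfl : y' = y := H.inj (d.trans b'.symm)
  refine ⟨t, y', w, a, d, c', f, fun v v1 v2 => ?_⟩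
  obtain ⟨s₀, h5⟩ := H.btw_ge (x := y') (y := w) (k := 1)
    (by rw [Nat.cast_one, Set.one_le_encard_iff_nonempty]; exact ⟨v, v1, v2⟩)
  obtain ⟨u, h6, h7⟩ := hF (s₀ + s₁)
  have h8 := (valid_spec.1 (h u (by omega) h7)).2.2.2.2.2
  have := h5 u (by omega)
  rw [d, e] at this
  omega

end Hy

variable {o : B} {i r : ℕ} {g : LPt (Tr (spo o)) → ℕ} (H : Hy o i g)
include H

theorem Env.no_F (E : Env o i r)
    (h : ∀ s₀, ∃ s, s₀ ≤ s ∧ fire o i s = true ∧ nmd o i s = 0) : False := by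
  have hq : z (one (4 * r + 4)) ∈ Ico (z (one (4 * r + 4))) (z (one (4 * r + 4 + 1))) :=
    ⟨le_rfl, z_one_lt (by omega)⟩
  obtain ⟨t, y, w, h1, h2, h3, h4⟩ := world_F tr_tree tr_zero (one_pa (spo_one o) _)
    (E.per_F h hq) E.blockY fun f hf => hq.2.trans_le hf.1
  have n1 : ∀ s, 4 * r + 8 ≤ s → num (spo o) s (Iio (z (one (4 * r + 4)))) = _ :=
    fun s hs => E.fr_pre.num_eq (det_Iio (by simp)) hs
  have n2 : ∀ s, 4 * r + 8 ≤ s →
      num (spo o) s (Ico (z (one (4 * r + 4 + 1))) (z (one (4 * r + 4 + 4)))) = _ :=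
    fun s hs => E.fr_Y.num_eq (det_Ico (by simp) (by simp)) hs
  have stab : ∀ c, ∃ s₀, ∀ s u, s₀ ≤ s → s ≤ u → valid o i s (Lev (spo o) s) (4 * r + 4) c = true →
      valid o i u (Lev (spo o) u) (4 * r + 4) c = true := fun c => by
    by_cases h5 : ∃ s₀, 0 < btw o i (cy c) (cw c) s₀
    · obtain ⟨s₀, h5⟩ := h5
      refine ⟨s₀, fun s u hs _ hv => ?_⟩
      have := (valid_spec.1 hv).2.2.2.2.2
      have := H.btw_mono (cy c) (cw c) hs
      omega
    · push Not at h5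
      refine ⟨0, fun s u _ hu hv => ?_⟩
      obtain ⟨a1, a2, a3, a4, a5, -⟩ := valid_spec.1 hv
      have := H.lft_mono (ct c) hu
      have := H.btw_mono (ct c) (cy c) hu
      have := h5 u
      rw [n1 s (by omega)] at a4
      rw [n2 s (by omega)] at a5
      exact valid_spec.2 ⟨by omega, (H.ap _ _).mono' hu a2, (H.ap _ _).mono' hu a3,
        by rw [n1 u (by omega)]; omega, by rw [n2 u (by omega)]; omega, by omega⟩
  choose N hN using stab
  let c := Nat.pair (g t) (Nat.pair (g y) (g w))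
  obtain ⟨m, hm⟩ := ((Set.finite_Iic c).image N).bddAbove
  obtain ⟨s1, b1⟩ := H.lft_ge (t := t) (k := num (spo o) (4 * r + 8) (Iio (z (one (4 * r + 4)))))
    (by rw [h3]; exact le_top)
  obtain ⟨s2, b2⟩ := H.btw_ge (x := t) (y := y)
    (k := num (spo o) (4 * r + 8) (Ico (z (one (4 * r + 4 + 1))) (z (one (4 * r + 4 + 4)))))
    (by rw [h4]; exact le_top)
  obtain ⟨s3, b3⟩ := (H.ap _ _).iff.2 ⟨t, y, rfl, rfl, h1⟩
  obtain ⟨s4, b4⟩ := (H.ap _ _).iff.2 ⟨y, w, rfl, rfl, h2.1⟩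
  obtain ⟨s, hs, hf, h0⟩ := h (m + s1 + s2 + s3 + s4 + c + 1 + (4 * r + 8))
  have hv : valid o i s (Lev (spo o) s) (4 * r + 4) c = true := by
    have b5 := H.btw_le y w s
    rw [h2.Ioo_eq, Set.encard_empty, nonpos_iff_eq_zero, Nat.cast_eq_zero] at b5
    have := b2 s (by omega)
    refine valid_spec.2 ?_
    simp only [c, ct, cy, cw, Nat.unpair_pair]
    exact ⟨by omega, (H.ap _ _).mono' (by omega) b3, (H.ap _ _).mono' (by omega) b4,
      by rw [n1 s (by omega)]; exact b1 s (by omega), by rw [n2 s (by omega)]; omega, b5⟩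
  obtain ⟨v1, v2⟩ := fst1_le (φ := fun c => valid o i s (Lev (spo o) s) (4 * r + 4) c) (d := 0)
    (by omega : c < s) hv
  rw [← (E.reset (by omega) hf h0).2.2.2.2] at v1 v2
  have v3 : N (nC o i (s + 1)) ≤ m := hm ⟨_, v2, rfl⟩
  have key : ∀ u, s + 1 ≤ u → nC o i u = nC o i (s + 1) → nmd o i u ≠ 0 := fun u hu e h5 => by
    have h6 := (md_spec o i u (Lev (spo o) u) (nst o i u)).2.1.1 h5
    rw [E.base (by omega), show sc (nst o i u) = nC o i (s + 1) from e,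
      hN _ s u (by omega) (by omega) v1] at h6
    exact absurd h6 (by simp)
  have key2 : ∀ u, s + 1 ≤ u → nC o i u = nC o i (s + 1) := fun u hu => by
    induction u, hu using Nat.le_induction with
    | base => rfl
    | succ u hu ih => rw [E.code_eq (by omega) fun _ => key u hu ih, ih]
  obtain ⟨u, hu, -, h5⟩ := h (s + 1)
  exact key u hu (key2 u hu) h5

theorem Run.no_H {s₁ : ℕ} (R : Run o i r s₁)
    (hH : ∀ s₀, ∃ s, s₀ ≤ s ∧ fire o i s = true ∧ nmd o i s ≤ 3) : False := by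
  obtain ⟨t, y, w, h1, h2, h3, h4⟩ := H.pts R.inf fun s => R.valid'
  refine world_H tr_tree tr_zero (l := fun s => z (nL o i (s₁ + s)))
    (r := fun s => z (nR o i (s₁ + s))) (E := z (one (4 * r + 4 + 4))) (R.zn_finite hH)
    (fun f hf => ?_) (fun f => R.zn_not_iso hH) (fun f _ => R.env.dn_tail hH)
    (fun s => ⟨(R.blockL (by omega)).fin, (R.blockL (by omega)).iso⟩)
    (fun s => ⟨(R.blockR (by omega)).fin, (R.blockR (by omega)).iso⟩) h3 h4 (fun s => ?_)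
    fun s => ?_
  · rcases lt_or_ge f (z (one (4 * r + 4 + 4))) with a | a
    swap
    · exact Or.inr (Or.inr (Or.inr a))
    by_cases b : f ∈ Run.Zn o i s₁
    · exact Or.inr (Or.inr (Or.inl b))
    have c : ¬ ∀ s, s₁ ≤ s → f ∈ Ico (z (nL o i s)) (z (nR o i s)) := fun c => b ⟨hf, c⟩
    push Not at c
    obtain ⟨s, c1, c2⟩ := c
    obtain ⟨d, rfl⟩ := Nat.exists_eq_add_of_le c1
    rcases lt_or_ge f (z (nL o i (s₁ + d))) with e | e
    · exact Or.inl ⟨d, e⟩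
    · exact Or.inr (Or.inl ⟨d, not_lt.1 fun e' => c2 ⟨e, e'⟩, a⟩)
  · obtain ⟨u, hu⟩ := R.invL (s := s₁ + s) (by omega)
    rw [← h1] at hu
    exact hu.trans (H.lft_le t u)
  · obtain ⟨u, hu⟩ := R.invR (s := s₁ + s) (by omega)
    rw [← h1, ← h2] at hu
    push_cast at hu
    exact hu.trans (add_le_add (H.btw_le t y u) le_rfl)

namespace Stuck

variable {s₂ c : ℕ} {l u v : List Bool} (S : Stuck o i r s₂ l u v c)
include S

omit H in
theorem spec {s : ℕ} (hs : s₂ ≤ s) (hf : fire o i s = true) :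
    lft o i (ct c) s < num (spo o) s (Iio (z u)) ∧
    btw o i (ct c) (cy c) s + 2 < num (spo o) s (Ico (z v) (z (one (4 * r + 4 + 4)))) ∧
    (nmd o i s = 4 → 2 * num (spo o) s (Iio (z u)) ≤ btw o i (cy c) (nW o i s) s) ∧
    (nmd o i s ≠ 4 → btw o i (cy c) (nW o i s) s < 2 * num (spo o) s (Iio (z u))) ∧
    nW o i (s + 1) = if num (spo o) s (Iio (z u)) ≤ btw o i (cy c) (nW o i s) s then nW o i s
      else fst1 (fun p => decide (num (spo o) s (Iio (z u)) ≤ btw o i (cy c) p s)) s 0 := by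
  obtain ⟨a1, -, -, a2, a3, a4, a5, -⟩ := S.md s hs hf
  obtain ⟨b0, -, -, -, -, -, b1, b2, b3⟩ := md_spec o i s (Lev (spo o) s) (nst o i s)
  have a2' : sc (nst o i s) = c := a2
  have a3' : tu (sj (nst o i s)) = u := a3
  have a4' : tv (sj (nst o i s)) = v := a4
  have := S.le
  unfold nw at a5
  simp only [cntL_lev, Ico_nil, a2', a3', a4', S.env.base (show r < s by omega)] at b1 b2 b3 a5
  exact ⟨(b1 a1).1, (b1 a1).2, b2, fun h => b3 (by unfold nmd at h a1; omega), a5⟩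

omit H in
theorem num_same {s : ℕ} (hs : s₂ ≤ s) (h : fire o i s = true → nmd o i s ≠ 4) :
    num (spo o) (s + 1) (Iio (z u)) = num (spo o) s (Iio (z u)) :=
  num_succ_eq (det_Iio S.lenu) hs fun _ _ => S.env.nosp (S.le.trans hs)
    (fun _ hf => lt_trans hf (S.uv.trans (S.bv.trans_lt (z_one_lt (by omega)))))
    fun hf _ h1 _ h2 => by
      rw [(S.md s hs hf).2.2.1, if_neg (h hf)] at h2
      exact not_le.2 h1 h2.1

omit H in
theorem num_more {s : ℕ} (hs : s₂ ≤ s) (hf : fire o i s = true) (h : nmd o i s = 4) :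
    num (spo o) s (Iio (z u)) < num (spo o) (s + 1) (Iio (z u)) := by
  obtain ⟨-, a1, a2, -, -, -, -, σ, a3, a4⟩ := S.md s hs hf
  have := S.le
  refine num_lt_succ (det_Iio S.lenu) hs a3 a4.2 ((S.env.spo_fire (by omega) hf).2
    (Or.inr (Or.inl ⟨⟨S.bl.trans a4.1, (a4.2.trans S.uv).trans_le S.bv⟩, ?_⟩)))
  rw [a1, a2, if_pos h]
  exact ⟨a4.1, a4.2.trans S.uv⟩

theorem no_loop (h : ∀ s₀, ∃ s, s₀ ≤ s ∧ fire o i s = true ∧ nmd o i s = 4) : False := by
  obtain ⟨t, y, w, h1, h2, h3, h4⟩ := H.pts S.inf S.val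
  have hle := S.le
  obtain ⟨s₃, a1, a2, a3⟩ := h s₂
  have ret : ∀ s, s₂ ≤ s → fire o i s = true → nmd o i s = 4 → nW o i (s + 1) = nW o i s ∧
      num (spo o) (s + 1) (Iio (z u)) ≤ btw o i (cy c) (nW o i s) (s + 1) := fun s hs hf e => by
    obtain ⟨-, -, b1, -, b2⟩ := S.spec hs hf
    have b3 := b1 e
    have b4 := num_succ_le (sp := spo o) (det_Iio S.lenu) hs
    have b5 := H.btw_mono (cy c) (nW o i s) (Nat.le_add_right s 1)
    exact ⟨by rw [b2, if_pos (by omega)], by omega⟩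
  have inv : ∀ s, s₃ + 1 ≤ s → nW o i s = nW o i s₃ ∧
      num (spo o) s (Iio (z u)) ≤ btw o i (cy c) (nW o i s₃) s := fun s hs => by
    induction s, hs using Nat.le_induction with
    | base => exact ret s₃ a1 a2 a3
    | succ s hs ih =>
      have b5 := H.btw_mono (cy c) (nW o i s₃) (Nat.le_add_right s 1)
      cases hf : fire o i s
      · rw [S.num_same (by omega) (by simp [hf])]
        refine ⟨?_, by omega⟩
        rw [← ih.1]; unfold nW; rw [(S.env.idle s (by omega) hf).1]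
      · by_cases e : nmd o i s = 4
        · rw [← ih.1]; exact ret s (by omega) hf e
        · rw [S.num_same (by omega) fun _ => e, (S.spec (by omega) hf).2.2.2.2, ih.1, if_pos ih.2]
          exact ⟨rfl, by omega⟩
  have mono : ∀ s t, s₂ ≤ s → s ≤ t → num (spo o) s (Iio (z u)) ≤ num (spo o) t (Iio (z u)) :=
    fun s t hs ht => by
      induction t, ht using Nat.le_induction with
      | base => exact le_rfl
      | succ t ht ih => exact ih.trans (num_le_succ (det_Iio S.lenu) (by omega))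
  have unb : ∀ n, ∃ s, s₃ + 1 ≤ s ∧ n ≤ num (spo o) s (Iio (z u)) := fun n => by
    induction n with
    | zero => exact ⟨_, le_rfl, Nat.zero_le _⟩
    | succ n ih =>
      obtain ⟨s, b1, b2⟩ := ih
      obtain ⟨t, c1, c2, c3⟩ := h s
      have := S.num_more (by omega) c2 c3
      have := mono s t (by omega) c1
      exact ⟨t + 1, by omega, by omega⟩
  obtain ⟨p, hp, hyp⟩ : ∃ p, g p = nW o i s₃ ∧ y < p := by
    obtain ⟨s, b1, b2⟩ := unb 1
    have := (inv s b1).2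
    exact H.btw_pos (s := s) (by rw [h2]; omega)
  obtain ⟨u', hu'⟩ := S.inv
  rw [← h1] at hu'
  refine world_G2 tr_tree tr_zero (c := z l) (d := z v) S.blk.fin (fun f hf => S.per_loop h hf.2)
    (fun f hf hv => ?_) (top_not_iso (spo_one o)) h4 hyp
    (hu'.trans ((H.lft_le t u').trans (Set.encard_le_encard (Iio_subset_Iio h3.le)))) ?_
  · refine (S.om.cls (spo_one o) S.bv f).imp_right fun ⟨n, b1, b2⟩ => ?_
    exact ⟨b1.iso f ⟨hf, hv, b2⟩, b1.fin.subset fun k hk => ⟨hk.1, hk.2.1, hk.2.2.trans_lt b2⟩⟩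
  · refine ENat.eq_top_iff_forall_ge.2 fun n => ?_
    obtain ⟨s, b1, b2⟩ := unb n
    have b3 := (inv s b1).2
    rw [← h2, ← hp] at b3
    exact le_trans (by exact_mod_cast b2.trans b3) (H.btw_le y p s)

theorem no_end {s₃ : ℕ} (h3 : s₂ ≤ s₃) (h : ∀ s, s₃ ≤ s → fire o i s = true → nmd o i s ≠ 4) :
    False := by
  obtain ⟨t, y, w, h1, h2, hty, h4⟩ := H.pts S.inf S.val
  have hle := S.le
  have hD : Det s₃ (Iio (z u)) := det_Iio (S.lenu.trans h3)
  have nK : ∀ s, s₃ ≤ s → num (spo o) s (Iio (z u)) = num (spo o) s₃ (Iio (z u)) :=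
    fun s hs => (S.fr_u h3 h).num_eq hD hs
  have nM : ∀ s, s₂ ≤ s → num (spo o) s (Ico (z v) (z (one (4 * r + 4 + 4)))) = _ :=
    fun s hs => S.fr_v.num_eq (det_Ico S.lenv (by simp; omega)) hs
  have hE := (S.fr_u h3 h).encard_le hD
  generalize num (spo o) s₃ (Iio (z u)) = K at nK hE
  have f1 : (Iio t).encard ≠ ⊤ := fun e => by
    obtain ⟨s₀, b⟩ := H.lft_ge (t := t) (k := K) (by rw [e]; exact le_top)
    obtain ⟨s, c1, c2⟩ := S.inf (s₀ + s₃)
    have := (S.spec (by omega) c2).1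
    rw [nK s (by omega), ← h1] at this
    exact this.not_ge (b s (by omega))
  have f2 : (Ioo t y).encard ≠ ⊤ := fun e => by
    obtain ⟨s₀, b⟩ := H.btw_ge (x := t) (y := y)
      (k := num (spo o) s₂ (Ico (z v) (z (one (4 * r + 4 + 4))))) (by rw [e]; exact le_top)
    obtain ⟨s, c1, c2⟩ := S.inf (s₀ + s₃)
    have := (S.spec (by omega) c2).2.1
    rw [nM s (by omega), ← h1, ← h2] at this
    have := b s (by omega)
    omega
  have f3 : (Iio y).encard ≠ ⊤ := fun e => by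
    have := Iio_split t y
    rw [e, top_le_iff] at this
    simp [f1, f2] at this
  obtain ⟨p₀, -, b2⟩ := far ((S.good_end h3 h).rgn tr_tree tr_zero).nolast y K
  obtain ⟨s₀, b3⟩ := H.btw_ge b2
  obtain ⟨s₄, c1, c2⟩ := S.inf (s₀ + s₃ + g p₀ + 1)
  have c3 : K ≤ btw o i (cy c) (nW o i (s₄ + 1)) s₄ := by
    rw [(S.spec (by omega) c2).2.2.2.2, nK s₄ (by omega)]
    split_ifs with e
    · exact e
    · have := (fst1_le (φ := fun p => decide (K ≤ btw o i (cy c) p s₄)) (d := 0)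
        (by omega : g p₀ < s₄) (by rw [← h2]; simpa using b3 s₄ (by omega))).1
      simpa using this
  have inv : ∀ s, s₄ + 1 ≤ s → nW o i s = nW o i (s₄ + 1) := fun s hs => by
    induction s, hs using Nat.le_induction with
    | base => rfl
    | succ s hs ih =>
      cases hf : fire o i s
      · rw [← ih]; unfold nW; rw [(S.env.idle s (by omega) hf).1]
      · rw [(S.spec (by omega) hf).2.2.2.2, ih, nK s (by omega),
          if_pos (c3.trans (H.btw_mono _ _ (by omega)))]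
  have hK : 0 < K := by
    obtain ⟨-, -, -, -, -, -, -, σ, a3, a4⟩ := S.md s₄ (by omega) c2
    rw [← nK s₄ (by omega)]
    exact num_pos.2 ⟨σ, a3, a4.2⟩
  obtain ⟨p, hp, hyp⟩ := H.btw_pos (y := y) (a := nW o i (s₄ + 1)) (s := s₄) (by rw [h2]; omega)
  rw [← h2, ← hp] at c3
  obtain ⟨q, hq⟩ := S.mid
  have f4 : (Iio p).encard = ⊤ := world_G1 tr_tree tr_zero ((S.fr_u h3 h).finite hD) hq
    (fun f hf => S.per_gap hf.2) (hE.trans (le_trans (by exact_mod_cast c3)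
      ((H.btw_le y p s₄).trans (Set.encard_le_encard Ioo_subset_Iio_self))))
  have f5 : (Ioo y p).encard = ⊤ := by
    have := Iio_split y p
    rw [f4, top_le_iff] at this
    simpa [f3] using this
  obtain ⟨s₅, b4⟩ := H.btw_ge (x := y) (y := p) (k := 2 * K) (by rw [f5]; exact le_top)
  obtain ⟨s, d1, d2⟩ := S.inf (s₅ + s₄ + 1)
  have := (S.spec (by omega) d2).2.2.2.1 (h s (by omega) d2)
  rw [inv s (by omega), nK s (by omega), ← h2, ← hp] at this
  exact this.not_ge (b4 s (by omega))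

end Stuck

omit H in
theorem region_least (ho : Computable o) (hF : InfFire o i) (hl : ∀ k, k < i → ¬ InfFire o k) :
    Good (Tr (spo o)) ∧ ∀ g : LPt (Tr (spo o)) → ℕ, ¬ Hy o i g := by
  obtain ⟨r, E⟩ := env_exists hl
  by_cases h1 : ∀ s₀, ∃ s, s₀ ≤ s ∧ fire o i s = true ∧ nmd o i s = 0
  · exact ⟨E.good_F h1, fun g H => E.no_F H h1⟩
  obtain ⟨s₁, R⟩ := E.run hF h1
  by_cases h2 : ∀ s₀, ∃ s, s₀ ≤ s ∧ fire o i s = true ∧ nmd o i s ≤ 3
  · exact ⟨R.good_H h2 ho, fun g H => R.no_H H h2⟩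
  obtain ⟨s₂, l, u, v, c, S⟩ := R.stuck h2
  by_cases h3 : ∀ s₀, ∃ s, s₀ ≤ s ∧ fire o i s = true ∧ nmd o i s = 4
  · exact ⟨S.good_loop h3, fun g H => S.no_loop H h3⟩
  push Not at h3
  obtain ⟨s₀, h3⟩ := h3
  exact ⟨S.good_end (s₃ := s₂ + s₀) (by omega) fun s hs => h3 s (by omega),
    fun g H => S.no_end H (s₃ := s₂ + s₀) (by omega) fun s hs => h3 s (by omega)⟩

omit H in
theorem region (ho : Computable o) : Good (Tr (spo o)) ∧
    ((∃ i, InfFire o i) → ∃ i, InfFire o i ∧ ∀ g : LPt (Tr (spo o)) → ℕ, ¬ Hy o i g) := by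
  classical
  by_cases h : ∃ i, InfFire o i
  · have := region_least ho (Nat.find_spec h) fun k hk => Nat.find_min h hk
    exact ⟨this.1, fun _ => ⟨_, Nat.find_spec h, this.2⟩⟩
  · exact ⟨good_quiet fun k hk => h ⟨k, hk⟩, fun h' => absurd h' h⟩

end Pool.Agent.Lib.MP_d69888_lc.Yes
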