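import Pool.Agent.Lib.MP_d69888_lc.YBig
import Pool.Agent.Lib.MP_d69888_lc.YDiag

/-!
A quasi-PAC tree whose order has no computable presentation.
-/

namespace Pool.Agent.Lib.MP_d69888_lc.Yes

open Pool.Agent.Shared.Type2 Encodable

def npB (e a j s : ℕ) : Bool :=
  noB e j a s || (List.range s).any fun c => yesB e j c s && yesB e c a s

def markB (e k i j s : ℕ) : Bool :=
  npB e (ent i 0) j s && adjB e (ent i 0) (ent i 1) j s && denB e (ent i 1) (ent i (0 + 4)) j s &&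
    ((List.range (k + 2)).all fun m => adjB e (ent i (m + 4)) (ent i (m + 1 + 4)) j s) &&
    denB e (ent i (k + 2 + 4)) (ent i 2) j s && adjB e (ent i 2) (ent i 3) j s

def ancB (e i j s : ℕ) : Bool := markB e e i.unpair.1 j s && markB e (e + 1) i.unpair.2 j s

def ltB (e i a b s : ℕ) : Bool :=
  (decide (a = ent i.unpair.1 2) || yesB e (ent i.unpair.1 2) a s) && yesB e a b s &&
    yesB e b (ent i.unpair.2 0) s

/-- The input of region `e`. -/
def inp (e : ℕ) : B := lam fun n =>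
  if n.unpair.1 = 0 then
    (ancB e n.unpair.2.unpair.1 (ctr (ancB e n.unpair.2.unpair.1) n.unpair.2.unpair.2)
      n.unpair.2.unpair.2).toNat
  else (ltB e n.unpair.2.unpair.1 n.unpair.2.unpair.2.unpair.1
    n.unpair.2.unpair.2.unpair.2.unpair.1 n.unpair.2.unpair.2.unpair.2.unpair.2).toNat

theorem fire_inp (e i s : ℕ) : fire (inp e) i s = ancB e i (ctr (ancB e i) s) s := by
  unfold fire inp
  cases h : ancB e i (ctr (ancB e i) s) s <;> simp [h]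

theorem olt_inp (e i a b s : ℕ) : olt (inp e) i a b s = ltB e i a b s := by
  unfold olt inp
  cases h : ltB e i a b s <;> simp [h]

section td

variable {Y : Type} [Rep Y]

@[fun_prop] theorem npB_td {k a j s : Y → ℕ} (hk : TD k) (ha : TD a) (hj : TD j)
    (hs : TD s) : TD fun x => npB (k x) (a x) (j x) (s x) := by unfold npB; fun_prop
@[fun_prop] theorem markB_td {e k i j s : Y → ℕ} (he : TD e) (hk : TD k) (hi : TD i) (hj : TD j)
    (hs : TD s) : TD fun x => markB (e x) (k x) (i x) (j x) (s x) := by unfold markB; fun_prop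
@[fun_prop] theorem ancB_td {e i j s : Y → ℕ} (he : TD e) (hi : TD i) (hj : TD j)
    (hs : TD s) : TD fun x => ancB (e x) (i x) (j x) (s x) := by unfold ancB; fun_prop
@[fun_prop] theorem ltB_td {e i a b s : Y → ℕ} (he : TD e) (hi : TD i) (ha : TD a) (hb : TD b)
    (hs : TD s) : TD fun x => ltB (e x) (i x) (a x) (b x) (s x) := by unfold ltB; fun_prop

end td

theorem inp_td : TD inp := by
  have t2 : TD fun y : ℕ × ℕ => ctr (ancB y.1 y.2.unpair.2.unpair.1) y.2.unpair.2.unpair.2 :=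
    ctr_td (φ := fun y : ℕ × ℕ => ancB y.1 y.2.unpair.2.unpair.1)
      (ancB_td (by fun_prop) (by fun_prop) (by fun_prop) (by fun_prop)) (by fun_prop)
  exact TD.lam' (TD.ite' (by fun_prop)
    (ancB_td (by fun_prop) (by fun_prop) t2 (by fun_prop)).toNat' (by fun_prop))

section copy

variable {α : Type} [LinearOrder α] {e : ℕ} {D : ℕ → Prop} {Φ : ℕ → α} (h : Cp e D Φ)
include h

theorem cp_np (a : ℕ) : ∃ P : ℕ → Prop, (∀ j, Ap (npB e a j) (P j)) ∧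
    (D a → ((∀ j, P j) ↔ ∀ w, ¬ w ⋖ Φ a)) := by
  refine ⟨_, fun j => (h.no j a).or (Ap.any fun c => (h.yes j c).and (h.yes c a)),
    fun da => ⟨fun H w c => ?_, fun H j => ?_⟩⟩
  · obtain ⟨j, dj, rfl⟩ := h.surj w
    rcases H j with c1 | ⟨k, c1, c2⟩
    · exact c1 ⟨dj, da, c.1⟩
    · exact c.2 c1.2.2 c2.2.2
  · by_cases h1 : D j ∧ D a ∧ Φ j < Φ a
    · obtain ⟨x, x1, x2⟩ := (not_covBy_iff h1.2.2).1 (H (Φ j))
      obtain ⟨k, dk, rfl⟩ := h.surj x
      exact Or.inr ⟨k, ⟨h1.1, dk, x1⟩, dk, da, x2⟩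
    · exact Or.inl h1

theorem cp_mark (k i : ℕ) : ∃ P : ℕ → Prop, (∀ j, Ap (markB e k i j) (P j)) ∧
    ((∀ j, P j) → D (ent i 0) ∧ D (ent i 2) ∧ Mark k (Φ (ent i 0)) (Φ (ent i 1)) (Φ (ent i 2))
      (Φ (ent i 3)) fun m => Φ (ent i (m + 4))) ∧
    ((∀ m, m < k + 7 → D (ent i m)) → Mark k (Φ (ent i 0)) (Φ (ent i 1)) (Φ (ent i 2))
      (Φ (ent i 3)) (fun m => Φ (ent i (m + 4))) → ∀ j, P j) := by
  choose Pa a1 a2 using h.adj
  choose Pd d1 d2 using h.den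
  obtain ⟨Pn, n1, n2⟩ := cp_np h (ent i 0)
  refine ⟨_, fun j => (((((n1 j).and (a1 (ent i 0) (ent i 1) j)).and
    (d1 (ent i 1) (ent i (0 + 4)) j)).and
    (Ap.all (fun m => a1 (ent i (m + 4)) (ent i (m + 1 + 4)) j) (k + 2))).and
    (d1 (ent i (k + 2 + 4)) (ent i 2) j)).and (a1 (ent i 2) (ent i 3) j), fun H => ?_,
    fun hD m j => ?_⟩
  · have b1 := (a2 _ _).1 fun j => (H j).1.1.1.1.2
    have b5 := (a2 _ _).1 fun j => (H j).2
    exact ⟨b1.1, b5.1, (n2 b1.1).1 fun j => (H j).1.1.1.1.1, b1.2.2,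
      ((d2 _ _).1 fun j => (H j).1.1.1.2).2.2,
      fun m hm => ((a2 _ _).1 fun j => (H j).1.1.2 m hm).2.2,
      ((d2 _ _).1 fun j => (H j).1.2).2.2, b5.2.2⟩
  · exact ⟨⟨⟨⟨⟨(n2 (hD 0 (by omega))).2 m.np j,
      (a2 _ _).2 ⟨hD _ (by omega), hD _ (by omega), m.h1⟩ j⟩,
      (d2 _ _).2 ⟨hD _ (by omega), hD _ (by omega), m.h2⟩ j⟩,
      fun q hq => (a2 _ _).2 ⟨hD _ (by omega), hD _ (by omega), m.h3 q hq⟩ j⟩,
      (d2 _ _).2 ⟨hD _ (by omega), hD _ (by omega), m.h4⟩ j⟩,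
      (a2 _ _).2 ⟨hD _ (by omega), hD _ (by omega), m.h5⟩ j⟩

theorem cp_code {k : ℕ} {z₀ z₁ v v' : α} {xs : ℕ → α} (m : Mark k z₀ z₁ v v' xs) :
    ∃ i, (∀ m, m < k + 7 → D (ent i m)) ∧ Mark k (Φ (ent i 0)) (Φ (ent i 1)) (Φ (ent i 2))
      (Φ (ent i 3)) fun m => Φ (ent i (m + 4)) := by
  choose G hG using h.surj
  let t : ℕ → α := fun q => if q < 4 then [z₀, z₁, v, v'].getD q v else xs (q - 4)
  let L := (List.range (k + 7)).map fun q => G (t q)
  have hL : ∀ q, q < k + 7 → ent (encode L) q = G (t q) := fun q hq => by simp [ent, L, hq]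
  have hΦ : ∀ q, q < k + 7 → Φ (ent (encode L) q) = t q := fun q hq => by
    rw [hL q hq]; exact (hG _).2
  have tx : ∀ q, t (q + 4) = xs q := fun q => by simp [t]
  refine ⟨encode L, fun q hq => by rw [hL q hq]; exact (hG _).1, ?_, ?_, ?_, fun q hq => ?_, ?_, ?_⟩
  · rw [hΦ _ (by omega)]; exact m.np
  · rw [hΦ _ (by omega), hΦ _ (by omega)]; exact m.h1
  · rw [hΦ _ (by omega), hΦ _ (by omega), tx]; exact m.h2
  · rw [hΦ _ (by omega), hΦ _ (by omega), tx, tx]; exact m.h3 q hq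
  · rw [hΦ _ (by omega), hΦ _ (by omega), tx]; exact m.h4
  · rw [hΦ _ (by omega), hΦ _ (by omega)]; exact m.h5

theorem cp_fire (i : ℕ) : ∃ P Q : ℕ → Prop, (∀ j, Ap (markB e e i.unpair.1 j) (P j)) ∧
    (∀ j, Ap (markB e (e + 1) i.unpair.2 j) (Q j)) ∧
    (InfFire (inp e) i ↔ (∀ j, P j) ∧ ∀ j, Q j) := by
  obtain ⟨P, p1, -⟩ := cp_mark h e i.unpair.1
  obtain ⟨Q, q1, -⟩ := cp_mark h (e + 1) i.unpair.2
  refine ⟨P, Q, p1, q1, ?_⟩
  unfold InfFire
  simp only [fire_inp]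
  rw [ctr_fire (φ := ancB e i) fun j => ((p1 j).and (q1 j)).mono, ← forall_and]
  exact forall_congr' fun j => ((p1 j).and (q1 j)).iff

end copy

/-- The region trees. -/
def Wt (e : ℕ) : Set (List Bool) := Tr (spo (inp e))

theorem inp_comp (e : ℕ) : Computable (inp e) := by
  have : TD fun n : ℕ => ap (inp e) n := TD.ap' (inp_td.comp' (TD.const e)) TD.id'
  exact this.computable

theorem wt_good (e : ℕ) : Good (Wt e) := (region (inp_comp e)).1

theorem no_cp' {e : ℕ} {D : ℕ → Prop} {Φ : ℕ → LPt (Comb (th Wt))} (h : Cp e D Φ) : False := by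
  have hU : ∀ e, IsTree (Wt e) := fun _ => tr_tree
  have hL := th_lay hU fun e => (wt_good e).rgn tr_tree tr_zero
  have ap_eq : ∀ {ψ : ℕ → ℕ → Bool} {P Q : ℕ → Prop}, (∀ j, Ap (ψ j) (P j)) →
      (∀ j, Ap (ψ j) (Q j)) → (∀ j, P j) → ∀ j, Q j :=
    fun a b c j => (b j).iff.1 ((a j).iff.2 (c j))
  obtain ⟨i, hi, hno⟩ := (region (inp_comp e)).2 (by
    obtain ⟨_, _, _, _, _, m1⟩ := hL.mark_exists e
    obtain ⟨_, _, _, _, _, m2⟩ := hL.mark_exists (e + 1)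
    obtain ⟨i₁, d1, m1⟩ := cp_code h m1
    obtain ⟨i₂, d2, m2⟩ := cp_code h m2
    obtain ⟨P, Q, p1, q1, hf⟩ := cp_fire h (Nat.pair i₁ i₂)
    rw [Nat.unpair_pair] at p1 q1
    obtain ⟨P', p2, -, p3⟩ := cp_mark h e i₁
    obtain ⟨Q', q2, -, q3⟩ := cp_mark h (e + 1) i₂
    exact ⟨_, hf.2 ⟨ap_eq p2 p1 (p3 d1 m1), ap_eq q2 q1 (q3 d2 m2)⟩⟩)
  obtain ⟨P, Q, p1, q1, hf⟩ := cp_fire h i
  obtain ⟨P', p2, p3, -⟩ := cp_mark h e i.unpair.1
  obtain ⟨Q', q2, q3, -⟩ := cp_mark h (e + 1) i.unpair.2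
  obtain ⟨-, dv, m1⟩ := p3 (ap_eq p1 p2 (hf.1 hi).1)
  obtain ⟨dw, -, m2⟩ := q3 (ap_eq q1 q2 (hf.1 hi).2)
  have key := hL.region_iff (hL.mark_unique m1).2.1 (hL.mark_unique m1).2.2 (hL.mark_unique m2).1
  choose G hG using h.surj
  let F : LPt (Wt e) → LPt (Comb (th Wt)) := emb (th_tree hU) th_iso (th_U e)
  have hF : ∀ x y, F x < F y ↔ x < y := fun x y => emb_lt _ _ _
  have hF' : ∀ x, tn (F x) = bs e + (e + 7) := fun x => tn_emb _ _ _ _
  refine hno (fun x => G (F x)) ⟨fun x y c => ?_, fun a b => ?_⟩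
  · have c1 : F x = F y := by
      rw [← (hG (F x)).2, ← (hG (F y)).2]
      exact congrArg Φ c
    exact le_antisymm (not_lt.1 fun d => ((hF _ _).2 d).ne c1.symm)
      (not_lt.1 fun d => ((hF _ _).2 d).ne c1)
  · have e1 : olt (inp e) i a b = ltB e i a b := funext fun s => olt_inp e i a b s
    rw [e1]
    refine ap_congr ((((Ap.const (decide (a = ent i.unpair.1 2))).or
      (h.yes (ent i.unpair.1 2) a)).and (h.yes a b)).and (h.yes b (ent i.unpair.2 0))) ?_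
    rw [decide_eq_true_eq]
    constructor
    · rintro ⟨⟨c1, da, db, c2⟩, -, -, c3⟩
      have c4 : Φ (ent i.unpair.1 2) ≤ Φ a := c1.elim (fun c => by rw [c]) fun c => c.2.2.le
      obtain ⟨x, hx⟩ := emb_surj (th_tree hU) th_iso (th_U e) ((key _).1 ⟨c4, c2.trans c3⟩)
      obtain ⟨y, hy⟩ := emb_surj (th_tree hU) th_iso (th_U e) ((key _).1 ⟨c4.trans c2.le, c3⟩)
      have hx' : F x = Φ a := hx
      have hy' : F y = Φ b := hy
      exact ⟨x, y, h.inj _ _ (hG _).1 da (by rw [(hG _).2, hx']),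
        h.inj _ _ (hG _).1 db (by rw [(hG _).2, hy']), (hF _ _).1 (by rwa [hx', hy'])⟩
    · rintro ⟨x, y, rfl, rfl, c⟩
      have c1 := ((key _).2 (hF' x)).1
      have c2 := ((key _).2 (hF' y)).2
      refine ⟨⟨?_, (hG _).1, (hG _).1, by rw [(hG _).2, (hG _).2]; exact (hF _ _).2 c⟩,
        (hG _).1, dw, by rw [(hG _).2]; exact c2⟩
      exact c1.eq_or_lt.imp (fun d => h.inj _ _ (hG _).1 dv (by rw [(hG _).2]; exact d.symm))
        fun d => ⟨dv, (hG _).1, by rw [(hG _).2]; exact d⟩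

theorem main : ∃ T : Set (List Bool), IsTree T ∧ ComputablePred (· ∈ T) ∧
    (∀ f, IsPath T f → ¬ Computable f → ∃ n, Perfect (Cone T (seg f n))) ∧
    ¬ ∃ (D : ℕ → Prop) (R : ℕ → ℕ → Prop), ComputablePred D ∧
      ComputablePred (fun x : ℕ × ℕ => R x.1 x.2) ∧ Presents T D R := by
  classical
  have hU : ∀ e, IsTree (Wt e) := fun _ => tr_tree
  refine ⟨Comb (th Wt), comb_tree (th_tree hU),
    th_comp (u := fun x => memW (inp x.1) x.2)
      (memW_td (inp_td.comp' (TD.fst TD.id')) (TD.snd TD.id')) fun e σ => memW_iff.symm,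
    fun f hf hn => th_qpac hU (fun e f hf hn => (wt_good e).qpac tr_tree tr_zero hf hn) hf hn, ?_⟩
  rintro ⟨D, R, ⟨_, hD⟩, ⟨_, hR⟩, F, hF⟩
  obtain ⟨x₀, -⟩ := (th_lay hU fun e => (wt_good e).rgn tr_tree tr_zero).surj 0
  let Φ : ℕ → LPt (Comb (th Wt)) := fun n => if h : D n then F ⟨n, h⟩ else x₀
  have hΦ : ∀ n (h : D n), Φ n = F ⟨n, h⟩ := fun n h => dif_pos h
  have tD := TD.of_computable hD
  have t1 := (tD.comp' (TD.fst (TD.id' (X := ℕ × ℕ)))).and'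
    ((tD.comp' (TD.snd TD.id')).and' (TD.of_computable hR))
  obtain ⟨e, he⟩ := exists_decides (P := fun x : ℕ × ℕ => D x.1 ∧ D x.2 ∧ Φ x.1 < Φ x.2)
    ⟨fun _ => inferInstance, t1.computable.of_eq fun x => by
      by_cases h1 : D x.1 <;> by_cases h2 : D x.2 <;> simp [h1, h2]
      rw [hΦ _ h1, hΦ _ h2, LPt.lt_iff, ← hF]⟩
  refine no_cp' (D := D) (Φ := Φ) ⟨he, fun a b da db c => ?_, fun x => ?_⟩
  · rw [hΦ _ da, hΦ _ db] at c
    exact congrArg Subtype.val (F.injective c)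
  · exact ⟨(F.symm x).1, (F.symm x).2, by rw [hΦ _ (F.symm x).2]; exact F.apply_symm_apply x⟩

end Pool.Agent.Lib.MP_d69888_lc.Yes
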