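import Pool.Agent.Lib.MP_d69888_lc.QStmt
import Pool.Agent.Lib.MP_d69888_lc.YMain

/-!
The main theorem in the wording of the problem.
-/

namespace Pool.Agent.Lib.MP_d69888_lc.Q

/-- The string `σ` followed by the sequence `g`. -/
def cat (σ : List Bool) (g : ℕ → Bool) : ℕ → Bool :=
  fun i => if i < σ.length then σ.getD i false else g (i - σ.length)

theorem seg_cat (σ : List Bool) (g : ℕ → Bool) (n : ℕ) :
    seg (cat σ g) (σ.length + n) = σ ++ seg g n := by
  induction n with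
  | zero =>
    rw [seg_zero, List.append_nil, Nat.add_zero]
    refine Eq.trans (seg_eq_iff.2 fun i hi => ?_) (seg_ext0 σ)
    simp [cat, hi, ext0]
  | succ n ih =>
    rw [← Nat.add_assoc, seg_succ, ih, seg_succ, List.append_assoc]
    simp [cat]

theorem cat_inj (σ : List Bool) : Function.Injective (cat σ) := fun g g' h => funext fun i => by
  have := congrFun h (σ.length + i)
  simpa [cat] using this

variable {T : Set (List Bool)} (hT : IsTree T)
include hT

theorem cone_cat (σ : List Bool) : Cone T σ = cat σ '' paths (sub T σ) := by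
  ext f
  constructor
  · rintro ⟨h1, h2⟩
    have e : cat σ (fun i => f (σ.length + i)) = f := funext fun i => by
      unfold cat
      split_ifs with h
      · rw [← seg_getD f h, h2]
      · simp only; congr 1; omega
    refine ⟨_, fun n => ?_, e⟩
    change σ ++ seg (fun i => f (σ.length + i)) n ∈ T
    rw [← seg_cat, e]
    exact h1 _
  · rintro ⟨g, hg, rfl⟩
    refine ⟨fun n => hT.closed _ _ (?_ : seg _ (σ.length + n) ∈ T) (seg_pre _ (by omega)), ?_⟩
    · rw [seg_cat]; exact hg n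
    · simpa using seg_cat σ g 0

omit hT in
theorem preperfect_iff' {A : Set (ℕ → Bool)} :
    Preperfect A ↔ ∀ f ∈ A, ∀ t, ∃ f' ∈ A, seg f' t = seg f t ∧ f' ≠ f := by
  constructor
  · intro h f hf t
    obtain ⟨f', h1, h2⟩ := accPt_iff_nhds.1 (h f hf) _ (cyl_nhds f t)
    exact ⟨f', h1.2, h1.1, h2⟩
  · refine fun h f hf => accPt_iff_nhds.2 fun U hU => ?_
    obtain ⟨t, ht⟩ := exists_cyl hU
    obtain ⟨f', h1, h2, h3⟩ := h f hf t
    exact ⟨f', ⟨ht f' h2, h1⟩, h3⟩

theorem per_iff (σ : List Bool) : Preperfect (paths (sub T σ)) ↔ Perfect (Cone T σ) := by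
  rw [preperfect_iff', perfect_iff, cone_cat hT]
  constructor
  · rintro h _ ⟨g, hg, rfl⟩ t
    obtain ⟨g', h1, h2, h3⟩ := h g hg t
    refine ⟨_, ⟨g', h1, rfl⟩, Yes.seg_le (n := σ.length + t) ?_ (by omega),
      fun e => h3 (cat_inj σ e)⟩
    rw [seg_cat, seg_cat, h2]
  · intro h g hg t
    obtain ⟨_, ⟨g', h1, rfl⟩, h2, h3⟩ := h _ ⟨g, hg, rfl⟩ (σ.length + t)
    rw [seg_cat, seg_cat] at h2
    exact ⟨g', h1, List.append_cancel_left h2, fun e => h3 (by rw [e])⟩

theorem sing_iff (σ : List Bool) : (∃ g, paths (sub T σ) = {g}) ↔ ∃ g, Cone T σ = {g} := by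
  rw [cone_cat hT]
  constructor
  · rintro ⟨g, hg⟩
    exact ⟨_, by rw [hg, Set.image_singleton]⟩
  · rintro ⟨f, hf⟩
    have : f ∈ cat σ '' paths (sub T σ) := by rw [hf]; rfl
    obtain ⟨g, -, rfl⟩ := this
    exact ⟨g, Set.image_injective.2 (cat_inj σ) (by rw [hf, Set.image_singleton])⟩

theorem st_iff (σ : List Bool) : σ ∈ ST T ↔ InS T σ :=
  and_congr Iff.rfl (by rw [per_iff hT, sing_iff hT, or_comm])

theorem mt_iff (σ : List Bool) : σ ∈ MT T ↔ InM T σ :=
  and_congr (st_iff hT σ) (forall_congr' fun τ => by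
    rw [st_iff hT]
    exact ⟨fun h a b c => b (h c a), fun h a b => by_contra fun c => h b c a⟩)

omit hT in
theorem leftOf_iff {σ τ : List Bool} (hn : ¬ σ <+: τ) : LeftOf σ τ ↔ List.Lex (· < ·) σ τ := by
  constructor
  · rintro ⟨ρ, ⟨u, rfl⟩, ⟨v, rfl⟩⟩
    rw [List.append_assoc, List.append_assoc, lex_left]
    exact List.Lex.rel (by decide)
  · intro h
    induction h with
    | nil => exact absurd List.nil_prefix hn
    | @rel a l b l' h =>
      have : a = false ∧ b = true := by revert h; cases a <;> cases b <;> simp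
      exact ⟨[], by simp [this.1], by simp [this.2]⟩
    | @cons a l l' h ih =>
      obtain ⟨ρ, h1, h2⟩ := ih fun h' => hn (List.cons_prefix_cons.2 ⟨rfl, h'⟩)
      exact ⟨a :: ρ, List.cons_prefix_cons.2 ⟨rfl, h1⟩, List.cons_prefix_cons.2 ⟨rfl, h2⟩⟩

omit hT in
theorem not_leftOf (σ : List Bool) : ¬ LeftOf σ σ := by
  rintro ⟨ρ, h1, h2⟩
  have := List.prefix_of_prefix_length_le h1 h2 (by simp)
  have := this.eq_of_length (by simp)
  simp at this

omit hT in
theorem main : ∃ T : Set (List Bool), QuasiPAC T ∧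
    ¬ ∃ (D : ℕ → Prop) (R : ℕ → ℕ → Prop), ComputablePred D ∧
      ComputablePred (fun x : ℕ × ℕ => R x.1 x.2) ∧
      ∃ e : {n : ℕ // D n} ≃ Pts T, ∀ a b : {n : ℕ // D n}, R a.1 b.1 ↔ PLt (e a) (e b) := by
  obtain ⟨T, hT, hc, hq, hno⟩ := Yes.main
  refine ⟨T, ⟨fun σ τ a b => hT.closed τ σ a b, hT.root, hc, hT.live, fun f hf hn => ?_⟩, ?_⟩
  · obtain ⟨n, h⟩ := hq f hf hn
    exact ⟨n, (per_iff hT _).2 h⟩
  rintro ⟨D, R, hD, hR, e, he⟩
  let F : Pts T ≃ LPt T := Equiv.subtypeEquivRight fun p => by rw [mt_iff hT, per_iff hT]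
  refine hno ⟨D, R, hD, hR, e.trans F, fun a b => (he a b).trans (or_congr ?_ Iff.rfl)⟩
  change LeftOf (e a).1.1 (e b).1.1 ↔ (e a).1.1 ≠ (e b).1.1 ∧ List.Lex (· < ·) (e a).1.1 (e b).1.1
  by_cases h : (e a).1.1 = (e b).1.1
  · rw [h]; exact iff_of_false (not_leftOf _) fun c => c.1 rfl
  · rw [leftOf_iff fun c => h ((e b).2.1.2 _ (e a).2.1.1 c)]
    exact ⟨fun c => ⟨h, c⟩, fun c => c.2⟩

end Pool.Agent.Lib.MP_d69888_lc.Q
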