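import Mathlib

/-!
Quasi-PAC trees and the order `L(T)`, following the wording of the problem.
-/

namespace Pool.Agent.Lib.MP_d69888_lc.Q

/-- The first `n` values of a binary sequence. -/
def ini (f : ℕ → Bool) (n : ℕ) : List Bool := List.ofFn fun i : Fin n => f i.val

/-- `[T]`: the sequences all of whose finite initial segments lie in `T`. -/
def paths (T : Set (List Bool)) : Set (ℕ → Bool) := {f | ∀ n, ini f n ∈ T}

/-- `T_σ`. -/
def sub (T : Set (List Bool)) (σ : List Bool) : Set (List Bool) := {τ | σ ++ τ ∈ T}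

/-- A quasi-PAC tree: a nonempty computable binary tree without dead ends in which every
noncomputable path has an initial segment `σ` with `[T_σ]` without isolated points. -/
structure QuasiPAC (T : Set (List Bool)) : Prop where
  closed : ∀ σ τ : List Bool, σ ∈ T → τ <+: σ → τ ∈ T
  root : [] ∈ T
  comp : ComputablePred (· ∈ T)
  live : ∀ σ ∈ T, σ ++ [false] ∈ T ∨ σ ++ [true] ∈ T
  per : ∀ f ∈ paths T, ¬ Computable f → ∃ n, Preperfect (paths (sub T (ini f n)))

/-- `S(T)`. -/
def ST (T : Set (List Bool)) : Set (List Bool) :=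
  {σ | σ ∈ T ∧ ((∃ g, paths (sub T σ) = {g}) ∨ Preperfect (paths (sub T σ)))}

/-- `M(T)`: the minimal elements of `S(T)`. -/
def MT (T : Set (List Bool)) : Set (List Bool) :=
  {σ | σ ∈ ST T ∧ ∀ τ ∈ ST T, τ <+: σ → τ = σ}

/-- The points of `L(T)`: a copy of `ℚ` for a perfect node of `M(T)`, one point for the others. -/
def Pts (T : Set (List Bool)) : Type :=
  {p : List Bool × ℚ // p.1 ∈ MT T ∧ (Preperfect (paths (sub T p.1)) ∨ p.2 = 0)}

/-- `σ` is left of `τ`: at the first position where they differ, `σ` has 0 and `τ` has 1. -/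
def LeftOf (σ τ : List Bool) : Prop := ∃ ρ : List Bool, ρ ++ [false] <+: σ ∧ ρ ++ [true] <+: τ

/-- The strict order of `L(T)`. -/
def PLt {T : Set (List Bool)} (a b : Pts T) : Prop :=
  LeftOf a.1.1 b.1.1 ∨ (a.1.1 = b.1.1 ∧ a.1.2 < b.1.2)

end Pool.Agent.Lib.MP_d69888_lc.Q
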