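import Pool.Agent.Lib.MP_d69888_lc.Stmt

/-!
Initial segments, cones and lexicographic order.
-/

namespace Pool.Agent.Lib.MP_d69888_lc

@[simp] theorem seg_length (f : ℕ → Bool) (n : ℕ) : (seg f n).length = n := by simp [seg]

@[simp] theorem seg_zero (f : ℕ → Bool) : seg f 0 = [] := rfl

theorem seg_succ (f : ℕ → Bool) (n : ℕ) : seg f (n + 1) = seg f n ++ [f n] := by
  unfold seg
  rw [List.ofFn_succ']
  simp

theorem seg_getD (f : ℕ → Bool) {n i : ℕ} (h : i < n) : (seg f n).getD i false = f i := by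
  simp [seg, h]

theorem seg_eq_iff {f f' : ℕ → Bool} {n : ℕ} : seg f n = seg f' n ↔ ∀ i, i < n → f i = f' i := by
  constructor
  · intro h i hi
    rw [← seg_getD f hi, ← seg_getD f' hi, h]
  · intro h
    unfold seg
    congr 1
    funext i
    exact h i i.2

theorem seg_take (f : ℕ → Bool) {m n : ℕ} (h : m ≤ n) : (seg f n).take m = seg f m := by
  apply List.ext_getElem
  · simp [h]
  · intro i h1 h2
    simp [seg]

theorem seg_pre (f : ℕ → Bool) {m n : ℕ} (h : m ≤ n) : seg f m <+: seg f n := by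
  rw [← seg_take f h]; exact List.take_prefix _ _

theorem pre_seg {f : ℕ → Bool} {n : ℕ} {τ : List Bool} (h : τ <+: seg f n) :
    τ = seg f τ.length := by
  have h1 : τ.length ≤ n := by simpa using h.length_le
  rw [← seg_take f h1]
  exact List.prefix_iff_eq_take.1 h

theorem ext_of_seg {f f' : ℕ → Bool} {t : ℕ} (h : ∀ s, t ≤ s → seg f s = seg f' s) : f = f' :=
  funext fun i => seg_eq_iff.1 (h (t + i + 1) (by omega)) i (by omega)

/-- The string followed by zeros. -/
def ext0 (σ : List Bool) : ℕ → Bool := fun n => σ.getD n false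

theorem seg_ext0 (σ : List Bool) : seg (ext0 σ) σ.length = σ := by
  apply List.ext_getElem
  · simp
  · intro i h1 h2
    simp [seg, ext0]

theorem ext0_ge (σ : List Bool) {n : ℕ} (h : σ.length ≤ n) : ext0 σ n = false := by
  simp [ext0, List.getElem?_eq_none h]

theorem ext0_path {T : Set (List Bool)} (hT : IsTree T) (h0 : ∀ σ ∈ T, σ ++ [false] ∈ T)
    {σ : List Bool} (hσ : σ ∈ T) : IsPath T (ext0 σ) := by
  have key : ∀ n, σ.length ≤ n → seg (ext0 σ) n ∈ T := by
    intro n hn
    induction n, hn using Nat.le_induction with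
    | base => rwa [seg_ext0]
    | succ n hn ih => rw [seg_succ, ext0_ge σ hn]; exact h0 _ ih
  intro n
  exact hT.closed _ _ (key (σ.length + n) (by omega)) (seg_pre _ (by omega))

theorem comp_of_ev {f g : ℕ → Bool} (hg : Computable g) {t : ℕ} (h : ∀ s, t ≤ s → f s = g s) :
    Computable f := by
  have h1 : Computable fun n => cond (decide (n < t)) ((seg f t).getD n false) (g n) :=
    Computable.cond (Primrec.nat_lt.decide.comp Primrec.id (Primrec.const t)).to_comp
      ((Primrec.list_getD false).comp (Primrec.const _) Primrec.id).to_comp hg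
  refine h1.of_eq fun n => ?_
  by_cases hn : n < t
  · simp only [hn, decide_true, cond_true]; exact seg_getD f hn
  · simp only [hn, decide_false, cond_false]; exact (h n (by omega)).symm

theorem lim_of_comp {f : ℕ → Bool} (hf : Computable f) : LimitComputable f :=
  ⟨fun n _ => f n, hf.comp Computable.fst, fun _ => ⟨0, fun _ _ => rfl⟩⟩

theorem cyl_nhds (f : ℕ → Bool) (t : ℕ) : {f' | seg f' t = seg f t} ∈ nhds f := by
  have : {f' | seg f' t = seg f t} = Set.pi (Set.Iio t) fun i => {f i} := by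
    ext f'; simp [seg_eq_iff, Set.mem_pi]
  rw [this]
  exact set_pi_mem_nhds (Set.finite_Iio t) fun i _ => by simp

theorem exists_cyl {f : ℕ → Bool} {U : Set (ℕ → Bool)} (hU : U ∈ nhds f) :
    ∃ t, ∀ f', seg f' t = seg f t → f' ∈ U := by
  rw [nhds_pi, Filter.mem_pi] at hU
  obtain ⟨I, hI, V, hV, hs⟩ := hU
  obtain ⟨t, ht⟩ := hI.bddAbove
  refine ⟨t + 1, fun f' h => hs fun i hi => ?_⟩
  rw [seg_eq_iff.1 h i (Nat.lt_succ_of_le (ht hi))]
  exact mem_of_mem_nhds (hV i)

theorem cone_closed (T : Set (List Bool)) (σ : List Bool) : IsClosed (Cone T σ) := by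
  rw [← isOpen_compl_iff, isOpen_iff_mem_nhds]
  intro f hf
  by_cases h : IsPath T f
  · refine Filter.mem_of_superset (cyl_nhds f σ.length) fun f' h1 h2 => hf ⟨h, ?_⟩
    rw [← h1]; exact h2.2
  · unfold IsPath at h
    push Not at h
    obtain ⟨n, hn⟩ := h
    exact Filter.mem_of_superset (cyl_nhds f n) fun f' h1 h2 => hn (h1 ▸ h2.1 n)

theorem perfect_iff {T : Set (List Bool)} {σ : List Bool} : Perfect (Cone T σ) ↔
    ∀ f ∈ Cone T σ, ∀ t, ∃ f' ∈ Cone T σ, seg f' t = seg f t ∧ f' ≠ f := by
  constructor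
  · intro h f hf t
    obtain ⟨f', h1, h2⟩ := accPt_iff_nhds.1 (h.acc f hf) _ (cyl_nhds f t)
    exact ⟨f', h1.2, h1.1, h2⟩
  · refine fun h => ⟨cone_closed T σ, fun f hf => accPt_iff_nhds.2 fun U hU => ?_⟩
    obtain ⟨t, ht⟩ := exists_cyl hU
    obtain ⟨f', h1, h2, h3⟩ := h f hf t
    exact ⟨f', ⟨ht f' h2, h1⟩, h3⟩

theorem lex_append {a b : List Bool} (h : List.Lex (· < ·) a b) (hl : a.length = b.length)
    (u v : List Bool) : List.Lex (· < ·) (a ++ u) (b ++ v) := by
  induction h with
  | nil => simp at hl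
  | rel h => exact List.Lex.rel h
  | cons _ ih => exact List.Lex.cons (ih (by simpa using hl))

theorem lex_left (a : List Bool) {u v : List Bool} :
    List.Lex (· < ·) (a ++ u) (a ++ v) ↔ List.Lex (· < ·) u v := by
  induction a with
  | nil => rfl
  | cons x a ih => rw [← ih]; simp

theorem lex_of_pre {a b A C : List Bool} (ha : a <+: A) (hb : b <+: C) (h1 : ¬ a <+: b)
    (h2 : ¬ b <+: a) (h : List.Lex (· < ·) A C) : List.Lex (· < ·) a b := by
  obtain ⟨u, rfl⟩ := ha
  obtain ⟨v, rfl⟩ := hb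
  induction a generalizing b with
  | nil => exact absurd List.nil_prefix h1
  | cons x a ih =>
    cases b with
    | nil => exact absurd List.nil_prefix h2
    | cons y b =>
      cases h with
      | rel h => exact List.Lex.rel h
      | cons h =>
        exact List.Lex.cons (ih (fun h' => h1 (List.cons_prefix_cons.2 ⟨rfl, h'⟩))
          (fun h' => h2 (List.cons_prefix_cons.2 ⟨rfl, h'⟩)) h)

theorem lex_asymm {a b : List Bool} (h : List.Lex (· < ·) a b) : ¬ List.Lex (· < ·) b a :=
  fun h' => lt_asymm (α := List Bool) h h'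

theorem lex_ne {a b : List Bool} (h : List.Lex (· < ·) a b) : a ≠ b := by
  rintro rfl; exact lex_asymm h h

end Pool.Agent.Lib.MP_d69888_lc
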