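import Pool.Agent.Lib.MP_d69888_lc.Ins
import Pool.Agent.Lib.MP_d69888_lc.Seg

/-!
The tree of gaps of an insertion order.
-/

namespace Pool.Agent.Lib.MP_d69888_lc

open Pool.Agent.Shared.Type2

@[fun_prop] theorem splitAt_td {X : Type} [Rep X] {a : X → ℕ} {l : X → List (List Bool)}
    (ha : TD a) (hl : TD l) : TD fun x => splitAt (a x) (l x) := by
  unfold splitAt; fun_prop

@[fun_prop] theorem Lf_td {X : Type} [Rep X] {p : X → B} {s : X → ℕ} (hp : TD p) (hs : TD s) :
    TD fun x => Lf (p x) (s x) := by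
  unfold Lf; fun_prop

@[fun_prop] theorem memRT_td {X : Type} [Rep X] {p : X → B} {σ : X → List Bool} (hp : TD p)
    (hσ : TD σ) : TD fun x => memRT (p x) (σ x) := by
  unfold memRT; fun_prop

variable {p : B}

/-- The node number `k` of length `s`. -/
def lf (p : B) (s k : ℕ) : List Bool := (Lf p s).getD k []

theorem Lf_length (hp : Ok 0 p) (s : ℕ) : (Lf p s).length = s + 1 := by
  induction s with
  | zero => rfl
  | succ s ih =>
    have := hp s
    change (splitAt (p s) (Lf p s)).length = _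
    simp [splitAt, ih]; omega

theorem lf_le (hp : Ok 0 p) {s k : ℕ} (h : k ≤ p s) : lf p (s + 1) k = lf p s k ++ [false] := by
  have := hp s
  have hl := Lf_length hp s
  change (splitAt (p s) (Lf p s)).getD k [] = _
  unfold splitAt lf
  rw [List.getD_eq_getElem?_getD, List.getElem?_append_left (by simp; omega), List.getElem?_map,
    List.getElem?_take_of_lt (by omega), List.getD_eq_getElem?_getD,
    List.getElem?_eq_getElem (by omega)]
  rfl

theorem lf_mid (hp : Ok 0 p) (s : ℕ) : lf p (s + 1) (p s + 1) = lf p s (p s) ++ [true] := by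
  have := hp s
  have hl := Lf_length hp s
  change (splitAt (p s) (Lf p s)).getD _ [] = _
  unfold splitAt lf
  rw [List.getD_eq_getElem?_getD, List.getElem?_append_right (by simp)]
  have : p s + 1 - (List.map (fun σ => σ ++ [false]) (List.take (p s + 1) (Lf p s))).length = 0 := by
    simp; omega
  rw [this]; rfl

theorem lf_gt (hp : Ok 0 p) {s k : ℕ} (h : p s < k) (hk : k ≤ s) :
    lf p (s + 1) (k + 1) = lf p s k ++ [false] := by
  have := hp s
  have hl := Lf_length hp s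
  change (splitAt (p s) (Lf p s)).getD _ [] = _
  unfold splitAt lf
  rw [List.getD_eq_getElem?_getD, List.getElem?_append_right (by simp; omega)]
  have : k + 1 - (List.map (fun σ => σ ++ [false]) (List.take (p s + 1) (Lf p s))).length =
      (k - (p s + 1)) + 1 := by
    simp; omega
  rw [this, List.getElem?_cons_succ, List.getElem?_map, List.getElem?_drop,
    show p s + 1 + (k - (p s + 1)) = k by omega, List.getD_eq_getElem?_getD,
    List.getElem?_eq_getElem (by omega)]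
  rfl

/-- Parent and last bit of a node. -/
theorem lf_cases (hp : Ok 0 p) {s k : ℕ} (hk : k ≤ s + 1) : ∃ k' b, k' ≤ s ∧
    lf p (s + 1) k = lf p s k' ++ [b] ∧ ((k' < p s ∧ k = k' ∧ b = false) ∨
      (p s < k' ∧ k = k' + 1 ∧ b = false) ∨ (k' = p s ∧ k = k' + b.toNat)) := by
  have := hp s
  rcases lt_trichotomy k (p s + 1) with h | h | h
  · refine ⟨k, false, by omega, lf_le hp (by omega), ?_⟩
    simp; omega
  · exact ⟨p s, true, by omega, by rw [h, lf_mid hp], by simp [h]⟩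
  · obtain ⟨k', rfl⟩ := Nat.exists_eq_add_of_le' (show 1 ≤ k by omega)
    exact ⟨k', false, by omega, lf_gt hp (by omega) (by omega), Or.inr (Or.inl ⟨by omega, rfl, rfl⟩)⟩

theorem lf_length (hp : Ok 0 p) {s k : ℕ} (hk : k ≤ s) : (lf p s k).length = s := by
  induction s generalizing k with
  | zero => obtain rfl : k = 0 := by omega
            rfl
  | succ s ih =>
    obtain ⟨k', b, h1, h2, -⟩ := lf_cases hp hk
    rw [h2]; simp [ih h1]

theorem lf_lex (hp : Ok 0 p) {s k k' : ℕ} (h : k < k') (hk : k' ≤ s) :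
    List.Lex (· < ·) (lf p s k) (lf p s k') := by
  induction s generalizing k k' with
  | zero => omega
  | succ s ih =>
    obtain ⟨a, b, a1, a2, a3⟩ := lf_cases hp (k := k) (s := s) (by omega)
    obtain ⟨a', b', b1, b2, b3⟩ := lf_cases hp hk
    rw [a2, b2]
    rcases lt_trichotomy a a' with h1 | h1 | h1
    · exact lex_append (ih h1 b1) (by rw [lf_length hp a1, lf_length hp b1]) _ _
    · subst h1
      rw [lex_left]
      cases b <;> cases b' <;> simp at a3 b3 ⊢ <;> omega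
    · cases b <;> cases b' <;> simp at a3 b3 <;> omega

theorem lf_inj (hp : Ok 0 p) {s k k' : ℕ} (hk : k ≤ s) (hk' : k' ≤ s)
    (h : lf p s k = lf p s k') : k = k' := by
  rcases lt_trichotomy k k' with h1 | h1 | h1
  · exact absurd h (lex_ne (lf_lex hp h1 hk'))
  · exact h1
  · exact absurd h.symm (lex_ne (lf_lex hp h1 hk))

theorem mem_RT (hp : Ok 0 p) {σ : List Bool} :
    σ ∈ RT p ↔ ∃ k, k ≤ σ.length ∧ lf p σ.length k = σ := by
  have hl := Lf_length hp σ.length
  simp only [RT, memRT, Set.mem_ofPred_eq, List.any_eq_true, beq_iff_eq, exists_eq_right,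
    List.mem_iff_getElem]
  constructor
  · rintro ⟨k, hk, h⟩
    exact ⟨k, by omega, by simp [lf, hk, h]⟩
  · rintro ⟨k, hk, h⟩
    refine ⟨k, by omega, ?_⟩
    simpa [lf, List.getElem?_eq_getElem (show k < (Lf p σ.length).length by omega)] using h

theorem lf_mem (hp : Ok 0 p) {s k : ℕ} (hk : k ≤ s) : lf p s k ∈ RT p :=
  (mem_RT hp).2 ⟨k, by rwa [lf_length hp hk], by rw [lf_length hp hk]⟩

theorem RT_false (hp : Ok 0 p) : ∀ σ ∈ RT p, σ ++ [false] ∈ RT p := by
  intro σ hσ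
  obtain ⟨k, hk, h⟩ := (mem_RT hp).1 hσ
  generalize σ.length = s at hk h
  subst h
  rcases le_or_gt k (p s) with h | h
  · rw [← lf_le hp h]; exact lf_mem hp (by omega)
  · rw [← lf_gt hp h hk]; exact lf_mem hp (by omega)

theorem RT_tree (hp : Ok 0 p) : IsTree (RT p) := by
  refine ⟨fun σ τ hτ hu => ?_, lf_mem hp (s := 0) (k := 0) le_rfl,
    fun σ hσ => Or.inl (RT_false hp σ hσ)⟩
  obtain ⟨u, rfl⟩ := hu
  induction u using List.reverseRecOn with
  | nil => simpa using hτ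
  | append_singleton u b ih =>
    apply ih
    obtain ⟨k, hk, h⟩ := (mem_RT hp).1 hτ
    rw [← List.append_assoc] at hk h
    simp only [List.length_append (as := σ ++ u), List.length_singleton] at hk h
    obtain ⟨k', b', h1, h2, -⟩ := lf_cases hp hk
    rw [h2] at h
    rw [← (List.append_inj' h rfl).1]
    exact lf_mem hp h1

theorem ext0_RT (hp : Ok 0 p) {σ : List Bool} (hσ : σ ∈ RT p) : IsPath (RT p) (ext0 σ) :=
  ext0_path (RT_tree hp) (RT_false hp) hσ

/-- `g s` is the number of the node of length `s` on the path `f`. -/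
def Trk (p : B) (f : ℕ → Bool) (g : ℕ → ℕ) : Prop := ∀ s, g s ≤ s ∧ lf p s (g s) = seg f s

theorem exists_trk (hp : Ok 0 p) {f : ℕ → Bool} (hf : IsPath (RT p) f) : ∃ g, Trk p f g := by
  have : ∀ s, ∃ k, k ≤ s ∧ lf p s k = seg f s := fun s => by
    simpa using (mem_RT hp).1 (hf s)
  choose g hg using this
  exact ⟨g, hg⟩

variable {f f' : ℕ → Bool} {g g' : ℕ → ℕ}

theorem Trk.step (hp : Ok 0 p) (h : Trk p f g) (s : ℕ) :
    (g s < p s ∧ g (s + 1) = g s ∧ f s = false) ∨ (p s < g s ∧ g (s + 1) = g s + 1 ∧ f s = false) ∨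
      (g s = p s ∧ g (s + 1) = g s ∧ f s = false) ∨ (g s = p s ∧ g (s + 1) = g s + 1 ∧ f s = true) := by
  obtain ⟨k', b, h1, h2, h3⟩ := lf_cases hp (h (s + 1)).1
  rw [(h (s + 1)).2, seg_succ, ← (h s).2] at h2
  obtain ⟨e1, e2⟩ := List.append_inj' h2 rfl
  have e3 := lf_inj hp (h s).1 h1 e1
  have e4 : f s = b := by simpa using e2
  rw [e4]
  cases b <;> simp at h3 ⊢ <;> omega

theorem Trk.eq_iff (hp : Ok 0 p) (h : Trk p f g) (h' : Trk p f' g') (s : ℕ) :
    g s = g' s ↔ seg f s = seg f' s := by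
  rw [← (h s).2, ← (h' s).2]
  exact ⟨fun e => by rw [e], lf_inj hp (h s).1 (h' s).1⟩

theorem Trk.side (hp : Ok 0 p) (h : Trk p f g) {y s t : ℕ} (hy : y < s) (hst : s ≤ t) :
    pos 0 p y t < g t ↔ pos 0 p y s < g s := by
  induction t, hst using Nat.le_induction with
  | base => rfl
  | succ t ht ih =>
    have := h.step hp t
    rw [pos_old (by omega), ← ih]; unfold up; split_ifs <;> omega

/-- The path is split infinitely often. -/
def Spl (p : B) (g : ℕ → ℕ) : Prop := ∀ t, ∃ s, t ≤ s ∧ g s = p s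

theorem Trk.not_RB (hp : Ok 0 p) (h : Trk p f g) (hs : Spl p g) {y s : ℕ} (hy : y < s)
    (hl : pos 0 p y s < g s) : ¬ RB 0 p y := by
  intro hr
  obtain ⟨t, ht⟩ := hr.ev
  obtain ⟨u, hu, hu'⟩ := hs (t + s)
  have := (h.side hp hy (t := u) (by omega)).2 hl
  have := ht u (by omega)
  omega

theorem Trk.not_LB (hp : Ok 0 p) (h : Trk p f g) (hs : Spl p g) {y s : ℕ} (hy : y < s)
    (hl : g s ≤ pos 0 p y s) : ¬ LB 0 p y := by
  intro hr
  obtain ⟨t, ht⟩ := hr.ev
  obtain ⟨u, hu, hu'⟩ := hs (t + s)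
  have := h.side hp hy (t := u) (by omega)
  have := ht u (by omega)
  omega

theorem Trk.branch (hp : Ok 0 p) (h : Trk p f g) {s : ℕ} (hs : g s = p s) :
    ∃ f', IsPath (RT p) f' ∧ seg f' s = seg f s ∧ f' s ≠ f s := by
  have h1 : seg f s ++ [!f s] ∈ RT p := by
    have := hp s
    rw [← (h s).2, hs]
    cases f s
    · rw [Bool.not_false, ← lf_mid hp]; exact lf_mem hp (by omega)
    · rw [Bool.not_true, ← lf_le hp le_rfl]; exact lf_mem hp (by omega)
  have h2 := seg_ext0 (seg f s ++ [!f s])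
  simp only [List.length_append, seg_length, List.length_singleton] at h2
  rw [seg_succ] at h2
  obtain ⟨e1, e2⟩ := List.append_inj' h2 rfl
  refine ⟨_, ext0_RT hp h1, e1, ?_⟩
  have : ext0 (seg f s ++ [!f s]) s = !f s := by simpa using e2
  rw [this]; simp

theorem Trk.single_iff (hp : Ok 0 p) (hf : IsPath (RT p) f) (h : Trk p f g) (t : ℕ) :
    Cone (RT p) (seg f t) = {f} ↔ ∀ s, t ≤ s → g s ≠ p s := by
  constructor
  · intro hc s hs e
    obtain ⟨f', h1, h2, h3⟩ := h.branch hp e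
    have : f' ∈ Cone (RT p) (seg f t) :=
      ⟨h1, by rw [seg_length, ← seg_take f' hs, h2, seg_take f hs]⟩
    rw [hc] at this
    exact h3 (by rw [this])
  · intro hc
    refine Set.eq_singleton_iff_unique_mem.2 ⟨⟨hf, by simp⟩, fun f' hf' => ?_⟩
    obtain ⟨g', hg'⟩ := exists_trk hp hf'.1
    refine ext_of_seg (t := t) fun s hs => ?_
    induction s, hs using Nat.le_induction with
    | base => simpa using hf'.2
    | succ s hs ih =>
      have e := (hg'.eq_iff hp h s).2 ih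
      have := hc s hs
      have := h.step hp s
      have := hg'.step hp s
      exact (hg'.eq_iff hp h (s + 1)).1 (by omega)

theorem no_three (hp : Ok 0 p) (h : OG 0 p) {f₁ f₂ f₃ : ℕ → Bool} {g₁ g₂ g₃ : ℕ → ℕ}
    (h1 : Trk p f₁ g₁) (h2 : Trk p f₂ g₂) (h3 : Trk p f₃ g₃) (s1 : Spl p g₁) (s2 : Spl p g₂)
    (s3 : Spl p g₃) {t : ℕ} (l1 : g₁ t < g₂ t) (l2 : g₂ t < g₃ t) : False := by
  have := (h3 t).1
  obtain ⟨x, hx, hx'⟩ := pos_surj hp (s := t) (k := g₁ t) (by omega)
  obtain ⟨y, hy, hy'⟩ := pos_surj hp (s := t) (k := g₂ t) (by omega)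
  have := h x y (h1.not_LB hp s1 (s := t) (by omega) (by omega))
    (h2.not_RB hp s2 (s := t) (by omega) (by omega))
    (h2.not_LB hp s2 (s := t) (by omega) (by omega))
    (h3.not_RB hp s3 (s := t) (by omega) (by omega))
  subst this
  omega

theorem RT_not_perfect (hp : Ok 0 p) (h : OG 0 p) {σ : List Bool} (hσ : σ ∈ RT p) :
    ¬ Perfect (Cone (RT p) σ) := by
  intro hc
  rw [perfect_iff] at hc
  have spl : ∀ f ∈ Cone (RT p) σ, ∀ g, Trk p f g → Spl p g := by
    intro f hf g hg t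
    by_contra hn
    push Not at hn
    obtain ⟨f', h1, h2, h3⟩ := hc f hf t
    have : f' ∈ Cone (RT p) (seg f t) := ⟨h1.1, by simpa using h2⟩
    rw [(hg.single_iff hp hf.1 t).2 hn] at this
    exact h3 this
  have hf : ext0 σ ∈ Cone (RT p) σ := ⟨ext0_RT hp hσ, seg_ext0 σ⟩
  obtain ⟨f₂, m2, -, n2⟩ := hc _ hf 0
  obtain ⟨i, hi⟩ := Function.ne_iff.1 n2
  obtain ⟨f₃, m3, e3, n3⟩ := hc _ hf (i + 1)
  obtain ⟨j, hj⟩ := Function.ne_iff.1 n3
  have hi' : f₃ i = ext0 σ i := seg_eq_iff.1 e3 i (by omega)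
  obtain ⟨g₁, t1⟩ := exists_trk hp hf.1
  obtain ⟨g₂, t2⟩ := exists_trk hp m2.1
  obtain ⟨g₃, t3⟩ := exists_trk hp m3.1
  have s1 := spl _ hf _ t1
  have s2 := spl _ m2 _ t2
  have s3 := spl _ m3 _ t3
  have d12 : g₂ (i + j + 1) ≠ g₁ (i + j + 1) := fun e =>
    hi (seg_eq_iff.1 ((t2.eq_iff hp t1 _).1 e) i (by omega))
  have d13 : g₃ (i + j + 1) ≠ g₁ (i + j + 1) := fun e =>
    hj (seg_eq_iff.1 ((t3.eq_iff hp t1 _).1 e) j (by omega))
  have d23 : g₂ (i + j + 1) ≠ g₃ (i + j + 1) := fun e =>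
    hi (hi' ▸ seg_eq_iff.1 ((t2.eq_iff hp t3 _).1 e) i (by omega))
  rcases (show (g₁ (i + j + 1) < g₂ (i + j + 1) ∧ g₂ (i + j + 1) < g₃ (i + j + 1)) ∨
    (g₁ (i + j + 1) < g₃ (i + j + 1) ∧ g₃ (i + j + 1) < g₂ (i + j + 1)) ∨
    (g₂ (i + j + 1) < g₁ (i + j + 1) ∧ g₁ (i + j + 1) < g₃ (i + j + 1)) ∨
    (g₂ (i + j + 1) < g₃ (i + j + 1) ∧ g₃ (i + j + 1) < g₁ (i + j + 1)) ∨
    (g₃ (i + j + 1) < g₁ (i + j + 1) ∧ g₁ (i + j + 1) < g₂ (i + j + 1)) ∨
    (g₃ (i + j + 1) < g₂ (i + j + 1) ∧ g₂ (i + j + 1) < g₁ (i + j + 1)) by omega) with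
    a | a | a | a | a | a
  · exact no_three hp h t1 t2 t3 s1 s2 s3 a.1 a.2
  · exact no_three hp h t1 t3 t2 s1 s3 s2 a.1 a.2
  · exact no_three hp h t2 t1 t3 s2 s1 s3 a.1 a.2
  · exact no_three hp h t2 t3 t1 s2 s3 s1 a.1 a.2
  · exact no_three hp h t3 t1 t2 s3 s1 s2 a.1 a.2
  · exact no_three hp h t3 t2 t1 s3 s2 s1 a.1 a.2

theorem InS_RT (hp : Ok 0 p) (h : OG 0 p) (hf : IsPath (RT p) f) (n : ℕ) :
    InS (RT p) (seg f n) ↔ Cone (RT p) (seg f n) = {f} := by
  refine ⟨fun ⟨h1, h2⟩ => ?_, fun e => ⟨hf n, Or.inr ⟨f, e⟩⟩⟩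
  obtain ⟨f', e⟩ := h2.resolve_left (RT_not_perfect hp h h1)
  have : f ∈ Cone (RT p) (seg f n) := ⟨hf, by simp⟩
  rw [e] at this
  rw [e, this]

theorem RT_root (hp : Ok 0 p) (h : OG 0 p) : ¬ InS (RT p) [] := by
  have hf := ext0_RT hp (RT_tree hp).root
  obtain ⟨g, hg⟩ := exists_trk hp hf
  intro hs
  have := (hg.single_iff hp hf 0).1 ((InS_RT hp h hf 0).1 hs) 0 le_rfl
  have := (hg 0).1
  have := hp 0
  omega

/-- From some stage on the path has the index prescribed by `x` and is not split. -/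
def Seat (p : B) (g : ℕ → ℕ) (x : ℕ ⊕ ℕ) : Prop := ∃ t, ∀ s, t ≤ s → g s ≠ p s ∧
  Sum.elim (fun i => g s = i) (fun j => g s + j = s) x

theorem trk_ext0 (hp : Ok 0 p) {t k : ℕ} (hk : k ≤ t) (h : Trk p (ext0 (lf p t k)) g) :
    g t = k := by
  have := seg_ext0 (lf p t k)
  rw [lf_length hp hk, ← (h t).2] at this
  exact lf_inj hp (h t).1 hk this

theorem exists_seat (hp : Ok 0 p) {x : ℕ ⊕ ℕ} (hx : gval (EvL p) (EvR 0 p) x) :
    ∃ f g, IsPath (RT p) f ∧ Trk p f g ∧ Seat p g x := by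
  rcases x with i | j
  · obtain ⟨t, ht⟩ := hx
    have hf := ext0_RT hp (lf_mem hp (s := t + i) (k := i) (by omega))
    obtain ⟨g, hg⟩ := exists_trk hp hf
    have key : ∀ s, t + i ≤ s → g s = i := by
      intro s hs
      induction s, hs using Nat.le_induction with
      | base => exact trk_ext0 hp (by omega) hg
      | succ s hs ih => have := hg.step hp s; have := ht s (by omega); omega
    exact ⟨_, g, hf, hg, t + i, fun s hs =>
      ⟨by have := key s hs; have := ht s (by omega); omega, key s hs⟩⟩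
  · obtain ⟨t, ht⟩ := hx
    have hf := ext0_RT hp (lf_mem hp (s := t + j) (k := t) (by omega))
    obtain ⟨g, hg⟩ := exists_trk hp hf
    have key : ∀ s, t + j ≤ s → g s + j = s := by
      intro s hs
      induction s, hs using Nat.le_induction with
      | base => rw [trk_ext0 hp (by omega) hg]
      | succ s hs ih => have := hg.step hp s; have := ht s (by omega); omega
    exact ⟨_, g, hf, hg, t + j, fun s hs =>
      ⟨by have := key s hs; have := ht s (by omega); omega, key s hs⟩⟩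

theorem seat_unique (hp : Ok 0 p) {x : ℕ ⊕ ℕ} (h : Trk p f g) (h' : Trk p f' g')
    (a : Seat p g x) (b : Seat p g' x) : f = f' := by
  obtain ⟨t, ht⟩ := a
  obtain ⟨t', ht'⟩ := b
  refine ext_of_seg (t := t + t') fun s hs => (h.eq_iff hp h' s).1 ?_
  have h1 := (ht s (by omega)).2
  have h2 := (ht' s (by omega)).2
  rcases x with i | j <;> simp only [Sum.elim_inl, Sum.elim_inr] at h1 h2 <;> omega

theorem seat_of_final (hp : Ok 0 p) (ho : OG 0 p) (h : Trk p f g) {t : ℕ}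
    (ht : ∀ s, t ≤ s → g s ≠ p s) : ∃ x, gval (EvL p) (EvR 0 p) x ∧ Seat p g x := by
  by_cases hL : ∃ K, ∀ s, t ≤ s → g s ≤ K
  · obtain ⟨K, hK⟩ := hL
    obtain ⟨u, hu, hu'⟩ := ev_const (f := g) (fun s _ => by have := h.step hp s; omega) hK
    refine ⟨.inl (g u), ⟨u, fun s hs => ?_⟩, u, fun s hs => ⟨ht s (by omega), hu' s hs⟩⟩
    have := h.step hp s
    have := hu' s hs
    have := hu' (s + 1) (by omega)
    have := ht s (by omega)
    omega
  by_cases hR : ∃ K, ∀ s, t ≤ s → s - g s ≤ K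
  · obtain ⟨K, hK⟩ := hR
    obtain ⟨u, hu, hu'⟩ := ev_const (f := fun s => s - g s)
      (fun s _ => by have := h.step hp s; omega) hK
    refine ⟨.inr (u - g u), ⟨u, fun s hs => ?_⟩, u, fun s hs => ⟨ht s (by omega), ?_⟩⟩
    · have := h.step hp s
      have := hu' s hs
      have := hu' (s + 1) (by omega)
      have := ht s (by omega)
      have := (h s).1
      omega
    · have := hu' s hs
      have := (h s).1
      change g s + (u - g u) = s
      omega
  exfalso
  push Not at hL hR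
  have gm : ∀ s s', s ≤ s' → g s ≤ g s' ∧ g s' + s ≤ g s + s' := by
    intro s s' hs
    induction s', hs using Nat.le_induction with
    | base => omega
    | succ u _ ih => have := h.step hp u; omega
  obtain ⟨s1, a1, a2⟩ := hL 0
  obtain ⟨s2, b1, b2⟩ := hR 0
  have c1 := gm s1 (s1 + s2) (by omega)
  have c2 := gm s2 (s1 + s2) (by omega)
  obtain ⟨x, hx, hx'⟩ := pos_surj hp (s := s1 + s2) (k := g (s1 + s2) - 1) (by omega)
  obtain ⟨y, hy, hy'⟩ := pos_surj hp (s := s1 + s2) (k := g (s1 + s2)) (by omega)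
  have key : ∀ s, s1 + s2 ≤ s → pos 0 p x s + 1 = g s ∧ pos 0 p y s = g s := by
    intro s hs
    induction s, hs using Nat.le_induction with
    | base => omega
    | succ s hs ih =>
      have := h.step hp s
      have := ht s (by omega)
      rw [pos_old (by omega), pos_old (by omega)]; unfold up; split_ifs <;> omega
  have nb : ∀ z, z < 0 + (s1 + s2) → (∀ s, s1 + s2 ≤ s → pos 0 p z s ≤ g s ∧
      g s ≤ pos 0 p z s + 1) → ¬ LB 0 p z ∧ ¬ RB 0 p z := by
    intro z hz hk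
    constructor
    · rintro ⟨K, hK⟩
      obtain ⟨s, -, hs⟩ := hL (K + 1)
      have := gm s (s + s1 + s2) (by omega)
      have := hK (s + s1 + s2) (by omega)
      have := hk (s + s1 + s2) (by omega)
      omega
    · rintro ⟨K, hK⟩
      obtain ⟨s, -, hs⟩ := hR K
      have := gm s (s + s1 + s2) (by omega)
      have := hK (s + s1 + s2) (by omega)
      have := hk (s + s1 + s2) (by omega)
      omega
  have n1 := nb x hx fun s hs => by have := key s hs; omega
  have n2 := nb y hy fun s hs => by have := key s hs; omega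
  have := ho x y n1.1 n1.2 n2.1 n2.2
  subst this
  omega

theorem seat_lt {x y : ℕ ⊕ ℕ} (a : Seat p g x) (b : Seat p g' y) (h : glt x y) (u : ℕ) :
    ∃ s, u ≤ s ∧ g s < g' s := by
  obtain ⟨t, ht⟩ := a
  obtain ⟨t', ht'⟩ := b
  rcases x with i | j <;> rcases y with i' | j'
  all_goals simp only [Sum.elim_inl, Sum.elim_inr, glt] at ht ht' h
  · exact ⟨t + t' + u, by omega, by
      have := ht (t + t' + u) (by omega); have := ht' (t + t' + u) (by omega); omega⟩
  · exact ⟨t + t' + u + i + j' + 1, by omega, by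
      have := ht (t + t' + u + i + j' + 1) (by omega)
      have := ht' (t + t' + u + i + j' + 1) (by omega); omega⟩
  · exact ⟨t + t' + u, by omega, by
      have := ht (t + t' + u) (by omega); have := ht' (t + t' + u) (by omega); omega⟩

theorem glt_tri (x y : ℕ ⊕ ℕ) : glt x y ∨ x = y ∨ glt y x := by
  rcases x with i | j <;> rcases y with i' | j' <;> simp [glt] <;> omega

theorem RT_nodes (hp : Ok 0 p) (h : OG 0 p) : ∃ ν : ℕ ⊕ ℕ → List Bool,
    (∀ σ, InM (RT p) σ ↔ ∃ x, gval (EvL p) (EvR 0 p) x ∧ ν x = σ) ∧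
    ∀ x y, gval (EvL p) (EvR 0 p) x → gval (EvL p) (EvR 0 p) y →
      (glt x y ↔ ν x ≠ ν y ∧ List.Lex (· < ·) (ν x) (ν y)) := by
  classical
  have hex : ∀ x, gval (EvL p) (EvR 0 p) x → ∃ f g n, IsPath (RT p) f ∧ Trk p f g ∧ Seat p g x ∧
      InM (RT p) (seg f n) := by
    intro x hx
    obtain ⟨f, g, hf, hg, t, ht⟩ := exists_seat hp hx
    have h1 : ∃ n, InS (RT p) (seg f n) :=
      ⟨t, (InS_RT hp h hf t).2 ((hg.single_iff hp hf t).2 fun s hs => (ht s hs).1)⟩
    refine ⟨f, g, Nat.find h1, hf, hg, ⟨t, ht⟩, Nat.find_spec h1, fun τ h2 h3 => ?_⟩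
    have h4 := pre_seg h2
    have h5 : τ.length ≤ Nat.find h1 := by simpa using h2.length_le
    rw [h4]
    exact Nat.find_min h1 (lt_of_le_of_ne h5 fun e => h3 (by rw [h4, e]))
  choose! F G N hF using hex
  have cmp : ∀ {σ τ : List Bool}, InM (RT p) σ → InM (RT p) τ → σ <+: τ → σ = τ :=
    fun a b c => by_contra fun d => b.2 _ c d a.1
  have main : ∀ x y, gval (EvL p) (EvR 0 p) x → gval (EvL p) (EvR 0 p) y → glt x y →
      List.Lex (· < ·) (seg (F x) (N x)) (seg (F y) (N y)) := by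
    intro x y hx hy hl
    obtain ⟨a1, a2, a3, a4⟩ := hF x hx
    obtain ⟨b1, b2, b3, b4⟩ := hF y hy
    obtain ⟨s, hs, hs'⟩ := seat_lt a3 b3 hl (N x + N y)
    have l1 := lf_lex hp hs' (b2 s).1
    rw [(a2 s).2, (b2 s).2] at l1
    have ne : seg (F x) (N x) ≠ seg (F y) (N y) := by
      intro e
      have e1 := (InS_RT hp h a1 _).1 a4.1
      rw [e, (InS_RT hp h b1 _).1 b4.1, Set.singleton_eq_singleton_iff] at e1
      rw [e1] at l1
      exact lex_ne l1 rfl
    exact lex_of_pre (seg_pre _ (by omega)) (seg_pre _ (by omega)) (fun c => ne (cmp a4 b4 c))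
      (fun c => ne (cmp b4 a4 c).symm) l1
  refine ⟨fun x => seg (F x) (N x), fun σ => ⟨fun hσ => ?_, ?_⟩, fun x y hx hy =>
    ⟨fun hl => ⟨lex_ne (main x y hx hy hl), main x y hx hy hl⟩, fun ⟨h1, h2⟩ => ?_⟩⟩
  · have hf := ext0_RT hp hσ.1.1
    obtain ⟨g, hg⟩ := exists_trk hp hf
    have h1 := hσ.1
    rw [← seg_ext0 σ] at h1
    obtain ⟨x, hx, hs⟩ := seat_of_final hp h hg
      ((hg.single_iff hp hf _).1 ((InS_RT hp h hf _).1 h1))
    obtain ⟨a1, a2, a3, a4⟩ := hF x hx
    have e := seat_unique hp a2 hg a3 hs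
    refine ⟨x, hx, ?_⟩
    change seg (F x) (N x) = σ
    rcases le_total (N x) σ.length with c | c
    · exact cmp a4 hσ (by rw [e]; nth_rw 2 [← seg_ext0 σ]; exact seg_pre _ c)
    · exact (cmp hσ a4 (by rw [e]; nth_rw 1 [← seg_ext0 σ]; exact seg_pre _ c)).symm
  · rintro ⟨x, hx, rfl⟩
    exact (hF x hx).2.2.2
  · rcases glt_tri x y with c | c | c
    · exact c
    · exact absurd (by rw [c]) h1
    · exact absurd (main y x hy hx c) (lex_asymm h2)

end Pool.Agent.Lib.MP_d69888_lc
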