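import Pool.Agent.Lib.MP_d69888_lc.Big
import Pool.Agent.Lib.MP_d69888_lc.NoCopy
import Pool.Agent.Lib.MP_d69888_lc.RegPath

/-!
The tree with rank-one exceptional paths whose order has no computable presentation.
-/

namespace Pool.Agent.Lib.MP_d69888_lc

open Pool.Agent.Shared.Type2

theorem RT_rank {p : B} (hp : Ok 0 p) (h : OG 0 p) {f : ℕ → Bool} (hf : IsPath (RT p) f) :
    ∃ n, ∀ g ∈ Cone (RT p) (seg f n), g ≠ f → ∃ m, Cone (RT p) (seg g m) = {g} := by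
  have spl : ∀ f g, IsPath (RT p) f → Trk p f g → (¬ ∃ m, Cone (RT p) (seg f m) = {f}) →
      Spl p g := by
    intro f g hf hg hn t
    by_contra h1
    push Not at h1
    exact hn ⟨t, (hg.single_iff hp hf t).2 h1⟩
  by_cases h0 : ∃ m, Cone (RT p) (seg f m) = {f}
  · obtain ⟨m, hm⟩ := h0
    exact ⟨m, fun g h1 h2 => absurd (hm ▸ h1 : g ∈ ({f} : Set _)) h2⟩
  by_contra hn
  push Not at hn
  obtain ⟨f₂, m2, n2, q2⟩ := hn 0
  obtain ⟨i, hi⟩ := Function.ne_iff.1 n2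
  obtain ⟨f₃, m3, n3, q3⟩ := hn (i + 1)
  obtain ⟨j, hj⟩ := Function.ne_iff.1 n3
  have hi' : f₃ i = f i := seg_eq_iff.1 (by simpa using m3.2) i (Nat.lt_add_one i)
  obtain ⟨g₁, t1⟩ := exists_trk hp hf
  obtain ⟨g₂, t2⟩ := exists_trk hp m2.1
  obtain ⟨g₃, t3⟩ := exists_trk hp m3.1
  have s1 := spl _ _ hf t1 h0
  have s2 := spl _ _ m2.1 t2 fun ⟨m, hm⟩ => q2 m hm
  have s3 := spl _ _ m3.1 t3 fun ⟨m, hm⟩ => q3 m hm
  have d12 : g₂ (i + j + 1) ≠ g₁ (i + j + 1) := fun e =>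
    hi (seg_eq_iff.1 ((t2.eq_iff hp t1 _).1 e) i (by omega))
  have d13 : g₃ (i + j + 1) ≠ g₁ (i + j + 1) := fun e =>
    hj (seg_eq_iff.1 ((t3.eq_iff hp t1 _).1 e) j (by omega))
  have d23 : g₂ (i + j + 1) ≠ g₃ (i + j + 1) := fun e =>
    hi (hi' ▸ seg_eq_iff.1 ((t2.eq_iff hp t3 _).1 e) i (by omega))
  rcases (show (g₁ (i + j + 1) < g₂ (i + j + 1) ∧ g₂ (i + j + 1) < g₃ (i + j + 1)) ∨
    (g₁ (i + j + 1) < g₃ (i + j + 1) ∧ g₃ (i + j + 1) < g₂ (i + j + 1)) ∨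
    (g₂ (i + j + 1) < g₁ (i + j + 1) ∧ g₁ (i + j + 1) < g₃ (i + j + 1)) ∨
    (g₂ (i + j + 1) < g₃ (i + j + 1) ∧ g₃ (i + j + 1) < g₁ (i + j + 1)) ∨
    (g₃ (i + j + 1) < g₁ (i + j + 1) ∧ g₁ (i + j + 1) < g₂ (i + j + 1)) ∨
    (g₃ (i + j + 1) < g₂ (i + j + 1) ∧ g₂ (i + j + 1) < g₁ (i + j + 1)) by omega) with
    a | a | a | a | a | a
  · exact no_three hp h t1 t2 t3 s1 s2 s3 a.1 a.2
  · exact no_three hp h t1 t3 t2 s1 s3 s2 a.1 a.2
  · exact no_three hp h t2 t1 t3 s2 s1 s3 a.1 a.2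
  · exact no_three hp h t2 t3 t1 s2 s3 s1 a.1 a.2
  · exact no_three hp h t3 t1 t2 s3 s1 s2 a.1 a.2
  · exact no_three hp h t3 t2 t1 s3 s2 s1 a.1 a.2

theorem relaxed : ∃ T : Set (List Bool), IsTree T ∧ ComputablePred (· ∈ T) ∧
    (∀ f, IsPath T f → ¬ Computable f → (∃ n, Perfect (Cone T (seg f n))) ∨
      (LimitComputable f ∧
        ∃ n, ∀ g ∈ Cone T (seg f n), g ≠ f → ∃ m, Cone T (seg g m) = {g})) ∧
    ¬ ∃ (D : ℕ → Prop) (R : ℕ → ℕ → Prop), ComputablePred D ∧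
      ComputablePred (fun x : ℕ × ℕ => R x.1 x.2) ∧ Presents T D R := by
  obtain ⟨q, hqB, hok, hog, -, hno⟩ := no_copy
  have hcs : ∀ e, Computable (shift (q e)) := fun e => by
    have : TD fun n : ℕ => ap (shift (q e)) n :=
      TD.ap' (shift_td (hqB.comp' (TD.const e))) TD.id'
    exact this.computable
  have hm : TD fun x : ℕ × List Bool => memRT (shift (q x.1)) x.2 :=
    memRT_td (shift_td (hqB.comp' (TD.fst TD.id'))) (TD.snd TD.id')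
  obtain ⟨T, h1, h2, h3, Φ, hΦ⟩ := big_tree (fun e => RT (shift (q e))) (fun e => EvL (q e))
    (fun e => EvR 4 (q e)) (fun e => RT_tree (shift_ok (hok e)))
    (ComputablePred.computable_iff.2 ⟨_, hm.computable, rfl⟩)
    (fun e σ h => RT_not_perfect (shift_ok (hok e)) (shift_og (hog e)) h)
    (fun e => by
      have := RT_nodes (shift_ok (hok e)) (shift_og (hog e))
      rwa [shift_EvL, shift_EvR] at this)
    (fun e f hf => RT_limit (shift_ok (hok e)) (shift_og (hog e)) (hcs e) hf)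
    (fun e f hf => RT_rank (shift_ok (hok e)) (shift_og (hog e)) hf)
  refine ⟨T, h1, h2, h3, ?_⟩
  rintro ⟨D, R, hD, hR, e, he⟩
  exact hno ⟨D, R, hD, hR, e.trans Φ.symm, fun a b => by
    rw [he, hΦ]; simp⟩

end Pool.Agent.Lib.MP_d69888_lc
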