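import Pool.Agent.Lib.MP_d69888_lc.Ord

/-!
Locating the regions inside the sum over `e` of `2 + ℚ + (e+3) + ℚ + (region e)`.
-/

namespace Pool.Agent.Lib.MP_d69888_lc.Yes

/-- Number of the first tooth of block `e`. -/
def bs : ℕ → ℕ
  | 0 => 0
  | e + 1 => bs e + e + 8

theorem bs_succ (e : ℕ) : bs (e + 1) = bs e + e + 8 := rfl

theorem bs_lt {e e' : ℕ} (h : e < e') : bs e + e + 8 ≤ bs e' := by
  induction e', h using Nat.le_induction with
  | base => exact le_rfl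
  | succ n hn ih => rw [bs_succ]; omega

theorem bs_surj (n : ℕ) : ∃ e k, k ≤ e + 7 ∧ n = bs e + k := by
  induction n with
  | zero => exact ⟨0, 0, by omega, rfl⟩
  | succ n ih =>
    obtain ⟨e, k, hk, rfl⟩ := ih
    by_cases h : k < e + 7
    · exact ⟨e, k + 1, h, rfl⟩
    · exact ⟨e + 1, 0, by omega, by rw [bs_succ]; omega⟩

theorem bs_inj {e e' k k' : ℕ} (hk : k ≤ e + 7) (hk' : k' ≤ e' + 7) (h : bs e + k = bs e' + k') :
    e = e' := by
  rcases lt_trichotomy e e' with h1 | h1 | h1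
  · have := bs_lt h1; omega
  · exact h1
  · have := bs_lt h1; omega

variable {L : Type} [LinearOrder L]

/-- `τ` sends every point to the number of its tooth. -/
structure Lay (τ : L → ℕ) : Prop where
  mono : Monotone τ
  sing : ∀ e k, (k ≤ 1 ∨ (3 ≤ k ∧ k ≤ e + 5)) → ∃ x, τ x = bs e + k ∧ ∀ y, τ y = bs e + k → y = x
  eta : ∀ e k, (k = 2 ∨ k = e + 6) → (∃ x, τ x = bs e + k) ∧
    ∀ x, τ x = bs e + k → (∀ y, ¬ x ⋖ y) ∧ ∀ y, ¬ y ⋖ x
  reg1 : ∀ e, ∃ a a', τ a = bs e + (e + 7) ∧ a ⋖ a' ∧ ∀ x, τ x = bs e + (e + 7) → a ≤ x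
  reg2 : ∀ e x, τ x = bs e + (e + 7) → ∃ y, x < y ∧ τ y = bs e + (e + 7)
  reg3 : ∀ e x y, τ x = bs e + (e + 7) → τ y = bs e + (e + 7) → x ⋖ y → (∃ w, w ⋖ x) ∨ ∃ w, y ⋖ w

/-- The configuration that locates block `e`. -/
structure Mark (e : ℕ) (z₀ z₁ v v' : L) (xs : ℕ → L) : Prop where
  np : ∀ w, ¬ w ⋖ z₀
  h1 : z₀ ⋖ z₁
  h2 : Den z₁ (xs 0)
  h3 : ∀ j, j < e + 2 → xs j ⋖ xs (j + 1)
  h4 : Den (xs (e + 2)) v
  h5 : v ⋖ v'

theorem den_of' {a b : L} (h : a < b) (h' : ∀ x y, a ≤ x → y ≤ b → ¬ x ⋖ y) : Den a b :=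
  ⟨h, fun x y h1 h2 h3 => by
    by_contra hc
    push Not at hc
    exact h' x y h1 h3 ⟨h2, fun w w1 w2 => absurd w2 (not_lt.2 (hc w w1))⟩⟩

theorem den_no_succ {a b : L} (h : Den a b) (w : L) : ¬ a ⋖ w := fun c =>
  h.not_covBy le_rfl (c.ge_of_gt h.1) c

namespace Lay

variable {τ : L → ℕ} (h : Lay τ)
include h

theorem lt {x y : L} (hxy : τ x < τ y) : x < y := h.mono.reflect_lt hxy

theorem surj (n : ℕ) : ∃ x, τ x = n := by
  obtain ⟨e, k, hk, rfl⟩ := bs_surj n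
  by_cases h1 : k = 2 ∨ k = e + 6
  · exact (h.eta e k h1).1
  by_cases h2 : k = e + 7
  · obtain ⟨a, -, ha, -⟩ := h.reg1 e
    exact ⟨a, h2 ▸ ha⟩
  · obtain ⟨x, hx, -⟩ := h.sing e k (by omega)
    exact ⟨x, hx⟩

theorem cov {x y : L} (c : x ⋖ y) {e k : ℕ} (hk : k ≤ e + 7) (hx : τ x = bs e + k) :
    (k = e + 7 ∧ τ y = bs e + k) ∨ ((k = 0 ∨ (3 ≤ k ∧ k ≤ e + 4)) ∧ τ y = bs e + (k + 1)) := by
  have h1 := h.mono c.1.le
  have h2 : τ y ≤ τ x + 1 := by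
    by_contra h2
    obtain ⟨w, hw⟩ := h.surj (τ x + 1)
    exact c.2 (h.lt (y := w) (by omega)) (h.lt (by omega))
  by_cases h3 : k = e + 7
  · subst h3
    obtain ⟨w, h4, h5⟩ := h.reg2 e x hx
    have := h.mono (c.ge_of_gt h4)
    exact Or.inl ⟨rfl, by omega⟩
  by_cases h4 : k = 2 ∨ k = e + 6
  · exact absurd c (((h.eta e k h4).2 x hx).1 y)
  obtain ⟨w, -, h5⟩ := h.sing e k (by omega)
  have h6 : τ y = bs e + (k + 1) := by
    by_contra h6
    exact c.1.ne ((h5 x hx).trans (h5 y (by omega)).symm)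
  refine Or.inr ⟨?_, h6⟩
  by_contra h7
  exact ((h.eta e (k + 1) (by omega)).2 y h6).2 x c

theorem cov_sing {x y : L} {e k : ℕ} (hk : k = 0 ∨ (3 ≤ k ∧ k ≤ e + 4)) (hx : τ x = bs e + k)
    (hy : τ y = bs e + (k + 1)) : x ⋖ y := by
  refine ⟨h.lt (by omega), fun w h1 h2 => ?_⟩
  have h3 := h.mono h1.le
  have h4 := h.mono h2.le
  by_cases h5 : τ w = bs e + k
  · obtain ⟨p, -, hp⟩ := h.sing e k (by omega)
    exact h1.ne ((hp x hx).trans (hp w h5).symm)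
  · obtain ⟨p, -, hp⟩ := h.sing e (k + 1) (by omega)
    exact h2.ne ((hp w (by omega)).trans (hp y hy).symm)

theorem mark_unique {e : ℕ} {z₀ z₁ v v' : L} {xs : ℕ → L} (m : Mark e z₀ z₁ v v' xs) :
    τ z₀ = bs e ∧ τ v = bs e + (e + 7) ∧ ∀ x, τ x = bs e + (e + 7) → v ≤ x := by
  obtain ⟨j, k, hk, h0⟩ := bs_surj (τ z₀)
  have n1 := den_no_succ m.h2
  have k0 : k = 0 ∧ τ z₁ = bs j + 1 := by
    rcases h.cov m.h1 hk h0 with ⟨rfl, h1⟩ | ⟨h1, h2⟩
    · rcases h.reg3 j _ _ h0 h1 m.h1 with ⟨w, hw⟩ | ⟨w, hw⟩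
      · exact absurd hw (m.np w)
      · exact absurd hw (n1 w)
    · rcases h1 with rfl | h1
      · exact ⟨rfl, h2⟩
      exfalso
      by_cases h3 : k = 3
      · obtain ⟨w, hw⟩ := h.surj (bs j + (k + 1 + 1))
        exact n1 w (h.cov_sing (by omega) h2 hw)
      · obtain ⟨w, hw⟩ := h.surj (bs j + (k - 1))
        exact m.np w (h.cov_sing (by omega) hw (by omega))
  obtain ⟨rfl, h1⟩ := k0
  have x0 : τ (xs 0) = bs j + 3 := by
    obtain ⟨p, hp⟩ := h.surj (bs j + 3)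
    obtain ⟨q, hq⟩ := h.surj (bs j + (3 + 1))
    have h2 : xs 0 < q := not_le.1 fun c =>
      m.h2.not_covBy (h.lt (by omega)).le c (h.cov_sing (by omega) hp hq)
    have h3 := h.mono h2.le
    have h4 := h.mono m.h2.1.le
    have h5 : τ (xs 0) ≠ bs j + (3 + 1) := fun c => by
      obtain ⟨w, -, hw⟩ := h.sing j (3 + 1) (by omega)
      exact h2.ne ((hw _ c).trans (hw _ hq).symm)
    obtain ⟨k, hk⟩ : ∃ k, τ (xs 0) = bs j + k := ⟨τ (xs 0) - bs j, by omega⟩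
    have := h.cov (m.h3 0 (by omega)) (e := j) (k := k) (by omega) hk
    omega
  have run : ∀ k, k ≤ e + 2 → k ≤ j + 2 ∧ τ (xs k) = bs j + (3 + k) := fun k hk => by
    induction k with
    | zero => exact ⟨by omega, x0⟩
    | succ k ih =>
      obtain ⟨a, b⟩ := ih (by omega)
      have := h.cov (m.h3 k (by omega)) (by omega) b
      omega
  obtain ⟨a, b⟩ := run (e + 2) le_rfl
  obtain rfl : e = j := by
    by_contra c
    obtain ⟨w, hw⟩ := h.surj (bs j + (3 + (e + 2) + 1))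
    exact den_no_succ m.h4 w (h.cov_sing (by omega) b hw)
  obtain ⟨p, p', hp, c, hmin⟩ := h.reg1 e
  have h2 : v < p' := not_le.1 fun d => m.h4.not_covBy (h.lt (by omega)).le d c
  have h3 : v ≤ p := c.le_of_lt h2
  have h4 := h.mono h3
  have h5 := h.mono m.h4.1.le
  obtain ⟨k, hk'⟩ : ∃ k, τ v = bs e + k := ⟨τ v - bs e, by omega⟩
  have h6 := h.cov m.h5 (e := e) (k := k) (by omega) hk'
  exact ⟨h0, by omega, fun x hx => h3.trans (hmin x hx)⟩

theorem mark_exists (e : ℕ) : ∃ (z₀ z₁ v v' : L) (xs : ℕ → L), Mark e z₀ z₁ v v' xs := by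
  choose p hp using h.surj
  obtain ⟨a, a', ha, c, hmin⟩ := h.reg1 e
  refine ⟨p (bs e + 0), p (bs e + (0 + 1)), a, a', fun k => p (bs e + (3 + k)), fun w hw => ?_,
    h.cov_sing (Or.inl rfl) (hp _) (hp _), den_of' (h.lt (by simp [hp])) fun x y h1 h2 d => ?_,
    fun j hj => h.cov_sing (k := 3 + j) (by omega) (hp _) (hp _),
    den_of' (h.lt (by rw [hp, ha]; omega)) fun x y h1 h2 d => ?_, c⟩
  · obtain ⟨j, k, hk, h0⟩ := bs_surj (τ w)
    rcases h.cov hw hk h0 with ⟨rfl, h1⟩ | ⟨h1, h2⟩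
    · rw [hp] at h1
      have := bs_inj (by omega) (by omega) h1
      subst this
      omega
    · rw [hp] at h2
      have := bs_inj (by omega) (by omega) h2
      subst this
      omega
  · have h3 := h.mono h1
    have h4 := h.mono h2
    have h5 := h.mono d.1.le
    rw [hp] at h3 h4
    obtain ⟨k, hk⟩ : ∃ k, τ x = bs e + k := ⟨τ x - bs e, by omega⟩
    have := h.cov d (e := e) (k := k) (by omega) hk
    omega
  · have h3 := h.mono h1
    have h4 := h.mono h2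
    have h5 := h.mono d.1.le
    rw [hp] at h3
    obtain ⟨k, hk⟩ : ∃ k, τ x = bs e + k := ⟨τ x - bs e, by omega⟩
    have h6 := h.cov d (e := e) (k := k) (by omega) hk
    exact (d.1.trans_le h2).not_ge (hmin x (by omega))

theorem region_iff {e : ℕ} {v w : L} (hv : τ v = bs e + (e + 7))
    (hv' : ∀ x, τ x = bs e + (e + 7) → v ≤ x) (hw : τ w = bs (e + 1)) (x : L) :
    (v ≤ x ∧ x < w) ↔ τ x = bs e + (e + 7) := by
  rw [bs_succ] at hw
  refine ⟨fun ⟨h1, h2⟩ => ?_, fun hx => ⟨hv' x hx, h.lt (by omega)⟩⟩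
  have h3 := h.mono h1
  have h4 := h.mono h2.le
  by_contra c
  obtain ⟨p, -, hp⟩ := h.sing (e + 1) 0 (by omega)
  exact h2.ne ((hp x (by rw [bs_succ]; omega)).trans (hp w (by rw [bs_succ]; omega)).symm)

end Lay

end Pool.Agent.Lib.MP_d69888_lc.Yes
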