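import Pool.Agent.Lib.MP_d69888_lc.YOrd
import Pool.Agent.Lib.MP_d69888_lc.YMark
import Pool.Agent.Lib.MP_d69888_lc.Big

/-!
Gluing the region trees, with markers, into one tree.
-/

namespace Pool.Agent.Lib.MP_d69888_lc.Yes

open Pool.Agent.Shared.Type2

section comb

variable {V : ℕ → Set (List Bool)} (hV : ∀ n, IsTree (V n))
  (hiso : ∀ n, ∃ m g, n ≤ m ∧ Cone (V m) [] = {g})

/-- The points of tooth `n`. -/
def emb {n : ℕ} {W : Set (List Bool)} (h : V n = W) (x : LPt W) : LPt (Comb V) :=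
  ⟨(nd n x.1.1, x.1.2), (inM_comb hV hiso _).2 ⟨n, _, rfl, by rw [h]; exact x.2.1⟩,
    x.2.2.imp (fun c => (perfect_nd hV n _).2 (by rw [h]; exact c)) id⟩

/-- The tooth of a point. -/
def tn (a : LPt (Comb V)) : ℕ := lead a.1.1

variable {n : ℕ} {W : Set (List Bool)} (h : V n = W)

theorem tn_emb (x : LPt W) : tn (emb hV hiso h x) = n := lead_nd _ _

theorem emb_lt {x y : LPt W} : emb hV hiso h x < emb hV hiso h y ↔ x < y := by
  rw [LPt.lt_iff', LPt.lt_iff']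
  refine or_congr ?_ (and_congr ⟨fun e => (nd_inj e).2, fun e => congrArg (nd n) e⟩ Iff.rfl)
  change List.Lex (· < ·) (nd n x.1.1) (nd n y.1.1) ↔ List.Lex (· < ·) x.1.1 y.1.1
  unfold nd
  rw [lex_left]
  exact lex_left [false]

theorem emb_surj {a : LPt (Comb V)} (ha : tn a = n) : ∃ x, emb hV hiso h x = a := by
  obtain ⟨⟨σ, q⟩, h1, h2⟩ := a
  obtain ⟨m, τ, rfl, h3⟩ := (inM_comb hV hiso σ).1 h1
  obtain rfl : m = n := (lead_nd _ _).symm.trans ha
  subst h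
  exact ⟨⟨(τ, q), h3, h2.imp_left (perfect_nd hV m τ).1⟩, rfl⟩

theorem emb_dx {x : LPt W} (hx : Dx x) : Dx (emb hV hiso h x) := 
  (perfect_nd hV n _).2 (by rw [h]; exact hx)

include hV hiso in
theorem tn_mono : Monotone (tn : LPt (Comb V) → ℕ) := by
  intro a b hab
  by_contra c
  obtain ⟨x, hx⟩ := emb_surj hV hiso rfl (rfl : tn a = _)
  obtain ⟨y, hy⟩ := emb_surj hV hiso rfl (rfl : tn b = _)
  rw [← hx, ← hy] at hab
  exact hab.not_gt (LPt.lt_iff'.2 (Or.inl (lex_nd_lt (not_le.1 c) _ _)))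

theorem emb_cov {x y : LPt W} : emb hV hiso h x ⋖ emb hV hiso h y ↔ x ⋖ y := by
  refine ⟨fun c => ⟨(emb_lt hV hiso h).1 c.1, fun w h1 h2 =>
    c.2 ((emb_lt hV hiso h).2 h1) ((emb_lt hV hiso h).2 h2)⟩,
    fun c => ⟨(emb_lt hV hiso h).2 c.1, fun w h1 h2 => ?_⟩⟩
  have h3 := tn_mono hV hiso h1.le
  have h4 := tn_mono hV hiso h2.le
  rw [tn_emb] at h3 h4
  obtain ⟨v, rfl⟩ := emb_surj hV hiso h (le_antisymm h4 h3)
  exact c.2 ((emb_lt hV hiso h).1 h1) ((emb_lt hV hiso h).1 h2)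

end comb

/-- Block and place of tooth `n`. -/
def tth (n : ℕ) : ℕ × ℕ :=
  nrec n (0, 0) fun _ y => if y.2 < y.1 + 7 then (y.1, y.2 + 1) else (y.1 + 1, 0)

theorem tth_succ (n : ℕ) : tth (n + 1) =
    if (tth n).2 < (tth n).1 + 7 then ((tth n).1, (tth n).2 + 1) else ((tth n).1 + 1, 0) := rfl

theorem tth_step {e : ℕ} (h : tth (bs e) = (e, 0)) (k : ℕ) (hk : k ≤ e + 7) :
    tth (bs e + k) = (e, k) := by
  induction k with
  | zero => exact h
  | succ k ih =>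
    rw [← Nat.add_assoc, tth_succ, ih (by omega)]
    simp [show k < e + 7 by omega]

theorem tth_bs (e k : ℕ) (hk : k ≤ e + 7) : tth (bs e + k) = (e, k) := by
  refine tth_step ?_ k hk
  clear hk
  induction e with
  | zero => rfl
  | succ e ih =>
    have : bs (e + 1) = bs e + (e + 7) + 1 := by rw [bs_succ]; omega
    rw [this, tth_succ, tth_step ih _ le_rfl]
    simp

/-- The tree at place `k` of block `e`. -/
def cm (U : ℕ → Set (List Bool)) (y : ℕ × ℕ) : Set (List Bool) :=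
  if y.2 = y.1 + 7 then U y.1 else if y.2 = 2 ∨ y.2 = y.1 + 6 then Set.univ else Zs

/-- The teeth of the glued tree. -/
def th (U : ℕ → Set (List Bool)) (n : ℕ) : Set (List Bool) := cm U (tth n)

variable {U : ℕ → Set (List Bool)}

theorem th_U (e : ℕ) : th U (bs e + (e + 7)) = U e := by
  rw [th, tth_bs _ _ le_rfl]; simp [cm]

theorem th_eta {e k : ℕ} (h : k = 2 ∨ k = e + 6) : th U (bs e + k) = Set.univ := by
  rw [th, tth_bs _ _ (by omega), cm, if_neg (by simp only; omega), if_pos h]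

theorem th_sing {e k : ℕ} (h : k ≤ 1 ∨ (3 ≤ k ∧ k ≤ e + 5)) : th U (bs e + k) = Zs := by
  rw [th, tth_bs _ _ (by omega), cm, if_neg (by simp only; omega), if_neg (by simp only; omega)]

theorem th_cases (n : ℕ) : (∃ e, th U n = U e) ∨ th U n = Set.univ ∨ th U n = Zs := by
  unfold th cm
  split_ifs
  · exact Or.inl ⟨_, rfl⟩
  · exact Or.inr (Or.inl rfl)
  · exact Or.inr (Or.inr rfl)

theorem th_tree (hU : ∀ e, IsTree (U e)) (n : ℕ) : IsTree (th U n) := by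
  rcases th_cases (U := U) n with ⟨e, h⟩ | h | h <;> rw [h]
  exacts [hU _, univ_tree, Zs_tree]

theorem th_iso (n : ℕ) : ∃ m g, n ≤ m ∧ Cone (th U m) [] = {g} := by
  refine ⟨bs n + 0, _, ?_, by rw [th_sing (Or.inl (by omega))]; exact Zs_cone⟩
  cases n with
  | zero => exact Nat.zero_le _
  | succ n => rw [bs_succ]; omega

theorem th_comp {u : ℕ × List Bool → Bool}
    (tu : TD u) (hu : ∀ e σ, σ ∈ U e ↔ u (e, σ) = true) : ComputablePred (· ∈ Comb (th U)) := by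
  obtain ⟨ld, tl, hl⟩ : ∃ ld : List Bool → ℕ, TD ld ∧ ∀ σ, ld σ = lead σ :=
    ⟨lead, by unfold lead; fun_prop, fun _ => rfl⟩
  obtain ⟨s, ts, hs⟩ : ∃ s : ℕ → ℕ × ℕ, TD s ∧ ∀ n, s n = tth n :=
    ⟨tth, by unfold tth; fun_prop, fun _ => rfl⟩
  have key : TD fun σ : List Bool =>
      if (s (ld σ)).2 = (s (ld σ)).1 + 7 then u ((s (ld σ)).1, σ.drop (ld σ + 1))
      else (decide ((s (ld σ)).2 = 2) || decide ((s (ld σ)).2 = (s (ld σ)).1 + 6) ||
        (σ.drop (ld σ + 1)).all fun b => !b) := by fun_prop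
  refine ComputablePred.computable_iff.2 ⟨_, key.computable, funext fun σ => propext ?_⟩
  simp only [hl, hs]
  change σ.drop (lead σ + 1) ∈ cm U (tth (lead σ)) ↔ _
  unfold cm
  split_ifs with h1 h2
  · exact hu _ _
  · simp only [Set.mem_univ, Bool.or_eq_true, decide_eq_true_eq, true_iff]
    exact Or.inl h2
  · simp only [Bool.or_eq_true, decide_eq_true_eq, h2, false_or]
    rfl

theorem comp_gr {n : ℕ} {g : ℕ → Bool} (h : Computable g) : Computable (gr n g) := by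
  have tg : TD g := TD.of_computable h
  have : TD fun i : ℕ => if i < n then true else if i = n then false else g (i - (n + 1)) := by
    fun_prop
  exact this.computable

theorem th_qpac (hU : ∀ e, IsTree (U e))
    (hq : ∀ e f, IsPath (U e) f → ¬ Computable f → ∃ n, Perfect (Cone (U e) (seg f n)))
    {f : ℕ → Bool} (hf : IsPath (Comb (th U)) f) (hn : ¬ Computable f) :
    ∃ n, Perfect (Cone (Comb (th U)) (seg f n)) := by
  have hV := th_tree hU
  rcases path_split f with rfl | ⟨n, g, rfl⟩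
  · exact absurd (Computable.const _) hn
  have hg := (gr_path hV).1 hf
  have hn' : ¬ Computable g := fun c => hn (comp_gr c)
  rcases th_cases (U := U) n with ⟨e, h⟩ | h | h
  · obtain ⟨m, hm⟩ := hq e g (h ▸ hg) hn'
    exact ⟨n + 1 + m, by rw [seg_gr, perfect_nd hV, h]; exact hm⟩
  · exact ⟨n + 1 + 0, by rw [seg_gr, perfect_nd hV, h]; exact univ_perfect _⟩
  · rw [h, Zs_path] at hg
    exact absurd (hg ▸ Computable.const false) hn'

theorem th_lay (hU : ∀ e, IsTree (U e)) (hR : ∀ e, Rgn (LPt (U e))) :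
    Lay (tn : LPt (Comb (th U)) → ℕ) := by
  have hV := th_tree hU
  have hSu : InS Set.univ [] := ⟨trivial, Or.inl (univ_perfect _)⟩
  have hSz : InS Zs [] := ⟨rfl, Or.inr ⟨_, Zs_cone⟩⟩
  refine ⟨tn_mono hV th_iso, fun e k hk => ?_, fun e k hk => ⟨?_, fun x hx => ?_⟩, fun e => ?_,
    fun e x hx => ?_, fun e x y hx hy c => ?_⟩
  · refine ⟨emb hV th_iso (th_sing hk) ⟨([], 0), (inM_root hSz _).2 rfl, Or.inr rfl⟩,
      tn_emb _ _ _ _, fun y hy => ?_⟩
    obtain ⟨x, rfl⟩ := emb_surj hV th_iso (th_sing hk) hy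
    congr 1
    have h1 := (inM_root hSz _).1 x.2.1
    exact eq_of_not_dx (by unfold Dx; rw [h1]; exact Zs_not_perfect) h1
  · exact ⟨emb hV th_iso (th_eta hk) ⟨([], 0), (inM_root hSu _).2 rfl, Or.inr rfl⟩, tn_emb _ _ _ _⟩
  · obtain ⟨v, rfl⟩ := emb_surj hV th_iso (th_eta hk) hx
    have h1 := emb_dx hV th_iso (th_eta hk) (x := v) (univ_perfect _)
    exact ⟨fun y c => (covBy_not_dx c).1 h1, fun y c => (covBy_not_dx c).2 h1⟩
  · obtain ⟨a, a', h1, h2⟩ := (hR e).first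
    refine ⟨emb hV th_iso (th_U e) a, emb hV th_iso (th_U e) a', tn_emb _ _ _ _,
      (emb_cov _ _ _).2 h1, fun x hx => ?_⟩
    obtain ⟨v, rfl⟩ := emb_surj hV th_iso (th_U e) hx
    exact not_lt.1 fun c => (h2 v).not_gt ((emb_lt _ _ _).1 c)
  · obtain ⟨v, rfl⟩ := emb_surj hV th_iso (th_U e) hx
    obtain ⟨w, hw⟩ := (hR e).nolast v
    exact ⟨_, (emb_lt _ _ _).2 hw, tn_emb _ _ _ _⟩
  · obtain ⟨v, rfl⟩ := emb_surj hV th_iso (th_U e) hx
    obtain ⟨w, rfl⟩ := emb_surj hV th_iso (th_U e) hy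
    exact ((hR e).tri v w ((emb_cov _ _ _).1 c)).imp
      (fun ⟨p, hp⟩ => ⟨_, (emb_cov _ _ _).2 hp⟩) fun ⟨p, hp⟩ => ⟨_, (emb_cov _ _ _).2 hp⟩

end Pool.Agent.Lib.MP_d69888_lc.Yes
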