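import Pool.Agent.Lib.MP_d69888_lc.YProc

/-!
The priority mechanism: what a node sees after its last activation.
-/

namespace Pool.Agent.Lib.MP_d69888_lc.Yes

open Pool.Agent.Shared.Type2 Set

theorem spA_iff {s : ℕ} {a : Act} {σ : List Bool} : spA s a σ = true ↔
    σ = one s ∨ (z σ ∈ Ico (z (one a.1)) (z (one (a.1 + 1))) ∧ z σ ∈ Ico (z a.2.1) (z a.2.2.1)) ∨
      (a.2.2.2 = true ∧ z (one (a.1 + 4)) ≤ z σ) := by
  simp only [spA, Bool.or_eq_true, Bool.and_eq_true, beq_iff_eq, inI_iff, Bool.not_eq_true',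
    or_assoc, ← not_lt, ← ltS_iff (σ := σ) (τ := one (a.1 + 4)), Bool.not_eq_true]

theorem spA_base {s : ℕ} {a : Act} {σ : List Bool} (h : spA s a σ = true) :
    σ = one s ∨ z (one a.1) ≤ z σ := by
  rcases spA_iff.1 h with h | h | h
  · exact Or.inl h
  · exact Or.inr h.1.1
  · exact Or.inr ((z_one_le (by omega)).trans h.2)

theorem spo_one (o : B) (s : ℕ) : spo o s (one s) = true := spA_iff.2 (Or.inl rfl)

/-- The state of node `i` at stage `s`. -/
def nst (o : B) (i s : ℕ) : NS := (G o s).2.getD i (ini 0)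

theorem nst_td {Y : Type} [Rep Y] {o : Y → B} {i s : Y → ℕ} (h1 : TD o) (h2 : TD i) (h3 : TD s) :
    TD fun x => nst (o x) (i x) (s x) := by unfold nst; fun_prop

/-- The mode of node `i` at stage `s`. -/
def nmd (o : B) (i s : ℕ) : ℕ := md o i s (Lev (spo o) s) (nst o i s)

/-- The action at stage `s`. -/
def act (o : B) (s : ℕ) : Act := gact o s (G o s)

structure Env (o : B) (i r : ℕ) : Prop where
  le : i ≤ r
  init : nst o i (r + 1) = ini r
  fire1 : ∀ s, r < s → fire o i s = true →
    nst o i (s + 1) = nxt o i s (Lev (spo o) s) (nmd o i s) (nst o i s) ∧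
      act o s = actn (nmd o i s) (nst o i s)
  idle : ∀ s, r < s → fire o i s = false → nst o i (s + 1) = nst o i s ∧
    ∀ q, q < s → (q = r ∨ (r < q ∧ fire o i q = true)) → 4 * q + 8 ≤ (act o s).1

variable {o : B}

theorem ns_succ (s : ℕ) :
    (G o (s + 1)).2 = (G o s).2.take (who o s (G o s).2) ++ [gnew o s (G o s)] := rfl

theorem who_spec (s : ℕ) (ns : List NS) :
    (who o s ns < ns.length ∧ fire o (who o s ns) s = true ∧
      ∀ k, k < who o s ns → fire o k s = false) ∨
    (who o s ns = ns.length ∧ ∀ k, k < ns.length → fire o k s = false) :=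
  fst1_spec (fun k => fire o k s) ns.length ns.length

theorem who_le (s : ℕ) (ns : List NS) : who o s ns ≤ ns.length := by
  rcases who_spec (o := o) s ns with h | h <;> omega

theorem len_succ (s : ℕ) : (G o (s + 1)).2.length = who o s (G o s).2 + 1 := by
  rw [ns_succ, List.length_append, List.length_take, min_eq_left (who_le s _)]; rfl

theorem len_le (s : ℕ) : (G o s).2.length ≤ s := by
  induction s with
  | zero => exact le_rfl
  | succ s ih => rw [len_succ]; have := who_le (o := o) s (G o s).2; omega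

theorem nst_lt {k s : ℕ} (h : k < who o s (G o s).2) : nst o k (s + 1) = nst o k s := by
  have h1 := who_le (o := o) s (G o s).2
  unfold nst
  rw [ns_succ, List.getD_append _ _ _ _ (by simp; omega)]
  simp [List.getD_eq_getElem?_getD, h]

theorem nst_who (s : ℕ) : nst o (who o s (G o s).2) (s + 1) = gnew o s (G o s) := by
  have h1 := who_le (o := o) s (G o s).2
  unfold nst
  rw [ns_succ, List.getD_append_right _ _ _ _ (by simp)]
  simp [h1]

theorem cur_eq {s : ℕ} (h : who o s (G o s).2 < (G o s).2.length) :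
    cur o s (G o s).2 = nst o (who o s (G o s).2) s := by
  simp [cur, nst, List.getD_eq_getElem?_getD, h]

theorem act_base (s : ℕ) : (act o s).1 = sb (gnew o s (G o s)) := by
  unfold act gact gnew
  split_ifs <;> rfl

theorem base_ge {i q : ℕ} (hq : who o q (G o q).2 ≤ i) {s : ℕ} (hs : q < s) :
    (∀ k, i < k → k < (G o s).2.length → 4 * q + 8 ≤ sb (nst o k s)) ∧
      (i < who o s (G o s).2 → 4 * q + 8 ≤ sb (gnew o s (G o s))) := by
  have step : ∀ s, q < s → (∀ k, i < k → k < (G o s).2.length → 4 * q + 8 ≤ sb (nst o k s)) →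
      i < who o s (G o s).2 → 4 * q + 8 ≤ sb (gnew o s (G o s)) := by
    intro s hs h hi
    unfold gnew
    split_ifs with h1
    · rw [cur_eq h1]; exact h _ hi h1
    · change _ ≤ 4 * s + 4; omega
  have key : ∀ k, i < k → k < (G o s).2.length → 4 * q + 8 ≤ sb (nst o k s) := by
    induction s, hs using Nat.le_induction with
    | base => intro k h1 h2; rw [len_succ] at h2; omega
    | succ s hs ih =>
      intro k h1 h2
      rw [len_succ] at h2
      rcases Nat.lt_succ_iff_lt_or_eq.1 h2 with h3 | rfl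
      · rw [nst_lt h3]; exact ih k h1 (h3.trans_le (who_le _ _))
      · rw [nst_who]; exact step s hs ih h1
  exact ⟨key, step s hs key⟩

theorem env_exists {i : ℕ} (h : ∀ k, k < i → ¬ InfFire o k) : ∃ r, Env o i r := by
  classical
  obtain ⟨s₁, h1⟩ : ∃ s₁, ∀ s, s₁ ≤ s → ∀ k, k < i → fire o k s = false := by
    induction i with
    | zero => exact ⟨0, fun _ _ k hk => absurd hk (Nat.not_lt_zero _)⟩
    | succ i ih =>
      obtain ⟨s₁, h1⟩ := ih fun k hk => h k (by omega)
      have h2 := h i (by omega)
      unfold InfFire at h2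
      push Not at h2
      obtain ⟨s₂, h2⟩ := h2
      refine ⟨s₁ + s₂, fun s hs k hk => ?_⟩
      rcases Nat.lt_succ_iff_lt_or_eq.1 hk with h3 | rfl
      · exact h1 s (by omega) k h3
      · simpa using h2 s (by omega)
  have h2 : ∀ s, s₁ ≤ s → min i (G o s).2.length ≤ who o s (G o s).2 := fun s hs => by
    rcases who_spec (o := o) s (G o s).2 with h3 | h3
    · refine (min_le_left _ _).trans (not_lt.1 fun h4 => ?_)
      rw [h1 s hs _ h4] at h3
      exact absurd h3.2.1 (by simp)
    · rw [h3.1]; exact min_le_right _ _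
  have h3 : ∀ n, min (i + 1) n ≤ (G o (s₁ + n)).2.length := fun n => by
    induction n with
    | zero => simp
    | succ n ih =>
      have := h2 (s₁ + n) (by omega)
      rw [← Nat.add_assoc, len_succ]
      omega
  let r := Nat.findGreatest (fun s => (G o s).2.length ≤ i) (s₁ + i + 1)
  have hr : (G o r).2.length ≤ i :=
    Nat.findGreatest_spec (P := fun s => (G o s).2.length ≤ i) (m := 0) (Nat.zero_le _)
      (Nat.zero_le _)
  have hr' : ∀ s, r < s → i < (G o s).2.length := fun s hs => by
    by_cases h4 : s ≤ s₁ + i + 1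
    · exact not_le.1 (Nat.findGreatest_is_greatest (P := fun s => (G o s).2.length ≤ i) hs h4)
    · have := h3 (s - s₁)
      rw [show s₁ + (s - s₁) = s by omega] at this
      omega
  have hw : ∀ s, r ≤ s → i ≤ who o s (G o s).2 := fun s hs => by
    have := hr' (s + 1) (by omega)
    rw [len_succ] at this
    omega
  have hwr : who o r (G o r).2 = i := by
    have := hw r le_rfl
    have := who_le (o := o) r (G o r).2
    omega
  have hf : ∀ s, r < s → fire o i s = true → who o s (G o s).2 = i := fun s hs h4 =>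
    le_antisymm (fst1_le (φ := fun k => fire o k s) (hr' s hs) h4).2 (hw s hs.le)
  refine ⟨r, ?_, ?_, fun s hs h4 => ?_, fun s hs h4 => ?_⟩
  · have := len_le (o := o) r
    have := who_le (o := o) r (G o r).2
    omega
  · have h5 := nst_who (o := o) r
    rw [hwr] at h5
    rw [h5, gnew, if_neg (by omega)]
  · have h5 := nst_who (o := o) s
    have h6 := hf s hs h4
    have h7 : who o s (G o s).2 < (G o s).2.length := by rw [h6]; exact hr' s hs
    have h8 := cur_eq h7
    rw [gnew, if_pos h7, h8, h6, G_lev] at h5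
    refine ⟨h5, ?_⟩
    rw [act, gact, if_pos h7, h8, h6, G_lev]
    rfl
  · have h5 : i < who o s (G o s).2 := by
      refine (hw s hs.le).lt_of_ne fun e => ?_
      rcases who_spec (o := o) s (G o s).2 with h6 | h6
      · rw [← e, h4] at h6; exact absurd h6.2.1 (by simp)
      · have := hr' s hs; omega
    refine ⟨nst_lt h5, fun q hq h6 => ?_⟩
    rw [act_base]
    refine (base_ge ?_ hq).2 h5
    rcases h6 with rfl | h6
    · exact hwr.le
    · exact (hf q h6.1 h6.2).le

theorem quiet (h : ∀ k, ¬ InfFire o k) (m : ℕ) : ∃ s₀, ∀ s, s₀ ≤ s → m ≤ (act o s).1 := by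
  obtain ⟨r, hr⟩ := env_exists (i := m) fun k _ => h k
  have h2 := h m
  unfold InfFire at h2
  push Not at h2
  obtain ⟨s₂, h2⟩ := h2
  refine ⟨r + s₂ + 1, fun s hs => ?_⟩
  have := (hr.idle s (by omega) (by simpa using h2 s (by omega))).2 r (by omega) (Or.inl rfl)
  have := hr.le
  omega

end Pool.Agent.Lib.MP_d69888_lc.Yes
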