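import Pool.Agent.Lib.MP_d69888_lc.YTree

/-!
The order `L(T)` in terms of the paths of `T`.
-/

namespace Pool.Agent.Lib.MP_d69888_lc.Yes

open Set

variable {T : Set (List Bool)}

noncomputable instance : LinearOrder (LPt T) :=
  LinearOrder.lift' (fun a => (toLex a.1 : List Bool ×ₗ ℚ)) fun _ _ h => Subtype.ext h

theorem LPt.lt_iff' {a b : LPt T} : a < b ↔ a.1.1 < b.1.1 ∨ (a.1.1 = b.1.1 ∧ a.1.2 < b.1.2) := by
  change (toLex a.1 : List Bool ×ₗ ℚ) < toLex b.1 ↔ _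
  rw [Prod.Lex.toLex_lt_toLex]

theorem LPt.lt_iff {a b : LPt T} : a < b ↔ LLt a b := by
  rw [LPt.lt_iff']
  exact or_congr ⟨fun h => ⟨h.ne, h⟩, fun h => h.2⟩ Iff.rfl

/-- The path `f` passes through the node of the point `x`. -/
def In (x : LPt T) (f : X) : Prop := f ∈ Cone T x.1.1

/-- The point `x` lies in a copy of `ℚ`. -/
def Dx (x : LPt T) : Prop := Perfect (Cone T x.1.1)

theorem In.pa {x : LPt T} {f : X} (h : In x f) : f ∈ Pa T := h.1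

theorem lex_lt {σ τ : List Bool} (h : List.Lex (· < ·) σ τ) (hn : ¬ σ <+: τ) :
    ∀ {f g : X}, seg f σ.length = σ → seg g τ.length = τ → f < g := by
  induction h with
  | nil => exact absurd List.nil_prefix hn
  | @rel a l b l' h =>
    intro f g hf hg
    have h1 : f 0 = a := by rw [← seg_getD f (show 0 < (a :: l).length by simp), hf]; rfl
    have h2 : g 0 = b := by rw [← seg_getD g (show 0 < (b :: l').length by simp), hg]; rfl
    refine X.lt_iff.2 ⟨0, fun j hj => absurd hj (Nat.not_lt_zero _), ?_, ?_⟩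
    · rw [h1]; revert h; cases a <;> cases b <;> simp
    · rw [h2]; revert h; cases a <;> cases b <;> simp
  | @cons a l l' h ih =>
    intro f g hf hg
    have key : ∀ (f : X) (l : List Bool), seg f (a :: l).length = a :: l →
        f 0 = a ∧ seg (fun n => f (n + 1)) l.length = l := fun f l h => by
      simp only [seg, List.length_cons, List.ofFn_succ, List.cons.injEq] at h
      exact h
    obtain ⟨f0, f1⟩ := key f l hf
    obtain ⟨g0, g1⟩ := key g l' hg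
    obtain ⟨i, h1, h2, h3⟩ := X.lt_iff.1
      (ih (fun h' => hn (List.cons_prefix_cons.2 ⟨rfl, h'⟩)) (f := fun n => f (n + 1))
        (g := fun n => g (n + 1)) f1 g1)
    refine X.lt_iff.2 ⟨i + 1, fun j hj => ?_, h2, h3⟩
    cases j with
    | zero => rw [f0, g0]
    | succ j => exact h1 j (by omega)

theorem In.lt_of {x y : LPt T} {f g : X} (hf : In x f) (hg : In y g) (h : x.1.1 < y.1.1) :
    f < g :=
  lex_lt h (fun h' => y.2.1.2 _ h' h.ne x.2.1.1) hf.2 hg.2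

theorem In.lt_iff {x y : LPt T} {f g : X} (hf : In x f) (hg : In y g) (h : x.1.1 ≠ y.1.1) :
    x < y ↔ f < g := by
  rcases lt_or_gt_of_ne h with h1 | h1
  · exact iff_of_true (LPt.lt_iff'.2 (Or.inl h1)) (hf.lt_of hg h1)
  · exact iff_of_false (LPt.lt_iff'.2 (Or.inl h1)).not_gt (hg.lt_of hf h1).not_gt

theorem eq_of_not_dx {x y : LPt T} (hx : ¬ Dx x) (h : x.1.1 = y.1.1) : x = y := by
  have h1 := x.2.2.resolve_left hx
  have h2 := y.2.2.resolve_left (by rw [← h]; exact hx)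
  exact Subtype.ext (Prod.ext h (h1.trans h2.symm))

theorem In.single {x : LPt T} {f : X} (hf : In x f) (hx : ¬ Dx x) : Cone T x.1.1 = {f} := by
  obtain ⟨g, hg⟩ := x.2.1.1.2.resolve_left hx
  have : f ∈ Cone T x.1.1 := hf
  rw [hg] at this
  rw [hg, ← (this : f = g)]
  rfl

theorem In.iso {x : LPt T} {f : X} (hf : In x f) (hx : ¬ Dx x) : IsoP T f :=
  ⟨x.1.1.length, by rw [hf.2]; exact hf.single hx⟩

theorem In.uniq {x : LPt T} {f g : X} (hf : In x f) (hg : In x g) (hx : ¬ Dx x) : g = f := by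
  have : g ∈ Cone T x.1.1 := hg
  rwa [hf.single hx] at this

theorem In.per {x : LPt T} {f : X} (hf : In x f) (hx : Dx x) : PerP T f :=
  ⟨x.1.1.length, by rw [hf.2]; exact hx⟩

theorem PerP.not_iso {f : X} (h : PerP T f) (hf : f ∈ Pa T) : ¬ IsoP T f := by
  obtain ⟨n, hn⟩ := h
  refine not_iso_of fun t => ?_
  obtain ⟨g, h1, h2, h3⟩ := perfect_iff.1 hn f ⟨hf, by rw [seg_length]⟩ t
  exact ⟨g, h1.1, h2, h3⟩

theorem In.not_dx {x : LPt T} {f : X} (hf : In x f) (h : IsoP T f) : ¬ Dx x :=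
  fun hx => (hf.per hx).not_iso hf.pa h

theorem In.dx {x : LPt T} {f : X} (hf : In x f) (h : PerP T f) : Dx x :=
  by_contra fun hx => h.not_iso hf.pa (hf.iso hx)

theorem In.ne_left {x y : LPt T} (hx : ¬ Dx x) (h : x ≠ y) : x.1.1 ≠ y.1.1 :=
  fun e => h (eq_of_not_dx hx e)

theorem In.ne_right {x y : LPt T} (hy : ¬ Dx y) (h : x ≠ y) : x.1.1 ≠ y.1.1 :=
  fun e => h (eq_of_not_dx hy e.symm).symm

/-- Comparison of points by paths, when one of the points is not in a copy of `ℚ`. -/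
theorem In.lt_path {x y : LPt T} {f g : X} (hf : In x f) (hg : In y g) (h : ¬ Dx x ∨ ¬ Dx y)
    (hxy : x < y) : f < g :=
  (hf.lt_iff hg (h.elim (In.ne_left · hxy.ne) (In.ne_right · hxy.ne))).1 hxy

theorem In.le_path {x y : LPt T} {f g : X} (hf : In x f) (hg : In y g) (h : ¬ Dx x ∨ ¬ Dx y)
    (hxy : x ≤ y) : f ≤ g := by
  rcases hxy.eq_or_lt with rfl | hxy
  · exact (hg.uniq hf (h.elim id id)).le
  · exact (hf.lt_path hg h hxy).le

theorem In.lt_pt {x y : LPt T} {f g : X} (hf : In x f) (hg : In y g) (h : ¬ Dx x ∨ ¬ Dx y)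
    (hfg : f < g) : x < y :=
  lt_of_not_ge fun h' => (hg.le_path hf h.symm h').not_gt hfg

theorem exists_in {f : X} (hf : f ∈ Pa T) (h : IsoP T f ∨ PerP T f) : ∃ x : LPt T, In x f := by
  classical
  have h1 : ∃ n, InS T (seg f n) := by
    rcases h with ⟨n, hn⟩ | ⟨n, hn⟩
    · exact ⟨n, hf n, Or.inr ⟨f, hn⟩⟩
    · exact ⟨n, hf n, Or.inl hn⟩
  refine ⟨⟨(seg f (Nat.find h1), 0), ⟨Nat.find_spec h1, fun τ h2 h3 h4 => ?_⟩, Or.inr rfl⟩,
    hf, by rw [seg_length]⟩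
  have h5 := pre_seg h2
  have h6 : τ.length < Nat.find h1 := by
    have := h2.length_le
    rw [seg_length] at this
    refine this.lt_of_ne fun e => h3 ?_
    rw [h5, e]
  exact Nat.find_min h1 h6 (h5 ▸ h4)

theorem Dx.above {x : LPt T} (hx : Dx x) : ∃ w : LPt T, x < w ∧ w.1.1 = x.1.1 :=
  ⟨⟨(x.1.1, x.1.2 + 1), x.2.1, Or.inl hx⟩, LPt.lt_iff'.2 (Or.inr ⟨rfl, by simp⟩), rfl⟩

theorem Dx.below {x : LPt T} (hx : Dx x) : ∃ w : LPt T, w < x ∧ w.1.1 = x.1.1 :=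
  ⟨⟨(x.1.1, x.1.2 - 1), x.2.1, Or.inl hx⟩, LPt.lt_iff'.2 (Or.inr ⟨rfl, by simp⟩), rfl⟩

theorem Dx.btw_right {x y : LPt T} (hx : Dx x) (h : x < y) :
    ∃ w : LPt T, x < w ∧ w < y ∧ Dx w := by
  rcases LPt.lt_iff'.1 h with h1 | ⟨h1, h2⟩
  · obtain ⟨w, h2, h3⟩ := hx.above
    exact ⟨w, h2, LPt.lt_iff'.2 (Or.inl (by rwa [h3])), by unfold Dx; rwa [h3]⟩
  · exact ⟨⟨(x.1.1, (x.1.2 + y.1.2) / 2), x.2.1, Or.inl hx⟩,
      LPt.lt_iff'.2 (Or.inr ⟨rfl, by simp only; linarith⟩),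
      LPt.lt_iff'.2 (Or.inr ⟨h1, by simp only; linarith⟩), hx⟩

theorem Dx.btw_left {x y : LPt T} (hx : Dx x) (h : y < x) :
    ∃ w : LPt T, y < w ∧ w < x ∧ Dx w := by
  rcases LPt.lt_iff'.1 h with h1 | ⟨h1, h2⟩
  · obtain ⟨w, h2, h3⟩ := hx.below
    exact ⟨w, LPt.lt_iff'.2 (Or.inl (by rwa [h3])), h2, by unfold Dx; rwa [h3]⟩
  · exact ⟨⟨(x.1.1, (x.1.2 + y.1.2) / 2), x.2.1, Or.inl hx⟩,
      LPt.lt_iff'.2 (Or.inr ⟨h1, by simp only; linarith⟩),
      LPt.lt_iff'.2 (Or.inr ⟨rfl, by simp only; linarith⟩), hx⟩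

theorem covBy_not_dx {x y : LPt T} (h : x ⋖ y) : ¬ Dx x ∧ ¬ Dx y :=
  ⟨fun hx => let ⟨_, a, b, _⟩ := hx.btw_right h.1; h.2 a b,
    fun hy => let ⟨_, a, b, _⟩ := hy.btw_left h.1; h.2 a b⟩

theorem Dx.Ioo_right {x y : LPt T} (hx : Dx x) (h : x < y) : (Ioo x y).encard = ⊤ := by
  rw [Set.encard_eq_top_iff]
  intro hfin
  obtain ⟨w, h1, h2, -⟩ := hx.btw_right h
  obtain ⟨m, hm, hmin⟩ := Set.exists_min_image _ id hfin ⟨w, h1, h2⟩
  obtain ⟨v, h3, h4, -⟩ := hx.btw_right hm.1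
  exact (hmin v ⟨h3, h4.trans hm.2⟩).not_gt h4

theorem Dx.Iio_top {x : LPt T} (hx : Dx x) : (Iio x).encard = ⊤ := by
  obtain ⟨w, h1, h2⟩ := hx.below
  have hw : Dx w := by unfold Dx; rwa [h2]
  exact top_le_iff.1 ((hw.Ioo_right h1).ge.trans (Set.encard_le_encard Ioo_subset_Iio_self))

section zero

variable (hT : IsTree T) (h0 : ∀ σ ∈ T, σ ++ [false] ∈ T)
include hT h0

theorem in_z (x : LPt T) : In x (z x.1.1) := ⟨ext0_path hT h0 x.2.1.1.1, seg_z _⟩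

theorem Dx.inf {x : LPt T} (hx : Dx x) : {f : X | In x f}.Infinite :=
  Set.Infinite.of_accPt (X := ℕ → Bool) (hx.acc _ (in_z hT h0 x))

theorem encard_pts {U : Set (LPt T)} {S : Set X} (hS : (Pa T ∩ S).Finite)
    (h : ∀ w ∈ U, ∀ f, In w f → f ∈ S) : U.encard ≤ (Pa T ∩ S).encard := by
  have h1 : ∀ w ∈ U, ¬ Dx w := fun w hw hd =>
    hd.inf hT h0 (hS.subset fun f hf => ⟨In.pa hf, h w hw f hf⟩)
  refine Set.encard_le_encard_of_injOn (f := fun w => z w.1.1)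
    (fun w hw => ⟨(in_z hT h0 w).pa, h w hw _ (in_z hT h0 w)⟩) fun v hv w hw e => ?_
  by_contra hne
  rcases lt_or_gt_of_ne hne with h2 | h2
  · exact ((in_z hT h0 v).lt_path (in_z hT h0 w) (Or.inl (h1 v hv)) h2).ne e
  · exact ((in_z hT h0 w).lt_path (in_z hT h0 v) (Or.inl (h1 w hw)) h2).ne e.symm

theorem covBy_of_paths {x y : LPt T} {f g : X} (hf : In x f) (hg : In y g) (hx : ¬ Dx x)
    (hy : ¬ Dx y) (hfg : f < g) (h : ∀ k ∈ Pa T, f < k → ¬ k < g) : x ⋖ y :=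
  ⟨hf.lt_pt hg (Or.inl hx) hfg, fun w h1 h2 =>
    h _ (in_z hT h0 w).pa (hf.lt_path (in_z hT h0 w) (Or.inl hx) h1)
      ((in_z hT h0 w).lt_path hg (Or.inr hy) h2)⟩

end zero

/-- A convex set with finitely many paths, at least three, all isolated. -/
structure Block (T : Set (List Bool)) (S : Set X) : Prop where
  conv : S.OrdConnected
  fin : (Pa T ∩ S).Finite
  iso : ∀ f ∈ Pa T ∩ S, IsoP T f
  three : 3 ≤ (Pa T ∩ S).encard

theorem exists_three {α : Type} [LinearOrder α] {A : Set α} (h : 3 ≤ A.encard) :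
    ∃ a ∈ A, ∃ b ∈ A, ∃ c ∈ A, a < b ∧ b < c := by
  obtain ⟨t, ht, h3⟩ := Set.exists_subset_encard_eq h
  obtain ⟨a, b, c, hab, hac, hbc, rfl⟩ := Set.encard_eq_three.1 h3
  have ha : a ∈ A := ht (by simp)
  have hb : b ∈ A := ht (by simp)
  have hc : c ∈ A := ht (by simp)
  rcases lt_or_gt_of_ne hab with h1 | h1 <;> rcases lt_or_gt_of_ne hac with h2 | h2 <;>
    rcases lt_or_gt_of_ne hbc with h3 | h3
  · exact ⟨a, ha, b, hb, c, hc, h1, h3⟩
  · exact ⟨a, ha, c, hc, b, hb, h2, h3⟩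
  · exact absurd (h1.trans h3) h2.not_gt
  · exact ⟨c, hc, a, ha, b, hb, h2, h1⟩
  · exact ⟨b, hb, a, ha, c, hc, h1, h2⟩
  · exact absurd (h2.trans h3) h1.not_gt
  · exact ⟨b, hb, c, hc, a, ha, h3, h2⟩
  · exact ⟨c, hc, b, hb, a, ha, h3, h1⟩

section zero

variable (hT : IsTree T) (h0 : ∀ σ ∈ T, σ ++ [false] ∈ T)
include hT h0

theorem Block.next {S : Set X} (hS : Block T S) {x : LPt T} {f g : X} (hf : In x f) (hfS : f ∈ S)
    (hg : g ∈ Pa T ∩ S) (h : f < g) : ∃ y k, In y k ∧ k ∈ S ∧ k ≤ g ∧ x ⋖ y := by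
  obtain ⟨k, hk, hmin⟩ := Set.exists_min_image (Pa T ∩ S ∩ Ioi f) id
    (hS.fin.subset inter_subset_left) ⟨g, hg, h⟩
  obtain ⟨y, hy⟩ := exists_in hk.1.1 (Or.inl (hS.iso _ hk.1))
  refine ⟨y, k, hy, hk.1.2, hmin g ⟨hg, h⟩, covBy_of_paths hT h0 hf hy
    (hf.not_dx (hS.iso _ ⟨hf.pa, hfS⟩)) (hy.not_dx (hS.iso _ hk.1)) hk.2 fun k' h1 h2 h3 => ?_⟩
  exact (hmin k' ⟨⟨h1, hS.conv.out hfS hk.1.2 ⟨h2.le, h3.le⟩⟩, h2⟩).not_gt h3

theorem Block.prev {S : Set X} (hS : Block T S) {x : LPt T} {f g : X} (hf : In x f) (hfS : f ∈ S)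
    (hg : g ∈ Pa T ∩ S) (h : g < f) : ∃ y, y ⋖ x := by
  obtain ⟨k, hk, hmax⟩ := Set.exists_max_image (Pa T ∩ S ∩ Iio f) id
    (hS.fin.subset inter_subset_left) ⟨g, hg, h⟩
  obtain ⟨y, hy⟩ := exists_in hk.1.1 (Or.inl (hS.iso _ hk.1))
  refine ⟨y, covBy_of_paths hT h0 hy hf (hy.not_dx (hS.iso _ hk.1))
    (hf.not_dx (hS.iso _ ⟨hf.pa, hfS⟩)) hk.2 fun k' h1 h2 h3 => ?_⟩
  exact (hmax k' ⟨⟨h1, hS.conv.out hk.1.2 hfS ⟨h2.le, h3.le⟩⟩, h3⟩).not_gt h2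

theorem Block.two {S : Set X} (hS : Block T S) {x : LPt T} {f : X} (hf : In x f) (hfS : f ∈ S)
    (h : ∀ g ∈ Pa T ∩ S, f ≤ g) : ∃ y w, x ⋖ y ∧ y ⋖ w := by
  obtain ⟨a, ha, b, hb, c, hc, hab, hbc⟩ := exists_three hS.three
  obtain ⟨y, k, hy, hk, hkb, h1⟩ := hS.next hT h0 hf hfS hb ((h a ha).trans_lt hab)
  obtain ⟨w, -, -, -, -, h2⟩ := hS.next hT h0 hy hk hc (hkb.trans_lt hbc)
  exact ⟨y, w, h1, h2⟩

end zero

/-- What every outcome of the construction satisfies. -/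
structure Good (T : Set (List Bool)) : Prop where
  cls : ∀ f ∈ Pa T, (∃ S, Block T S ∧ f ∈ S) ∨ PerP T f ∨ (¬ IsoP T f ∧ Computable f)
  first : IsoP T (z [])
  nolast : ∀ f ∈ Pa T, IsoP T f → ∃ g ∈ Pa T, f < g ∧ (IsoP T g ∨ PerP T g)

/-- A first point with a successor, no last point, no block of two points. -/
structure Rgn (C : Type) [LinearOrder C] : Prop where
  first : ∃ a a' : C, a ⋖ a' ∧ ∀ x, a ≤ x
  nolast : ∀ x : C, ∃ y, x < y
  tri : ∀ x y : C, x ⋖ y → (∃ w, w ⋖ x) ∨ ∃ w, y ⋖ w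

theorem Good.block (h : Good T) {f : X} (hf : f ∈ Pa T) (hi : IsoP T f) :
    ∃ S, Block T S ∧ f ∈ S := by
  rcases h.cls f hf with h1 | h1 | h1
  · exact h1
  · exact absurd hi (h1.not_iso hf)
  · exact absurd hi h1.1

section zero

variable (hT : IsTree T) (h0 : ∀ σ ∈ T, σ ++ [false] ∈ T)
include hT h0

theorem iso_comp {f : X} (hf : f ∈ Pa T) (h : IsoP T f) : Computable f := by
  obtain ⟨n, hn⟩ := h
  have h1 : z (seg f n) ∈ Cone T (seg f n) := ⟨ext0_path hT h0 (hf n), seg_z _⟩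
  rw [hn] at h1
  refine comp_of_ev (Computable.const false) (t := n) fun s hs => ?_
  rw [← (h1 : z (seg f n) = f)]
  exact z_ge _ (by simpa using hs)

theorem Good.qpac (h : Good T) {f : X} (hf : f ∈ Pa T) (hn : ¬ Computable f) : PerP T f := by
  rcases h.cls f hf with ⟨S, h1, h2⟩ | h1 | h1
  · exact absurd (iso_comp hT h0 hf (h1.iso f ⟨hf, h2⟩)) hn
  · exact h1
  · exact absurd h1.2 hn

theorem Good.rgn (h : Good T) : Rgn (LPt T) := by
  refine ⟨?_, fun x => ?_, fun x y hxy => ?_⟩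
  · have hp : z [] ∈ Pa T := ext0_path hT h0 hT.root
    obtain ⟨a, ha⟩ := exists_in hp (Or.inl h.first)
    obtain ⟨S, hS, h1⟩ := h.block hp h.first
    obtain ⟨y, -, h2, -⟩ := hS.two hT h0 ha h1 fun g _ => z_nil_le g
    refine ⟨a, y, h2, fun x => not_lt.1 fun h3 => ?_⟩
    exact ((in_z hT h0 x).lt_path ha (Or.inr (ha.not_dx h.first)) h3).not_ge (z_nil_le _)
  · by_cases hx : Dx x
    · obtain ⟨w, h1, -⟩ := hx.above
      exact ⟨w, h1⟩
    · have h1 := in_z hT h0 x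
      obtain ⟨g, hg, h2, h3⟩ := h.nolast _ h1.pa (h1.iso hx)
      obtain ⟨y, hy⟩ := exists_in hg h3
      exact ⟨y, h1.lt_pt hy (Or.inl hx) h2⟩
  · have h1 := in_z hT h0 x
    obtain ⟨S, hS, h2⟩ := h.block h1.pa (h1.iso (covBy_not_dx hxy).1)
    by_cases h3 : ∀ g ∈ Pa T ∩ S, z x.1.1 ≤ g
    · obtain ⟨y', w, h4, h5⟩ := hS.two hT h0 h1 h2 h3
      rw [hxy.unique_right h4]
      exact Or.inr ⟨w, h5⟩
    · push Not at h3
      obtain ⟨g, hg, h4⟩ := h3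
      exact Or.inl (hS.prev hT h0 h1 h2 hg h4)

/-- A perfect part followed by a block. -/
theorem world_F {q : X} (hq : q ∈ Pa T) (hp : PerP T q) {S : Set X} (hS : Block T S)
    (h : ∀ g ∈ S, q < g) : ∃ t y w : LPt T, t < y ∧ y ⋖ w ∧ (Iio t).encard = ⊤ ∧
      (Ioo t y).encard = ⊤ := by
  obtain ⟨t, ht⟩ := exists_in hq (Or.inr hp)
  obtain ⟨a, ha, b, hb, -, -, hab, -⟩ := exists_three hS.three
  obtain ⟨y, hy⟩ := exists_in ha.1 (Or.inl (hS.iso a ha))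
  obtain ⟨w, -, -, -, -, h1⟩ := hS.next hT h0 hy ha.2 hb hab
  have h2 : t < y := ht.lt_pt hy (Or.inr (covBy_not_dx h1).1) (h a ha.2)
  exact ⟨t, y, w, h2, h1, (ht.dx hp).Iio_top, (ht.dx hp).Ioo_right h2⟩

theorem Iio_lt {c : X} (hc : (Pa T ∩ Iio c).Finite) {t : LPt T} {f : X} (hf : In t f)
    (ht : ¬ Dx t) (h : f < c) : (Iio t).encard < (Pa T ∩ Iio c).encard := by
  have h1 : (Iic t).encard ≤ (Pa T ∩ Iio c).encard := encard_pts hT h0 hc fun w hw g hg =>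
    (hg.le_path hf (Or.inr ht) hw).trans_lt h
  have h2 : (Iic t).encard = (Iio t).encard + 1 := by
    rw [← Iio_insert, Set.encard_insert_of_notMem (by simp)]
  rw [h2] at h1
  have h3 : (Iio t).encard ≠ ⊤ := fun e => by
    rw [e, top_add, top_le_iff] at h1
    exact hc.encard_lt_top.ne h1
  exact (ENat.add_one_le_iff h3).1 h1

/-- Finite parts converging to at most two paths, then a perfect tail. -/
theorem world_H {l r : ℕ → X} {E : X} {Z : Set X} (hZ : Z.Finite)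
    (cls : ∀ f ∈ Pa T, (∃ s, f < l s) ∨ (∃ s, f ∈ Ico (r s) E) ∨ f ∈ Z ∨ E ≤ f)
    (hZ' : ∀ f ∈ Z, ¬ IsoP T f) (hE : ∀ f ∈ Pa T, E ≤ f → PerP T f)
    (hl : ∀ s, (Pa T ∩ Iio (l s)).Finite ∧ ∀ f ∈ Pa T ∩ Iio (l s), IsoP T f)
    (hr : ∀ s, (Pa T ∩ Ico (r s) E).Finite ∧ ∀ f ∈ Pa T ∩ Ico (r s) E, IsoP T f)
    {t y w : LPt T} (hty : t < y) (hyw : y ⋖ w)
    (h1 : ∀ s, (Pa T ∩ Iio (l s)).encard ≤ (Iio t).encard)
    (h2 : ∀ s, (Pa T ∩ Ico (r s) E).encard ≤ (Ioo t y).encard + 2) : False := by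
  obtain ⟨dy, dw⟩ := covBy_not_dx hyw
  have iy := in_z hT h0 y
  have iw := in_z hT h0 w
  have it := in_z hT h0 t
  have lw : z w.1.1 < E := not_le.1 fun h => dw (iw.dx (hE _ iw.pa h))
  have ltE : ∀ f, In t f → f < E := fun f hf =>
    (hf.lt_path iw (Or.inr dw) (hty.trans hyw.1)).trans lw
  have dt : ¬ Dx t := fun hd => hd.inf hT h0 (hZ.subset fun f hf => by
    have h3 := (In.per hf hd).not_iso (In.pa hf)
    rcases cls f (In.pa hf) with ⟨s, h⟩ | ⟨s, h⟩ | h | h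
    · exact absurd ((hl s).2 f ⟨In.pa hf, h⟩) h3
    · exact absurd ((hr s).2 f ⟨In.pa hf, h⟩) h3
    · exact h
    · exact absurd h (ltE f hf).not_ge)
  rcases cls _ it.pa with ⟨s, h⟩ | ⟨s, h⟩ | h | h
  · exact (Iio_lt hT h0 (hl s).1 it dt h).not_ge (h1 s)
  · have h3 : (Icc t w).encard ≤ (Pa T ∩ Ico (r s) E).encard :=
      encard_pts hT h0 (hr s).1 fun v hv g hg =>
        ⟨h.1.trans (it.le_path hg (Or.inl dt) hv.1), (hg.le_path iw (Or.inr dw) hv.2).trans_lt lw⟩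
    have h4 : insert t (insert y (insert w (Ioo t y))) ⊆ Icc t w := by
      intro v hv
      simp only [Set.mem_insert_iff] at hv
      rcases hv with rfl | rfl | rfl | hv
      · exact ⟨le_rfl, (hty.trans hyw.1).le⟩
      · exact ⟨hty.le, hyw.1.le⟩
      · exact ⟨(hty.trans hyw.1).le, le_rfl⟩
      · exact ⟨hv.1.le, (hv.2.trans hyw.1).le⟩
    have h5 := Set.encard_le_encard h4
    rw [Set.encard_insert_of_notMem (by simp [hty.ne, (hty.trans hyw.1).ne]),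
      Set.encard_insert_of_notMem (by simp [hyw.1.ne]),
      Set.encard_insert_of_notMem (by simp [hyw.1.le])] at h5
    have h6 := (h5.trans h3).trans (h2 s)
    have h7 : (Ioo t y).encard ≠ ⊤ := fun e => by
      have := h5.trans h3
      rw [e] at this
      exact (hr s).1.encard_lt_top.ne (top_le_iff.1 (by simpa using this))
    lift (Ioo t y).encard to ℕ using h7 with n
    norm_cast at h6
    omega
  · exact hZ' _ h (it.iso dt)
  · exact (ltE _ it).not_ge h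

/-- A finite part followed by a perfect part. -/
theorem world_G1 {c d q : X} (hc : (Pa T ∩ Iio c).Finite) (hq : q ∈ Pa T ∩ Ico c d)
    (hp : ∀ f ∈ Pa T ∩ Ico c d, PerP T f) {p : LPt T}
    (h : (Pa T ∩ Iio c).encard ≤ (Iio p).encard) : (Iio p).encard = ⊤ := by
  by_cases dp : Dx p
  · exact dp.Iio_top
  have ip := in_z hT h0 p
  have h1 : c ≤ z p.1.1 := not_lt.1 fun h1 => (Iio_lt hT h0 hc ip dp h1).not_ge h
  have h2 : d ≤ z p.1.1 := not_lt.1 fun h2 => dp (ip.dx (hp _ ⟨ip.pa, h1, h2⟩))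
  obtain ⟨x, hx⟩ := exists_in hq.1 (Or.inr (hp q hq))
  have h3 : x < p := hx.lt_pt ip (Or.inr dp) (hq.2.2.trans_le h2)
  exact top_le_iff.1 ((hx.dx (hp q hq)).Iio_top.ge.trans (Set.encard_le_encard (Iio_subset_Iio h3.le)))

/-- A finite part, a perfect part, and a tail of type `ω`. -/
theorem world_G2 {c d : X} (hc : (Pa T ∩ Iio c).Finite) (hp : ∀ f ∈ Pa T ∩ Ico c d, PerP T f)
    (ht : ∀ f ∈ Pa T, d ≤ f → f = top ∨ (IsoP T f ∧ (Pa T ∩ Icc d f).Finite))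
    (hn : ¬ IsoP T top) {y w p : LPt T} (hyw : y ⋖ w) (hyp : y < p)
    (h : (Pa T ∩ Iio c).encard ≤ (Iio y).encard) : (Ioo y p).encard ≠ ⊤ := by
  have dy := (covBy_not_dx hyw).1
  have iy := in_z hT h0 y
  have ip := in_z hT h0 p
  have h1 : c ≤ z y.1.1 := not_lt.1 fun h1 => (Iio_lt hT h0 hc iy dy h1).not_ge h
  have h2 : d ≤ z y.1.1 := not_lt.1 fun h2 => dy (iy.dx (hp _ ⟨iy.pa, h1, h2⟩))
  have h3 : ∀ f, In p f → d ≤ f := fun f hf => h2.trans (iy.lt_path hf (Or.inl dy) hyp).le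
  have dp : ¬ Dx p := fun hd => hd.inf hT h0 ((Set.finite_singleton top).subset fun f hf =>
    (ht f (In.pa hf) (h3 f hf)).resolve_right fun h4 => (In.per hf hd).not_iso (In.pa hf) h4.1)
  obtain ⟨-, h4⟩ := (ht _ ip.pa (h3 _ ip)).resolve_left fun e => hn (e ▸ ip.iso dp)
  exact ((encard_pts hT h0 h4 fun v hv g hg => ⟨h2.trans (iy.lt_path hg (Or.inl dy) hv.1).le,
    (hg.lt_path ip (Or.inr dp) hv.2).le⟩).trans_lt h4.encard_lt_top).ne

end zero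

end Pool.Agent.Lib.MP_d69888_lc.Yes
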