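import Pool.Agent.Lib.MP_d69888_lc.YTree
import Pool.Agent.Lib.MP_d69888_lc.Cnt

/-!
The construction of one region tree: definitions and computability.
-/

namespace Pool.Agent.Lib.MP_d69888_lc.Yes

open Pool.Agent.Shared.Type2 Encodable Set

def ltS (σ τ : List Bool) : Bool :=
  (List.range τ.length).any fun i => !σ.getD i false && τ.getD i false &&
    (List.range i).all fun j => σ.getD j false == τ.getD j false

theorem ltS_iff {σ τ : List Bool} : ltS σ τ = true ↔ z σ < z τ := by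
  rw [X.lt_iff]
  simp only [ltS, List.any_eq_true, List.mem_range, Bool.and_eq_true, Bool.not_eq_true',
    List.all_eq_true, beq_iff_eq]
  constructor
  · rintro ⟨i, -, ⟨h1, h2⟩, h3⟩
    exact ⟨i, h3, h1, h2⟩
  · rintro ⟨i, h3, h1, h2⟩
    refine ⟨i, ?_, ⟨h1, h2⟩, h3⟩
    by_contra hi
    rw [z_ge τ (by omega)] at h2
    exact absurd h2 (by simp)

def inI (c d σ : List Bool) : Bool := !ltS σ c && ltS σ d

theorem inI_iff {c d σ : List Bool} : inI c d σ = true ↔ z σ ∈ Ico (z c) (z d) := by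
  simp only [inI, Bool.and_eq_true, Bool.not_eq_true', ltS_iff, mem_Ico, ← not_lt]
  rw [← ltS_iff (σ := σ) (τ := c)]
  simp

def cntL (Λ : List (List Bool)) (c d : List Bool) : ℕ :=
  Λ.foldr (fun σ k => cond (inI c d σ) (k + 1) k) 0

theorem cntL_lev (sp : ℕ → List Bool → Bool) (s : ℕ) (c d : List Bool) :
    cntL (Lev sp s) c d = num sp s (Ico (z c) (z d)) := by
  unfold cntL num
  induction Lev sp s with
  | nil => rfl
  | cons σ l ih =>
    rw [List.foldr_cons, ih, List.countP_cons]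
    by_cases h : inI c d σ = true
    · simp [h, inI_iff.1 h]
    · have h1 := mt inI_iff.2 h
      simp only [Bool.not_eq_true] at h
      simp only [h, h1]
      simp

theorem Ico_nil (c : X) : Ico (z []) c = Iio c := by
  ext f; simp [z_nil_le]

/-- The first member of `l` with `φ`, or `d`. -/
def fst1 (φ : ℕ → Bool) (n d : ℕ) : ℕ := (List.range n).foldr (fun k a => cond (φ k) k a) d

theorem fst1_spec (φ : ℕ → Bool) (n d : ℕ) :
    (fst1 φ n d < n ∧ φ (fst1 φ n d) = true ∧ ∀ k, k < fst1 φ n d → φ k = false) ∨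
      (fst1 φ n d = d ∧ ∀ k, k < n → φ k = false) := by
  induction n generalizing d with
  | zero => exact Or.inr ⟨rfl, fun k hk => absurd hk (Nat.not_lt_zero _)⟩
  | succ n ih =>
    have e : fst1 φ (n + 1) d = fst1 φ n (cond (φ n) n d) := by
      simp [fst1, List.range_succ]
    rw [e]
    rcases ih (cond (φ n) n d) with ⟨h1, h2, h3⟩ | ⟨h1, h2⟩
    · exact Or.inl ⟨by omega, h2, h3⟩
    · rw [h1]
      cases h : φ n
      · refine Or.inr ⟨rfl, fun k hk => ?_⟩
        rcases Nat.lt_succ_iff_lt_or_eq.1 hk with h3 | rfl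
        · exact h2 k h3
        · exact h
      · exact Or.inl ⟨by simp, h, h2⟩

theorem fst1_le {φ : ℕ → Bool} {n d k : ℕ} (hk : k < n) (h : φ k = true) :
    φ (fst1 φ n d) = true ∧ fst1 φ n d ≤ k := by
  rcases fst1_spec φ n d with ⟨-, h2, h3⟩ | ⟨-, h2⟩
  · exact ⟨h2, not_lt.1 fun h4 => by rw [h3 k h4] at h; exact absurd h (by simp)⟩
  · rw [h2 k hk] at h; exact absurd h (by simp)

/-- State of a node: base, code of three points, two cuts, task, witness. -/
abbrev NS : Type := ℕ × ℕ × List Bool × List Bool × ℕ × ℕ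

/-- An action: base, two cuts, and whether the tail is densified. -/
abbrev Act : Type := ℕ × List Bool × List Bool × Bool

def olt (o : B) (i a b s : ℕ) : Bool :=
  decide (ap o (Nat.pair 1 (Nat.pair i (Nat.pair a (Nat.pair b s)))) = 1)

def lft (o : B) (i t s : ℕ) : ℕ := cnt (fun w => olt o i w t s) s

def btw (o : B) (i x y s : ℕ) : ℕ := cnt (fun w => olt o i x w s && olt o i w y s) s

def ct (c : ℕ) : ℕ := c.unpair.1
def cy (c : ℕ) : ℕ := c.unpair.2.unpair.1
def cw (c : ℕ) : ℕ := c.unpair.2.unpair.2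

def valid (o : B) (i s : ℕ) (Λ : List (List Bool)) (b c : ℕ) : Bool :=
  decide (b + 4 ≤ s) && olt o i (ct c) (cy c) s && olt o i (cy c) (cw c) s &&
    decide (cntL Λ [] (one b) ≤ lft o i (ct c) s) &&
    decide (cntL Λ (one (b + 1)) (one (b + 4)) ≤ btw o i (ct c) (cy c) s + 2) &&
    decide (btw o i (cy c) (cw c) s = 0)

def tu (j : ℕ) : List Bool := (decode j.unpair.1.unpair.1 : Option (List Bool)).getD []
def tv (j : ℕ) : List Bool := (decode j.unpair.1.unpair.2 : Option (List Bool)).getD []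

def live (s : ℕ) (Λ : List (List Bool)) (l r : List Bool) (j : ℕ) : Bool :=
  decide ((tu j).length ≤ s) && decide ((tv j).length ≤ s) && decide (0 < cntL Λ l (tu j)) &&
    decide (0 < cntL Λ (tu j) (tv j)) && decide (0 < cntL Λ (tv j) r)

def sb (st : NS) : ℕ := st.1
def sc (st : NS) : ℕ := st.2.1
def sl (st : NS) : List Bool := st.2.2.1
def sr (st : NS) : List Bool := st.2.2.2.1
def sj (st : NS) : ℕ := st.2.2.2.2.1
def sw (st : NS) : ℕ := st.2.2.2.2.2

def md (o : B) (i s : ℕ) (Λ : List (List Bool)) (st : NS) : ℕ :=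
  cond (valid o i s Λ (sb st) (sc st))
    (cond (live s Λ (sl st) (sr st) (sj st))
      (if cntL Λ [] (tu (sj st)) ≤ lft o i (ct (sc st)) s then 2
      else if cntL Λ (tv (sj st)) (one (sb st + 4)) ≤ btw o i (ct (sc st)) (cy (sc st)) s + 2 then 3
      else if 2 * cntL Λ [] (tu (sj st)) ≤ btw o i (cy (sc st)) (sw st) s then 4 else 5) 1) 0

def nl (m : ℕ) (st : NS) : List Bool :=
  if m = 0 then one (sb st) else if m = 2 then tu (sj st) else sl st

def nr (m : ℕ) (st : NS) : List Bool :=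
  if m = 0 then one (sb st + 1) else if m = 3 then tv (sj st) else sr st

def nc (o : B) (i s : ℕ) (Λ : List (List Bool)) (m : ℕ) (st : NS) : ℕ :=
  if m = 0 then fst1 (fun c => valid o i s Λ (sb st) c) s 0 else sc st

def nw (o : B) (i s : ℕ) (Λ : List (List Bool)) (st : NS) : ℕ :=
  if cntL Λ [] (tu (sj st)) ≤ btw o i (cy (sc st)) (sw st) s then sw st
  else fst1 (fun p => decide (cntL Λ [] (tu (sj st)) ≤ btw o i (cy (sc st)) p s)) s 0

def nxt (o : B) (i s : ℕ) (Λ : List (List Bool)) (m : ℕ) (st : NS) : NS :=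
  (sb st, nc o i s Λ m st, nl m st, nr m st, if m ≤ 3 then sj st + 1 else sj st, nw o i s Λ st)

def actn (m : ℕ) (st : NS) : Act :=
  (sb st, if m ≤ 3 then nl m st else if m = 4 then sl st else tu (sj st),
    if m ≤ 3 then nr m st else tv (sj st), decide (m ≤ 3))

def ini (s : ℕ) : NS := (4 * s + 4, 0, one (4 * s + 4), one (4 * s + 4 + 1), 0, 0)

def spA (s : ℕ) (a : Act) (σ : List Bool) : Bool :=
  σ == one s || inI (one a.1) (one (a.1 + 1)) σ && inI a.2.1 a.2.2.1 σ ||
    a.2.2.2 && !ltS σ (one (a.1 + 4))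

/-- The node that acts. -/
def who (o : B) (s : ℕ) (ns : List NS) : ℕ := fst1 (fun k => fire o k s) ns.length ns.length

def cur (o : B) (s : ℕ) (ns : List NS) : NS := ns.getD (who o s ns) (ini s)

def gact (o : B) (s : ℕ) (g : List (List Bool) × List NS) : Act :=
  if who o s g.2 < g.2.length then actn (md o (who o s g.2) s g.1 (cur o s g.2)) (cur o s g.2)
  else (4 * s + 4, [], [], false)

def gnew (o : B) (s : ℕ) (g : List (List Bool) × List NS) : NS :=
  if who o s g.2 < g.2.length then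
    nxt o (who o s g.2) s g.1 (md o (who o s g.2) s g.1 (cur o s g.2)) (cur o s g.2)
  else ini s

def gstep (o : B) (s : ℕ) (g : List (List Bool) × List NS) : List (List Bool) × List NS :=
  (g.1.flatMap fun σ => cond (spA s (gact o s g) σ) [σ ++ [false], σ ++ [true]] [σ ++ [false]],
    g.2.take (who o s g.2) ++ [gnew o s g])

def G (o : B) (s : ℕ) : List (List Bool) × List NS := nrec s ([[]], []) (gstep o)

/-- The splitting rule. -/
def spo (o : B) (s : ℕ) : List Bool → Bool := spA s (gact o s (G o s))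

theorem G_lev (o : B) (s : ℕ) : (G o s).1 = Lev (spo o) s := by
  induction s with
  | zero => rfl
  | succ s ih =>
    change (gstep o s (G o s)).1 = _
    rw [Lev, ← ih]
    rfl

def memW (o : B) (σ : List Bool) : Bool := (G o σ.length).1.any fun τ => τ == σ

theorem memW_iff {o : B} {σ : List Bool} : memW o σ = true ↔ σ ∈ Tr (spo o) := by
  simp [memW, G_lev, Tr]

section td

variable {Y : Type} [Rep Y]

@[fun_prop] theorem ltS_td {σ τ : Y → List Bool} (h1 : TD σ) (h2 : TD τ) :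
    TD fun x => ltS (σ x) (τ x) := by unfold ltS; fun_prop
@[fun_prop] theorem inI_td {c d σ : Y → List Bool} (h1 : TD c) (h2 : TD d) (h3 : TD σ) :
    TD fun x => inI (c x) (d x) (σ x) := by unfold inI; fun_prop
@[fun_prop] theorem cntL_td {Λ : Y → List (List Bool)} {c d : Y → List Bool} (h1 : TD Λ)
    (h2 : TD c) (h3 : TD d) : TD fun x => cntL (Λ x) (c x) (d x) := by unfold cntL; fun_prop
theorem fst1_td {φ : Y → ℕ → Bool} {n d : Y → ℕ} (h1 : TD fun y : Y × ℕ => φ y.1 y.2)
    (h2 : TD n) (h3 : TD d) : TD fun x => fst1 (φ x) (n x) (d x) := by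
  have h4 : TD fun y : Y × ℕ × ℕ => φ y.1 y.2.1 :=
    h1.comp' (f := fun y : Y × ℕ × ℕ => (y.1, y.2.1)) (by fun_prop)
  exact TD.foldr (h := fun x k a => cond (φ x k) k a) h2.range h3
    (h4.cond' (by fun_prop) (by fun_prop))
@[fun_prop] theorem one_td {n : Y → ℕ} (h : TD n) : TD fun x => one (n x) := by
  unfold one; fun_prop
@[fun_prop] theorem fire_td' {o : Y → B} {i s : Y → ℕ} (h1 : TD o) (h2 : TD i) (h3 : TD s) :
    TD fun x => fire (o x) (i x) (s x) := by unfold fire; fun_prop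
@[fun_prop] theorem olt_td {o : Y → B} {i a b s : Y → ℕ} (h1 : TD o) (h2 : TD i) (h3 : TD a)
    (h4 : TD b) (h5 : TD s) : TD fun x => olt (o x) (i x) (a x) (b x) (s x) := by
  unfold olt; fun_prop
@[fun_prop] theorem lft_td {o : Y → B} {i a s : Y → ℕ} (h1 : TD o) (h2 : TD i) (h3 : TD a)
    (h5 : TD s) : TD fun x => lft (o x) (i x) (a x) (s x) :=
  cnt_td (φ := fun x w => olt (o x) (i x) w (a x) (s x)) (by fun_prop) h5
@[fun_prop] theorem btw_td {o : Y → B} {i a b s : Y → ℕ} (h1 : TD o) (h2 : TD i) (h3 : TD a)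
    (h4 : TD b) (h5 : TD s) : TD fun x => btw (o x) (i x) (a x) (b x) (s x) :=
  cnt_td (φ := fun x w => olt (o x) (i x) (a x) w (s x) && olt (o x) (i x) w (b x) (s x))
    (by fun_prop) h5
@[fun_prop] theorem ct_td {c : Y → ℕ} (h : TD c) : TD fun x => ct (c x) := by unfold ct; fun_prop
@[fun_prop] theorem cy_td {c : Y → ℕ} (h : TD c) : TD fun x => cy (c x) := by unfold cy; fun_prop
@[fun_prop] theorem cw_td {c : Y → ℕ} (h : TD c) : TD fun x => cw (c x) := by unfold cw; fun_prop
@[fun_prop] theorem valid_td {o : Y → B} {i s b c : Y → ℕ} {Λ : Y → List (List Bool)} (h1 : TD o)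
    (h2 : TD i) (h3 : TD s) (h4 : TD Λ) (h5 : TD b) (h6 : TD c) :
    TD fun x => valid (o x) (i x) (s x) (Λ x) (b x) (c x) := by unfold valid; fun_prop
@[fun_prop] theorem tu_td {c : Y → ℕ} (h : TD c) : TD fun x => tu (c x) :=
  (TD.decode' (by fun_prop)).getD' (TD.const [])
@[fun_prop] theorem tv_td {c : Y → ℕ} (h : TD c) : TD fun x => tv (c x) :=
  (TD.decode' (by fun_prop)).getD' (TD.const [])
@[fun_prop] theorem live_td {s j : Y → ℕ} {Λ : Y → List (List Bool)} {l r : Y → List Bool}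
    (h1 : TD s) (h2 : TD Λ) (h3 : TD l) (h4 : TD r) (h5 : TD j) :
    TD fun x => live (s x) (Λ x) (l x) (r x) (j x) := by unfold live; fun_prop
@[fun_prop] theorem sb_td {c : Y → NS} (h : TD c) : TD fun x => sb (c x) := by unfold sb; fun_prop
@[fun_prop] theorem sc_td {c : Y → NS} (h : TD c) : TD fun x => sc (c x) := by unfold sc; fun_prop
@[fun_prop] theorem sl_td {c : Y → NS} (h : TD c) : TD fun x => sl (c x) := by unfold sl; fun_prop
@[fun_prop] theorem sr_td {c : Y → NS} (h : TD c) : TD fun x => sr (c x) := by unfold sr; fun_prop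
@[fun_prop] theorem sj_td {c : Y → NS} (h : TD c) : TD fun x => sj (c x) := by unfold sj; fun_prop
@[fun_prop] theorem sw_td {c : Y → NS} (h : TD c) : TD fun x => sw (c x) := by unfold sw; fun_prop
@[fun_prop] theorem md_td {o : Y → B} {i s : Y → ℕ} {Λ : Y → List (List Bool)} {st : Y → NS}
    (h1 : TD o) (h2 : TD i) (h3 : TD s) (h4 : TD Λ) (h5 : TD st) :
    TD fun x => md (o x) (i x) (s x) (Λ x) (st x) := by unfold md; fun_prop
@[fun_prop] theorem nl_td {m : Y → ℕ} {st : Y → NS} (h1 : TD m) (h2 : TD st) :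
    TD fun x => nl (m x) (st x) := by unfold nl; fun_prop
@[fun_prop] theorem nr_td {m : Y → ℕ} {st : Y → NS} (h1 : TD m) (h2 : TD st) :
    TD fun x => nr (m x) (st x) := by unfold nr; fun_prop
@[fun_prop] theorem nc_td {o : Y → B} {i s m : Y → ℕ} {Λ : Y → List (List Bool)} {st : Y → NS}
    (h1 : TD o) (h2 : TD i) (h3 : TD s) (h4 : TD Λ) (h6 : TD m) (h5 : TD st) :
    TD fun x => nc (o x) (i x) (s x) (Λ x) (m x) (st x) :=
  TD.ite' (by fun_prop)
    (fst1_td (φ := fun x c => valid (o x) (i x) (s x) (Λ x) (sb (st x)) c) (by fun_prop) h3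
      (TD.const 0)) (by fun_prop)
@[fun_prop] theorem nw_td {o : Y → B} {i s : Y → ℕ} {Λ : Y → List (List Bool)} {st : Y → NS}
    (h1 : TD o) (h2 : TD i) (h3 : TD s) (h4 : TD Λ) (h5 : TD st) :
    TD fun x => nw (o x) (i x) (s x) (Λ x) (st x) :=
  TD.ite' (by fun_prop) (by fun_prop)
    (fst1_td (φ := fun x p => decide (cntL (Λ x) [] (tu (sj (st x))) ≤
      btw (o x) (i x) (cy (sc (st x))) p (s x))) (by fun_prop) h3 (TD.const 0))
@[fun_prop] theorem nxt_td {o : Y → B} {i s m : Y → ℕ} {Λ : Y → List (List Bool)} {st : Y → NS}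
    (h1 : TD o) (h2 : TD i) (h3 : TD s) (h4 : TD Λ) (h6 : TD m) (h5 : TD st) :
    TD fun x => nxt (o x) (i x) (s x) (Λ x) (m x) (st x) := by unfold nxt; fun_prop
@[fun_prop] theorem actn_td {m : Y → ℕ} {st : Y → NS} (h1 : TD m) (h2 : TD st) :
    TD fun x => actn (m x) (st x) := by unfold actn; fun_prop
@[fun_prop] theorem ini_td {m : Y → ℕ} (h1 : TD m) : TD fun x => ini (m x) := by
  unfold ini; fun_prop
@[fun_prop] theorem spA_td {s : Y → ℕ} {a : Y → Act} {σ : Y → List Bool} (h1 : TD s) (h2 : TD a)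
    (h3 : TD σ) : TD fun x => spA (s x) (a x) (σ x) := by unfold spA; fun_prop
@[fun_prop] theorem who_td {o : Y → B} {s : Y → ℕ} {ns : Y → List NS} (h1 : TD o) (h2 : TD s)
    (h3 : TD ns) : TD fun x => who (o x) (s x) (ns x) :=
  fst1_td (φ := fun x k => fire (o x) k (s x)) (by fun_prop) h3.length h3.length
@[fun_prop] theorem cur_td {o : Y → B} {s : Y → ℕ} {ns : Y → List NS} (h1 : TD o) (h2 : TD s)
    (h3 : TD ns) : TD fun x => cur (o x) (s x) (ns x) := by unfold cur; fun_prop
@[fun_prop] theorem gact_td {o : Y → B} {s : Y → ℕ} {g : Y → List (List Bool) × List NS}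
    (h1 : TD o) (h2 : TD s) (h3 : TD g) : TD fun x => gact (o x) (s x) (g x) := by
  unfold gact; fun_prop
@[fun_prop] theorem gnew_td {o : Y → B} {s : Y → ℕ} {g : Y → List (List Bool) × List NS}
    (h1 : TD o) (h2 : TD s) (h3 : TD g) : TD fun x => gnew (o x) (s x) (g x) := by
  unfold gnew; fun_prop
@[fun_prop] theorem gstep_td {o : Y → B} {s : Y → ℕ} {g : Y → List (List Bool) × List NS}
    (h1 : TD o) (h2 : TD s) (h3 : TD g) : TD fun x => gstep (o x) (s x) (g x) := by
  unfold gstep; fun_prop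
@[fun_prop] theorem G_td {o : Y → B} {s : Y → ℕ} (h1 : TD o) (h2 : TD s) :
    TD fun x => G (o x) (s x) :=
  TD.nrec' (h := fun x => gstep (o x)) h2 (TD.const _) (by fun_prop)
@[fun_prop] theorem memW_td {o : Y → B} {σ : Y → List Bool} (h1 : TD o) (h2 : TD σ) :
    TD fun x => memW (o x) (σ x) := by unfold memW; fun_prop

end td

end Pool.Agent.Lib.MP_d69888_lc.Yes
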