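import Pool.Agent.Lib.MP_d69888_lc.YTree
import Pool.Agent.Shared.Type2.Disc

/-!
The only sequence passing a computable test at every length is computable.
-/

namespace Pool.Agent.Lib.MP_d69888_lc.Yes

open Pool.Agent.Shared.Type2

def okL (ok : List Bool → Bool) (m : ℕ) : List (List Bool) :=
  nrec m [[]] fun _ l => l.flatMap fun σ =>
    cond (ok (σ ++ [false])) [σ ++ [false]] [] ++ cond (ok (σ ++ [true])) [σ ++ [true]] []

theorem okL_succ {ok : List Bool → Bool} {m : ℕ} {τ : List Bool} : τ ∈ okL ok (m + 1) ↔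
    ∃ σ b, σ ∈ okL ok m ∧ ok (σ ++ [b]) = true ∧ τ = σ ++ [b] := by
  change τ ∈ (okL ok m).flatMap _ ↔ _
  simp only [List.mem_flatMap, List.mem_append]
  constructor
  · rintro ⟨σ, h1, h2 | h2⟩
    · cases h : ok (σ ++ [false]) <;> rw [h] at h2 <;> simp at h2
      exact ⟨σ, false, h1, h, h2⟩
    · cases h : ok (σ ++ [true]) <;> rw [h] at h2 <;> simp at h2
      exact ⟨σ, true, h1, h, h2⟩
  · rintro ⟨σ, b, h1, h2, rfl⟩
    refine ⟨σ, h1, ?_⟩
    cases b <;> simp [h2]

theorem okL_length {ok : List Bool → Bool} {m : ℕ} {τ : List Bool} (h : τ ∈ okL ok m) :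
    τ.length = m := by
  induction m generalizing τ with
  | zero => simp [okL] at h; simp [h]
  | succ m ih =>
    obtain ⟨σ, b, h1, -, rfl⟩ := okL_succ.1 h
    simp [ih h1]

theorem okL_seg {ok : List Bool → Bool} {g : ℕ → Bool} {m : ℕ} :
    seg g (m + 1) ∈ okL ok (m + 1) ↔ seg g m ∈ okL ok m ∧ ok (seg g (m + 1)) = true := by
  rw [okL_succ, seg_succ]
  constructor
  · rintro ⟨σ, b, h1, h2, h3⟩
    obtain ⟨rfl, h4⟩ := List.append_inj' h3 rfl
    exact ⟨h1, by rwa [h4]⟩
  · exact fun h => ⟨_, _, h.1, h.2, rfl⟩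

theorem comp_single {ok : List Bool → Bool} (hok : Computable ok) {f : ℕ → Bool}
    (hf : ∀ n, ok (seg f n) = true)
    (hu : ∀ g : ℕ → Bool, (∀ n, ok (seg g n) = true) → g = f) : Computable f := by
  have h1 : ∀ m, seg f m ∈ okL ok m := fun m => by
    induction m with
    | zero => simp [okL]
    | succ m ih => exact okL_seg.2 ⟨ih, hf _⟩
  have h2 : ∀ k, ∃ m, k < m ∧ ∀ σ ∈ okL ok m, σ.getD k false = f k := by
    intro k
    by_contra hc
    push Not at hc
    let C : ℕ → Set (ℕ → Bool) := fun n => {g | seg g (k + 1 + n) ∈ okL ok (k + 1 + n) ∧ g k ≠ f k}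
    have c1 : ∀ n, IsClosed (C n) := fun n => by
      rw [← isOpen_compl_iff, isOpen_iff_mem_nhds]
      intro g hg
      refine Filter.mem_of_superset (cyl_nhds g (k + 1 + n)) fun g' h3 h4 => hg ?_
      have h5 : seg g' (k + 1 + n) = seg g (k + 1 + n) := h3
      exact ⟨h5 ▸ h4.1, seg_eq_iff.1 h5 k (by omega) ▸ h4.2⟩
    obtain ⟨g, hg⟩ := IsCompact.nonempty_iInter_of_sequence_nonempty_isCompact_isClosed C
      (fun n g hg => ⟨(okL_seg.1 hg.1).1, hg.2⟩) (fun n => by
        obtain ⟨σ, h3, h4⟩ := hc (k + 1 + n) (by omega)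
        refine ⟨ext0 σ, ?_, h4⟩
        have := seg_ext0 σ
        rw [okL_length h3] at this
        rwa [this]) (c1 0).isCompact c1
    rw [Set.mem_iInter] at hg
    have h3 : ∀ n d, seg g (n + d) ∈ okL ok (n + d) → seg g n ∈ okL ok n := fun n d => by
      induction d with
      | zero => exact id
      | succ d ih => exact fun h => ih (okL_seg.1 h).1
    refine (hg 0).2 (congrFun (hu g fun n => ?_) k)
    cases n with
    | zero => exact hf 0
    | succ n =>
      refine (okL_seg.1 (h3 (n + 1) k ?_)).2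
      rw [show n + 1 + k = k + 1 + n by omega]
      exact (hg n).1
  have tok : TD ok := TD.of_computable hok
  obtain ⟨A, tA, hA⟩ : ∃ A : ℕ → List (List Bool), TD A ∧ ∀ m, A m = okL ok m :=
    ⟨okL ok, by unfold okL; fun_prop, fun _ => rfl⟩
  let c : ℕ → ℕ → Bool := fun k m => decide (k < m) &&
    (A m).all fun σ => σ.getD k false == ((A m).getD 0 []).getD k false
  have tc : TD fun p : ℕ × ℕ => c p.1 p.2 := by unfold c; fun_prop
  have hmem : ∀ m, (A m).getD 0 [] ∈ okL ok m := fun m => by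
    rw [hA]
    have := List.ne_nil_of_mem (h1 m)
    cases h : okL ok m with
    | nil => exact absurd h this
    | cons a l => simp
  have hc : ∀ k, ∃ m, c k m = true := fun k => by
    obtain ⟨m, h3, h4⟩ := h2 k
    refine ⟨m, ?_⟩
    simp only [c, Bool.and_eq_true, decide_eq_true_eq, List.all_eq_true, beq_iff_eq]
    exact ⟨h3, fun σ hσ => by rw [h4 σ (hA m ▸ hσ), h4 _ (hmem m)]⟩
  have t1 := TD.find' tc hc
  have t2 : TD fun k : ℕ => ((A (Nat.find (hc k))).getD 0 []).getD k false :=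
    TD.lgetD TD.id' (TD.lgetD (TD.const 0) (tA.comp' t1) (TD.const [])) (TD.const false)
  refine t2.computable.of_eq fun k => ?_
  have h3 := Nat.find_spec (hc k)
  generalize Nat.find (hc k) = m at h3 ⊢
  simp only [c, Bool.and_eq_true, decide_eq_true_eq, List.all_eq_true, beq_iff_eq] at h3
  rw [← h3.2 _ (hA _ ▸ h1 _), seg_getD f h3.1]

end Pool.Agent.Lib.MP_d69888_lc.Yes
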