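import Pool.Agent.Lib.MP_d69888_lc.YEnv
import Pool.Agent.Lib.MP_d69888_lc.YOrd
import Pool.Agent.Lib.MP_d69888_lc.YSing

/-!
The possible outcomes of the construction of a region tree.
-/

namespace Pool.Agent.Lib.MP_d69888_lc.Yes

open Pool.Agent.Shared.Type2 Set

section worlds

variable {sp : ℕ → List Bool → Bool} (h1 : ∀ s, sp s (one s) = true)
include h1

theorem block_of {s k : ℕ} {S : Set X} (hF : Fr sp s S) (hD : Det s S) (hc : S.OrdConnected)
    (hk : Ico (z (one k)) (z (one (k + 3))) ⊆ S) : Block (Tr sp) S :=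
  ⟨hc, hF.finite hD, fun _ hf => hF.iso hD hf.1 hf.2, three_le h1 hk⟩

theorem block_Iio {s : ℕ} {c : List Bool} (hF : Fr sp s (Iio (z c))) (hD : c.length ≤ s)
    (hc : z (one 3) ≤ z c) : Block (Tr sp) (Iio (z c)) :=
  block_of h1 (k := 0) hF (det_Iio hD) ordConnected_Iio fun _ hf => hf.2.trans_le hc

theorem good_of
    (cls : ∀ f ∈ Pa (Tr sp), (∃ S, Block (Tr sp) S ∧ f ∈ S) ∨ PerP (Tr sp) f ∨
      (¬ IsoP (Tr sp) f ∧ Computable f))
    {c : X} (hc : Block (Tr sp) (Iio c))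
    {m : ℕ} (tl : ∀ n, m ≤ n → IsoP (Tr sp) (z (one n)) ∨ PerP (Tr sp) (z (one n))) :
    Good (Tr sp) := by
  refine ⟨cls, ?_, fun f _ hi => ?_⟩
  · obtain ⟨a, ha, -⟩ := exists_three hc.three
    exact hc.iso _ ⟨z_pa tr_tree.root, (z_nil_le a).trans_lt ha.2⟩
  · obtain ⟨k, hk⟩ := lt_one_of_ne (f := f) fun e => top_not_iso h1 (e ▸ hi)
    exact ⟨_, one_pa h1 (k + m), hk _ (by omega), tl _ (by omega)⟩

/-- From `d` on, the order type is `ω`. -/
def Om (sp : ℕ → List Bool → Bool) (d : List Bool) : Prop :=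
  ∀ n, ∃ s, d.length ≤ s ∧ n ≤ s ∧ Fr sp s (Ico (z d) (z (one n)))

theorem Om.cls {d : List Bool} (h : Om sp d) {k : ℕ} (hk : z d ≤ z (one k)) (f : X) :
    f = top ∨ ∃ n, Block (Tr sp) (Ico (z d) (z (one n))) ∧ f < z (one n) := by
  by_cases e : f = top
  · exact Or.inl e
  obtain ⟨m, hm⟩ := lt_one_of_ne e
  obtain ⟨s, h2, h3, h4⟩ := h (m + k + 3)
  exact Or.inr ⟨_, block_of h1 (k := k) h4 (det_Ico h2 (by simpa using h3)) ordConnected_Ico
    fun _ hg => ⟨hk.trans hg.1, hg.2.trans_le (z_one_le (by omega))⟩, hm _ (by omega)⟩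

theorem good_G {c d : List Bool} {k : ℕ} (hc : Block (Tr sp) (Iio (z c)))
    (hp : ∀ f ∈ Ico (z c) (z d), PerP (Tr sp) f) (ht : Om sp d) (hk : z d ≤ z (one k)) :
    Good (Tr sp) := by
  refine good_of h1 (fun f _ => ?_) hc (m := k) fun n hn => ?_
  · rcases lt_or_ge f (z c) with h2 | h2
    · exact Or.inl ⟨_, hc, h2⟩
    rcases lt_or_ge f (z d) with h3 | h3
    · exact Or.inr (Or.inl (hp f ⟨h2, h3⟩))
    rcases ht.cls h1 hk f with rfl | ⟨n, h4, h5⟩
    · exact Or.inr (Or.inr ⟨top_not_iso h1, Computable.const true⟩)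
    · exact Or.inl ⟨_, h4, h3, h5⟩
  · have h3 := hk.trans (z_one_le hn)
    rcases ht.cls h1 hk (z (one n)) with e | ⟨n', h4, h5⟩
    · have := congrFun e n
      simp [z_one, top] at this
    · exact Or.inl (h4.iso _ ⟨one_pa h1 n, h3, h5⟩)

theorem good_T {l r : ℕ → X} {E : ℕ} (hl : ∀ s, Block (Tr sp) (Iio (l s)))
    (hr : ∀ s, Block (Tr sp) (Ico (r s) (z (one E))))
    (hE : ∀ f, z (one E) ≤ f → PerP (Tr sp) f)
    (hZ : ∀ f ∈ Pa (Tr sp), (∀ s, f ∈ Ico (l s) (r s)) → PerP (Tr sp) f ∨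
      (¬ IsoP (Tr sp) f ∧ Computable f)) : Good (Tr sp) := by
  refine good_of h1 (fun f hf => ?_) (hl 0) (m := E) fun n hn => Or.inr (hE _ (z_one_le hn))
  rcases lt_or_ge f (z (one E)) with h2 | h2
  swap
  · exact Or.inr (Or.inl (hE f h2))
  by_cases h3 : ∀ s, f ∈ Ico (l s) (r s)
  · exact Or.inr (hZ f hf h3)
  push Not at h3
  obtain ⟨s, h3⟩ := h3
  rcases lt_or_ge f (l s) with h4 | h4
  · exact Or.inl ⟨_, hl s, h4⟩
  · exact Or.inl ⟨_, hr s, not_lt.1 fun h5 => h3 ⟨h4, h5⟩, h2⟩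

end worlds

section modes

variable {o : B} {i s : ℕ} {Λ : List (List Bool)} {st : NS}

theorem md_spec (o : B) (i s : ℕ) (Λ : List (List Bool)) (st : NS) :
    md o i s Λ st ≤ 5 ∧ (md o i s Λ st = 0 ↔ valid o i s Λ (sb st) (sc st) = false) ∧
    (md o i s Λ st = 1 → live s Λ (sl st) (sr st) (sj st) = false) ∧
    (2 ≤ md o i s Λ st → live s Λ (sl st) (sr st) (sj st) = true) ∧
    (md o i s Λ st = 2 → cntL Λ [] (tu (sj st)) ≤ lft o i (ct (sc st)) s) ∧
    (md o i s Λ st = 3 →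
      cntL Λ (tv (sj st)) (one (sb st + 4)) ≤ btw o i (ct (sc st)) (cy (sc st)) s + 2) ∧
    (4 ≤ md o i s Λ st → lft o i (ct (sc st)) s < cntL Λ [] (tu (sj st)) ∧
      btw o i (ct (sc st)) (cy (sc st)) s + 2 < cntL Λ (tv (sj st)) (one (sb st + 4))) ∧
    (md o i s Λ st = 4 → 2 * cntL Λ [] (tu (sj st)) ≤ btw o i (cy (sc st)) (sw st) s) ∧
    (md o i s Λ st = 5 → btw o i (cy (sc st)) (sw st) s < 2 * cntL Λ [] (tu (sj st))) := by
  unfold md
  cases valid o i s Λ (sb st) (sc st) <;> cases live s Λ (sl st) (sr st) (sj st) <;>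
    simp only [cond_true, cond_false] <;> (try split_ifs) <;> simp <;> omega

theorem live_spec {sp : ℕ → List Bool → Bool} {l r : List Bool} {j : ℕ} :
    live s (Lev sp s) l r j = true ↔ (tu j).length ≤ s ∧ (tv j).length ≤ s ∧
      (∃ σ ∈ Lev sp s, z σ ∈ Ico (z l) (z (tu j))) ∧
      (∃ σ ∈ Lev sp s, z σ ∈ Ico (z (tu j)) (z (tv j))) ∧
      ∃ σ ∈ Lev sp s, z σ ∈ Ico (z (tv j)) (z r) := by
  simp only [live, Bool.and_eq_true, decide_eq_true_eq, cntL_lev, num_pos, and_assoc]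

theorem valid_spec {sp : ℕ → List Bool → Bool} {b c : ℕ} :
    valid o i s (Lev sp s) b c = true ↔ b + 4 ≤ s ∧ olt o i (ct c) (cy c) s = true ∧
      olt o i (cy c) (cw c) s = true ∧ num sp s (Iio (z (one b))) ≤ lft o i (ct c) s ∧
      num sp s (Ico (z (one (b + 1))) (z (one (b + 4)))) ≤ btw o i (ct c) (cy c) s + 2 ∧
      btw o i (cy c) (cw c) s = 0 := by
  simp only [valid, Bool.and_eq_true, decide_eq_true_eq, cntL_lev, Ico_nil, and_assoc]

end modes

variable {o : B} {i r : ℕ}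

def nL (o : B) (i s : ℕ) : List Bool := sl (nst o i s)
def nR (o : B) (i s : ℕ) : List Bool := sr (nst o i s)
def nJ (o : B) (i s : ℕ) : ℕ := sj (nst o i s)
def nC (o : B) (i s : ℕ) : ℕ := sc (nst o i s)
def nW (o : B) (i s : ℕ) : ℕ := sw (nst o i s)
def aL (o : B) (i s : ℕ) : List Bool := (actn (nmd o i s) (nst o i s)).2.1
def aR (o : B) (i s : ℕ) : List Bool := (actn (nmd o i s) (nst o i s)).2.2.1

namespace Env

variable (E : Env o i r)
include E

theorem base {s : ℕ} (hs : r < s) : sb (nst o i s) = 4 * r + 4 := by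
  induction s, hs using Nat.le_induction with
  | base => rw [E.init]; rfl
  | succ s hs ih =>
    cases h : fire o i s
    · rw [(E.idle s hs h).1, ih]
    · rw [(E.fire1 s hs h).1]; exact ih

theorem spo_fire {s : ℕ} (hs : r < s) (hf : fire o i s = true) {σ : List Bool} :
    spo o s σ = true ↔ σ = one s ∨
      (z σ ∈ Ico (z (one (4 * r + 4))) (z (one (4 * r + 4 + 1))) ∧
        z σ ∈ Ico (z (aL o i s)) (z (aR o i s))) ∨
      (nmd o i s ≤ 3 ∧ z (one (4 * r + 4 + 4)) ≤ z σ) := by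
  change spA s (act o s) σ = true ↔ _
  rw [(E.fire1 s hs hf).2, spA_iff, ← E.base hs]
  simp only [actn, decide_eq_true_eq, aL, aR]

theorem spo_idle {s : ℕ} (hs : r < s) (hf : fire o i s = false) {σ : List Bool}
    (h : spo o s σ = true) {q : ℕ} (hq : q < s) (hq' : q = r ∨ (r < q ∧ fire o i q = true)) :
    σ = one s ∨ z (one (4 * q + 8)) ≤ z σ :=
  (spA_base (a := act o s) h).imp_right fun h2 =>
    (z_one_le ((E.idle s hs hf).2 q hq hq')).trans h2

theorem nosp {s : ℕ} {S : Set X} (h0 : 4 * r + 8 ≤ s) (hS : S ⊆ Iio (z (one (4 * r + 8))))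
    (h : fire o i s = true → ∀ f ∈ S, f ∈ Ico (z (one (4 * r + 4))) (z (one (4 * r + 4 + 1))) →
      f ∉ Ico (z (aL o i s)) (z (aR o i s))) {σ : List Bool} (hσ : z σ ∈ S) :
    spo o s σ = false := by
  by_contra hc
  have hc : spo o s σ = true := by simpa using hc
  have h2 : z σ < z (one (4 * r + 8)) := hS hσ
  have h3 : σ ≠ one s := fun e => by
    rw [e] at h2; exact h2.not_ge (z_one_le (by omega))
  cases hf : fire o i s
  · exact h2.not_ge ((E.spo_idle (by omega) hf hc (by omega) (Or.inl rfl)).resolve_left h3)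
  · rcases (E.spo_fire (by omega) hf).1 hc with h4 | h4 | h4
    · exact h3 h4
    · exact h hf _ hσ h4.1 h4.2
    · exact h2.not_ge h4.2

theorem fr {s₀ : ℕ} {S : Set X} (h0 : 4 * r + 8 ≤ s₀) (hS : S ⊆ Iio (z (one (4 * r + 8))))
    (h : ∀ s, s₀ ≤ s → fire o i s = true → ∀ f ∈ S,
      f ∈ Ico (z (one (4 * r + 4))) (z (one (4 * r + 4 + 1))) →
      f ∉ Ico (z (aL o i s)) (z (aR o i s))) : Fr (spo o) s₀ S :=
  fun s hs _ _ hσ => E.nosp (h0.trans hs) hS (h s hs) hσ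

theorem fr_pre : Fr (spo o) (4 * r + 8) (Iio (z (one (4 * r + 4)))) :=
  E.fr le_rfl (fun _ hf => lt_trans hf (z_one_lt (by omega))) fun _ _ _ _ hf h2 _ =>
    not_le.2 hf h2.1

theorem fr_Y : Fr (spo o) (4 * r + 8) (Ico (z (one (4 * r + 4 + 1))) (z (one (4 * r + 4 + 4)))) :=
  E.fr le_rfl (fun _ hf => hf.2) fun _ _ _ _ hf h2 _ => not_le.2 h2.2 hf.1

theorem dn_tail (h : ∀ s₀, ∃ s, s₀ ≤ s ∧ fire o i s = true ∧ nmd o i s ≤ 3) {f : X}
    (hf : z (one (4 * r + 4 + 4)) ≤ f) : PerP (Tr (spo o)) f := by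
  refine Dn.per (S := Ici (z (one (4 * r + 4 + 4)))) (fun s₀ => ?_) (det_Ici le_rfl) hf
  obtain ⟨s, h1, h2, h3⟩ := h (s₀ + r + 1)
  exact ⟨s, by omega, fun σ _ hσ => (E.spo_fire (by omega) h2).2 (Or.inr (Or.inr ⟨h3, hσ⟩))⟩

theorem dn_mid {c d : List Bool} (hc : z (one (4 * r + 4)) ≤ z c)
    (hd : z d ≤ z (one (4 * r + 4 + 1)))
    (h : ∀ s₀, ∃ s, s₀ ≤ s ∧ fire o i s = true ∧ z (aL o i s) ≤ z c ∧ z d ≤ z (aR o i s))
    {f : X} (hf : f ∈ Ico (z c) (z d)) : PerP (Tr (spo o)) f := by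
  refine Dn.per (S := Ico (z c) (z d)) (m := c.length + d.length) (fun s₀ => ?_)
    (det_Ico (by omega) (by omega)) hf
  obtain ⟨s, h1, h2, h3, h4⟩ := h (s₀ + r + 1)
  exact ⟨s, by omega, fun σ _ hσ => (E.spo_fire (by omega) h2).2 (Or.inr (Or.inl
    ⟨⟨hc.trans hσ.1, hσ.2.trans_le hd⟩, h3.trans hσ.1, hσ.2.trans_le h4⟩))⟩

theorem om (hF : InfFire o i) {d : List Bool} {s₀ : ℕ}
    (h : ∀ s, s₀ ≤ s → fire o i s = true → 4 ≤ nmd o i s ∧ z (aR o i s) ≤ z d) : Om (spo o) d := by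
  intro n
  obtain ⟨q, h1, h2⟩ := hF (n + r + 1 + s₀ + d.length)
  refine ⟨q + 1, by omega, by omega, fun s hs σ _ hσ => ?_⟩
  by_contra hc
  have hc : spo o s σ = true := by simpa using hc
  have h3 : σ ≠ one s := fun e => by
    have := hσ.2
    rw [e] at this; exact this.not_ge (z_one_le (by omega))
  cases hf : fire o i s
  · exact hσ.2.not_ge ((z_one_le (by omega)).trans
      ((E.spo_idle (by omega) hf hc (by omega : q < s) (Or.inr ⟨by omega, h2⟩)).resolve_left h3))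
  · obtain ⟨h4, h5⟩ := h s (by omega) hf
    rcases (E.spo_fire (by omega) hf).1 hc with h6 | h6 | h6
    · exact h3 h6
    · exact (h6.2.2.trans_le h5).not_ge hσ.1
    · omega

theorem reset {s : ℕ} (hs : r < s) (hf : fire o i s = true) (h : nmd o i s = 0) :
    aL o i s = one (4 * r + 4) ∧ aR o i s = one (4 * r + 4 + 1) ∧
    nL o i (s + 1) = one (4 * r + 4) ∧ nR o i (s + 1) = one (4 * r + 4 + 1) ∧
    nC o i (s + 1) = fst1 (fun c => valid o i s (Lev (spo o) s) (4 * r + 4) c) s 0 := by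
  unfold nL nR nC aL aR
  rw [(E.fire1 s hs hf).1, h, ← E.base hs]
  simp [actn, nxt, nl, nr, nc, sl, sr, sc]

theorem code_eq {s : ℕ} (hs : r < s) (h : fire o i s = true → nmd o i s ≠ 0) :
    nC o i (s + 1) = nC o i s := by
  unfold nC
  cases hf : fire o i s
  · rw [(E.idle s hs hf).1]
  · rw [(E.fire1 s hs hf).1]
    simp [nxt, nc, sc, h hf]

theorem blockY : Block (Tr (spo o)) (Ico (z (one (4 * r + 4 + 1))) (z (one (4 * r + 4 + 4)))) :=
  block_of (spo_one o) (k := 4 * r + 4 + 1) E.fr_Y (det_Ico (by simp) (by simp)) ordConnected_Ico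
    Subset.rfl

theorem per_F (h : ∀ s₀, ∃ s, s₀ ≤ s ∧ fire o i s = true ∧ nmd o i s = 0) {f : X}
    (hf : f ∈ Ico (z (one (4 * r + 4))) (z (one (4 * r + 4 + 1)))) : PerP (Tr (spo o)) f := by
  refine E.dn_mid le_rfl le_rfl (fun s₀ => ?_) hf
  obtain ⟨s, h1, h2, h3⟩ := h (s₀ + r + 1)
  obtain ⟨h4, h5, -⟩ := E.reset (by omega) h2 h3
  exact ⟨s, by omega, h2, by rw [h4], by rw [h5]⟩

theorem good_F (h : ∀ s₀, ∃ s, s₀ ≤ s ∧ fire o i s = true ∧ nmd o i s = 0) :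
    Good (Tr (spo o)) :=
  good_T (spo_one o) (l := fun _ => z (one (4 * r + 4))) (r := fun _ => z (one (4 * r + 4 + 1)))
    (fun _ => block_Iio (spo_one o) E.fr_pre (by simp) (z_one_le (by omega))) (fun _ => E.blockY)
    (fun _ => E.dn_tail fun s₀ => let ⟨s, h1, h2, h3⟩ := h s₀; ⟨s, h1, h2, by omega⟩)
    fun _ _ hf => Or.inl (E.per_F h (hf 0))

end Env

theorem good_quiet (h : ∀ k, ¬ InfFire o k) : Good (Tr (spo o)) := by
  have key : ∀ n, ∃ s, n ≤ s ∧ Fr (spo o) s (Iio (z (one n))) := fun n => by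
    obtain ⟨s₀, h1⟩ := quiet h n
    refine ⟨s₀ + n, by omega, fun s hs σ _ hσ => ?_⟩
    by_contra hc
    have hc : spo o s σ = true := by simpa using hc
    rcases spA_base (a := act o s) hc with rfl | h2
    · exact not_le.2 hσ (z_one_le (by omega))
    · exact not_le.2 hσ ((z_one_le (h1 s (by omega))).trans h2)
  obtain ⟨s, h1, h2⟩ := key 3
  refine good_G (spo_one o) (c := one 3) (d := one 3) (k := 3)
    (block_Iio (spo_one o) h2 (by simpa using h1) le_rfl) (fun f hf => by simp at hf)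
    (fun n => ?_) le_rfl
  obtain ⟨t, h3, h4⟩ := key n
  exact ⟨t + 3, by simp, by omega, fun u hu σ h5 h6 => h4 u (by omega) σ h5 h6.2⟩

/-- The run after the last reset. -/
structure Run (o : B) (i r s₁ : ℕ) : Prop where
  env : Env o i r
  inf : InfFire o i
  le : 4 * r + 8 ≤ s₁
  l0 : nL o i s₁ = one (4 * r + 4)
  r0 : nR o i s₁ = one (4 * r + 4 + 1)
  ne : ∀ s, s₁ ≤ s → fire o i s = true → nmd o i s ≠ 0

theorem Env.run (E : Env o i r) (hF : InfFire o i)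
    (h : ¬ ∀ s₀, ∃ s, s₀ ≤ s ∧ fire o i s = true ∧ nmd o i s = 0) : ∃ s₁, Run o i r s₁ := by
  classical
  push Not at h
  obtain ⟨s₀, h⟩ := h
  let P : ℕ → Prop := fun q => q = r ∨ (r < q ∧ fire o i q = true ∧ nmd o i q = 0)
  let q := Nat.findGreatest P (s₀ + r)
  have hq : P q := Nat.findGreatest_spec (P := P) (m := r) (by omega) (Or.inl rfl)
  have hrq : r ≤ q := by rcases hq with h1 | h1 <;> omega
  have h1 : ∀ s, q < s → fire o i s = true → nmd o i s ≠ 0 := fun s hs hf h2 => by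
    by_cases h3 : s ≤ s₀ + r
    · exact Nat.findGreatest_is_greatest (P := P) hs h3 (Or.inr ⟨by omega, hf, h2⟩)
    · exact h s (by omega) hf h2
  have h2 : nL o i (q + 1) = one (4 * r + 4) ∧ nR o i (q + 1) = one (4 * r + 4 + 1) := by
    rcases hq with e | ⟨a, b, c⟩
    · rw [e]; unfold nL nR; rw [E.init]; exact ⟨rfl, rfl⟩
    · exact ⟨(E.reset a b c).2.2.1, (E.reset a b c).2.2.2.1⟩
  have h3 : ∀ s, q + 1 ≤ s → s ≤ 4 * r + 8 → nst o i s = nst o i (q + 1) := fun s hs hs' => by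
    induction s, hs using Nat.le_induction with
    | base => rfl
    | succ s hs ih =>
      rw [← ih (by omega)]
      refine (E.idle s (by omega) ?_).1
      by_contra hf
      have hf : fire o i s = true := by simpa using hf
      have h4 := mt (md_spec o i s (Lev (spo o) s) (nst o i s)).2.1.2 (h1 s hs hf)
      have h5 := (valid_spec.1 (by simpa using h4)).1
      rw [E.base (by omega)] at h5
      omega
  by_cases h4 : 4 * r + 8 ≤ q + 1
  · exact ⟨q + 1, E, hF, h4, h2.1, h2.2, h1⟩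
  · refine ⟨4 * r + 8, E, hF, le_rfl, ?_, ?_, fun s hs => h1 s (by omega)⟩
    · unfold nL; rw [h3 _ (by omega) le_rfl]; exact h2.1
    · unfold nR; rw [h3 _ (by omega) le_rfl]; exact h2.2

end Pool.Agent.Lib.MP_d69888_lc.Yes
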