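import Pool.Agent.Lib.MP_d69888_lc.YRun

/-!
The run after the last reset.
-/

namespace Pool.Agent.Lib.MP_d69888_lc.Yes

open Pool.Agent.Shared.Type2 Set Encodable

theorem Fr.anti {sp : ℕ → List Bool → Bool} {s : ℕ} {S U : Set X} (h : Fr sp s S) (hU : U ⊆ S) :
    Fr sp s U := fun t ht σ h1 h2 => h t ht σ h1 (hU h2)

namespace Run

variable {o : B} {i r s₁ : ℕ} (R : Run o i r s₁)
include R

theorem lt {s : ℕ} (hs : s₁ ≤ s) : r < s := by have := R.le; omega

theorem code {s : ℕ} (hs : s₁ ≤ s) : nC o i s = nC o i s₁ := by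
  induction s, hs using Nat.le_induction with
  | base => rfl
  | succ s hs ih => rw [R.env.code_eq (R.lt hs) (R.ne s hs), ih]

theorem idle {s : ℕ} (hs : s₁ ≤ s) (hf : fire o i s = false) : nst o i (s + 1) = nst o i s :=
  (R.env.idle s (R.lt hs) hf).1

theorem valid' {s : ℕ} (hs : s₁ ≤ s) (hf : fire o i s = true) :
    valid o i s (Lev (spo o) s) (4 * r + 4) (nC o i s₁) = true := by
  have h4 := mt (md_spec o i s (Lev (spo o) s) (nst o i s)).2.1.2 (R.ne s hs hf)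
  rw [R.env.base (R.lt hs), show sc (nst o i s) = nC o i s₁ from R.code hs] at h4
  simpa using h4

theorem step {s : ℕ} (hs : s₁ ≤ s) (hf : fire o i s = true) :
    nL o i (s + 1) = (if nmd o i s = 2 then tu (nJ o i s) else nL o i s) ∧
    nR o i (s + 1) = (if nmd o i s = 3 then tv (nJ o i s) else nR o i s) ∧
    nJ o i (s + 1) = (if nmd o i s ≤ 3 then nJ o i s + 1 else nJ o i s) ∧
    nW o i (s + 1) = nw o i s (Lev (spo o) s) (nst o i s) ∧
    aL o i s = (if nmd o i s ≤ 3 then nL o i (s + 1) else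
      if nmd o i s = 4 then nL o i s else tu (nJ o i s)) ∧
    aR o i s = (if nmd o i s ≤ 3 then nR o i (s + 1) else tv (nJ o i s)) := by
  have h := R.ne s hs hf
  unfold nL nR nJ nW aL aR
  rw [(R.env.fire1 s (R.lt hs) hf).1]
  simp [actn, nxt, nl, nr, sl, sr, sj, sw, h]

omit R in
theorem live' {s : ℕ} (h : 2 ≤ nmd o i s) :
    (tu (nJ o i s)).length ≤ s ∧ (tv (nJ o i s)).length ≤ s ∧
      (∃ σ ∈ Lev (spo o) s, z σ ∈ Ico (z (nL o i s)) (z (tu (nJ o i s)))) ∧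
      (∃ σ ∈ Lev (spo o) s, z σ ∈ Ico (z (tu (nJ o i s))) (z (tv (nJ o i s)))) ∧
      ∃ σ ∈ Lev (spo o) s, z σ ∈ Ico (z (tv (nJ o i s))) (z (nR o i s)) :=
  live_spec.1 ((md_spec o i s (Lev (spo o) s) (nst o i s)).2.2.2.1 h)

omit R in
theorem live_lt {s : ℕ} (h : 2 ≤ nmd o i s) : z (nL o i s) < z (tu (nJ o i s)) ∧
    z (tu (nJ o i s)) < z (tv (nJ o i s)) ∧ z (tv (nJ o i s)) < z (nR o i s) := by
  obtain ⟨-, -, ⟨_, -, a⟩, ⟨_, -, b⟩, ⟨_, -, c⟩⟩ := live' h
  exact ⟨a.1.trans_lt a.2, b.1.trans_lt b.2, c.1.trans_lt c.2⟩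

theorem step_le {s : ℕ} (hs : s₁ ≤ s) : z (nL o i s) ≤ z (nL o i (s + 1)) ∧
    z (nR o i (s + 1)) ≤ z (nR o i s) ∧ ((nL o i s).length ≤ s → (nL o i (s + 1)).length ≤ s) ∧
    ((nR o i s).length ≤ s → (nR o i (s + 1)).length ≤ s) := by
  cases hf : fire o i s
  · unfold nL nR; rw [R.idle hs hf]; exact ⟨le_rfl, le_rfl, id, id⟩
  · obtain ⟨h1, h2, -⟩ := R.step hs hf
    rw [h1, h2]
    refine ⟨?_, ?_, fun h => ?_, fun h => ?_⟩ <;> split_ifs with h3
    · exact (live_lt (by omega)).1.le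
    · exact le_rfl
    · exact (live_lt (by omega)).2.2.le
    · exact le_rfl
    · exact (live' (by omega)).1
    · exact h
    · exact (live' (by omega)).2.1
    · exact h

theorem mono {s t : ℕ} (hs : s₁ ≤ s) (ht : s ≤ t) :
    z (nL o i s) ≤ z (nL o i t) ∧ z (nR o i t) ≤ z (nR o i s) := by
  induction t, ht using Nat.le_induction with
  | base => exact ⟨le_rfl, le_rfl⟩
  | succ t ht ih =>
    have := R.step_le (hs.trans ht)
    exact ⟨ih.1.trans this.1, this.2.1.trans ih.2⟩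

theorem len {s : ℕ} (hs : s₁ ≤ s) : (nL o i s).length ≤ s ∧ (nR o i s).length ≤ s := by
  induction s, hs using Nat.le_induction with
  | base => have := R.le; rw [R.l0, R.r0]; simp; omega
  | succ s hs ih =>
    have := R.step_le hs
    exact ⟨(this.2.2.1 ih.1).trans (by omega), (this.2.2.2 ih.2).trans (by omega)⟩

theorem bnd {s : ℕ} (hs : s₁ ≤ s) :
    z (one (4 * r + 4)) ≤ z (nL o i s) ∧ z (nR o i s) ≤ z (one (4 * r + 4 + 1)) := by
  have := R.mono le_rfl hs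
  rwa [R.l0, R.r0] at this

theorem act_sub {s : ℕ} (hs : s₁ ≤ s) (hf : fire o i s = true) :
    z (nL o i (s + 1)) ≤ z (aL o i s) ∧ z (aR o i s) ≤ z (nR o i (s + 1)) := by
  obtain ⟨h1, h2, -, -, h3, h4⟩ := R.step hs hf
  rw [h3, h4]
  by_cases h : nmd o i s ≤ 3
  · simp [h]
  · rw [if_neg h, if_neg h, h1, h2, if_neg (by omega), if_neg (by omega : ¬ nmd o i s = 3)]
    have h5 := live_lt (o := o) (i := i) (s := s) (by omega)
    refine ⟨?_, h5.2.2.le⟩
    split_ifs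
    · exact le_rfl
    · exact h5.1.le

theorem frL {s : ℕ} (hs : s₁ ≤ s) :
    Fr (spo o) s (Iio (z (nL o i (s + 1))) ∩ Iio (z (one (4 * r + 8)))) :=
  R.env.fr (R.le.trans hs) inter_subset_right fun t ht hf _ h1 _ h2 =>
    not_le.2 h1.1 (((R.mono (by omega) (by omega)).1.trans (R.act_sub (hs.trans ht) hf).1).trans h2.1)

theorem frR {s : ℕ} (hs : s₁ ≤ s) :
    Fr (spo o) s (Ico (z (nR o i (s + 1))) (z (one (4 * r + 4 + 4)))) :=
  R.env.fr (R.le.trans hs) (fun _ h => h.2) fun t ht hf _ h1 _ h2 =>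
    not_le.2 h2.2 (((R.act_sub (hs.trans ht) hf).2.trans (R.mono (by omega) (by omega)).2).trans h1.1)

theorem lr {s : ℕ} (hs : s₁ ≤ s) : z (nL o i s) < z (nR o i s) := by
  induction s, hs using Nat.le_induction with
  | base => rw [R.l0, R.r0]; exact z_one_lt (by omega)
  | succ s hs ih =>
    cases hf : fire o i s
    · unfold nL nR; rw [R.idle hs hf]; exact ih
    · obtain ⟨h1, h2, -⟩ := R.step hs hf
      rw [h1, h2]
      split_ifs with h3 h4 h4
      · omega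
      · have := live_lt (o := o) (i := i) (s := s) (by omega); exact this.2.1.trans this.2.2
      · have := live_lt (o := o) (i := i) (s := s) (by omega); exact this.1.trans this.2.1
      · exact ih

theorem frL' {s : ℕ} (hs : s₁ ≤ s) : Fr (spo o) s (Iio (z (nL o i (s + 1)))) :=
  (R.frL hs).anti fun _ h => ⟨h, lt_trans h ((R.lr (by omega)).trans
    ((R.bnd (by omega)).2.trans_lt (z_one_lt (by omega))))⟩

theorem blockL {s : ℕ} (hs : s₁ ≤ s) : Block (Tr (spo o)) (Iio (z (nL o i s))) :=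
  block_Iio (spo_one o) ((R.frL' hs).anti (Iio_subset_Iio (R.step_le hs).1)) (R.len hs).1
    ((z_one_le (by omega)).trans (R.bnd hs).1)

theorem blockR {s : ℕ} (hs : s₁ ≤ s) :
    Block (Tr (spo o)) (Ico (z (nR o i s)) (z (one (4 * r + 4 + 4)))) :=
  block_of (spo_one o) (k := 4 * r + 4 + 1)
    ((R.frR hs).anti (Ico_subset_Ico_left (R.step_le hs).2.1))
    (det_Ico (R.len hs).2 (by have := R.le; simp; omega)) ordConnected_Ico
    (Ico_subset_Ico_left (R.bnd hs).2)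

theorem invL {s : ℕ} (hs : s₁ ≤ s) : ∃ t, (Pa (Tr (spo o)) ∩ Iio (z (nL o i s))).encard ≤
    lft o i (ct (nC o i s₁)) t := by
  induction s, hs using Nat.le_induction with
  | base =>
    obtain ⟨t, h1, h2⟩ := R.inf s₁
    have h3 := (valid_spec.1 (R.valid' h1 h2)).2.2.2.1
    have := R.le
    rw [R.l0]
    exact ⟨t, ((R.env.fr_pre.mono (t := t) (by omega)).encard_le (det_Iio (by simp; omega))).trans
      (by exact_mod_cast h3)⟩
  | succ s hs ih =>
    cases hf : fire o i s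
    · unfold nL at ih ⊢; rwa [R.idle hs hf]
    · have h1 := (R.step hs hf).1
      by_cases h : nmd o i s = 2
      · refine ⟨s, ((R.frL' hs).encard_le (det_Iio ((R.step_le hs).2.2.1 (R.len hs).1))).trans ?_⟩
        have h2 := (md_spec o i s (Lev (spo o) s) (nst o i s)).2.2.2.2.1 h
        rw [cntL_lev, Ico_nil, show sc (nst o i s) = nC o i s₁ from R.code hs] at h2
        rw [h1, if_pos h]
        exact_mod_cast h2
      · rwa [h1, if_neg h]

theorem invR {s : ℕ} (hs : s₁ ≤ s) :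
    ∃ t, (Pa (Tr (spo o)) ∩ Ico (z (nR o i s)) (z (one (4 * r + 4 + 4)))).encard ≤
      (btw o i (ct (nC o i s₁)) (cy (nC o i s₁)) t + 2 : ℕ) := by
  have := R.le
  induction s, hs using Nat.le_induction with
  | base =>
    obtain ⟨t, h1, h2⟩ := R.inf s₁
    have h3 := (valid_spec.1 (R.valid' h1 h2)).2.2.2.2.1
    rw [R.r0]
    exact ⟨t, ((R.env.fr_Y.mono (t := t) (by omega)).encard_le
      (det_Ico (by simp; omega) (by simp; omega))).trans (by exact_mod_cast h3)⟩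
  | succ s hs ih =>
    cases hf : fire o i s
    · unfold nR at ih ⊢; rwa [R.idle hs hf]
    · have h1 := (R.step hs hf).2.1
      by_cases h : nmd o i s = 3
      · refine ⟨s, ((R.frR hs).encard_le (det_Ico ((R.step_le hs).2.2.2 (R.len hs).2)
          (by simp; omega))).trans ?_⟩
        have h2 := (md_spec o i s (Lev (spo o) s) (nst o i s)).2.2.2.2.2.1 h
        rw [cntL_lev, show sc (nst o i s) = nC o i s₁ from R.code hs, R.env.base (R.lt hs)] at h2
        rw [h1, if_pos h]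
        exact_mod_cast h2
      · rwa [h1, if_neg h]

omit R in
/-- The paths that stay in the zone. -/
def Zn (o : B) (i s₁ : ℕ) : Set X :=
  {f | f ∈ Pa (Tr (spo o)) ∧ ∀ s, s₁ ≤ s → f ∈ Ico (z (nL o i s)) (z (nR o i s))}

section H

variable (hH : ∀ s₀, ∃ s, s₀ ≤ s ∧ fire o i s = true ∧ nmd o i s ≤ 3)
include hH

theorem hit {s n : ℕ} (hs : s₁ ≤ s) (hn : nJ o i s ≤ n) :
    ∃ t, s ≤ t ∧ fire o i t = true ∧ nmd o i t ≤ 3 ∧ nJ o i t = n := by
  classical
  have key : ∀ s, s₁ ≤ s → ∃ t, s ≤ t ∧ fire o i t = true ∧ nmd o i t ≤ 3 ∧ nJ o i t = nJ o i s := by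
    intro s hs
    have h1 := Nat.find_spec (hH s)
    refine ⟨_, h1.1, h1.2.1, h1.2.2, ?_⟩
    have h2 : ∀ t, s ≤ t → t ≤ Nat.find (hH s) → nJ o i t = nJ o i s := fun t ht ht' => by
      induction t, ht using Nat.le_induction with
      | base => rfl
      | succ t ht ih =>
        rw [← ih (by omega)]
        cases hf : fire o i t
        · unfold nJ; rw [R.idle (by omega) hf]
        · rw [(R.step (by omega) hf).2.2.1, if_neg fun h => Nat.find_min (hH s) ht' ⟨ht, hf, h⟩]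
    exact h2 _ h1.1 le_rfl
  induction n, hn using Nat.le_induction with
  | base => exact key s hs
  | succ n hn ih =>
    obtain ⟨t, h1, h2, h3, h4⟩ := ih
    obtain ⟨u, h5, h6, h7, h8⟩ := key (t + 1) (by omega)
    exact ⟨u, by omega, h6, h7, by rw [h8, (R.step (by omega) h2).2.2.1, if_pos h3, h4]⟩

theorem zn_not_iso {f : X} (hf : f ∈ Zn o i s₁) : ¬ IsoP (Tr (spo o)) f := by
  refine not_iso_of (inf_split hf.1 fun t => ?_)
  obtain ⟨s, h1, h2, h3⟩ := hH (t + s₁)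
  have hs : s₁ ≤ s := by omega
  have h4 := (det_Ico ((R.step_le hs).2.2.1 (R.len hs).1)
    ((R.step_le hs).2.2.2 (R.len hs).2)).z_seg le_rfl f |>.2 (hf.2 (s + 1) (by omega))
  obtain ⟨-, -, -, -, h5, h6⟩ := R.step hs h2
  refine ⟨s, by omega, (R.env.spo_fire (R.lt hs) h2).2 (Or.inr (Or.inl ⟨?_, ?_⟩))⟩
  · exact ⟨(R.bnd (by omega)).1.trans h4.1, h4.2.trans_le (R.bnd (by omega)).2⟩
  · rwa [h5, h6, if_pos h3, if_pos h3]

theorem zn_finite : (Zn o i s₁).Finite := by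
  by_contra hc
  obtain ⟨a, ha, b, hb, c, hc, hab, hbc⟩ := exists_three (A := Zn o i s₁)
    (by rw [Set.Infinite.encard_eq hc]; exact le_top)
  obtain ⟨m, hm⟩ := lt_z_seg hab
  obtain ⟨m', hm'⟩ := lt_z_seg hbc
  obtain ⟨s, h1, h2, h3, h4⟩ := R.hit hH (s := s₁ + (m + m')) (by omega)
    (Nat.right_le_pair (Nat.pair (encode (seg b (m + m'))) (encode (seg c (m + m')))) _)
  have hu : tu (nJ o i s) = seg b (m + m') := by simp [h4, tu]
  have hv : tv (nJ o i s) = seg c (m + m') := by simp [h4, tv]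
  have hs : s₁ ≤ s := by omega
  have ha' := hm (m + m') (by omega)
  have hb' := hm' (m + m') (by omega)
  obtain ⟨h5, h6, -⟩ := R.step hs h2
  have h7 := R.ne s hs h2
  have h8 : nmd o i s = 1 := by
    by_contra h8
    by_cases h9 : nmd o i s = 2
    · have := (ha.2 (s + 1) (by omega)).1
      rw [h5, if_pos h9, hu] at this
      exact this.not_gt ha'
    · have := (hc.2 (s + 1) (by omega)).2
      rw [h6, if_pos (by omega), hv] at this
      exact this.not_ge (z_seg_le _ _)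
  have h9 := (md_spec o i s (Lev (spo o) s) (nst o i s)).2.2.1 h8
  have l1 : (seg b (m + m')).length ≤ s := by simp; omega
  have l2 : (seg c (m + m')).length ≤ s := by simp; omega
  refine absurd (live_spec.2 ?_) (by rw [h9]; simp)
  change (tu (nJ o i s)).length ≤ s ∧ (tv (nJ o i s)).length ≤ s ∧
    (∃ σ ∈ _, z σ ∈ Ico (z (nL o i s)) (z (tu (nJ o i s)))) ∧
    (∃ σ ∈ _, z σ ∈ Ico (z (tu (nJ o i s))) (z (tv (nJ o i s)))) ∧
    ∃ σ ∈ _, z σ ∈ Ico (z (tv (nJ o i s))) (z (nR o i s))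
  rw [hu, hv]
  exact ⟨l1, l2, ⟨_, pa_lev ha.1 s, ((det_Ico (R.len hs).1 l1).z_seg le_rfl a).2 ⟨(ha.2 s hs).1, ha'⟩⟩,
    ⟨_, pa_lev hb.1 s, ((det_Ico l1 l2).z_seg le_rfl b).2 ⟨z_seg_le _ _, hb'⟩⟩,
    ⟨_, pa_lev hc.1 s, ((det_Ico l2 (R.len hs).2).z_seg le_rfl c).2 ⟨z_seg_le _ _, (hc.2 s hs).2⟩⟩⟩

theorem zn_comp (ho : Computable o) {f : X} (hf : f ∈ Zn o i s₁) : Computable f := by
  obtain ⟨n, hn⟩ : ∃ n, ∀ g ∈ Zn o i s₁, seg g n = seg f n → g = f := by
    have h1 : ∀ g : X, ∃ n, seg g n = seg f n → g = f := fun g => by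
      by_cases h : g = f
      · exact ⟨0, fun _ => h⟩
      · obtain ⟨k, hk⟩ := Function.ne_iff.1 h
        exact ⟨k + 1, fun e => absurd (seg_eq_iff.1 e k (by omega)) hk⟩
    choose N hN using h1
    obtain ⟨n, hn⟩ := ((R.zn_finite hH).image N).bddAbove
    exact ⟨n, fun g hg e => hN g (seg_le e (hn ⟨g, hg, rfl⟩))⟩
  have t0 : TD fun _ : List Bool => o :=
    TD.lam' (F := fun _ n => o n) ((TD.of_computable ho).comp' (TD.snd TD.id'))
  have t1 : TD fun σ : List Bool => nst o i σ.length := nst_td t0 (TD.const i) (by fun_prop)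
  have t2 : TD fun σ : List Bool => memW o σ &&
      (decide (σ.length < s₁) || inI (sl (nst o i σ.length)) (sr (nst o i σ.length)) σ) &&
      (decide (σ.length ≠ n) || σ == seg f n) := by fun_prop
  refine comp_single t2.computable (fun k => ?_) fun g hg => ?_
  · simp only [Bool.and_eq_true, Bool.or_eq_true, decide_eq_true_eq, memW_iff, inI_iff, seg_length,
      beq_iff_eq]
    refine ⟨⟨hf.1 k, ?_⟩, ?_⟩
    · refine (lt_or_ge k s₁).imp_right fun hk => ?_
      exact ((det_Ico (R.len hk).1 (R.len hk).2).z_seg le_rfl f).2 (hf.2 k hk)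
    · exact (ne_or_eq k n).imp_right fun e => by rw [e]
  · simp only [Bool.and_eq_true, Bool.or_eq_true, decide_eq_true_eq, memW_iff, inI_iff, seg_length,
      beq_iff_eq] at hg
    refine hn g ⟨fun k => (hg k).1.1, fun k hk => ?_⟩ ((hg n).2.resolve_left (by simp))
    exact ((det_Ico (R.len hk).1 (R.len hk).2).z_seg le_rfl g).1 ((hg k).1.2.resolve_left (by omega))

theorem good_H (ho : Computable o) : Good (Tr (spo o)) :=
  good_T (spo_one o) (l := fun s => z (nL o i (s₁ + s))) (r := fun s => z (nR o i (s₁ + s)))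
    (fun _ => R.blockL (by omega)) (fun _ => R.blockR (by omega)) (fun _ => R.env.dn_tail hH)
    fun f hf h => by
      have h1 : f ∈ Zn o i s₁ := ⟨hf, fun s hs => by
        have := h (s - s₁)
        rwa [show s₁ + (s - s₁) = s by omega] at this⟩
      exact Or.inr ⟨R.zn_not_iso hH h1, R.zn_comp hH ho h1⟩

end H

end Run

/-- A run stuck at one task. -/
structure Stuck (o : B) (i r s₂ : ℕ) (l u v : List Bool) (c : ℕ) : Prop where
  env : Env o i r
  inf : InfFire o i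
  le : 4 * r + 8 ≤ s₂
  bl : z (one (4 * r + 4)) ≤ z l
  lu : z l < z u
  uv : z u < z v
  bv : z v ≤ z (one (4 * r + 4 + 1))
  lenu : u.length ≤ s₂
  lenv : v.length ≤ s₂
  blk : Block (Tr (spo o)) (Iio (z l))
  mid : ∃ q, q ∈ Pa (Tr (spo o)) ∩ Ico (z u) (z v)
  inv : ∃ t, (Pa (Tr (spo o)) ∩ Iio (z l)).encard ≤ lft o i (ct c) t
  val : ∀ s, s₂ ≤ s → fire o i s = true → valid o i s (Lev (spo o) s) (4 * r + 4) c = true
  md : ∀ s, s₂ ≤ s → fire o i s = true → 4 ≤ nmd o i s ∧ aR o i s = v ∧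
    aL o i s = (if nmd o i s = 4 then l else u) ∧ nC o i s = c ∧ tu (nJ o i s) = u ∧
    tv (nJ o i s) = v ∧ nW o i (s + 1) = nw o i s (Lev (spo o) s) (nst o i s) ∧
    ∃ σ ∈ Lev (spo o) s, z σ ∈ Ico (z l) (z u)

theorem Run.stuck {o : B} {i r s₁ : ℕ} (R : Run o i r s₁)
    (h : ¬ ∀ s₀, ∃ s, s₀ ≤ s ∧ fire o i s = true ∧ nmd o i s ≤ 3) :
    ∃ s₂ l u v c, Stuck o i r s₂ l u v c := by
  push Not at h
  obtain ⟨s₀, h⟩ := h
  obtain ⟨s₂, h1, h2⟩ := R.inf (s₀ + s₁)
  have hs : s₁ ≤ s₂ := by omega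
  have h3 : ∀ s, s₂ ≤ s → nL o i s = nL o i s₂ ∧ nJ o i s = nJ o i s₂ := fun s hs => by
    induction s, hs using Nat.le_induction with
    | base => exact ⟨rfl, rfl⟩
    | succ s hs ih =>
      rw [← ih.1, ← ih.2]
      cases hf : fire o i s
      · unfold nL nJ; rw [R.idle (by omega) hf]; exact ⟨rfl, rfl⟩
      · have := h s (by omega) hf
        obtain ⟨a, -, b, -⟩ := R.step (by omega) hf
        rw [a, b, if_neg (by omega), if_neg (by omega)]
        exact ⟨rfl, rfl⟩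
  have h4 := h s₂ (by omega) h2
  have h5 := Run.live' (o := o) (i := i) (s := s₂) (by omega)
  have h6 := Run.live_lt (o := o) (i := i) (s := s₂) (by omega)
  refine ⟨s₂, nL o i s₂, tu (nJ o i s₂), tv (nJ o i s₂), nC o i s₁, R.env, R.inf, R.le.trans hs,
    (R.bnd hs).1, h6.1, h6.2.1, h6.2.2.le.trans (R.bnd hs).2, h5.1, h5.2.1, R.blockL hs, ?_,
    R.invL hs, fun s h7 => R.valid' (by omega), fun s h7 hf => ?_⟩
  · obtain ⟨σ, a, b⟩ := h5.2.2.2.1
    exact ⟨_, z_pa (lev_tr a), b⟩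
  · have h8 := h s (by omega) hf
    obtain ⟨-, -, -, a, b, c⟩ := R.step (by omega) hf
    have h9 := (Run.live' (o := o) (i := i) (s := s) (by omega)).2.2.1
    rw [if_neg (by omega)] at b c
    rw [(h3 s h7).1, (h3 s h7).2] at h9 b
    rw [(h3 s h7).2] at c ⊢
    exact ⟨h8, c, b, R.code (by omega), rfl, rfl, a, h9⟩

namespace Stuck

variable {o : B} {i r s₂ c : ℕ} {l u v : List Bool} (S : Stuck o i r s₂ l u v c)
include S

theorem om : Om (spo o) v :=
  S.env.om S.inf (s₀ := s₂) fun s hs hf => ⟨(S.md s hs hf).1, by rw [(S.md s hs hf).2.1]⟩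

theorem per_loop (h : ∀ s₀, ∃ s, s₀ ≤ s ∧ fire o i s = true ∧ nmd o i s = 4) {f : X}
    (hf : f ∈ Ico (z l) (z v)) : PerP (Tr (spo o)) f := by
  refine S.env.dn_mid S.bl S.bv (fun s₀ => ?_) hf
  obtain ⟨s, h1, h2, h3⟩ := h (s₀ + s₂)
  obtain ⟨-, a, b, -⟩ := S.md s (by omega) h2
  exact ⟨s, by omega, h2, by rw [b, if_pos h3], by rw [a]⟩

theorem good_loop (h : ∀ s₀, ∃ s, s₀ ≤ s ∧ fire o i s = true ∧ nmd o i s = 4) :
    Good (Tr (spo o)) := good_G (spo_one o) S.blk (fun _ => S.per_loop h) S.om S.bv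

theorem per_gap {f : X} (hf : f ∈ Ico (z u) (z v)) : PerP (Tr (spo o)) f := by
  refine S.env.dn_mid (S.bl.trans S.lu.le) S.bv (fun s₀ => ?_) hf
  obtain ⟨s, h1, h2⟩ := S.inf (s₀ + s₂)
  obtain ⟨-, a, b, -⟩ := S.md s (by omega) h2
  refine ⟨s, by omega, h2, ?_, by rw [a]⟩
  rw [b]
  split_ifs
  · exact S.lu.le
  · exact le_rfl

theorem fr_u {s₃ : ℕ} (h3 : s₂ ≤ s₃) (h : ∀ s, s₃ ≤ s → fire o i s = true → nmd o i s ≠ 4) :
    Fr (spo o) s₃ (Iio (z u)) :=
  S.env.fr (S.le.trans h3) (fun _ hf => lt_trans hf (S.uv.trans (S.bv.trans_lt (z_one_lt (by omega)))))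
    fun s hs hf _ h1 _ h2 => by
      rw [(S.md s (by omega) hf).2.2.1, if_neg (h s hs hf)] at h2
      exact not_le.2 h1 h2.1

theorem good_end {s₃ : ℕ} (h3 : s₂ ≤ s₃) (h : ∀ s, s₃ ≤ s → fire o i s = true → nmd o i s ≠ 4) :
    Good (Tr (spo o)) :=
  good_G (spo_one o) (block_Iio (spo_one o) (S.fr_u h3 h) (S.lenu.trans h3)
    ((z_one_le (by omega)).trans (S.bl.trans S.lu.le))) (fun _ => S.per_gap) S.om S.bv

theorem fr_v : Fr (spo o) s₂ (Ico (z v) (z (one (4 * r + 4 + 4)))) :=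
  S.env.fr S.le (fun _ hf => hf.2) fun s hs hf _ h1 _ h2 => by
    rw [(S.md s hs hf).2.1] at h2
    exact not_le.2 h2.2 h1.1

end Stuck

end Pool.Agent.Lib.MP_d69888_lc.Yes
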