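import Pool.Agent.Lib.MP_d69888_lc.Seg

/-!
Trees grown level by level from a splitting rule; frozen and densified sets of paths.
-/

namespace Pool.Agent.Lib.MP_d69888_lc.Yes

open Set

/-- Binary sequences with the lexicographic order. -/
def X : Type := ℕ → Bool

noncomputable instance : LinearOrder X := inferInstanceAs (LinearOrder (Lex (ℕ → Bool)))

theorem X.lt_iff {f g : X} :
    f < g ↔ ∃ i, (∀ j, j < i → f j = g j) ∧ f i = false ∧ g i = true := by
  change (∃ i, (∀ j, j < i → f j = g j) ∧ f i < g i) ↔ _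
  refine exists_congr fun i => and_congr Iff.rfl ?_
  cases f i <;> cases g i <;> simp

/-- The string followed by zeros, as a point of `X`. -/
def z (σ : List Bool) : X := ext0 σ

theorem seg_z (σ : List Bool) : seg (z σ) σ.length = σ := seg_ext0 σ

theorem z_ge (σ : List Bool) {n : ℕ} (h : σ.length ≤ n) : z σ n = false := ext0_ge σ h

theorem z_nil_le (f : X) : z [] ≤ f := by
  by_contra h
  obtain ⟨i, -, -, h⟩ := X.lt_iff.1 (not_le.1 h)
  rw [z_ge [] (Nat.zero_le _)] at h
  exact absurd h (by simp)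

theorem seg_le {f g : ℕ → Bool} {m n : ℕ} (h : seg f n = seg g n) (hm : m ≤ n) :
    seg f m = seg g m := seg_eq_iff.2 fun i hi => seg_eq_iff.1 h i (by omega)

theorem seg_z_seg (f : ℕ → Bool) (n : ℕ) : seg (z (seg f n)) n = seg f n := by
  have := seg_z (seg f n)
  rwa [seg_length] at this

theorem z_seg_le (f : X) (n : ℕ) : z (seg f n) ≤ f := by
  by_contra h
  obtain ⟨i, -, h1, h2⟩ := X.lt_iff.1 (not_le.1 h)
  by_cases hi : i < n
  · rw [seg_eq_iff.1 (seg_z_seg f n) i hi, h1] at h2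
    exact absurd h2 (by simp)
  · rw [z_ge _ (by simpa using hi)] at h2
    exact absurd h2 (by simp)

theorem lt_z_seg {f g : X} (h : f < g) : ∃ m, ∀ n, m ≤ n → f < z (seg g n) := by
  obtain ⟨i, h1, h2, h3⟩ := X.lt_iff.1 h
  refine ⟨i + 1, fun n hn => X.lt_iff.2 ⟨i, fun j hj => ?_, h2, ?_⟩⟩
  · rw [seg_eq_iff.1 (seg_z_seg g n) j (by omega)]; exact h1 j hj
  · rw [seg_eq_iff.1 (seg_z_seg g n) i (by omega)]; exact h3

/-- Membership in `S` depends only on the first `m` values. -/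
def Det (m : ℕ) (S : Set X) : Prop := ∀ f g : X, seg f m = seg g m → f ∈ S → g ∈ S

theorem Det.mono {m n : ℕ} {S : Set X} (h : Det m S) (hm : m ≤ n) : Det n S :=
  fun f g e => h f g (seg_le e hm)

theorem Det.compl {m : ℕ} {S : Set X} (h : Det m S) : Det m Sᶜ :=
  fun f g e hf hg => hf (h g f e.symm hg)

theorem Det.inter {m : ℕ} {S U : Set X} (h : Det m S) (h' : Det m U) : Det m (S ∩ U) :=
  fun f g e hf => ⟨h f g e hf.1, h' f g e hf.2⟩

theorem det_Iio {c : List Bool} {m : ℕ} (h : c.length ≤ m) : Det m (Iio (z c)) := by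
  intro f g e hf
  obtain ⟨i, h1, h2, h3⟩ := X.lt_iff.1 hf
  have hi : i < m := by
    by_contra hi
    rw [z_ge c (by omega)] at h3
    exact absurd h3 (by simp)
  exact X.lt_iff.2 ⟨i, fun j hj => by rw [← seg_eq_iff.1 e j (by omega)]; exact h1 j hj,
    by rw [← seg_eq_iff.1 e i hi]; exact h2, h3⟩

theorem det_Ici {c : List Bool} {m : ℕ} (h : c.length ≤ m) : Det m (Ici (z c)) := by
  rw [← compl_Iio]; exact (det_Iio h).compl

theorem det_Ico {c d : List Bool} {m : ℕ} (h : c.length ≤ m) (h' : d.length ≤ m) :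
    Det m (Ico (z c) (z d)) := by
  rw [← Ici_inter_Iio]; exact (det_Ici h).inter (det_Iio h')

theorem Det.z_seg {m n : ℕ} {S : Set X} (h : Det m S) (hm : m ≤ n) (f : X) :
    z (seg f n) ∈ S ↔ f ∈ S :=
  ⟨h.mono hm _ _ (seg_z_seg f n), h.mono hm _ _ (seg_z_seg f n).symm⟩

theorem seg_z_append (σ τ : List Bool) : seg (z (σ ++ τ)) σ.length = σ := by
  have h : σ <+: seg (z (σ ++ τ)) (σ ++ τ).length := by rw [seg_z]; exact List.prefix_append _ _
  exact (pre_seg h).symm

theorem Det.z_append {m : ℕ} {S : Set X} (h : Det m S) {σ : List Bool} (hm : m ≤ σ.length)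
    (τ : List Bool) : z (σ ++ τ) ∈ S ↔ z σ ∈ S := by
  have e : seg (z (σ ++ τ)) σ.length = seg (z σ) σ.length := by rw [seg_z_append, seg_z]
  exact ⟨h.mono hm _ _ e, h.mono hm _ _ e.symm⟩

/-- The string of `n` ones. -/
def one (n : ℕ) : List Bool := List.replicate n true

@[simp] theorem one_length (n : ℕ) : (one n).length = n := by simp [one]

theorem z_one (n i : ℕ) : z (one n) i = decide (i < n) := by
  by_cases h : i < n
  · simp [z, ext0, one, h]
  · rw [z_ge _ (by simpa using h)]; simp [h]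

theorem z_one_lt {m n : ℕ} (h : m < n) : z (one m) < z (one n) :=
  X.lt_iff.2 ⟨m, fun j hj => by rw [z_one, z_one]; simp [hj, hj.trans h],
    by simp [z_one], by simp [z_one, h]⟩

theorem z_one_le {m n : ℕ} (h : m ≤ n) : z (one m) ≤ z (one n) :=
  h.eq_or_lt.elim (fun e => by rw [e]) fun e => (z_one_lt e).le

/-- The constant sequence of ones. -/
def top : X := fun _ => true

theorem seg_top (n : ℕ) : seg top n = one n := by simp [seg, top, one]

theorem lt_one_of_ne {f : X} (h : f ≠ top) : ∃ m, ∀ n, m ≤ n → f < z (one n) := by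
  have h1 : f < top := by
    rcases lt_trichotomy f top with h1 | h1 | h1
    · exact h1
    · exact absurd h1 h
    · obtain ⟨i, -, h2, -⟩ := X.lt_iff.1 h1
      exact absurd h2 (by simp [top])
  obtain ⟨m, hm⟩ := lt_z_seg h1
  exact ⟨m, fun n hn => by rw [← seg_top]; exact hm n hn⟩

/-- The nodes of length `s`; the node `σ` of length `s` gets two children when `sp s σ`. -/
def Lev (sp : ℕ → List Bool → Bool) : ℕ → List (List Bool)
  | 0 => [[]]
  | s + 1 => (Lev sp s).flatMap fun σ =>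
      cond (sp s σ) [σ ++ [false], σ ++ [true]] [σ ++ [false]]

def Tr (sp : ℕ → List Bool → Bool) : Set (List Bool) := {σ | σ ∈ Lev sp σ.length}

/-- The paths of a tree. -/
def Pa (T : Set (List Bool)) : Set X := {f | IsPath T f}

/-- An isolated path. -/
def IsoP (T : Set (List Bool)) (f : X) : Prop := ∃ n, Cone T (seg f n) = {f}

/-- A path through a node with a perfect set of paths. -/
def PerP (T : Set (List Bool)) (f : X) : Prop := ∃ n, Perfect (Cone T (seg f n))

variable {sp : ℕ → List Bool → Bool}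

theorem mem_lev_succ {s : ℕ} {τ : List Bool} : τ ∈ Lev sp (s + 1) ↔
    ∃ σ b, σ ∈ Lev sp s ∧ (b = false ∨ sp s σ = true) ∧ τ = σ ++ [b] := by
  simp only [Lev, List.mem_flatMap]
  constructor
  · rintro ⟨σ, h1, h2⟩
    cases h : sp s σ <;> rw [h] at h2 <;> simp at h2
    · exact ⟨σ, false, h1, Or.inl rfl, h2⟩
    · rcases h2 with h2 | h2
      · exact ⟨σ, false, h1, Or.inl rfl, h2⟩
      · exact ⟨σ, true, h1, Or.inr h, h2⟩
  · rintro ⟨σ, b, h1, h2, rfl⟩
    refine ⟨σ, h1, ?_⟩
    cases h : sp s σ <;> cases b <;> simp_all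

theorem lev_length {s : ℕ} {σ : List Bool} (h : σ ∈ Lev sp s) : σ.length = s := by
  induction s generalizing σ with
  | zero => simp [Lev] at h; simp [h]
  | succ s ih =>
    obtain ⟨τ, b, h1, -, rfl⟩ := mem_lev_succ.1 h
    simp [ih h1]

theorem lev_tr {s : ℕ} {σ : List Bool} (h : σ ∈ Lev sp s) : σ ∈ Tr sp := by
  change σ ∈ Lev sp σ.length
  rwa [lev_length h]

theorem snoc_mem {σ : List Bool} {b : Bool} :
    σ ++ [b] ∈ Tr sp ↔ σ ∈ Tr sp ∧ (b = false ∨ sp σ.length σ = true) := by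
  change σ ++ [b] ∈ Lev sp (σ ++ [b]).length ↔ _
  rw [List.length_append, List.length_singleton, mem_lev_succ]
  constructor
  · rintro ⟨τ, b', h1, h2, h3⟩
    obtain ⟨rfl, h4⟩ := List.append_inj' h3 rfl
    obtain rfl : b = b' := by simpa using h4
    exact ⟨h1, h2⟩
  · rintro ⟨h1, h2⟩
    exact ⟨σ, b, h1, h2, rfl⟩

theorem tr_zero (σ : List Bool) (h : σ ∈ Tr sp) : σ ++ [false] ∈ Tr sp :=
  snoc_mem.2 ⟨h, Or.inl rfl⟩

theorem tr_tree : IsTree (Tr sp) := by
  refine ⟨fun σ τ hτ h => ?_, by simp [Tr, Lev], fun σ h => Or.inl (tr_zero σ h)⟩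
  obtain ⟨ρ, rfl⟩ := h
  induction ρ using List.reverseRecOn with
  | nil => simpa using hτ
  | append_singleton ρ b ih =>
    rw [← List.append_assoc] at hτ
    exact ih (snoc_mem.1 hτ).1

theorem pa_lev {f : X} (h : f ∈ Pa (Tr sp)) (s : ℕ) : seg f s ∈ Lev sp s := by
  have := h s
  change _ ∈ Lev sp (seg f s).length at this
  rwa [seg_length] at this

theorem pa_split {f : X} (h : f ∈ Pa (Tr sp)) {s : ℕ} (hs : f s = true) :
    sp s (seg f s) = true := by
  have := h (s + 1)
  rw [seg_succ, snoc_mem, seg_length, hs] at this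
  simpa using this.2

theorem z_pa {σ : List Bool} (h : σ ∈ Tr sp) : z σ ∈ Pa (Tr sp) := ext0_path tr_tree tr_zero h

theorem not_iso_of {T : Set (List Bool)} {f : X}
    (h : ∀ t, ∃ g : X, g ∈ Pa T ∧ seg g t = seg f t ∧ g ≠ f) : ¬ IsoP T f := by
  rintro ⟨n, hn⟩
  obtain ⟨g, h1, h2, h3⟩ := h n
  have : g ∈ Cone T (seg f n) := ⟨h1, by rw [seg_length]; exact h2⟩
  rw [hn] at this
  exact h3 this

theorem split_other {f : X} (hf : f ∈ Pa (Tr sp)) {s : ℕ} (h : sp s (seg f s) = true) :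
    ∃ g : X, g ∈ Pa (Tr sp) ∧ seg g s = seg f s ∧ g ≠ f := by
  have h1 : seg f s ++ [!f s] ∈ Tr sp := snoc_mem.2 ⟨hf s, Or.inr (by rwa [seg_length])⟩
  refine ⟨z _, z_pa h1, ?_, fun e => ?_⟩
  · have := seg_z_append (seg f s) [!f s]
    rwa [seg_length] at this
  · have h2 := seg_z (seg f s ++ [!f s])
    rw [e, List.length_append, seg_length, List.length_singleton, seg_succ] at h2
    have := List.append_cancel_left h2
    simp at this

theorem inf_split {f : X} (hf : f ∈ Pa (Tr sp)) (h : ∀ t, ∃ s, t ≤ s ∧ sp s (seg f s) = true)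
    (t : ℕ) : ∃ g : X, g ∈ Pa (Tr sp) ∧ seg g t = seg f t ∧ g ≠ f := by
  obtain ⟨s, hs, h1⟩ := h t
  obtain ⟨g, h2, h3, h4⟩ := split_other hf h1
  exact ⟨g, h2, seg_le h3 hs, h4⟩

open Classical in
/-- The number of nodes of length `s` in `S`. -/
noncomputable def num (sp : ℕ → List Bool → Bool) (s : ℕ) (S : Set X) : ℕ :=
  (Lev sp s).countP fun σ => decide (z σ ∈ S)

open Classical in
theorem num_succ {m s : ℕ} {S : Set X} (hS : Det m S) (hm : m ≤ s) :
    num sp (s + 1) S =
      num sp s S + (Lev sp s).countP fun σ => decide (z σ ∈ S) && sp s σ := by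
  have key : ∀ l : List (List Bool), (∀ σ ∈ l, σ.length = s) →
      (l.flatMap fun σ => cond (sp s σ) [σ ++ [false], σ ++ [true]] [σ ++ [false]]).countP
        (fun σ => decide (z σ ∈ S)) = l.countP (fun σ => decide (z σ ∈ S)) +
        l.countP fun σ => decide (z σ ∈ S) && sp s σ := by
    intro l hl
    induction l with
    | nil => rfl
    | cons σ l ih =>
      have h1 : m ≤ σ.length := by rw [hl σ (by simp)]; exact hm
      rw [List.flatMap_cons, List.countP_append, ih fun τ h => hl τ (by simp [h]),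
        List.countP_cons, List.countP_cons]
      by_cases h2 : z σ ∈ S <;> cases h3 : sp s σ <;>
        simp [hS.z_append h1, h2] <;> omega
  exact key _ fun σ h => lev_length h

theorem num_le_succ {m s : ℕ} {S : Set X} (hS : Det m S) (hm : m ≤ s) :
    num sp s S ≤ num sp (s + 1) S := by rw [num_succ hS hm]; omega

theorem num_succ_le {m s : ℕ} {S : Set X} (hS : Det m S) (hm : m ≤ s) :
    num sp (s + 1) S ≤ 2 * num sp s S := by
  classical
  rw [num_succ hS hm, two_mul]
  refine Nat.add_le_add_left (List.countP_mono_left fun σ _ h => ?_) _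
  simp only [Bool.and_eq_true] at h
  exact h.1

theorem num_succ_eq {m s : ℕ} {S : Set X} (hS : Det m S) (hm : m ≤ s)
    (h : ∀ σ ∈ Lev sp s, z σ ∈ S → sp s σ = false) : num sp (s + 1) S = num sp s S := by
  classical
  rw [num_succ hS hm, Nat.add_eq_left, List.countP_eq_zero]
  intro σ hσ h1
  simp only [Bool.and_eq_true, decide_eq_true_eq] at h1
  rw [h σ hσ h1.1] at h1
  exact absurd h1.2 (by simp)

theorem num_lt_succ {m s : ℕ} {S : Set X} (hS : Det m S) (hm : m ≤ s) {σ : List Bool}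
    (h1 : σ ∈ Lev sp s) (h2 : z σ ∈ S) (h3 : sp s σ = true) : num sp s S < num sp (s + 1) S := by
  classical
  rw [num_succ hS hm, Nat.lt_add_right_iff_pos, List.countP_pos_iff]
  exact ⟨σ, h1, by simp [h2, h3]⟩

theorem num_pos {s : ℕ} {S : Set X} : 0 < num sp s S ↔ ∃ σ ∈ Lev sp s, z σ ∈ S := by
  classical
  simp [num, List.countP_pos_iff]

/-- No node of `S` of length at least `s` splits. -/
def Fr (sp : ℕ → List Bool → Bool) (s : ℕ) (S : Set X) : Prop :=
  ∀ t, s ≤ t → ∀ σ ∈ Lev sp t, z σ ∈ S → sp t σ = false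

/-- At infinitely many levels all nodes of `S` split. -/
def Dn (sp : ℕ → List Bool → Bool) (S : Set X) : Prop :=
  ∀ s, ∃ t, s ≤ t ∧ ∀ σ ∈ Lev sp t, z σ ∈ S → sp t σ = true

theorem Fr.mono {s t : ℕ} {S : Set X} (h : Fr sp s S) (hst : s ≤ t) : Fr sp t S :=
  fun u hu => h u (hst.trans hu)

theorem Fr.num_eq {s t : ℕ} {S : Set X} (h : Fr sp s S) (hS : Det s S) (hst : s ≤ t) :
    num sp t S = num sp s S := by
  induction t, hst using Nat.le_induction with
  | base => rfl
  | succ t ht ih => rw [num_succ_eq hS ht (h t ht), ih]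

theorem Fr.eq_z {s : ℕ} {S : Set X} (h : Fr sp s S) (hS : Det s S) {f : X}
    (hf : f ∈ Pa (Tr sp)) (hfS : f ∈ S) : f = z (seg f s) := by
  funext i
  by_cases hi : i < s
  · exact (seg_eq_iff.1 (seg_z_seg f s) i hi).symm
  · rw [z_ge _ (by simpa using hi)]
    by_contra h1
    have h2 := pa_split hf (by simpa using h1 : f i = true)
    rw [h i (by omega) _ (pa_lev hf i) ((hS.z_seg (by omega) f).2 hfS)] at h2
    exact absurd h2 (by simp)

theorem Fr.iso {s : ℕ} {S : Set X} (h : Fr sp s S) (hS : Det s S) {f : X}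
    (hf : f ∈ Pa (Tr sp)) (hfS : f ∈ S) : IsoP (Tr sp) f := by
  refine ⟨s, Set.eq_singleton_iff_unique_mem.2 ⟨⟨hf, by rw [seg_length]⟩, fun g hg => ?_⟩⟩
  have e : seg g s = seg f s := by simpa using hg.2
  have h1 := h.eq_z hS (f := g) hg.1 (hS f g e.symm hfS)
  rw [h1, e]
  exact (h.eq_z hS hf hfS).symm

theorem Fr.encard_le {s : ℕ} {S : Set X} (h : Fr sp s S) (hS : Det s S) :
    (Pa (Tr sp) ∩ S).encard ≤ num sp s S := by
  classical
  have h1 : Pa (Tr sp) ∩ S ⊆
      z '' (((Lev sp s).filter fun σ => decide (z σ ∈ S)).toFinset : Set (List Bool)) := by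
    rintro f ⟨hf, hfS⟩
    refine ⟨seg f s, ?_, (h.eq_z hS hf hfS).symm⟩
    simp only [List.coe_toFinset, List.mem_filter, decide_eq_true_eq, Set.mem_ofPred_eq]
    exact ⟨pa_lev hf s, (hS.z_seg le_rfl f).2 hfS⟩
  refine (Set.encard_le_encard h1).trans ((Set.encard_image_le _ _).trans ?_)
  rw [Set.encard_coe_eq_coe_finsetCard, num, List.countP_eq_length_filter]
  exact_mod_cast List.toFinset_card_le _

theorem Fr.finite {s : ℕ} {S : Set X} (h : Fr sp s S) (hS : Det s S) :
    (Pa (Tr sp) ∩ S).Finite := Set.finite_of_encard_le_coe (h.encard_le hS)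

theorem Dn.split {m : ℕ} {S : Set X} (h : Dn sp S) (hS : Det m S) {f : X}
    (hf : f ∈ Pa (Tr sp)) (hfS : f ∈ S) (t : ℕ) : ∃ s, t ≤ s ∧ sp s (seg f s) = true := by
  obtain ⟨s, hs, h1⟩ := h (t + m)
  exact ⟨s, by omega, h1 _ (pa_lev hf s) ((hS.z_seg (by omega) f).2 hfS)⟩

theorem Dn.per {m : ℕ} {S : Set X} (h : Dn sp S) (hS : Det m S) {f : X}
    (hfS : f ∈ S) : PerP (Tr sp) f := by
  refine ⟨m, perfect_iff.2 fun g hg t => ?_⟩
  have e : seg g m = seg f m := by simpa using hg.2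
  obtain ⟨g', h1, h2, h3⟩ := inf_split (f := g) hg.1 (h.split hS hg.1 (hS f g e.symm hfS)) (t + m)
  exact ⟨g', ⟨h1, by rw [seg_length, seg_le h2 (by omega : m ≤ t + m), e]⟩,
    seg_le h2 (by omega), h3⟩

section comb

variable (h1 : ∀ s, sp s (one s) = true)
include h1

theorem one_mem (s : ℕ) : one s ∈ Tr sp := by
  induction s with
  | zero => exact tr_tree.root
  | succ s ih =>
    have : one (s + 1) = one s ++ [true] := by simp [one, List.replicate_succ']
    rw [this, snoc_mem, one_length]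
    exact ⟨ih, Or.inr (h1 s)⟩

theorem one_pa (s : ℕ) : z (one s) ∈ Pa (Tr sp) := z_pa (one_mem h1 s)

theorem top_pa : top ∈ Pa (Tr sp) := fun s => by rw [seg_top]; exact one_mem h1 s

theorem top_not_iso : ¬ IsoP (Tr sp) top :=
  not_iso_of (inf_split (top_pa h1) fun t => ⟨t, le_rfl, by rw [seg_top]; exact h1 t⟩)

theorem three_le {S : Set X} {k : ℕ} (h : Ico (z (one k)) (z (one (k + 3))) ⊆ S) :
    3 ≤ (Pa (Tr sp) ∩ S).encard := by
  have h2 : ({z (one k), z (one (k + 1)), z (one (k + 2))} : Set X) ⊆ Pa (Tr sp) ∩ S := by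
    intro f hf
    simp only [Set.mem_insert_iff, Set.mem_singleton_iff] at hf
    rcases hf with rfl | rfl | rfl <;>
      exact ⟨one_pa h1 _, h ⟨z_one_le (by omega), z_one_lt (by omega)⟩⟩
  refine le_trans (le_of_eq ?_) (Set.encard_le_encard h2)
  symm
  rw [Set.encard_eq_three]
  exact ⟨_, _, _, (z_one_lt (by omega)).ne, (z_one_lt (by omega)).ne, (z_one_lt (by omega)).ne, rfl⟩

end comb

end Pool.Agent.Lib.MP_d69888_lc.Yes
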